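import Pool.Agent.Lib_helper73.SCL.ORD

/-!
# Block REC
-/

set_option autoImplicit false
set_option linter.unusedSectionVars false

namespace Pool.Agent.SC

open FirstOrder Pool.Agent.Lib_helper27 Pool.Agent.Lib_helper27.ST

universe u v w

variable {V : Set ZFSet.{0}} [Inner V]

theorem REC_isOrd (α : Ordinal.{0}) : ST.IsOrd (oo V α) := isOrd_iff.2 ⟨α, rfl⟩

theorem REC_mem {α : Ordinal.{0}} {y : V} : y ∈ oo V α ↔ ∃ β < α, y = oo V β := by
  constructor
  · intro h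
    obtain ⟨β, hβ, h'⟩ := Ordinal.mem_toZFSet_iff.1 (show y.1 ∈ α.toZFSet from h)
    exact ⟨β, hβ, Subtype.ext h'.symm⟩
  · rintro ⟨β, hβ, rfl⟩
    exact oo_mem.2 hβ

theorem REC_main {H : V → V → V} (hH : Dbl V (fun z : V × V => H z.1 z.2)) :
    ∃ F : V → V, Dbl V F ∧ ∀ α : Ordinal.{0}, ∃ g : V,
      (∀ z : V, z ∈ g ↔ ∃ β < α, z = ST.opair (oo V β) (F (oo V β))) ∧
      (∀ β < α, ST.fapp g (oo V β) = F (oo V β)) ∧ F (oo V α) = H (oo V α) g := by
  have hD := recData_ord hH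
  refine ⟨recF (fun y x : V => IsOrd x ∧ y ∈ x) H, hD.dbl_recF, fun α =>
    ⟨graph (recF (fun y x : V => IsOrd x ∧ y ∈ x) H)
      (preds (fun y x : V => IsOrd x ∧ y ∈ x) (oo V α)), ?_, ?_, hD.recF_spec _⟩⟩
  · intro z
    rw [mem_graph hD.dbl_recF]
    constructor
    · rintro ⟨x, hx, rfl⟩
      obtain ⟨-, h2⟩ := hD.mem_preds.1 hx
      obtain ⟨β, hβ, rfl⟩ := REC_mem.1 h2
      exact ⟨β, hβ, rfl⟩
    · rintro ⟨β, hβ, rfl⟩
      exact ⟨oo V β, hD.mem_preds.2 ⟨REC_isOrd α, REC_mem.2 ⟨β, hβ, rfl⟩⟩, rfl⟩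
  · intro β hβ
    exact fapp_graph hD.dbl_recF (hD.mem_preds.2 ⟨REC_isOrd α, REC_mem.2 ⟨β, hβ, rfl⟩⟩)

/-- Recursion on the ordinals: if `F α = H α (F ↾ α)` with `H` definable, then `F` is definable. -/
theorem rec_ord {H : V → V → V} (hH : Dbl V (fun z : V × V => H z.1 z.2))
    {F : Ordinal.{0} → ZFSet.{0}}
    (hF : ∀ (α : Ordinal.{0}) (g : V), (∀ z, z ∈ g.1 ↔ ∃ β < α, z = ZFSet.pair β.toZFSet (F β)) →
      (∀ β < α, ∃ h : F β ∈ V, ST.fapp g (oo V β) = ⟨F β, h⟩) → F α = (H (oo V α) g).1) :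
    DO V F := by
  obtain ⟨F', hF', hspec⟩ := REC_main hH
  have key : ∀ α : Ordinal.{0}, (F' (oo V α)).1 = F α := by
    intro α
    induction α using WellFoundedLT.induction with
    | ind α ih =>
      obtain ⟨g, h1, h2, h3⟩ := hspec α
      rw [h3]
      refine (hF α g ?_ ?_).symm
      · intro z
        constructor
        · intro hz
          obtain ⟨β, hβ, h⟩ := (h1 ⟨z, Inner.trans g.1 g.2 z hz⟩).1 hz
          refine ⟨β, hβ, ?_⟩
          have h' := congrArg Subtype.val h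
          rw [val_opair, ih β hβ] at h'
          exact h'
        · rintro ⟨β, hβ, rfl⟩
          have h := (h1 _).2 ⟨β, hβ, rfl⟩
          have h' : (ST.opair (oo V β) (F' (oo V β))).1 ∈ g.1 := h
          rw [val_opair, ih β hβ] at h'
          exact h'
      · intro β hβ
        refine ⟨ih β hβ ▸ (F' (oo V β)).2, ?_⟩
        rw [h2 β hβ]
        exact Subtype.ext (ih β hβ)
  refine ⟨fun α => key α ▸ (F' (oo V α)).2, ?_⟩
  have h1 : Dbl V (fun x : V => F' (oo V (rk x))) :=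
    Dbl.comp (f := fun x : V => oo V (rk x)) (g := F') (dbl_oo (dbl_rk Dbl.id)) hF'
  have h2 : (fun x : V => F' (oo V (rk x))) =
      (fun x : V => (⟨F (rk x), key (rk x) ▸ (F' (oo V (rk x))).2⟩ : V)) := by
    funext x
    exact Subtype.ext (key (rk x))
  rw [h2] at h1
  exact h1

/-- Recursion on the ordinals, for ordinal-valued functions: `F α = H α (F ↾ α)`. -/
theorem rec_ord' {H : V → V → Ordinal.{0}} (hH : Dbl V (fun z : V × V => H z.1 z.2))
    {F : Ordinal.{0} → Ordinal.{0}}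
    (hF : ∀ (α : Ordinal.{0}) (g : V),
      (∀ β < α, ST.fapp g (oo V β) = oo V (F β)) → F α = H (oo V α) g) :
    Dbl V (fun x : V => F (rk x)) := by
  obtain ⟨F', hF', hspec⟩ := REC_main (H := fun x g => oo V (H x g)) (dbl_ord_iff.1 hH)
  have key : ∀ α : Ordinal.{0}, F' (oo V α) = oo V (F α) := by
    intro α
    induction α using WellFoundedLT.induction with
    | ind α ih =>
      obtain ⟨g, h1, h2, h3⟩ := hspec α
      rw [h3]
      refine congrArg (oo V) (hF α g ?_).symm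
      intro β hβ
      rw [h2 β hβ, ih β hβ]
  rw [dbl_ord_iff]
  have h1 : Dbl V (fun x : V => F' (oo V (rk x))) :=
    Dbl.comp (f := fun x : V => oo V (rk x)) (g := F') (dbl_oo (dbl_rk Dbl.id)) hF'
  have h2 : (fun x : V => F' (oo V (rk x))) = (fun x : V => oo V (F (rk x))) := by
    funext x
    exact key (rk x)
  rw [h2] at h1
  exact h1

end Pool.Agent.SC
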