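import Pool.Agent.Lib_helper73.SCL.ENB
import Pool.Agent.Lib_helper73.SCL.REC

/-!
# Block ABS: Gödel's enumeration is definable in inner models
-/

set_option linter.unusedSectionVars false
set_option linter.unusedVariables false

namespace Pool.Agent.SC

open FirstOrder Pool.Agent.Lib_helper27 Pool.Agent.Lib_helper27.ST

universe u v w

variable {A : Set ZFSet.{0}}

section

variable {V : Set ZFSet.{0}} [Inner V] {Γ : Type v} [Ctx V Γ]

theorem ABS_mem_oo {α : Ordinal.{0}} {z : V} : z ∈ oo V α ↔ ∃ β < α, z = oo V β := by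
  show z.1 ∈ α.toZFSet ↔ _
  rw [Ordinal.mem_toZFSet_iff]
  constructor
  · rintro ⟨a, ha, h⟩
    exact ⟨a, ha, Subtype.ext h.symm⟩
  · rintro ⟨β, hβ, rfl⟩
    exact ⟨β, hβ, rfl⟩

theorem ABS_plt_iff {a b c d : Ordinal.{0}} : plt (a, b) (c, d) ↔
    ((a < c ∨ a < d) ∧ (b < c ∨ b < d)) ∨
    ((¬ ((a < c ∨ a < d) ∧ (b < c ∨ b < d)) ∧ ¬ ((c < a ∨ c < b) ∧ (d < a ∨ d < b))) ∧
      (a < c ∨ (a = c ∧ b < d))) := by
  have h : ∀ x y z w : Ordinal.{0}, max x y < max z w ↔ (x < z ∨ x < w) ∧ (y < z ∨ y < w) := by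
    intro x y z w
    rw [max_lt_iff, lt_max_iff, lt_max_iff]
  have h2 : max a b = max c d ↔ ¬ (max a b < max c d) ∧ ¬ (max c d < max a b) := by
    constructor
    · intro h3
      rw [h3]
      exact ⟨lt_irrefl _, lt_irrefl _⟩
    · rintro ⟨h3, h4⟩
      exact le_antisymm (not_lt.1 h4) (not_lt.1 h3)
  unfold plt
  rw [h2, h, h]

theorem ABS_dbl_plt {a b c d : Γ → Ordinal.{0}} (ha : Dbl V a) (hb : Dbl V b) (hc : Dbl V c)
    (hd : Dbl V d) : Dbl V (fun γ => plt (a γ, b γ) (c γ, d γ)) := by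
  simp only [ABS_plt_iff]
  fun_prop

/-- the step of the recursion defining `dd` -/
noncomputable def ABS_H (x g : V) : V :=
  ST.iota (fun y => ∃ a b : V, y = ST.opair (oo V (rk a)) (oo V (rk b)) ∧
    (∀ z, z ∈ x → ¬ ST.fapp g z = y) ∧
    ∀ c d : V, plt (rk c, rk d) (rk a, rk b) →
      ∃ z, z ∈ x ∧ ST.fapp g z = ST.opair (oo V (rk c)) (oo V (rk d)))

theorem ABS_dbl_H : Dbl V (fun z : V × V => ABS_H z.1 z.2) := by
  unfold ABS_H
  refine ST.dbl_iota ?_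
  have h : Dbl V (fun z : (((((V × V) × V) × V) × V) × V) × V =>
      plt (rk z.1.2, rk z.2) (rk z.1.1.1.2, rk z.1.1.2)) :=
    ABS_dbl_plt (by fun_prop) (by fun_prop) (by fun_prop) (by fun_prop)
  fun_prop

/-- the pair `dd η` as a set -/
noncomputable def ABS_F (η : Ordinal.{0}) : ZFSet.{0} :=
  ZFSet.pair (dd η).1.toZFSet (dd η).2.toZFSet

theorem ABS_F_eq (η : Ordinal.{0}) (h : ABS_F η ∈ V) :
    (⟨ABS_F η, h⟩ : V) = ST.opair (oo V (dd η).1) (oo V (dd η).2) := by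
  apply Subtype.ext
  rw [val_opair]
  rfl

theorem ABS_F_do : DO V ABS_F := by
  refine rec_ord ABS_dbl_H ?_
  intro α g _ hg
  have hF : ∀ β, ABS_F β ∈ V := by
    intro β
    have h := (ST.opair (oo V (dd β).1) (oo V (dd β).2)).2
    rw [val_opair] at h
    exact h
  have hg' : ∀ β < α, ST.fapp g (oo V β) = ST.opair (oo V (dd β).1) (oo V (dd β).2) := by
    intro β hβ
    obtain ⟨h, h1⟩ := hg β hβ
    rw [h1, ABS_F_eq]
  have key : ABS_H (oo V α) g = ST.opair (oo V (dd α).1) (oo V (dd α).2) := by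
    refine ST.iota_eq ?_ ?_
    · refine ⟨oo V (dd α).1, oo V (dd α).2, by rw [rk_oo, rk_oo], ?_, ?_⟩
      · intro z hz he
        obtain ⟨β, hβ, rfl⟩ := ABS_mem_oo.1 hz
        rw [hg' β hβ, ST.opair_inj, oo_inj, oo_inj] at he
        exact (dd_spec α).1 β hβ (Prod.ext he.1 he.2)
      · intro c d hcd
        rw [rk_oo, rk_oo] at hcd
        obtain ⟨ξ, hξ, h⟩ := (dd_spec α).2 (rk c, rk d) hcd
        refine ⟨oo V ξ, ABS_mem_oo.2 ⟨ξ, hξ, rfl⟩, ?_⟩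
        rw [hg' ξ hξ, h]
    · rintro y ⟨a, b, rfl, h1, h2⟩
      have h3 : ((rk a, rk b) : Ordinal.{0} × Ordinal.{0}) = dd α := by
        refine dd_unique ?_ ?_
        · intro ξ hξ he
          refine h1 (oo V ξ) (ABS_mem_oo.2 ⟨ξ, hξ, rfl⟩) ?_
          rw [hg' ξ hξ, he]
        · rintro ⟨c, d⟩ hq
          obtain ⟨z, hz, he⟩ := h2 (oo V c) (oo V d) (by rw [rk_oo, rk_oo]; exact hq)
          obtain ⟨ξ, hξ, rfl⟩ := ABS_mem_oo.1 hz
          rw [hg' ξ hξ, rk_oo, rk_oo, ST.opair_inj, oo_inj, oo_inj] at he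
          exact ⟨ξ, hξ, Prod.ext he.1 he.2⟩
      rw [← h3]
  rw [key, ← ABS_F_eq α (hF α)]

end

/-- `dd` is definable in every inner model -/
theorem dd_dbl {V : Set ZFSet.{0}} [Inner V] :
    Dbl V (fun x : V => (dd (rk x)).1) ∧ Dbl V (fun x : V => (dd (rk x)).2) := by
  obtain ⟨h, hF⟩ := ABS_F_do (V := V)
  constructor
  · have h1 : (fun x : V => (dd (rk x)).1) =
        fun x : V => rk (ST.fstp (⟨ABS_F (rk x), h _⟩ : V)) := by
      funext x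
      rw [ABS_F_eq, ST.fstp_opair, rk_oo]
    rw [h1]
    fun_prop
  · have h1 : (fun x : V => (dd (rk x)).2) =
        fun x : V => rk (ST.sndp (⟨ABS_F (rk x), h _⟩ : V)) := by
      funext x
      rw [ABS_F_eq, ST.sndp_opair, rk_oo]
    rw [h1]
    fun_prop

theorem codes_dbl {V : Set ZFSet.{0}} [Inner V] : Dbl V (fun x : V => kk (rk x)) ∧
    Dbl V (fun x : V => xx (rk x)) ∧ Dbl V (fun x : V => yy (rk x)) := by
  obtain ⟨h1, h2⟩ := dd_dbl (V := V)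
  exact ⟨dbl_app' (F := fun η => (dd η).1) h1 h1, dbl_app' (F := fun η => (dd η).2) h2 h1,
    dbl_app' (F := fun η => (dd η).1) h1 h2⟩

section

variable {V : Set ZFSet.{0}} [Inner V] {Γ : Type v} [Ctx V Γ]

@[fun_prop]
theorem ABS_kk {a : Γ → Ordinal.{0}} (ha : Dbl V a) : Dbl V (fun γ => kk (a γ)) :=
  dbl_app' (F := fun η => kk η) codes_dbl.1 ha

@[fun_prop]
theorem ABS_xx {a : Γ → Ordinal.{0}} (ha : Dbl V a) : Dbl V (fun γ => xx (a γ)) :=
  dbl_app' (F := fun η => xx η) codes_dbl.2.1 ha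

@[fun_prop]
theorem ABS_yy {a : Γ → Ordinal.{0}} (ha : Dbl V a) : Dbl V (fun γ => yy (a γ)) :=
  dbl_app' (F := fun η => yy η) codes_dbl.2.2 ha

/-- the predicate `CPred` in `V` -/
def ABS_C (A : Set ZFSet.{0}) (η : Ordinal.{0}) (g z : V) : Prop :=
  xx η < η ∧ yy η < η ∧
    ((kk η = 0 ∧ ∃ ι : V, rk ι < xx η ∧ z = ST.fapp g (oo V (rk ι))) ∨
    (kk η = 1 ∧ (z = ST.fapp g (oo V (xx η)) ∨ z = ST.fapp g (oo V (yy η)))) ∨
    (kk η = 2 ∧ z ∈ ST.fapp g (oo V (xx η)) ∧ ¬ z ∈ ST.fapp g (oo V (yy η))) ∨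
    (kk η = 3 ∧ ∃ a, a ∈ ST.fapp g (oo V (xx η)) ∧ ∃ b, b ∈ ST.fapp g (oo V (yy η)) ∧
      z = ST.opair a b) ∨
    (kk η = 4 ∧ ∃ u, ST.opair u z ∈ ST.fapp g (oo V (xx η))) ∨
    (kk η = 5 ∧ ∃ a t, ST.opair a t ∈ ST.fapp g (oo V (xx η)) ∧
      z = ST.opair a (ST.opair a t)) ∨
    (kk η = 6 ∧ ∃ a t b, b ∈ ST.fapp g (oo V (xx η)) ∧
      ST.opair a t ∈ ST.fapp g (oo V (yy η)) ∧ z = ST.opair a (ST.opair b t)) ∨
    (kk η = 7 ∧ ∃ b t a : V, a ∈ b ∧ ST.opair b t ∈ ST.fapp g (oo V (xx η)) ∧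
      z = ST.opair b (ST.opair a t)) ∨
    (kk η = 8 ∧ z ∈ ST.fapp g (oo V (xx η)) ∧ z.1 ∈ A) ∨
    (kk η = 9 ∧ ∃ ι ι' : V, rk ι < rk ι' ∧ rk ι' < xx η ∧
      (∀ j : V, rk j < rk ι' → ¬ ST.fapp g (oo V (rk j)) = ST.fapp g (oo V (rk ι'))) ∧
      z = ST.opair (ST.fapp g (oo V (rk ι))) (ST.fapp g (oo V (rk ι')))) ∨
    (kk η = 10 ∧ ∃ u, ST.opair z u ∈ ST.fapp g (oo V (xx η))))

theorem ABS_dbl_C (hA : Dbl V (fun x : V => x.1 ∈ A)) {a : Γ → Ordinal.{0}} {g z : Γ → V}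
    (ha : Dbl V a) (hg : Dbl V g) (hz : Dbl V z) : Dbl V (fun γ => ABS_C A (a γ) (g γ) (z γ)) := by
  have h8 : Dbl V (fun γ => (z γ).1 ∈ A) :=
    Dbl.comp (f := z) (g := fun x : V => x.1 ∈ A) hz hA
  unfold ABS_C
  fun_prop

theorem ABS_trans {x : V} {z : ZFSet.{0}} (h : z ∈ x.1) : z ∈ V := Inner.trans x.1 x.2 z h

theorem ABS_pair {x : V} {a b : ZFSet.{0}} (h : ZFSet.pair a b ∈ x.1) : a ∈ V ∧ b ∈ V :=
  pair_mem_iff.1 (ABS_trans h)

theorem ABS_C_iff {η : Ordinal.{0}} {g z : V}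
    (hg : ∀ β < η, ∃ h : en A β ∈ V, ST.fapp g (oo V β) = ⟨en A β, h⟩) :
    ABS_C A η g z ↔ CPred A η (en A) z.1 := by
  have hval : ∀ β < η, (ST.fapp g (oo V β)).1 = en A β := by
    intro β hβ
    obtain ⟨h, h1⟩ := hg β hβ
    rw [h1]
  unfold ABS_C CPred
  refine and_congr_right fun hx => and_congr_right fun hy => ?_
  have hX : ∀ w : V, w ∈ ST.fapp g (oo V (xx η)) ↔ w.1 ∈ en A (xx η) := by
    intro w
    rw [mem_def', hval _ hx]
  have hY : ∀ w : V, w ∈ ST.fapp g (oo V (yy η)) ↔ w.1 ∈ en A (yy η) := by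
    intro w
    rw [mem_def', hval _ hy]
  have hX' : ∀ w, w ∈ en A (xx η) → w ∈ V := by
    intro w hw
    rw [← hval _ hx] at hw
    exact ABS_trans hw
  have hY' : ∀ w, w ∈ en A (yy η) → w ∈ V := by
    intro w hw
    rw [← hval _ hy] at hw
    exact ABS_trans hw
  have hXp : ∀ a b, ZFSet.pair a b ∈ en A (xx η) → a ∈ V ∧ b ∈ V := fun a b h =>
    pair_mem_iff.1 (hX' _ h)
  have hYp : ∀ a b, ZFSet.pair a b ∈ en A (yy η) → a ∈ V ∧ b ∈ V := fun a b h =>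
    pair_mem_iff.1 (hY' _ h)
  have heq : ∀ w v : V, w = v ↔ w.1 = v.1 := fun w v => Subtype.ext_iff
  refine or_congr (and_congr_right fun _ => ?_) (or_congr (and_congr_right fun _ => ?_)
    (or_congr (and_congr_right fun _ => ?_) (or_congr (and_congr_right fun _ => ?_)
    (or_congr (and_congr_right fun _ => ?_) (or_congr (and_congr_right fun _ => ?_)
    (or_congr (and_congr_right fun _ => ?_) (or_congr (and_congr_right fun _ => ?_)
    (or_congr (and_congr_right fun _ => ?_) (or_congr (and_congr_right fun _ => ?_)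
    (and_congr_right fun _ => ?_))))))))))
  · constructor
    · rintro ⟨ι, h1, rfl⟩
      exact ⟨rk ι, h1, hval _ (h1.trans hx)⟩
    · rintro ⟨ι, h1, h2⟩
      refine ⟨oo V ι, by rw [rk_oo]; exact h1, Subtype.ext ?_⟩
      rw [rk_oo, hval _ (h1.trans hx)]
      exact h2
  · rw [heq, heq, hval _ hx, hval _ hy]
  · rw [hX, hY]
  · constructor
    · rintro ⟨a, ha, b, hb, rfl⟩
      exact ⟨a.1, (hX a).1 ha, b.1, (hY b).1 hb, val_opair a b⟩
    · rintro ⟨a, ha, b, hb, h⟩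
      refine ⟨⟨a, hX' a ha⟩, (hX _).2 ha, ⟨b, hY' b hb⟩, (hY _).2 hb, Subtype.ext ?_⟩
      rw [val_opair]
      exact h
  · constructor
    · rintro ⟨u, hu⟩
      rw [hX, val_opair] at hu
      exact ⟨u.1, hu⟩
    · rintro ⟨u, hu⟩
      refine ⟨⟨u, (hXp _ _ hu).1⟩, (hX _).2 ?_⟩
      rw [val_opair]
      exact hu
  · constructor
    · rintro ⟨a, t, h1, rfl⟩
      rw [hX, val_opair] at h1
      exact ⟨a.1, t.1, h1, by rw [val_opair, val_opair]⟩
    · rintro ⟨a, t, h1, h2⟩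
      obtain ⟨h3, h4⟩ := hXp _ _ h1
      refine ⟨⟨a, h3⟩, ⟨t, h4⟩, (hX _).2 ?_, Subtype.ext ?_⟩
      · rw [val_opair]
        exact h1
      · rw [val_opair, val_opair]
        exact h2
  · constructor
    · rintro ⟨a, t, b, hb, h1, rfl⟩
      rw [hY, val_opair] at h1
      exact ⟨a.1, t.1, b.1, (hX b).1 hb, h1, by rw [val_opair, val_opair]⟩
    · rintro ⟨a, t, b, hb, h1, h2⟩
      obtain ⟨h3, h4⟩ := hYp _ _ h1
      refine ⟨⟨a, h3⟩, ⟨t, h4⟩, ⟨b, hX' b hb⟩, (hX _).2 hb, (hY _).2 ?_, Subtype.ext ?_⟩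
      · rw [val_opair]
        exact h1
      · rw [val_opair, val_opair]
        exact h2
  · constructor
    · rintro ⟨b, t, a, hab, h1, rfl⟩
      rw [hX, val_opair] at h1
      exact ⟨b.1, t.1, a.1, hab, h1, by rw [val_opair, val_opair]⟩
    · rintro ⟨b, t, a, hab, h1, h2⟩
      obtain ⟨h3, h4⟩ := hXp _ _ h1
      have ha : a ∈ V := Inner.trans b h3 a hab
      refine ⟨⟨b, h3⟩, ⟨t, h4⟩, ⟨a, ha⟩, hab, (hX _).2 ?_, Subtype.ext ?_⟩
      · rw [val_opair]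
        exact h1
      · rw [val_opair, val_opair]
        exact h2
  · rw [hX]
  · constructor
    · rintro ⟨ι, ι', h1, h2, h3, rfl⟩
      have hι' : rk ι' < η := h2.trans hx
      refine ⟨rk ι, rk ι', h1, h2, ?_, ?_⟩
      · intro j hj he
        refine h3 (oo V j) (by rw [rk_oo]; exact hj) ?_
        rw [rk_oo, heq, hval _ (hj.trans hι'), hval _ hι']
        exact he
      · rw [val_opair, hval _ (h1.trans hι'), hval _ hι']
    · rintro ⟨ι, ι', h1, h2, h3, h4⟩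
      have hι' : ι' < η := h2.trans hx
      refine ⟨oo V ι, oo V ι', by rw [rk_oo, rk_oo]; exact h1, by rw [rk_oo]; exact h2, ?_,
        Subtype.ext ?_⟩
      · intro j hj he
        rw [rk_oo] at hj he
        rw [heq, hval _ (hj.trans hι'), hval _ hι'] at he
        exact h3 _ hj he
      · rw [val_opair, rk_oo, rk_oo, hval _ (h1.trans hι'), hval _ hι']
        exact h4
  · constructor
    · rintro ⟨u, hu⟩
      rw [hX, val_opair] at hu
      exact ⟨u.1, hu⟩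
    · rintro ⟨u, hu⟩
      refine ⟨⟨u, (hXp _ _ hu).2⟩, (hX _).2 ?_⟩
      rw [val_opair]
      exact hu

/-- the step of the recursion defining `en` -/
noncomputable def ABS_S (A : Set ZFSet.{0}) (x g : V) : V :=
  ST.comp (fun z => (∃ y, y ∈ x ∧ ST.fapp g y = z) ∧ ABS_C A (rk x) g z)

theorem ABS_small (hA : Dbl V (fun x : V => x.1 ∈ A)) (x g : V) :
    ST.Small (fun z => (∃ y, y ∈ x ∧ ST.fapp g y = z) ∧ ABS_C A (rk x) g z) := by
  have h := ABS_dbl_C (Γ := V) hA (a := fun _ => rk x) (g := fun _ => g) (z := fun z => z)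
    (by fun_prop) (by fun_prop) (by fun_prop)
  refine ST.small_of_subset (by fun_prop) (ST.image (ST.fapp g) x) ?_
  intro z hz
  rw [ST.mem_image (by fun_prop)]
  exact hz.1

theorem ABS_dbl_S (hA : Dbl V (fun x : V => x.1 ∈ A)) :
    Dbl V (fun z : V × V => ABS_S A z.1 z.2) := by
  have h := ABS_dbl_C (Γ := (V × V) × V) hA (a := fun z => rk z.1.1) (g := fun z => z.1.2)
    (z := fun z => z.2) (by fun_prop) (by fun_prop) (by fun_prop)
  exact ST.dbl_comp (fun z : V × V => ABS_small hA z.1 z.2) (by fun_prop)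

end

/-- The enumeration of `L[A]` is definable in every inner model in which `A` is definable. -/
theorem en_dbl {V : Set ZFSet.{0}} [Inner V] (hA : Dbl V (fun x : V => x.1 ∈ A)) :
    DO V (en A) := by
  refine rec_ord (ABS_dbl_S hA) ?_
  intro α g _ hg
  ext z
  rw [mem_en]
  constructor
  · rintro ⟨⟨ξ, hξ, rfl⟩, h2⟩
    obtain ⟨h, h1⟩ := hg ξ hξ
    show (⟨en A ξ, h⟩ : V) ∈ ABS_S A (oo V α) g
    refine (ST.mem_comp (ABS_small hA _ _)).2 ⟨⟨oo V ξ, ABS_mem_oo.2 ⟨ξ, hξ, rfl⟩, h1⟩, ?_⟩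
    rw [rk_oo]
    exact (ABS_C_iff hg).2 h2
  · intro hz
    have hV : z ∈ V := ABS_trans hz
    have hz' : (⟨z, hV⟩ : V) ∈ ABS_S A (oo V α) g := hz
    obtain ⟨⟨y, hy, h1⟩, h2⟩ := (ST.mem_comp (ABS_small hA _ _)).1 hz'
    rw [rk_oo] at h2
    obtain ⟨ξ, hξ, rfl⟩ := ABS_mem_oo.1 hy
    obtain ⟨h, h3⟩ := hg ξ hξ
    refine ⟨⟨ξ, hξ, ?_⟩, (ABS_C_iff hg).1 h2⟩
    rw [h3] at h1
    exact congrArg Subtype.val h1

end Pool.Agent.SC
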