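import Pool.Agent.Lib_helper73.SCL.Defs

set_option linter.unusedSectionVars false

namespace Pool.Agent.SC

open FirstOrder Pool.Agent.Lib_helper27 Pool.Agent.Lib_helper27.ST

universe u v w

variable {A : Set ZFSet.{0}}

/-- The set of all sequences of length `n` of elements of `X`, coded as
`(x_{n-1}, (x_{n-2}, … (x_0, ∅)))`. -/
def env : (n : ℕ) → (Fin n → ZFSet.{0}) → ZFSet.{0}
  | 0, _ => ∅
  | n + 1, x => ZFSet.pair (x (Fin.last n)) (env n fun i => x i.castSucc)

end Pool.Agent.SC
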