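import Pool.Agent.Lib_helper73.SCL.LOP
import Pool.Agent.Lib_helper73.SCL.SAT_a

/-!
# Block SAT: subsets of a constructible set which are definable over it are constructible
-/

set_option linter.unusedSectionVars false
set_option linter.unusedVariables false

namespace Pool.Agent.SC

open FirstOrder Pool.Agent.Lib_helper27 Pool.Agent.Lib_helper27.ST

universe u v w

variable {A : Set ZFSet.{0}}

/-- coding of tuples is injective -/
theorem SAT_env_inj : ∀ (n : ℕ) (x y : Fin n → ZFSet.{0}), env n x = env n y → x = y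
  | 0, _, _, _ => funext fun i => i.elim0
  | n + 1, x, y, h => by
      have h' : ZFSet.pair (x (Fin.last n)) (env n fun i => x i.castSucc) =
        ZFSet.pair (y (Fin.last n)) (env n fun i => y i.castSucc) := h
      obtain ⟨h1, h2⟩ := ZFSet.pair_inj.1 h'
      have h3 := SAT_env_inj n _ _ h2
      funext i
      refine Fin.lastCases h1 (fun j => ?_) i
      exact congrFun h3 j

/-- coding of tuples of elements of `X` -/
def SAT_ev (X : ZFSet.{0}) (n : ℕ) (xs : Fin n → {x : ZFSet.{0} | x ∈ X}) : ZFSet.{0} :=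
  env n fun i => (xs i).1

theorem SAT_ev_inj {X : ZFSet.{0}} {n : ℕ} {xs ys : Fin n → {x : ZFSet.{0} | x ∈ X}}
    (h : SAT_ev X n xs = SAT_ev X n ys) : xs = ys := by
  have := SAT_env_inj n _ _ h
  funext i
  exact Subtype.ext (congrFun this i)

theorem SAT_ev_snoc {X : ZFSet.{0}} {n : ℕ} (xs : Fin n → {x : ZFSet.{0} | x ∈ X})
    (a : {x : ZFSet.{0} | x ∈ X}) :
    SAT_ev X (n + 1) (Fin.snoc xs a : Fin (n + 1) → {x : ZFSet.{0} | x ∈ X}) =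
      ZFSet.pair a.1 (SAT_ev X n xs) := by
  show ZFSet.pair ((Fin.snoc xs a : Fin (n + 1) → {x : ZFSet.{0} | x ∈ X}) (Fin.last n)).1
    (env n fun i => ((Fin.snoc xs a : Fin (n + 1) → {x : ZFSet.{0} | x ∈ X}) i.castSucc).1) = _
  simp only [Fin.snoc_last, Fin.snoc_castSucc]
  rfl

theorem SAT_ev_succ {X : ZFSet.{0}} {n : ℕ} (xs : Fin (n + 1) → {x : ZFSet.{0} | x ∈ X}) :
    SAT_ev X (n + 1) xs =
      ZFSet.pair (xs (Fin.last n)).1 (SAT_ev X n fun i => xs i.castSucc) := rfl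

/-- The relation `P` on `X` is coded by an element of `L[A]`. -/
def SAT_RS (A : Set ZFSet.{0}) (X : ZFSet.{0}) (n : ℕ)
    (P : (Fin n → {x : ZFSet.{0} | x ∈ X}) → Prop) : Prop :=
  ∃ r ∈ LA A, ∀ z, z ∈ r ↔ ∃ xs : Fin n → {x : ZFSet.{0} | x ∈ X}, z = SAT_ev X n xs ∧ P xs

/-- The map `f` from tuples of `X` to sets is coded by an element of `L[A]`. -/
def SAT_RG (A : Set ZFSet.{0}) (X : ZFSet.{0}) (n : ℕ)
    (f : (Fin n → {x : ZFSet.{0} | x ∈ X}) → ZFSet.{0} → Prop) : Prop :=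
  ∃ r ∈ LA A, ∀ z, z ∈ r ↔ ∃ xs : Fin n → {x : ZFSet.{0} | x ∈ X}, ∃ a, f xs a ∧
    z = ZFSet.pair a (SAT_ev X n xs)

section

variable {X : ZFSet.{0}}

theorem SAT_mem {n : ℕ} {P : (Fin n → {x : ZFSet.{0} | x ∈ X}) → Prop} {r : ZFSet.{0}}
    (h : ∀ z, z ∈ r ↔ ∃ xs : Fin n → {x : ZFSet.{0} | x ∈ X}, z = SAT_ev X n xs ∧ P xs)
    (xs : Fin n → {x : ZFSet.{0} | x ∈ X}) : SAT_ev X n xs ∈ r ↔ P xs := by
  rw [h]
  constructor
  · rintro ⟨ys, h1, h2⟩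
    rwa [SAT_ev_inj h1]
  · intro h2
    exact ⟨xs, rfl, h2⟩

theorem SAT_memG {n : ℕ} {f : (Fin n → {x : ZFSet.{0} | x ∈ X}) → ZFSet.{0} → Prop} {r : ZFSet.{0}}
    (h : ∀ z, z ∈ r ↔ ∃ xs : Fin n → {x : ZFSet.{0} | x ∈ X}, ∃ a, f xs a ∧
      z = ZFSet.pair a (SAT_ev X n xs))
    (xs : Fin n → {x : ZFSet.{0} | x ∈ X}) (a : ZFSet.{0}) :
    ZFSet.pair a (SAT_ev X n xs) ∈ r ↔ f xs a := by
  rw [h]
  constructor
  · rintro ⟨ys, b, h1, h2⟩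
    obtain ⟨h3, h4⟩ := ZFSet.pair_inj.1 h2
    rw [SAT_ev_inj h4, h3]
    exact h1
  · intro h2
    exact ⟨xs, a, h2, rfl⟩

theorem SAT_empty (hX : X ∈ LA A) : (∅ : ZFSet.{0}) ∈ LA A := by
  have h := LA_diff hX hX
  have h2 : X \ X = ∅ := by
    rw [ZFSet.eq_empty]
    intro y hy
    rw [ZFSet.mem_sdiff] at hy
    exact hy.2 hy.1
  rwa [h2] at h

theorem SAT_true (hX : X ∈ LA A) : ∀ n, SAT_RS A X n fun _ => True
  | 0 => by
      refine ⟨{∅, ∅}, LA_pair (SAT_empty hX) (SAT_empty hX), fun z => ?_⟩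
      rw [ZFSet.mem_pair]
      constructor
      · intro h
        exact ⟨fun i => i.elim0, by rcases h with h | h <;> exact h, trivial⟩
      · rintro ⟨xs, h, _⟩
        exact Or.inl h
  | n + 1 => by
      obtain ⟨r, hr, h⟩ := SAT_true hX n
      refine ⟨ZFSet.prod X r, LA_prod hX hr, fun z => ?_⟩
      rw [ZFSet.mem_prod]
      constructor
      · rintro ⟨a, ha, b, hb, rfl⟩
        obtain ⟨xs, rfl, _⟩ := (h b).1 hb
        exact ⟨Fin.snoc xs (⟨a, ha⟩ : {x : ZFSet.{0} | x ∈ X}), (SAT_ev_snoc xs ⟨a, ha⟩).symm,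
          trivial⟩
      · rintro ⟨xs, rfl, _⟩
        exact ⟨_, (xs (Fin.last n)).2, _, (h _).2 ⟨_, rfl, trivial⟩, SAT_ev_succ xs⟩

theorem SAT_false (hX : X ∈ LA A) (n : ℕ) : SAT_RS A X n fun _ => False := by
  refine ⟨∅, SAT_empty hX, fun z => ?_⟩
  constructor
  · intro h
    exact (ZFSet.notMem_empty z h).elim
  · rintro ⟨_, _, h⟩
    exact h.elim

theorem SAT_congr {n : ℕ} {P Q : (Fin n → {x : ZFSet.{0} | x ∈ X}) → Prop} (h : SAT_RS A X n P)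
    (hPQ : ∀ xs, Q xs ↔ P xs) : SAT_RS A X n Q := by
  have : Q = P := funext fun xs => propext (hPQ xs)
  rw [this]
  exact h

theorem SAT_not (hX : X ∈ LA A) {n : ℕ} {P : (Fin n → {x : ZFSet.{0} | x ∈ X}) → Prop}
    (hP : SAT_RS A X n P) : SAT_RS A X n fun xs => ¬ P xs := by
  obtain ⟨e, he, h⟩ := SAT_true hX n
  obtain ⟨r, hr, h1⟩ := hP
  refine ⟨e \ r, LA_diff he hr, fun z => ?_⟩
  rw [ZFSet.mem_sdiff]
  constructor
  · rintro ⟨h2, h3⟩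
    obtain ⟨xs, rfl, _⟩ := (h z).1 h2
    exact ⟨xs, rfl, fun h4 => h3 ((SAT_mem h1 xs).2 h4)⟩
  · rintro ⟨xs, rfl, h2⟩
    exact ⟨(h _).2 ⟨xs, rfl, trivial⟩, fun h3 => h2 ((SAT_mem h1 xs).1 h3)⟩

theorem SAT_and {n : ℕ} {P Q : (Fin n → {x : ZFSet.{0} | x ∈ X}) → Prop}
    (hP : SAT_RS A X n P) (hQ : SAT_RS A X n Q) : SAT_RS A X n fun xs => P xs ∧ Q xs := by
  obtain ⟨r, hr, h1⟩ := hP
  obtain ⟨s, hs, h2⟩ := hQ
  refine ⟨r ∩ s, LA_inter hr hs, fun z => ?_⟩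
  rw [ZFSet.mem_inter]
  constructor
  · rintro ⟨h3, h4⟩
    obtain ⟨xs, rfl, h5⟩ := (h1 z).1 h3
    exact ⟨xs, rfl, h5, (SAT_mem h2 xs).1 h4⟩
  · rintro ⟨xs, rfl, h3, h4⟩
    exact ⟨(SAT_mem h1 xs).2 h3, (SAT_mem h2 xs).2 h4⟩

theorem SAT_imp (hX : X ∈ LA A) {n : ℕ} {P Q : (Fin n → {x : ZFSet.{0} | x ∈ X}) → Prop}
    (hP : SAT_RS A X n P) (hQ : SAT_RS A X n Q) : SAT_RS A X n fun xs => P xs → Q xs :=
  SAT_congr (SAT_not hX (SAT_and hP (SAT_not hX hQ))) fun xs => by tauto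

theorem SAT_ran {n : ℕ} {f : (Fin n → {x : ZFSet.{0} | x ∈ X}) → ZFSet.{0} → Prop}
    (hf : SAT_RG A X n f) : SAT_RS A X n fun xs => ∃ a, f xs a := by
  obtain ⟨r, hr, h1⟩ := hf
  obtain ⟨s, hs, h2⟩ := LA_ran hr
  refine ⟨s, hs, fun z => ?_⟩
  rw [h2]
  constructor
  · rintro ⟨u, hu⟩
    obtain ⟨xs, a, h3, h4⟩ := (h1 _).1 hu
    obtain ⟨rfl, rfl⟩ := ZFSet.pair_inj.1 h4
    exact ⟨xs, rfl, _, h3⟩
  · rintro ⟨xs, rfl, a, h3⟩
    exact ⟨a, (SAT_memG h1 xs a).2 h3⟩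

theorem SAT_andG {n : ℕ} {f g : (Fin n → {x : ZFSet.{0} | x ∈ X}) → ZFSet.{0} → Prop}
    (hf : SAT_RG A X n f) (hg : SAT_RG A X n g) : SAT_RG A X n fun xs a => f xs a ∧ g xs a := by
  obtain ⟨r, hr, h1⟩ := hf
  obtain ⟨s, hs, h2⟩ := hg
  refine ⟨r ∩ s, LA_inter hr hs, fun z => ?_⟩
  rw [ZFSet.mem_inter]
  constructor
  · rintro ⟨h3, h4⟩
    obtain ⟨xs, a, h5, rfl⟩ := (h1 z).1 h3
    exact ⟨xs, a, ⟨h5, (SAT_memG h2 xs a).1 h4⟩, rfl⟩
  · rintro ⟨xs, a, ⟨h3, h4⟩, rfl⟩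
    exact ⟨(SAT_memG h1 xs a).2 h3, (SAT_memG h2 xs a).2 h4⟩

theorem SAT_ex {n : ℕ} {P : (Fin (n + 1) → {x : ZFSet.{0} | x ∈ X}) → Prop}
    (hP : SAT_RS A X (n + 1) P) : SAT_RS A X n fun xs => ∃ a : {x : ZFSet.{0} | x ∈ X},
      P (Fin.snoc xs a : Fin (n + 1) → {x : ZFSet.{0} | x ∈ X}) := by
  obtain ⟨r, hr, h1⟩ := hP
  obtain ⟨s, hs, h2⟩ := LA_ran hr
  refine ⟨s, hs, fun z => ?_⟩
  rw [h2]
  constructor
  · rintro ⟨u, hu⟩
    obtain ⟨xs, h3, h4⟩ := (h1 _).1 hu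
    rw [SAT_ev_succ] at h3
    obtain ⟨rfl, rfl⟩ := ZFSet.pair_inj.1 h3
    refine ⟨_, rfl, xs (Fin.last n), ?_⟩
    have : (Fin.snoc (fun i : Fin n => xs i.castSucc) (xs (Fin.last n)) :
        Fin (n + 1) → {x : ZFSet.{0} | x ∈ X}) = xs := by
      funext i
      refine Fin.lastCases ?_ (fun j => ?_) i
      · rw [Fin.snoc_last]
      · rw [Fin.snoc_castSucc]
    rw [this]
    exact h4
  · rintro ⟨xs, rfl, a, h3⟩
    refine ⟨a.1, ?_⟩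
    rw [← SAT_ev_snoc]
    exact (SAT_mem h1 _).2 h3

theorem SAT_all (hX : X ∈ LA A) {n : ℕ} {P : (Fin (n + 1) → {x : ZFSet.{0} | x ∈ X}) → Prop}
    (hP : SAT_RS A X (n + 1) P) : SAT_RS A X n fun xs => ∀ a : {x : ZFSet.{0} | x ∈ X},
      P (Fin.snoc xs a : Fin (n + 1) → {x : ZFSet.{0} | x ∈ X}) := by
  refine SAT_congr (SAT_not hX (SAT_ex (SAT_not hX hP))) fun xs => ?_
  push Not
  rfl

theorem SAT_var (hX : X ∈ LA A) : ∀ (n : ℕ) (i : Fin n), SAT_RG A X n fun xs a => a = (xs i).1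
  | 0, i => i.elim0
  | n + 1, i => by
      obtain ⟨e, he, h⟩ := SAT_true (A := A) hX (n + 1)
      refine Fin.lastCases ?_ (fun j => ?_) i
      · obtain ⟨s, hs, h1⟩ := LA_dup he
        refine ⟨s, hs, fun z => ?_⟩
        rw [h1]
        constructor
        · rintro ⟨a, t, h2, rfl⟩
          obtain ⟨xs, h3, _⟩ := (h _).1 h2
          refine ⟨xs, a, ?_, by rw [h3]⟩
          rw [SAT_ev_succ] at h3
          exact (ZFSet.pair_inj.1 h3).1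
        · rintro ⟨xs, a, rfl, rfl⟩
          exact ⟨_, _, (h _).2 ⟨xs, rfl, trivial⟩, rfl⟩
      · obtain ⟨g, hg, h0⟩ := SAT_var hX n j
        obtain ⟨s, hs, h1⟩ := LA_ins hX hg
        refine ⟨s, hs, fun z => ?_⟩
        rw [h1]
        constructor
        · rintro ⟨a, t, b, hb, h2, rfl⟩
          obtain ⟨xs, a', h3, h4⟩ := (h0 _).1 h2
          obtain ⟨rfl, rfl⟩ := ZFSet.pair_inj.1 h4
          refine ⟨Fin.snoc xs (⟨b, hb⟩ : {x : ZFSet.{0} | x ∈ X}), a, ?_, ?_⟩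
          · show a = ((Fin.snoc xs (⟨b, hb⟩ : {x : ZFSet.{0} | x ∈ X}) :
              Fin (n + 1) → {x : ZFSet.{0} | x ∈ X}) j.castSucc).1
            rw [Fin.snoc_castSucc]
            exact h3
          · rw [SAT_ev_snoc]
        · rintro ⟨xs, a, rfl, rfl⟩
          exact ⟨_, _, _, (xs (Fin.last n)).2,
            (h0 _).2 ⟨fun i => xs i.castSucc, _, rfl, rfl⟩, rfl⟩

theorem SAT_memvar (hX : X ∈ LA A) (n : ℕ) (i : Fin n) :
    SAT_RG A X n fun xs a => a ∈ (xs i).1 := by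
  obtain ⟨g, hg, h0⟩ := SAT_var (A := A) hX n i
  obtain ⟨s, hs, h1⟩ := LA_insmem hg
  obtain ⟨t, ht, h2⟩ := LA_ran hs
  refine ⟨t, ht, fun z => ?_⟩
  rw [h2]
  constructor
  · rintro ⟨u, hu⟩
    obtain ⟨b, t, a, hab, h3, h4⟩ := (h1 _).1 hu
    obtain ⟨rfl, rfl⟩ := ZFSet.pair_inj.1 h4
    obtain ⟨xs, a', h5, h6⟩ := (h0 _).1 h3
    obtain ⟨rfl, rfl⟩ := ZFSet.pair_inj.1 h6
    refine ⟨xs, a, ?_, rfl⟩
    show a ∈ (xs i).1
    rw [← h5]
    exact hab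
  · rintro ⟨xs, a, h3, rfl⟩
    exact ⟨(xs i).1, (h1 _).2 ⟨_, _, a, h3, (SAT_memG h0 xs _).2 rfl, rfl⟩⟩

theorem SAT_eqvar (hX : X ∈ LA A) (n : ℕ) (i j : Fin n) :
    SAT_RS A X n fun xs => xs i = xs j := by
  refine SAT_congr (SAT_ran (SAT_andG (SAT_var hX n i) (SAT_var hX n j))) fun xs => ?_
  constructor
  · intro h
    exact ⟨_, rfl, by rw [h]⟩
  · rintro ⟨a, h1, h2⟩
    exact Subtype.ext (h1.symm.trans h2)

theorem SAT_invar (hX : X ∈ LA A) (n : ℕ) (i j : Fin n) :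
    SAT_RS A X n fun xs => (xs i).1 ∈ (xs j).1 := by
  refine SAT_congr (SAT_ran (SAT_andG (SAT_var hX n i) (SAT_memvar hX n j))) fun xs => ?_
  constructor
  · intro h
    exact ⟨_, rfl, h⟩
  · rintro ⟨a, rfl, h2⟩
    exact h2

/-- terms are variables -/
theorem SAT_term {n : ℕ} (t : LSet.Term (Empty ⊕ Fin n)) :
    ∃ i : Fin n, t = Language.Term.var (Sum.inr i) := by
  cases t with
  | var a =>
      rcases a with e | i
      · exact e.elim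
      · exact ⟨i, rfl⟩
  | func f _ => exact (show Empty from f).elim

theorem SAT_fm (hX : X ∈ LA A) {n : ℕ} (φ : Fm n) :
    SAT_RS A X n fun xs => Sat {x : ZFSet.{0} | x ∈ X} φ xs := by
  induction φ with
  | falsum => exact SAT_false hX _
  | equal t s =>
      obtain ⟨i, rfl⟩ := SAT_term t
      obtain ⟨j, rfl⟩ := SAT_term s
      exact SAT_eqvar hX _ i j
  | rel R ts =>
      cases R
      obtain ⟨i, hi⟩ := SAT_term (ts 0)
      obtain ⟨j, hj⟩ := SAT_term (ts 1)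
      refine SAT_congr (SAT_invar hX _ i j) fun xs => ?_
      show (((ts 0).realize (Sum.elim Empty.elim xs)).1 ∈
        ((ts 1).realize (Sum.elim Empty.elim xs)).1) ↔ _
      rw [hi, hj]
      rfl
  | imp φ ψ h1 h2 => exact SAT_imp hX h1 h2
  | all φ h => exact SAT_all hX h

end

/-- Subsets of a transitive set `X ∈ L[A]` (of tuples) which are definable over `X` are in `L[A]`. -/
theorem LA_sat_env {X : ZFSet.{0}} (hX : X ∈ LA A) (hXt : X.IsTransitive) {n : ℕ} (φ : Fm n) :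
    ∃ r ∈ LA A, ∀ z, z ∈ r ↔ ∃ xs : Fin n → {x : ZFSet.{0} | x ∈ X},
      z = env n (fun i => (xs i).1) ∧ Sat {x : ZFSet.{0} | x ∈ X} φ xs :=
  SAT_fm hX φ

/-- Subsets of a transitive set `X ∈ L[A]` definable over `X` with parameters are in `L[A]`. -/
theorem LA_sat {X : ZFSet.{0}} (hX : X ∈ LA A) (hXt : X.IsTransitive) {n : ℕ} (φ : Fm (n + 1))
    (p : Fin n → {x : ZFSet.{0} | x ∈ X}) :
    ZFSet.sep (fun z => ∃ h : z ∈ X,
      Sat {x : ZFSet.{0} | x ∈ X} φ (Fin.snoc p (⟨z, h⟩ : {x : ZFSet.{0} | x ∈ X}) :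
        Fin (n + 1) → {x : ZFSet.{0} | x ∈ X})) X ∈ LA A := by
  obtain ⟨r, hr, h1⟩ := SAT_fm (A := A) hX φ
  obtain ⟨e, he, h2⟩ := SAT_true (A := A) hX n
  have hp : SAT_ev X n p ∈ LA A := LA_trans he ((h2 _).2 ⟨p, rfl, trivial⟩)
  obtain ⟨s, hs, h3⟩ := LA_dom (LA_inter hr (LA_prod hX (LA_pair hp hp)))
  have : ZFSet.sep (fun z => ∃ h : z ∈ X,
      Sat {x : ZFSet.{0} | x ∈ X} φ (Fin.snoc p (⟨z, h⟩ : {x : ZFSet.{0} | x ∈ X}) :
        Fin (n + 1) → {x : ZFSet.{0} | x ∈ X})) X = s := by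
    ext z
    rw [ZFSet.mem_sep, h3]
    constructor
    · rintro ⟨_, h, h4⟩
      refine ⟨SAT_ev X n p, ZFSet.mem_inter.2 ⟨?_, ?_⟩⟩
      · have := (SAT_mem h1 _).2 h4
        rwa [SAT_ev_snoc] at this
      · rw [ZFSet.pair_mem_prod]
        exact ⟨h, ZFSet.mem_pair.2 (Or.inl rfl)⟩
    · rintro ⟨u, hu⟩
      obtain ⟨h4, h5⟩ := ZFSet.mem_inter.1 hu
      rw [ZFSet.pair_mem_prod, ZFSet.mem_pair, or_self] at h5
      obtain ⟨h6, rfl⟩ := h5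
      refine ⟨h6, h6, (SAT_mem h1 _).1 ?_⟩
      rw [SAT_ev_snoc]
      exact h4
  rw [this]
  exact hs

end Pool.Agent.SC
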