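import Pool.Agent.Lib_helper73.SCL.FML

/-!
# Block ZF: criterion for inner models
-/

set_option linter.unusedSectionVars false

namespace Pool.Agent.SC

open FirstOrder Pool.Agent.Lib_helper27 Pool.Agent.Lib_helper27.ST

universe u v w

section zf

variable (W : Set ZFSet.{0}) (ht : ∀ x ∈ W, ∀ y ∈ x, y ∈ W)
  (hsep : ∀ (k : ℕ) (φ : Fm (k + 1)) (p : Fin k → W) (a : W),
      ZFSet.sep (fun z => ∃ h : z ∈ W, Sat W φ (Fin.snoc p (⟨z, h⟩ : W) : Fin (k + 1) → W)) a.1 ∈ W)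
  (hcov : ∀ x : ZFSet.{0}, (∀ y ∈ x, y ∈ W) → ∃ y ∈ W, x ⊆ y)

include ht hsep in
/-- separation for sets definable in the sense of `Set.Definable` -/
theorem zf_sep1 {D : Set (_root_.Fin 1 → W)} (hD : (Set.univ : Set W).Definable LSet D) (a : W) :
    ∃ b : W, ∀ x : W, x ∈ b ↔ x ∈ a ∧ ![x] ∈ D := by
  obtain ⟨k, φ, p, h⟩ := definable_fm hD
  refine ⟨⟨_, hsep k φ p a⟩, fun x => ?_⟩
  have h1 : ![x] ∈ D ↔ Sat W φ (Fin.snoc p x : Fin (k + 1) → W) := by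
    rw [h]
    unfold Sat
    have : (Fin.append p ![x] : Fin (k + 1) → W) = Fin.snoc p x := by
      rw [Fin.append_right_eq_snoc]
      rfl
    rw [this]
  rw [h1]
  have h2 : x ∈ (⟨_, hsep k φ p a⟩ : W) ↔ x.1 ∈ ZFSet.sep (fun z => ∃ h : z ∈ W,
      Sat W φ (Fin.snoc p (⟨z, h⟩ : W) : _root_.Fin (k + 1) → W)) a.1 := Iff.rfl
  rw [h2, ZFSet.mem_sep]
  constructor
  · rintro ⟨h2, h3, h4⟩; exact ⟨h2, h4⟩
  · rintro ⟨h2, h3⟩; exact ⟨h2, x.2, h3⟩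

include ht hsep in
theorem zf_sep {D : W → Prop} (hD : Dbl W D) (a : W) :
    ∃ b : W, ∀ x : W, x ∈ b ↔ x ∈ a ∧ D x := by
  rw [dbl_prop_iff] at hD
  have h := Set.Definable.preimage_comp (α := Unit) (β := Fin 1) (fun _ => 0) hD
  exact zf_sep1 W ht hsep h a

include ht hsep hcov in
/-- every definable small subclass is a set -/
theorem zf_small {D : W → Prop} (hD : Dbl W D) (s : ZFSet.{0}) (hs : ∀ x : W, D x → x.1 ∈ s) :
    ∃ b : W, ∀ x : W, x ∈ b ↔ D x := by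
  obtain ⟨y, hy, hsub⟩ := hcov (ZFSet.sep (fun z => ∃ h : z ∈ W, D ⟨z, h⟩) s) (by
    intro z hz
    rw [ZFSet.mem_sep] at hz
    exact hz.2.1)
  obtain ⟨b, hb⟩ := zf_sep W ht hsep hD ⟨y, hy⟩
  refine ⟨b, fun x => ?_⟩
  rw [hb]
  refine ⟨fun h => h.2, fun h => ⟨?_, h⟩⟩
  have : x.1 ∈ ZFSet.sep (fun z => ∃ h : z ∈ W, D ⟨z, h⟩) s := by
    rw [ZFSet.mem_sep]
    exact ⟨hs x h, x.2, h⟩
  exact hsub this

include ht in
/-- an element of `W` is determined by its elements in `W` -/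
theorem zf_ext {x : W} {s : ZFSet.{0}} (hs : ∀ z ∈ s, z ∈ W) (h : ∀ z : W, z ∈ x ↔ z.1 ∈ s) :
    x.1 = s := by
  refine ZFSet.ext fun z => ?_
  constructor
  · intro hz
    exact (h ⟨z, ht _ x.2 _ hz⟩).1 hz
  · intro hz
    exact (h ⟨z, hs z hz⟩).2 hz

include ht hsep hcov in
theorem zf_ord (α : Ordinal.{0}) : α.toZFSet ∈ W := by
  induction α using WellFoundedLT.induction with
  | ind α ih =>
    obtain ⟨y, hy, hsub⟩ := hcov α.toZFSet (by
      intro z hz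
      obtain ⟨β, hβ, rfl⟩ := Ordinal.mem_toZFSet_iff.1 hz
      exact ih β hβ)
    set Y : W := ⟨y, hy⟩ with hY
    have hD : Dbl W (fun β : W => (∀ γ : W, γ ∈ β → ∀ δ : W, δ ∈ γ → δ ∈ β) ∧
        (∀ γ : W, γ ∈ β → ∀ δ : W, δ ∈ γ → ∀ ε : W, ε ∈ δ → ε ∈ γ) ∧
        (∀ γ : W, γ ∈ β → γ ∈ Y)) := by fun_prop
    obtain ⟨b, hb⟩ := zf_sep W ht hsep hD Y
    have hmem : ∀ z, z ∈ b.1 ↔ z ∈ y ∧ z.IsOrdinal ∧ z ⊆ y := by
      intro z
      constructor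
      · intro hz
        obtain ⟨h1, h2, h3, h4⟩ := (hb ⟨z, ht _ b.2 _ hz⟩).1 hz
        have hzW : z ∈ W := ht _ b.2 _ hz
        refine ⟨h1, ?_, ?_⟩
        · rw [ZFSet.isOrdinal_iff_forall_mem_isTransitive]
          constructor
          · intro γ hγ δ hδ
            have g1 : γ ∈ W := ht _ hzW _ hγ
            have g2 : δ ∈ W := ht _ g1 _ hδ
            exact h2 ⟨γ, g1⟩ hγ ⟨δ, g2⟩ hδ
          · intro γ hγ δ hδ ε hε
            have g1 : γ ∈ W := ht _ hzW _ hγ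
            have g2 : δ ∈ W := ht _ g1 _ hδ
            have g3 : ε ∈ W := ht _ g2 _ hε
            exact h3 ⟨γ, g1⟩ hγ ⟨δ, g2⟩ hδ ⟨ε, g3⟩ hε
        · intro γ hγ
          exact h4 ⟨γ, ht _ hzW _ hγ⟩ hγ
      · rintro ⟨h1, h2, h3⟩
        have hzW : z ∈ W := ht _ hy _ h1
        refine (hb ⟨z, hzW⟩).2 ⟨h1, ?_, ?_, ?_⟩
        · intro γ hγ δ hδ
          exact h2.isTransitive _ hγ hδ
        · intro γ hγ δ hδ ε hε
          exact (h2.mem hγ).isTransitive _ hδ hε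
        · intro γ hγ
          exact h3 hγ
    have hbo : b.1.IsOrdinal := by
      rw [ZFSet.isOrdinal_iff_forall_mem_isOrdinal]
      constructor
      · intro z hz w hw
        rw [hmem] at hz ⊢
        have hwy : w ∈ y := hz.2.2 hw
        refine ⟨hwy, hz.2.1.mem hw, ?_⟩
        intro v hv
        exact hz.2.2 (hz.2.1.isTransitive _ hw hv)
      · intro z hz
        exact ((hmem z).1 hz).2.1
    have hαb : α.toZFSet ⊆ b.1 := by
      intro z hz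
      rw [hmem]
      have hzo := (ZFSet.isOrdinal_toZFSet α).mem hz
      refine ⟨hsub hz, hzo, ?_⟩
      intro v hv
      exact hsub ((ZFSet.isOrdinal_toZFSet α).isTransitive _ hz hv)
    rcases (ZFSet.isOrdinal_toZFSet α).eq_or_mem_of_subset hbo hαb with h | h
    · rw [h]; exact b.2
    · exact ht _ b.2 _ h

/-- the ordered pair inside a transitive class -/
theorem zf_pair_dbl : Dbl W (fun z : (W × W) × W => ∃ q : W, q ∈ z.2 ∧ ∃ s t : W,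
    (∀ w : W, w ∈ s ↔ w = z.1.1) ∧ (∀ w : W, w ∈ t ↔ w = z.1.1 ∨ w = z.1.2) ∧
    (∀ w : W, w ∈ q ↔ w = s ∨ w = t)) := by
  fun_prop

include ht in
theorem zf_pair (a b r : W) : (∃ q : W, q ∈ r ∧ ∃ s t : W,
    (∀ w : W, w ∈ s ↔ w = a) ∧ (∀ w : W, w ∈ t ↔ w = a ∨ w = b) ∧
    (∀ w : W, w ∈ q ↔ w = s ∨ w = t)) ↔ ZFSet.pair a.1 b.1 ∈ r.1 := by
  constructor
  · rintro ⟨q, hq, s, t, hs, h1, h2⟩
    have e1 : s.1 = {a.1} := by
      refine zf_ext W ht (fun z hz => ?_) (fun z => ?_)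
      · rw [ZFSet.mem_singleton] at hz; rw [hz]; exact a.2
      · rw [hs, ZFSet.mem_singleton]; exact Subtype.ext_iff
    have e2 : t.1 = {a.1, b.1} := by
      refine zf_ext W ht (fun z hz => ?_) (fun z => ?_)
      · rw [ZFSet.mem_pair] at hz
        rcases hz with h | h
        · rw [h]; exact a.2
        · rw [h]; exact b.2
      · rw [h1, ZFSet.mem_pair]; exact or_congr Subtype.ext_iff Subtype.ext_iff
    have e3 : q.1 = ZFSet.pair a.1 b.1 := by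
      unfold ZFSet.pair
      refine zf_ext W ht (fun z hz => ?_) (fun z => ?_)
      · rw [ZFSet.mem_pair] at hz
        rcases hz with h | h
        · rw [h, ← e1]; exact s.2
        · rw [h, ← e2]; exact t.2
      · rw [h2, ZFSet.mem_pair, ← e1, ← e2]; exact or_congr Subtype.ext_iff Subtype.ext_iff
    rw [← e3]; exact hq
  · intro h
    have hq : ZFSet.pair a.1 b.1 ∈ W := ht _ r.2 _ h
    have hs : ({a.1} : ZFSet.{0}) ∈ W := ht _ hq _ (by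
      unfold ZFSet.pair; rw [ZFSet.mem_pair]; exact Or.inl rfl)
    have h2 : ({a.1, b.1} : ZFSet.{0}) ∈ W := ht _ hq _ (by
      unfold ZFSet.pair; rw [ZFSet.mem_pair]; exact Or.inr rfl)
    refine ⟨⟨_, hq⟩, h, ⟨_, hs⟩, ⟨_, h2⟩, fun w => ?_, fun w => ?_, fun w => ?_⟩
    · show w.1 ∈ ({a.1} : ZFSet.{0}) ↔ _
      rw [ZFSet.mem_singleton]; exact Subtype.ext_iff.symm
    · show w.1 ∈ ({a.1, b.1} : ZFSet.{0}) ↔ _
      rw [ZFSet.mem_pair]; exact or_congr Subtype.ext_iff.symm Subtype.ext_iff.symm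
    · show w.1 ∈ ZFSet.pair a.1 b.1 ↔ _
      unfold ZFSet.pair
      rw [ZFSet.mem_pair]
      exact or_congr (Subtype.ext_iff (a1 := w) (a2 := ⟨_, hs⟩)).symm
        (Subtype.ext_iff (a1 := w) (a2 := ⟨_, h2⟩)).symm

end zf

theorem inner_of (W : Set ZFSet.{0}) (ht : ∀ x ∈ W, ∀ y ∈ x, y ∈ W) (hne : W.Nonempty)
    (hsep : ∀ (k : ℕ) (φ : Fm (k + 1)) (p : Fin k → W) (a : W),
      ZFSet.sep (fun z => ∃ h : z ∈ W, Sat W φ (Fin.snoc p (⟨z, h⟩ : W) : Fin (k + 1) → W)) a.1 ∈ W)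
    (hcov : ∀ x : ZFSet.{0}, (∀ y ∈ x, y ∈ W) → ∃ y ∈ W, x ⊆ y)
    (hwo : ∀ x ∈ W, ∃ r ∈ W, ∃ c : ZFSet.{0} → Ordinal.{0},
      (∀ a ∈ x, ∀ b ∈ x, c a = c b → a = b) ∧
      ∀ a ∈ x, ∀ b ∈ x, (ZFSet.pair a b ∈ r ↔ c a < c b)) : Inner W := by
  refine ⟨ht, zf_ord W ht hsep hcov, ?_⟩
  have hext : ∀ x y : W, (∀ z : W, z.1 ∈ x.1 ↔ z.1 ∈ y.1) → x = y := by
    intro x y h
    refine Subtype.ext (ZFSet.ext fun z => ?_)
    constructor
    · intro hz; exact (h ⟨z, ht _ x.2 _ hz⟩).1 hz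
    · intro hz; exact (h ⟨z, ht _ y.2 _ hz⟩).2 hz
  refine ⟨hext, ?_, ?_, ?_, ?_, ?_, ?_, ?_, ?_⟩
  · -- foundation
    rintro x ⟨y, hy⟩
    obtain ⟨z, hz, h2⟩ := ZFSet.regularity x.1 (by
      intro h
      rw [h] at hy
      exact ZFSet.notMem_empty _ hy)
    refine ⟨⟨z, ht _ x.2 _ hz⟩, hz, fun w hw hw2 => ?_⟩
    have : w.1 ∈ x.1 ∩ z := by
      rw [ZFSet.mem_inter]; exact ⟨hw, hw2⟩
    rw [h2] at this
    exact ZFSet.notMem_empty _ this
  · -- pairing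
    intro x y
    exact zf_small W ht hsep hcov (D := fun w : W => w = x ∨ w = y) (by fun_prop) {x.1, y.1} (by
      rintro w (rfl | rfl)
      · rw [ZFSet.mem_pair]; exact Or.inl rfl
      · rw [ZFSet.mem_pair]; exact Or.inr rfl)
  · -- union
    intro x
    exact zf_small W ht hsep hcov (D := fun w : W => ∃ y : W, y ∈ x ∧ w ∈ y) (by fun_prop)
      (ZFSet.sUnion x.1) (by
      rintro w ⟨y, hy, hw⟩
      exact ZFSet.mem_sUnion.2 ⟨y.1, hy, hw⟩)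
  · -- powerset
    intro x
    exact zf_small W ht hsep hcov (D := fun w : W => ∀ v : W, v ∈ w → v ∈ x) (by fun_prop)
      (ZFSet.powerset x.1) (by
      intro w hw
      rw [ZFSet.mem_powerset]
      intro v hv
      exact hw ⟨v, ht _ w.2 _ hv⟩ hv)
  · -- infinity
    have ho : ∀ α : Ordinal.{0}, α.toZFSet ∈ W := zf_ord W ht hsep hcov
    refine ⟨⟨_, ho Ordinal.omega0⟩, ⟨⟨_, ho 0⟩, ?_, ?_⟩, ?_⟩
    · exact Ordinal.toZFSet_mem_toZFSet_iff.2 Ordinal.omega0_pos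
    · intro z hz
      have : z.1 ∈ (0 : Ordinal.{0}).toZFSet := hz
      rw [Ordinal.toZFSet_zero] at this
      exact ZFSet.notMem_empty _ this
    · intro y hy
      obtain ⟨a, ha, hay⟩ := Ordinal.mem_toZFSet_iff.1 hy
      refine ⟨⟨_, ho (a + 1)⟩, ?_, ?_⟩
      · refine Ordinal.toZFSet_mem_toZFSet_iff.2 ?_
        exact Ordinal.isSuccLimit_omega0.add_one_lt ha
      · intro z
        show z.1 ∈ (a + 1).toZFSet ↔ _
        rw [Ordinal.toZFSet_add_one, ZFSet.mem_insert_iff, hay, or_comm]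
        exact or_congr Iff.rfl Subtype.ext_iff.symm
  · -- separation
    intro D hD a
    obtain ⟨b, hb⟩ := zf_sep1 W ht hsep hD a
    exact ⟨b, fun x => hb x⟩
  · -- replacement
    intro R hR a ha
    have hR' : Dbl W (fun z : W × W => (z.1, z.2) ∈ R) := by
      rw [dbl_prop_iff]
      exact Set.Definable.preimage_comp (β := Unit ⊕ Unit) (α := Fin 2)
        (fun i => if i = 0 then Sum.inl () else Sum.inr ()) hR
    have hR2 : Dbl W (fun z : W × W => (z.2, z.1) ∈ R) :=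
      Dbl.comp (f := fun z : W × W => (z.2, z.1)) (g := fun z : W × W => (z.1, z.2) ∈ R)
        (by fun_prop) hR'
    have hD : Dbl W (fun y : W => ∃ x : W, x ∈ a ∧ (x, y) ∈ R) := by fun_prop
    choose g hg hg2 using ha
    refine zf_small W ht hsep hcov hD
      (ZFSet.range fun x : a.1 => (g ⟨x.1, ht _ a.2 _ x.2⟩ x.2).1) ?_
    rintro y ⟨x, hx, hxy⟩
    rw [ZFSet.mem_range]
    refine ⟨⟨x.1, hx⟩, ?_⟩
    exact congrArg Subtype.val (hg2 x hx y hxy).symm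
  · -- choice
    intro a h1 h2
    obtain ⟨u, hu⟩ := zf_small W ht hsep hcov (D := fun w : W => ∃ y : W, y ∈ a ∧ w ∈ y)
      (by fun_prop) (ZFSet.sUnion a.1) (by
      rintro w ⟨y, hy, hw⟩
      exact ZFSet.mem_sUnion.2 ⟨y.1, hy, hw⟩)
    obtain ⟨r, hr, c, hc1, hc2⟩ := hwo u.1 u.2
    set r' : W := ⟨r, hr⟩ with hr'
    have hP := zf_pair W ht
    have hPd := zf_pair_dbl W
    have hQ : Dbl W (fun z : (W × W) × W => ZFSet.pair z.1.1.1 z.1.2.1 ∈ z.2.1) :=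
      hPd.congr_prop fun z => (hP _ _ _).symm
    have hQ2 : Dbl W (fun z : (W × W) × W => ZFSet.pair z.2.1 z.1.1.1 ∈ r'.1) :=
      Dbl.comp (f := fun z : (W × W) × W => ((z.2, z.1.1), r'))
        (g := fun z : (W × W) × W => ZFSet.pair z.1.1.1 z.1.2.1 ∈ z.2.1) (by fun_prop) hQ
    have hD : Dbl W (fun z : W => ∃ m : W, m ∈ a ∧ z ∈ m ∧
        ∀ z' : W, z' ∈ m → ¬ (ZFSet.pair z'.1 z.1 ∈ r'.1)) := by fun_prop
    obtain ⟨C, hC⟩ := zf_sep W ht hsep hD u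
    refine ⟨C, fun x hx => ?_⟩
    -- the least element of `x`
    obtain ⟨y0, hy0⟩ := h1 x hx
    have hxu : ∀ z : W, z ∈ x → z ∈ u := fun z hz => (hu z).2 ⟨x, hx, hz⟩
    obtain ⟨y, hy, hmin⟩ : ∃ y : W, y ∈ x ∧ ∀ z : W, z ∈ x → ¬ c z.1 < c y.1 := by
      have hw : WellFounded (fun z y : W => c z.1 < c y.1) :=
        InvImage.wf (fun z : W => c z.1) Ordinal.lt_wf
      exact ⟨_, hw.min_mem {z : W | z ∈ x} ⟨y0, hy0⟩, fun z hz => hw.not_lt_min _ hz⟩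
    refine ⟨y, ⟨hy, ?_⟩, ?_⟩
    · refine (hC y).2 ⟨hxu y hy, x, hx, hy, fun z hz hp => ?_⟩
      exact hmin z hz ((hc2 z.1 (hxu z hz) y.1 (hxu y hy)).1 hp)
    · rintro z ⟨hz, hzC⟩
      obtain ⟨hzu, m, hm, hzm, hm2⟩ := (hC z).1 hzC
      have hmx : m = x := h2 m x hm hx ⟨z, hzm, hz⟩
      subst hmx
      have n1 : ¬ c y.1 < c z.1 := fun h =>
        hm2 y hy ((hc2 y.1 (hxu y hy) z.1 (hxu z hz)).2 h)
      have n2 := hmin z hz
      exact Subtype.ext (hc1 z.1 (hxu z hz) y.1 (hxu y hy) (le_antisymm (not_lt.1 n1) (not_lt.1 n2)))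

end Pool.Agent.SC
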