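import Pool.Agent.Lib_helper73.SCL.RFL
import Pool.Agent.Lib_helper73.SCL.SAT
import Pool.Agent.Lib_helper73.SCL.ZF

/-!
# Block LIN
-/

set_option autoImplicit false
set_option linter.unusedSectionVars false

namespace Pool.Agent.SC

open FirstOrder Pool.Agent.Lib_helper27 Pool.Agent.Lib_helper27.ST

universe u v w

variable {A : Set ZFSet.{0}}

theorem LIN_layer_mono {δ δ' : Ordinal.{0}} (h : δ ≤ δ') {x : ZFSet.{0}} (hx : x ∈ layer A δ) :
    x ∈ layer A δ' := by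
  obtain ⟨ξ, hξ, h'⟩ := mem_layer.1 hx
  exact mem_layer.2 ⟨ξ, hξ.trans_le h, h'⟩

theorem LIN_layer_sub {δ : Ordinal.{0}} {x : ZFSet.{0}} (hx : x ∈ layer A δ) : x ∈ LA A := by
  obtain ⟨ξ, -, h'⟩ := mem_layer.1 hx
  exact ⟨ξ, h'⟩

theorem LIN_sep (k : ℕ) (φ : Fm (k + 1)) (p : Fin k → LA A) (a : LA A) :
    ZFSet.sep (fun z => ∃ h : z ∈ LA A, Sat (LA A) φ
      (Fin.snoc p (⟨z, h⟩ : LA A) : Fin (k + 1) → LA A)) a.1 ∈ LA A := by
  -- a layer which contains all parameters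
  obtain ⟨θ, hθ⟩ : ∃ θ : Ordinal.{0}, a.1 ∈ layer A θ ∧ ∀ i, (p i).1 ∈ layer A θ := by
    obtain ⟨θ, hθ⟩ := LA_cover (A := A)
      (ZFSet.range (fun i : Option (Fin k) => (i.elim a.1 fun i => (p i).1 : ZFSet.{0}))) (by
        intro y hy
        rw [ZFSet.mem_range] at hy
        obtain ⟨i, rfl⟩ := hy
        cases i with
        | none => exact a.2
        | some i => exact (p i).2)
    refine ⟨θ, hθ (ZFSet.mem_range.2 ⟨none, rfl⟩), fun i => hθ (ZFSet.mem_range.2 ⟨some i, rfl⟩)⟩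
  obtain ⟨δ, -, hδ, hsub, hel⟩ := reflect (LA A) (fun δ => {x | x ∈ layer A δ})
    (fun δ δ' h x hx => LIN_layer_mono h hx)
    (fun δ => (inferInstance : Small.{0} {x // x ∈ layer A δ}))
    (by
      intro d _ x hx
      obtain ⟨ξ, hξ, h'⟩ := mem_layer.1 (show x ∈ layer A (⨆ n, d n) from hx)
      obtain ⟨n, hn⟩ := (Ordinal.lt_iSup_iff).1 hξ
      exact Set.mem_iUnion.2 ⟨n, mem_layer.2 ⟨ξ, hn, h'⟩⟩)
    (by
      ext x
      constructor
      · rintro ⟨ξ, rfl⟩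
        exact Set.mem_iUnion.2 ⟨Order.succ ξ, mem_layer.2 ⟨ξ, Order.lt_succ ξ, rfl⟩⟩
      · intro hx
        obtain ⟨δ, hδ⟩ := Set.mem_iUnion.1 hx
        exact LIN_layer_sub hδ)
    ⟨1, en A 0, mem_layer.2 ⟨0, by simp, rfl⟩⟩ Set.univ
    (fun θ => ⟨Order.succ θ, trivial, Order.lt_succ θ⟩) (fun _ _ _ => trivial) θ
  have ha : a.1 ∈ layer A δ := LIN_layer_mono hδ.le hθ.1
  have hp : ∀ i, (p i).1 ∈ layer A δ := fun i => LIN_layer_mono hδ.le (hθ.2 i)
  have hD := LA_sat (LA_layer (A := A) δ) layer_trans φ (fun i => ⟨(p i).1, hp i⟩)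
  have hD2 := LA_inter hD a.2
  convert hD2 using 1
  ext z
  rw [ZFSet.mem_sep, ZFSet.mem_inter, ZFSet.mem_sep]
  have hsnoc : ∀ (h : z ∈ layer A δ) (h' : z ∈ LA A),
      (fun i => Set.inclusion hsub ((Fin.snoc (fun i => ⟨(p i).1, hp i⟩)
        (⟨z, h⟩ : {x : ZFSet.{0} | x ∈ layer A δ}) :
        Fin (k + 1) → {x : ZFSet.{0} | x ∈ layer A δ}) i)) =
        (Fin.snoc p (⟨z, h'⟩ : LA A) : Fin (k + 1) → LA A) := by
    intro h h'
    funext i
    refine Fin.lastCases ?_ (fun i => ?_) i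
    · simp
    · simp
  constructor
  · rintro ⟨hz, h', hs⟩
    have hzδ : z ∈ layer A δ := layer_trans.subset_of_mem ha hz
    refine ⟨⟨hzδ, hzδ, ?_⟩, hz⟩
    rw [hel, hsnoc hzδ h']
    exact hs
  · rintro ⟨⟨-, hzδ, hs⟩, hz⟩
    refine ⟨hz, LIN_layer_sub hzδ, ?_⟩
    rw [hel, hsnoc hzδ (LIN_layer_sub hzδ)] at hs
    exact hs

instance LA_inner : Inner (LA A) := by
  refine inner_of (LA A) (fun x hx y hy => LA_trans hx hy) ⟨en A 0, 0, rfl⟩ LIN_sep ?_ ?_
  · intro x hx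
    obtain ⟨δ, hδ⟩ := LA_cover x hx
    exact ⟨layer A δ, LA_layer δ, hδ⟩
  · intro x hx
    obtain ⟨δ, hδ⟩ := LA_cover (A := A) x (fun y hy => LA_trans hx hy)
    obtain ⟨r, hr, hr'⟩ := LA_wo (A := A) δ
    have hne : ∀ a ∈ x, {η | en A η = a}.Nonempty := by
      intro a ha
      obtain ⟨ξ, -, h⟩ := mem_layer.1 (hδ ha)
      exact ⟨ξ, h⟩
    have hc : ∀ a ∈ x, en A (sInf {η | en A η = a}) = a := fun a ha => csInf_mem (hne a ha)
    have hlt : ∀ a ∈ x, sInf {η | en A η = a} < δ := by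
      intro a ha
      obtain ⟨ξ, h1, h⟩ := mem_layer.1 (hδ ha)
      exact (csInf_le' (show ξ ∈ {η | en A η = a} from h)).trans_lt h1
    have hmin : ∀ a, ∀ j < sInf {η | en A η = a}, en A j ≠ a := by
      intro a j hj h
      exact absurd (csInf_le' (show j ∈ {η | en A η = a} from h)) (not_le.2 hj)
    refine ⟨r, hr, fun z => sInf {η | en A η = z}, ?_, ?_⟩
    · intro a ha b hb h
      rw [← hc a ha, ← hc b hb]
      exact congrArg (en A) h
    · intro a ha b hb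
      rw [hr']
      constructor
      · rintro ⟨ι, ι', h1, -, h3, h4⟩
        obtain ⟨rfl, rfl⟩ := ZFSet.pair_inj.1 h4
        have h5 : sInf {η | en A η = en A ι} ≤ ι := csInf_le' (show ι ∈ {η | _} from rfl)
        have h6 : ι' ≤ sInf {η | en A η = en A ι'} := by
          by_contra hcon
          exact h3 _ (not_le.1 hcon) (hc _ hb)
        exact (h5.trans_lt h1).trans_le h6
      · intro h
        refine ⟨_, _, h, hlt b hb, ?_, ?_⟩
        · intro j hj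
          rw [hc b hb]
          exact hmin b j hj
        · rw [hc a ha, hc b hb]

end Pool.Agent.SC
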