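import Pool.Agent.Lib_helper73.SCL.IDefs
import Pool.Agent.Lib_helper73.SCL.LIN

set_option linter.unusedSectionVars false

namespace Pool.Agent.SC

open FirstOrder Pool.Agent.Lib_helper27 Pool.Agent.Lib_helper27.ST

universe u v w

instance (S : MSys) : Inner S.V := LA_inner

/-- The least code of a set. -/
noncomputable def cod {S : MSys} (x : S.V) : Ordinal.{0} := sInf {η | en S.A η = x.1}

end Pool.Agent.SC
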