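import Pool.Agent.Lib_helper73.SCL.Base

/-!
# Definitions: fully elementary cardinals, limit points, blocks
-/

namespace Pool.Agent.SC

open FirstOrder Pool.Agent.Lib_helper27 Pool.Agent.Lib_helper27.ST

/-- `β` is a strong limit cardinal of `V` and `H_β` is a full elementary substructure of `V`. -/
def CInf (V : Set ZFSet.{0}) (β : Ordinal.{0}) : Prop :=
  StrongLimit V β ∧ ∃ h : HSet V β ⊆ V, ∀ (k : ℕ) (φ : Fm k) (xs : Fin k → HSet V β),
    Sat (HSet V β) φ xs ↔ Sat V φ (fun i => Set.inclusion h (xs i))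

/-- `V` has a definable injection of the universe into the ordinals. -/
class GW (V : Set ZFSet.{0}) [Inner V] : Prop where
  out : ∃ c : V → Ordinal.{0}, Function.Injective c ∧ Dbl V c

/-- The class of all `α` such that `(1, α, β)` is in the stability predicate for unboundedly
many `β`. -/
def YS (V : Set ZFSet.{0}) : Set Ordinal.{0} := {α | ∀ γ, ∃ β, γ < β ∧ triple 1 α β ∈ Stab V}

/-- The least limit point of `Y` greater than `α`. -/
noncomputable def lmp (Y : Set Ordinal.{0}) (α : Ordinal.{0}) : Ordinal.{0} :=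
  sInf {l | α < l ∧ ∀ θ < l, ∃ y ∈ Y, θ < y ∧ y < l}

/-- The limits of the successive `ω`-blocks of `Y` above `ν`. -/
noncomputable def Lam (Y : Set Ordinal.{0}) (ν : Ordinal.{0}) : Ordinal.{0} → Ordinal.{0} :=
  Ordinal.lt_wf.fix fun i f => lmp Y (max ν (⨆ j : Set.Iio i, f j.1 j.2))

/-- The supremum of the limits of the first `i` blocks. -/
noncomputable def Mu (Y : Set Ordinal.{0}) (ν i : Ordinal.{0}) : Ordinal.{0} :=
  ⨆ j : Set.Iio i, Lam Y ν j.1

/-- The index of the block containing `s`. -/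
noncomputable def blk (Y : Set Ordinal.{0}) (ν s : Ordinal.{0}) : Ordinal.{0} :=
  sInf {i | s < Lam Y ν i}

/-- `l` is a limit point of `Y`. -/
def IsLmp (Y : Set Ordinal.{0}) (l : Ordinal.{0}) : Prop := 0 < l ∧ ∀ θ < l, ∃ y ∈ Y, θ < y ∧ y < l

end Pool.Agent.SC
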