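import Pool.Agent.Lib_helper73.SCL.ABS
import Pool.Agent.Lib_helper73.SCL.ADB_a
import Pool.Agent.Lib_helper73.SCL.SDefs

/-! Block ADB: the measures in `L[A]`. -/

set_option linter.unusedSectionVars false

namespace Pool.Agent.SC

open FirstOrder Pool.Agent.Lib_helper27 Pool.Agent.Lib_helper27.ST

universe u v w

theorem A_dbl (S : MSys) : Dbl S.V (fun x : S.V => x.1 ∈ S.A) := by
  let a : S.V := ST.prod (oo S.V (Order.succ S.κ)) (ST.power (oo S.V S.κ))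
  let b : S.V := ⟨ZFSet.sep (· ∈ S.A) a.1, LA_sepA a.2⟩
  refine Dbl.congr_prop (p := fun x : S.V => x ∈ b) (by fun_prop) fun x => ?_
  show x.1 ∈ S.A ↔ x.1 ∈ ZFSet.sep (· ∈ S.A) a.1
  rw [ZFSet.mem_sep]
  refine ⟨fun h => ⟨?_, h⟩, fun h => h.2⟩
  obtain ⟨i, X, hi, hx, hX, -⟩ := h
  have hm : ZFSet.pair i.toZFSet X ∈ S.V := hx ▸ x.2
  have hXV : X ∈ S.V := (pair_mem_iff.1 hm).2
  have hxe : x = opair (oo S.V i) ⟨X, hXV⟩ := Subtype.ext (by rw [val_opair, hx]; rfl)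
  show x ∈ a
  rw [hxe, opair_mem_prod, mem_power]
  refine ⟨oo_mem.2 (Order.lt_succ_iff.2 hi), fun v hv => ?_⟩
  exact hX hv

theorem en_dblV (S : MSys) {Γ : Type v} [Ctx S.V Γ] {a : Γ → Ordinal.{0}} (ha : Dbl S.V a) :
    Dbl S.V (fun γ => (⟨en S.A (a γ), Set.mem_range_self _⟩ : S.V)) := by
  obtain ⟨h, hd⟩ := en_dbl (V := S.V) (A_dbl S)
  exact dbl_app' (F := fun α => (⟨en S.A α, Set.mem_range_self _⟩ : S.V)) hd ha

theorem cod_spec {S : MSys} (x : S.V) :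
    en S.A (cod x) = x.1 ∧ ∀ η, en S.A η = x.1 → cod x ≤ η := by
  have hne : {η | en S.A η = x.1}.Nonempty := x.2
  exact ⟨csInf_mem hne, fun η h => csInf_le' h⟩

@[fun_prop] theorem cod_dbl {S : MSys} {Γ : Type v} [Ctx S.V Γ] {f : Γ → S.V} (hf : Dbl S.V f) :
    Dbl S.V (fun γ => cod (f γ)) := by
  unfold cod
  refine dbl_sInf (P := fun γ η => en S.A η = (f γ).1) ?_
  have h1 : Dbl S.V (fun z : Γ × S.V => (⟨en S.A (rk z.2), Set.mem_range_self _⟩ : S.V)) :=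
    en_dblV S (dbl_rk Dbl.snd)
  have h2 : Dbl S.V (fun z : Γ × S.V => f z.1) := Dbl.comp Dbl.fst hf
  exact (Dbl.eq h1 h2).congr_prop fun z =>
    ⟨fun h => Subtype.ext h, fun h => congrArg Subtype.val h⟩

instance GW_pr (S : MSys) : GW S.V := by
  refine ⟨⟨cod, fun x y h => ?_, cod_dbl Dbl.id⟩⟩
  apply Subtype.ext
  rw [← (cod_spec x).1, ← (cod_spec y).1, h]

/-- Definability of the measure quantifier. -/
theorem dbl_ev {S : MSys} {Γ : Type v} [Ctx S.V Γ] {i : Γ → Ordinal.{0}}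
    {P : Γ → Ordinal.{0} → Prop} (hi : Dbl S.V i) (hle : ∀ γ, i γ ≤ S.κ)
    (hP : Dbl S.V (fun z : Γ × S.V => P z.1 (rk z.2))) :
    Dbl S.V (fun γ => ∀ᶠ ξ : Set.Iio S.κ in S.U (i γ), P γ ξ.1) := by
  have hsm : ∀ γ, Small (fun x : S.V => x ∈ oo S.V S.κ ∧ P γ (rk x)) := by
    intro γ
    refine small_sep (D := fun x : S.V => P γ (rk x)) ?_ _
    exact Dbl.comp (f := fun x : S.V => (γ, x)) (g := fun z : Γ × S.V => P z.1 (rk z.2))
      (by fun_prop) hP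
  have hX : Dbl S.V (fun γ => comp (fun x : S.V => x ∈ oo S.V S.κ ∧ P γ (rk x))) := by
    refine dbl_comp hsm ?_
    exact Dbl.and (by fun_prop) hP
  have hA := A_dbl S
  have h1 : Dbl S.V (fun γ => opair (oo S.V (i γ))
      (comp (fun x : S.V => x ∈ oo S.V S.κ ∧ P γ (rk x)))) :=
    dbl_opair (dbl_oo hi) hX
  refine (Dbl.comp h1 hA).congr_prop fun γ => ?_
  rw [val_opair]
  have hmem : ∀ ξ : Set.Iio S.κ, ξ.1.toZFSet ∈
      (comp (fun x : S.V => x ∈ oo S.V S.κ ∧ P γ (rk x))).1 ↔ P γ ξ.1 := by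
    intro ξ
    have h2 := mem_comp (hsm γ) (x := oo S.V ξ.1)
    rw [rk_oo, oo_mem] at h2
    exact h2.trans ⟨fun h => h.2, fun h => ⟨ξ.2, h⟩⟩
  have hset : {ξ : Set.Iio S.κ | ξ.1.toZFSet ∈
      (comp (fun x : S.V => x ∈ oo S.V S.κ ∧ P γ (rk x))).1} =
      {ξ : Set.Iio S.κ | P γ ξ.1} := Set.ext hmem
  constructor
  · intro h
    refine ⟨i γ, _, hle γ, rfl, fun v hv => ?_, ?_⟩
    · have hvV : v ∈ S.V := Inner.trans _ (Subtype.property _) v hv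
      exact ((mem_comp (hsm γ) (x := ⟨v, hvV⟩)).1 hv).1
    · show {ξ : Set.Iio S.κ | ξ.1.toZFSet ∈ _} ∈ S.U (i γ)
      rw [hset]
      exact h
  · rintro ⟨i', X, -, hp, -, hU⟩
    obtain ⟨h2, rfl⟩ := ZFSet.pair_inj.1 hp
    have h3 : i γ = i' := Ordinal.toZFSet_injective h2
    subst h3
    have hU' : {ξ : Set.Iio S.κ | ξ.1.toZFSet ∈
      (comp (fun x : S.V => x ∈ oo S.V S.κ ∧ P γ (rk x))).1} ∈ S.U (i γ) := hU
    rw [hset] at hU'
    exact hU'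

/-- `kap i` is the least `v` with `v ∈ U i`. -/
theorem kap_dbl {S : MSys} {Γ : Type v} [Ctx S.V Γ] {i : Γ → Ordinal.{0}} (hi : Dbl S.V i)
    (hle : ∀ γ, i γ ≤ S.κ) : Dbl S.V (fun γ => S.kap (i γ)) := by
  have key : (fun γ => S.kap (i γ)) =
      fun γ => sInf {v | ∀ᶠ ξ : Set.Iio S.κ in S.U (i γ), ξ.1 < v} := by
    funext γ
    apply le_antisymm
    · refine le_csInf ⟨S.kap (i γ), S.conc _ (hle γ)⟩ fun v hv => ?_
      by_contra hlt
      have hlt : v < S.kap (i γ) := not_le.1 hlt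
      have h1 := S.tail _ (hle γ) v hlt
      obtain ⟨ξ, h2, h3⟩ := (Filter.Eventually.and hv h1).exists
      exact lt_asymm h2 h3
    · exact csInf_le' (S.conc _ (hle γ))
  rw [key]
  refine dbl_sInf (P := fun γ v => ∀ᶠ ξ : Set.Iio S.κ in S.U (i γ), ξ.1 < v) ?_
  refine dbl_ev (i := fun z : Γ × S.V => i z.1)
    (P := fun (z : Γ × S.V) (ξ : Ordinal.{0}) => ξ < rk z.2) (Dbl.comp Dbl.fst hi)
    (fun z => hle z.1) ?_
  fun_prop

end Pool.Agent.SC
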