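import Pool.Agent.Lib_helper73.SCL.FFC

set_option linter.unusedSectionVars false

namespace Pool.Agent.SC

open FirstOrder Pool.Agent.Lib_helper27 Pool.Agent.Lib_helper27.ST

universe u v w

variable {S : MSys}

section QQ

variable {sc : Scr S} {c c' : Finset Ordinal.{0}} {φ ψ : Asg S → Prop} {m : Ordinal.{0}}

theorem QQ_empty : sc.QQ ∅ φ = φ := by
  rw [Scr.QQ]
  simp

theorem qqb_max (hm : ∀ t ∈ c, t < m) (h : (insert m c).Nonempty) : (insert m c).max' h = m := by
  apply le_antisymm
  · apply Finset.max'_le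
    intro y hy
    rcases Finset.mem_insert.1 hy with rfl | hy
    · exact le_rfl
    · exact (hm y hy).le
  · exact Finset.le_max' _ _ (Finset.mem_insert_self _ _)

theorem qqb_notMem (hm : ∀ t ∈ c, t < m) : m ∉ c := fun h => lt_irrefl _ (hm m h)

theorem QQ_insert (hm : ∀ t ∈ c, t < m) : sc.QQ (insert m c) φ = sc.QQ c (sc.It m φ) := by
  rw [Scr.QQ]
  have h : (insert m c).Nonempty := Finset.insert_nonempty _ _
  rw [dif_pos h]
  have e1 : (insert m c).max' h = m := qqb_max hm h
  rw [e1]
  congr 1
  ext t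
  simp only [Finset.mem_erase, Finset.mem_insert]
  constructor
  · rintro ⟨h1, h2 | h2⟩
    · exact absurd h2 h1
    · exact h2
  · intro h1
    refine ⟨fun e => ?_, Or.inr h1⟩
    subst e
    exact qqb_notMem hm h1

theorem qqb_It_not (m : Ordinal.{0}) (φ : Asg S → Prop) :
    sc.It m (fun z => ¬ φ z) = fun z => ¬ sc.It m φ z := by
  funext z
  exact propext Ultrafilter.eventually_not

theorem qqb_It_and (m : Ordinal.{0}) (φ ψ : Asg S → Prop) :
    sc.It m (fun z => φ z ∧ ψ z) = fun z => sc.It m φ z ∧ sc.It m ψ z := by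
  funext z
  exact propext Filter.eventually_and

theorem qqb_not (c : Finset Ordinal.{0}) : ∀ φ : Asg S → Prop,
    sc.QQ c (fun z => ¬ φ z) = fun z => ¬ sc.QQ c φ z := by
  induction c using Finset.induction_on_max with
  | empty => intro φ; rw [QQ_empty, QQ_empty]
  | insert m c hm ih =>
    intro φ
    rw [QQ_insert hm, QQ_insert hm, qqb_It_not, ih]

theorem qqb_and (c : Finset Ordinal.{0}) : ∀ φ ψ : Asg S → Prop,
    sc.QQ c (fun z => φ z ∧ ψ z) = fun z => sc.QQ c φ z ∧ sc.QQ c ψ z := by
  induction c using Finset.induction_on_max with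
  | empty => intro φ ψ; rw [QQ_empty, QQ_empty, QQ_empty]
  | insert m c hm ih =>
    intro φ ψ
    rw [QQ_insert hm, QQ_insert hm, QQ_insert hm, qqb_It_and, ih]

theorem QQ_not (z : Asg S) : sc.QQ c (fun z => ¬ φ z) z ↔ ¬ sc.QQ c φ z := by
  rw [qqb_not]

theorem QQ_and (z : Asg S) :
    sc.QQ c (fun z => φ z ∧ ψ z) z ↔ sc.QQ c φ z ∧ sc.QQ c ψ z := by
  rw [qqb_and]

theorem qqb_mono (c : Finset Ordinal.{0}) : ∀ φ ψ : Asg S → Prop, (∀ z, φ z → ψ z) →
    ∀ z, sc.QQ c φ z → sc.QQ c ψ z := by
  induction c using Finset.induction_on_max with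
  | empty => intro φ ψ h z; rw [QQ_empty, QQ_empty]; exact h z
  | insert m c hm ih =>
    intro φ ψ h z
    rw [QQ_insert hm, QQ_insert hm]
    exact ih _ _ (fun z hz => Filter.Eventually.mono hz fun ξ => h _) z

theorem QQ_mono (h : ∀ z, φ z → ψ z) {z : Asg S} (hz : sc.QQ c φ z) : sc.QQ c ψ z :=
  qqb_mono c φ ψ h z hz

theorem qqb_g (m : Ordinal.{0}) {z z' : Asg S} (h : ∀ s ∈ sc.b m, z s = z' s) :
    sc.g m z = sc.g m z' :=
  FF.supp (sc.g_ff m) z z' h

/-- integration removes the coordinate `m` from the support -/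
theorem It_supp (hm : ∀ t ∈ c, t < m) (hb : sc.b m ⊆ c) (hs : Supp (insert m c) φ) :
    Supp c (sc.It m φ) := by
  intro z z' h
  unfold Scr.It
  rw [qqb_g m fun s hs' => h s (hb hs')]
  have e : (fun ξ => φ (Function.update z m ξ)) = fun ξ => φ (Function.update z' m ξ) := by
    funext ξ
    apply hs
    intro s hs'
    by_cases hsm : s = m
    · subst hsm
      simp
    · rw [Function.update_of_ne hsm, Function.update_of_ne hsm]
      rcases Finset.mem_insert.1 hs' with h1 | h1
      · exact absurd h1 hsm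
      · exact h s h1
  rw [e]

theorem qqb_cl_of_insert (hm : ∀ t ∈ c, t < m) (h : sc.Cl (insert m c)) :
    sc.Cl c ∧ sc.b m ⊆ c := by
  constructor
  · intro s hs t ht
    have h1 := h s (Finset.mem_insert_of_mem hs) ht
    rcases Finset.mem_insert.1 h1 with h2 | h2
    · exfalso
      have := sc.b_lt s t ht
      have := hm s hs
      rw [h2] at *
      exact lt_asymm this (by assumption)
    · exact h2
  · intro t ht
    have h1 := h m (Finset.mem_insert_self _ _) ht
    rcases Finset.mem_insert.1 h1 with h2 | h2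
    · exfalso
      have := sc.b_lt m t ht
      rw [h2] at this
      exact lt_irrefl _ this
    · exact h2

theorem qqb_supp (c : Finset Ordinal.{0}) : ∀ φ : Asg S → Prop, sc.Cl c → Supp c φ →
    ∀ z z', sc.QQ c φ z → sc.QQ c φ z' := by
  induction c using Finset.induction_on_max with
  | empty =>
    intro φ _ hs z z'
    rw [QQ_empty, hs z z' (by simp)]
    exact id
  | insert m c hm ih =>
    intro φ hc hs z z'
    rw [QQ_insert hm]
    obtain ⟨h1, h2⟩ := qqb_cl_of_insert hm hc
    exact ih _ h1 (It_supp hm h2 hs) z z'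

theorem QQ_supp (hc : sc.Cl c) (hs : Supp c φ) {z z' : Asg S} (h : sc.QQ c φ z) :
    sc.QQ c φ z' :=
  qqb_supp c φ hc hs z z' h

theorem qqb_It_eq (hm : m ∉ c) (hs : Supp c φ) : sc.It m φ = φ := by
  funext z
  unfold Scr.It
  have e : (fun ξ => φ (Function.update z m ξ)) = fun _ => φ z := by
    funext ξ
    apply hs
    intro s hs'
    rw [Function.update_of_ne]
    rintro rfl
    exact hm hs'
  rw [e, Filter.eventually_const]

theorem qqb_sub (c' : Finset Ordinal.{0}) : ∀ (c : Finset Ordinal.{0}) (φ : Asg S → Prop),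
    sc.Cl c → sc.Cl c' → c ⊆ c' → Supp c φ → sc.QQ c' φ = sc.QQ c φ := by
  induction c' using Finset.induction_on_max with
  | empty =>
    intro c φ _ _ h _
    rw [Finset.subset_empty.1 h]
  | insert m c' hm ih =>
    intro c φ hc hc' h hs
    obtain ⟨h1, h2⟩ := qqb_cl_of_insert hm hc'
    by_cases hmc : m ∈ c
    · have hlt : ∀ t ∈ c.erase m, t < m := by
        intro t ht
        rw [Finset.mem_erase] at ht
        rcases Finset.mem_insert.1 (h ht.2) with h3 | h3
        · exact absurd h3 ht.1
        · exact hm t h3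
      have he : insert m (c.erase m) = c := Finset.insert_erase hmc
      have hc2 : sc.Cl (insert m (c.erase m)) := by rw [he]; exact hc
      obtain ⟨h4, h5⟩ := qqb_cl_of_insert hlt hc2
      have hs2 : Supp (insert m (c.erase m)) φ := by rw [he]; exact hs
      have e1 : sc.QQ c φ = sc.QQ (c.erase m) (sc.It m φ) := by
        rw [← QQ_insert hlt, he]
      rw [e1, QQ_insert hm]
      refine ih _ _ h4 h1 ?_ (It_supp hlt h5 hs2)
      intro t ht
      rw [Finset.mem_erase] at ht
      rcases Finset.mem_insert.1 (h ht.2) with h3 | h3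
      · exact absurd h3 ht.1
      · exact h3
    · rw [QQ_insert hm, qqb_It_eq hmc hs]
      refine ih _ _ hc h1 ?_ hs
      intro t ht
      rcases Finset.mem_insert.1 (h ht) with h3 | h3
      · subst h3
        exact absurd ht hmc
      · exact h3

theorem QQ_sub (hc : sc.Cl c) (hc' : sc.Cl c') (h : c ⊆ c') (hs : Supp c φ) (z : Asg S) :
    sc.QQ c' φ z ↔ sc.QQ c φ z := by
  rw [qqb_sub c' c φ hc hc' h hs]

theorem qqb_split (s : Ordinal.{0}) (c : Finset Ordinal.{0}) : ∀ φ : Asg S → Prop,
    sc.QQ c φ = sc.QQ (c.filter (· < s)) (sc.QQ (c.filter (s ≤ ·)) φ) := by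
  induction c using Finset.induction_on_max with
  | empty =>
    intro φ
    simp [QQ_empty]
  | insert m c hm ih =>
    intro φ
    by_cases hms : m < s
    · have e1 : (insert m c).filter (· < s) = insert m c := by
        rw [Finset.filter_eq_self]
        intro t ht
        rcases Finset.mem_insert.1 ht with rfl | ht
        · exact hms
        · exact (hm t ht).trans hms
      have e2 : (insert m c).filter (s ≤ ·) = ∅ := by
        rw [Finset.filter_eq_empty_iff]
        intro t ht
        rw [not_le]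
        rcases Finset.mem_insert.1 ht with rfl | ht
        · exact hms
        · exact (hm t ht).trans hms
      rw [e1, e2, QQ_empty]
    · have e1 : (insert m c).filter (· < s) = c.filter (· < s) := by
        rw [Finset.filter_insert, if_neg hms]
      have e2 : (insert m c).filter (s ≤ ·) = insert m (c.filter (s ≤ ·)) := by
        rw [Finset.filter_insert, if_pos (not_lt.1 hms)]
      rw [e1, e2, QQ_insert hm, QQ_insert, ih]
      intro t ht
      exact hm t (Finset.mem_filter.1 ht).1

/-- splitting at `s` -/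
theorem QQ_split (s : Ordinal.{0}) : sc.QQ c φ = sc.QQ (c.filter (· < s))
    (sc.QQ (c.filter (s ≤ ·)) φ) :=
  qqb_split s c φ

end QQ

end Pool.Agent.SC
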