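import Pool.Agent.Lib_helper73.SCL.FSC
import Pool.Agent.Lib_helper73.SCL.QQB

set_option linter.unusedSectionVars false

namespace Pool.Agent.SC

open FirstOrder Pool.Agent.Lib_helper27 Pool.Agent.Lib_helper27.ST

universe u v w

variable {S : MSys}

section QQ

variable {sc : Scr S} {c c' : Finset Ordinal.{0}} {φ ψ : Asg S → Prop} {m : Ordinal.{0}}

theorem aeb_pos (S : MSys) : 0 < S.κ := by
  rw [← S.kap_top]
  by_contra h
  have h0 : S.kap S.κ = 0 := nonpos_iff_eq_zero.1 (not_lt.1 h)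
  have h1 := S.unc S.κ le_rfl
  rw [h0, Ordinal.card_zero] at h1
  exact absurd h1 (not_lt.2 zero_le)

/-- some assignment -/
def aeb_z (S : MSys) : Asg S := fun _ => ⟨0, aeb_pos S⟩

theorem AE_iff (hc : sc.Cl c) (hs : Supp c φ) (z : Asg S) : sc.AE φ ↔ sc.QQ c φ z := by
  constructor
  · rintro ⟨c1, hc1, hs1, h1⟩
    have hu : sc.Cl (c ∪ c1) := Cl_union hc hc1
    have e1 := QQ_sub hc hu Finset.subset_union_left hs z
    have e2 := QQ_sub hc1 hu Finset.subset_union_right hs1 z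
    exact e1.1 (e2.2 (h1 z))
  · intro h
    exact ⟨c, hc, hs, fun z' => QQ_supp hc hs h⟩

theorem aeb_supp_mono (hs : Supp c φ) (h : c ⊆ c') : Supp c' φ :=
  fun z z' hz => hs z z' fun s hs' => hz s (h hs')

theorem aeb_supp_not (hs : Supp c φ) : Supp c (fun z => ¬ φ z) :=
  fun z z' hz => congrArg Not (hs z z' hz)

theorem aeb_supp_and (hs : Supp c φ) (hs' : Supp c ψ) : Supp c (fun z => φ z ∧ ψ z) :=
  fun z z' hz => congrArg₂ And (hs z z' hz) (hs' z z' hz)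

theorem aeb_supp_or (hs : Supp c φ) (hs' : Supp c ψ) : Supp c (fun z => φ z ∨ ψ z) :=
  fun z z' hz => congrArg₂ Or (hs z z' hz) (hs' z z' hz)

theorem AE_not (h : sc.Fs φ) : sc.AE (fun z => ¬ φ z) ↔ ¬ sc.AE φ := by
  obtain ⟨c, hc, hs⟩ := h
  rw [AE_iff hc hs (aeb_z S), AE_iff hc (aeb_supp_not hs) (aeb_z S), QQ_not]

theorem AE_and (h : sc.Fs φ) (h' : sc.Fs ψ) :
    sc.AE (fun z => φ z ∧ ψ z) ↔ sc.AE φ ∧ sc.AE ψ := by
  obtain ⟨c, hc, hs⟩ := h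
  obtain ⟨c', hc', hs'⟩ := h'
  have hu : sc.Cl (c ∪ c') := Cl_union hc hc'
  have h1 : Supp (c ∪ c') φ := aeb_supp_mono hs Finset.subset_union_left
  have h2 : Supp (c ∪ c') ψ := aeb_supp_mono hs' Finset.subset_union_right
  rw [AE_iff hu (aeb_supp_and h1 h2) (aeb_z S), AE_iff hu h1 (aeb_z S),
    AE_iff hu h2 (aeb_z S), QQ_and]

theorem aeb_fs_not (h : sc.Fs φ) : sc.Fs (fun z => ¬ φ z) := by
  obtain ⟨c, hc, hs⟩ := h
  exact ⟨c, hc, aeb_supp_not hs⟩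

theorem AE_or (h : sc.Fs φ) (h' : sc.Fs ψ) :
    sc.AE (fun z => φ z ∨ ψ z) ↔ sc.AE φ ∨ sc.AE ψ := by
  have e : (fun z => φ z ∨ ψ z) = fun z => ¬ (¬ φ z ∧ ¬ ψ z) := by
    funext z
    exact propext (by tauto)
  have hand : sc.Fs (fun z => ¬ φ z ∧ ¬ ψ z) := by
    obtain ⟨c, hc, hs⟩ := h
    obtain ⟨c', hc', hs'⟩ := h'
    exact ⟨c ∪ c', Cl_union hc hc', aeb_supp_and
      (aeb_supp_not (aeb_supp_mono hs Finset.subset_union_left))
      (aeb_supp_not (aeb_supp_mono hs' Finset.subset_union_right))⟩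
  rw [e, AE_not hand, AE_and (aeb_fs_not h) (aeb_fs_not h'), AE_not h, AE_not h']
  tauto

theorem AE_mono (h' : sc.Fs ψ) (hφ : sc.AE φ) (h : ∀ z, φ z → ψ z) : sc.AE ψ := by
  obtain ⟨c', hc', hs'⟩ := h'
  obtain ⟨c, hc, hs, h1⟩ := hφ
  have hu : sc.Cl (c ∪ c') := Cl_union hc hc'
  have h2 : Supp (c ∪ c') ψ := aeb_supp_mono hs' Finset.subset_union_right
  rw [AE_iff hu h2 (aeb_z S)]
  exact QQ_mono h ((QQ_sub hc hu Finset.subset_union_left hs _).2 (h1 _))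

theorem AE_fs (h : sc.AE φ) : sc.Fs φ := by
  obtain ⟨c, hc, hs, _⟩ := h
  exact ⟨c, hc, hs⟩

theorem AE_mp (h' : sc.Fs ψ) (hφ : sc.AE φ) (h : sc.AE fun z => φ z → ψ z) : sc.AE ψ :=
  AE_mono h' ((AE_and (AE_fs hφ) (AE_fs h)).2 ⟨hφ, h⟩) fun _ hz => hz.2 hz.1

theorem aeb_cl_empty : sc.Cl ∅ := fun s hs => absurd hs (Finset.notMem_empty s)

theorem AE_all (h : ∀ z, φ z) : sc.AE φ := by
  refine ⟨∅, aeb_cl_empty, fun z z' _ => propext ⟨fun _ => h z', fun _ => h z⟩, fun z => ?_⟩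
  rw [QQ_empty]
  exact h z

theorem AE_const (p : Prop) : sc.AE (fun _ => p) ↔ p := by
  rw [AE_iff (c := ∅) aeb_cl_empty (fun _ _ _ => rfl) (aeb_z S), QQ_empty]

theorem AE_exists (h : sc.AE φ) : ∃ z, φ z := by
  by_contra hn
  have h1 : sc.AE (fun z => ¬ φ z) := AE_all fun z hz => hn ⟨z, hz⟩
  exact (AE_not (AE_fs h)).1 h1 h

/-- Fubini at the last coordinate -/
theorem AE_insert (hc : sc.Cl c) (hb : sc.b m ⊆ c) (hm : ∀ t ∈ c, t < m)
    (hs : Supp (insert m c) φ) : sc.AE φ ↔ sc.AE (sc.It m φ) := by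
  have hc2 : sc.Cl (insert m c) := by
    intro s h t ht
    rcases Finset.mem_insert.1 h with rfl | h1
    · exact Finset.mem_insert_of_mem (hb ht)
    · exact Finset.mem_insert_of_mem (hc s h1 ht)
  rw [AE_iff hc2 hs (aeb_z S), AE_iff hc (It_supp hm hb hs) (aeb_z S), QQ_insert hm]

end QQ

end Pool.Agent.SC
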