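import Pool.Agent.Lib_helper73.SCL.AEB

/-! # Block SMA: smallness of the ordering of functions -/

set_option linter.unusedSectionVars false

namespace Pool.Agent.SC

open FirstOrder Pool.Agent.Lib_helper27 Pool.Agent.Lib_helper27.ST

universe u v w

variable {S : MSys}

section rho

variable {sc : Scr S} {s t : Ordinal.{0}} {a b : Asg S → Ordinal.{0}}

open Classical in
/-- extension of a partial assignment -/
noncomputable def SMA_ext (x0 : Set.Iio S.κ) (s : Ordinal.{0}) (w : Set.Iio s → Set.Iio S.κ) :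
    Asg S := fun t => if h : t < s then w ⟨t, h⟩ else x0

theorem SMA_ext_eq (x0 : Set.Iio S.κ) {s : Ordinal.{0}} {f : Asg S → Ordinal.{0}}
    (hf : sc.FS s f) (z : Asg S) : f z = f (SMA_ext x0 s fun t => z t.1) := by
  obtain ⟨c, -, hc, hF⟩ := hf
  refine hF.supp _ _ fun t ht => ?_
  unfold SMA_ext
  rw [dif_pos (hc t ht)]

theorem SMA_trunc (ha : sc.FS s a) (hb : sc.FS s b) : ∃ b' : Asg S → Ordinal.{0}, sc.FS s b' ∧
    ∀ z, (b z < a z → b' z = b z) ∧ b' z ≤ a z := by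
  have h1 : sc.FS s (fun z => (oo S.V (a z), oo S.V (b z))) := FS_pair (FS_oo ha) (FS_oo hb)
  obtain ⟨b', h2, h3⟩ := FS_choice_ord (sc := sc) h1
    (P := fun γ α => (rk γ.2 < rk γ.1 ∧ α = rk γ.2) ∨ (¬ rk γ.2 < rk γ.1 ∧ α = 0))
    (by fun_prop)
  refine ⟨b', h2, fun z => ?_⟩
  have h4 := h3 z (by
    by_cases h : rk (oo S.V (b z)) < rk (oo S.V (a z))
    · exact ⟨_, Or.inl ⟨h, rfl⟩⟩
    · exact ⟨0, Or.inr ⟨h, rfl⟩⟩)
  simp only [rk_oo] at h4
  rcases h4 with ⟨h5, h6⟩ | ⟨h5, h6⟩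
  · exact ⟨fun _ => h6, by rw [h6]; exact h5.le⟩
  · exact ⟨fun h => absurd h h5, by rw [h6]; exact bot_le⟩

theorem rlt_small (ha : sc.FS s a) : ∃ (ι : Type) (r : ι → (Asg S → Ordinal.{0})),
    (∀ i, sc.FS s (r i)) ∧ ∀ b, sc.rlt s b a → ∃ i, sc.AE fun z => b z = r i z := by
  obtain ⟨x0⟩ : Nonempty (Set.Iio S.κ) := (S.U 0).neBot.nonempty
  have : Small.{0} (Set.Iio s → Set.Iio S.κ) := small_Pi _
  set θ : Ordinal.{0} := ⨆ w : (Set.Iio s → Set.Iio S.κ), a (SMA_ext x0 s w) with hθ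
  have hle : ∀ z, a z ≤ θ := by
    intro z
    rw [SMA_ext_eq x0 ha z]
    exact Ordinal.le_iSup (fun w : (Set.Iio s → Set.Iio S.κ) => a (SMA_ext x0 s w)) _
  let R : Set (Asg S → Ordinal.{0}) := {f | sc.FS s f ∧ ∀ z, f z ≤ θ}
  have : Small.{0} ((Set.Iio s → Set.Iio S.κ) → Set.Iio (Order.succ θ)) := small_Pi _
  let F : R → ((Set.Iio s → Set.Iio S.κ) → Set.Iio (Order.succ θ)) := fun f w =>
    ⟨f.1 (SMA_ext x0 s w), Order.lt_succ_of_le (f.2.2 _)⟩
  have hF : Function.Injective F := by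
    intro f g hfg
    apply Subtype.ext
    funext z
    have h1 := congrArg (fun H => (H fun t : Set.Iio s => z t.1).1) hfg
    have h2 : f.1 (SMA_ext x0 s fun t => z t.1) = g.1 (SMA_ext x0 s fun t => z t.1) := h1
    rw [SMA_ext_eq x0 f.2.1 z, SMA_ext_eq x0 g.2.1 z, h2]
  have : Small.{0} R := small_of_injective hF
  refine ⟨Shrink.{0} R, fun i => ((equivShrink R).symm i).1, fun i => ((equivShrink R).symm i).2.1,
    fun b hb => ?_⟩
  obtain ⟨b', h1, h2⟩ := SMA_trunc ha hb.1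
  refine ⟨equivShrink R ⟨b', h1, fun z => (h2 z).2.trans (hle z)⟩, ?_⟩
  simp only [Equiv.symm_apply_apply]
  refine AE_mono (FS_fs (FS_eqo hb.1 h1)) hb.2.2 fun z hz => ?_
  exact ((h2 z).1 hz).symm

end rho

end Pool.Agent.SC
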