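import Pool.Agent.Lib_helper73.SCL.SIG
import Pool.Agent.Lib_helper73.SCL.SMA

/-!
# Block RHO: the rank function
-/

set_option linter.unusedSectionVars false

namespace Pool.Agent.SC

open FirstOrder Pool.Agent.Lib_helper27 Pool.Agent.Lib_helper27.ST

universe u v w

variable {S : MSys}

section rho

variable {sc : Scr S} {s t : Ordinal.{0}} {a b : Asg S → Ordinal.{0}}

theorem rlt_wf (sc : Scr S) (s : Ordinal.{0}) : WellFounded (sc.rlt s) := by
  rw [wellFounded_iff_isEmpty_descending_chain]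
  refine ⟨fun ⟨f, hf⟩ => ?_⟩
  obtain ⟨z, hz⟩ := AE_sigma (sc := sc) (φ := fun n z => f (n + 1) z < f n z)
    (fun n => (hf n).2.2)
  exact (wellFounded_iff_isEmpty_descending_chain.1
    (wellFounded_lt (α := Ordinal.{0}))).elim ⟨fun n => f n z, hz⟩

theorem RHO_eq (sc : Scr S) (s : Ordinal.{0}) (a : Asg S → Ordinal.{0}) :
    sc.rho s a = sInf {o | ∀ b, sc.rlt s b a → sc.rho s b < o} := by
  have h := rlt_wf sc s
  unfold Scr.rho
  rw [dif_pos h, h.fix_eq]

theorem RHO_congr (ha : sc.FS s a) (hb : sc.FS s b) (h : sc.AE fun z => a z = b z) :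
    sc.rho s a = sc.rho s b := by
  have key : ∀ c, sc.rlt s c a ↔ sc.rlt s c b := by
    intro c
    constructor
    · rintro ⟨h1, _, h3⟩
      refine ⟨h1, hb, ?_⟩
      have h4 : sc.AE fun z => c z < a z ∧ a z = b z :=
        (AE_and (FS_fs (FS_lt h1 ha)) (FS_fs (FS_eqo ha hb))).2 ⟨h3, h⟩
      exact AE_mono (FS_fs (FS_lt h1 hb)) h4 fun z hz => by rw [← hz.2]; exact hz.1
    · rintro ⟨h1, _, h3⟩
      refine ⟨h1, ha, ?_⟩
      have h4 : sc.AE fun z => c z < b z ∧ a z = b z :=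
        (AE_and (FS_fs (FS_lt h1 hb)) (FS_fs (FS_eqo ha hb))).2 ⟨h3, h⟩
      exact AE_mono (FS_fs (FS_lt h1 ha)) h4 fun z hz => by rw [hz.2]; exact hz.1
  rw [RHO_eq, RHO_eq sc s b]
  congr 1
  ext o
  simp only [Set.mem_ofPred_eq, key]

theorem RHO_nonempty (ha : sc.FS s a) :
    {o | ∀ b, sc.rlt s b a → sc.rho s b < o}.Nonempty := by
  obtain ⟨ι, r, hr1, hr2⟩ := rlt_small ha
  refine ⟨⨆ i, (sc.rho s (r i) + 1), ?_⟩
  intro b hb
  obtain ⟨i, hi⟩ := hr2 b hb
  rw [RHO_congr hb.1 (hr1 i) hi]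
  exact Ordinal.lt_iSup_add_one (fun i => sc.rho s (r i)) i

theorem RHO_mono (h : sc.rlt s b a) : sc.rho s b < sc.rho s a := by
  rw [RHO_eq sc s a]
  exact csInf_mem (RHO_nonempty h.2.1) b h

theorem RHO_le {o : Ordinal.{0}} (h : ∀ b, sc.rlt s b a → sc.rho s b < o) : sc.rho s a ≤ o := by
  rw [RHO_eq sc s a]
  exact csInf_le' h

theorem rho_lt (ha : sc.FS s a) (hb : sc.FS s b) :
    sc.rho s a < sc.rho s b ↔ sc.AE fun z => a z < b z := by
  constructor
  · intro h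
    by_contra hn
    have h1 : sc.AE fun z => ¬ a z < b z := (AE_not (FS_fs (FS_lt ha hb))).2 hn
    have h2 : sc.AE fun z => b z < a z ∨ b z = a z :=
      AE_mono (FS_fs (FS_or (FS_lt hb ha) (FS_eqo hb ha))) h1 fun z hz =>
        (not_lt.1 hz).lt_or_eq
    rcases (AE_or (FS_fs (FS_lt hb ha)) (FS_fs (FS_eqo hb ha))).1 h2 with h3 | h3
    · exact absurd h (RHO_mono ⟨hb, ha, h3⟩).le.not_gt
    · exact absurd h (RHO_congr hb ha h3).le.not_gt
  · intro h
    exact RHO_mono ⟨ha, hb, h⟩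

theorem rho_le (ha : sc.FS s a) (hb : sc.FS s b) :
    sc.rho s a ≤ sc.rho s b ↔ sc.AE fun z => a z ≤ b z := by
  rw [← not_lt, rho_lt hb ha, ← AE_not (FS_fs (FS_lt hb ha))]
  simp only [not_lt]

theorem rho_eq (ha : sc.FS s a) (hb : sc.FS s b) :
    sc.rho s a = sc.rho s b ↔ sc.AE fun z => a z = b z := by
  rw [le_antisymm_iff, rho_le ha hb, rho_le hb ha,
    ← AE_and (FS_fs (FS_le ha hb)) (FS_fs (FS_le hb ha))]
  simp only [← le_antisymm_iff]

theorem rho_surj (ha : sc.FS s a) {o : Ordinal.{0}} (ho : o < sc.rho s a) :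
    ∃ b, sc.FS s b ∧ sc.rho s b = o ∧ sc.AE fun z => b z < a z := by
  induction a using (rlt_wf sc s).induction with
  | _ a ih =>
    have h1 : ∃ b, sc.rlt s b a ∧ o ≤ sc.rho s b := by
      by_contra hn
      push Not at hn
      exact absurd ho (RHO_le hn).not_gt
    obtain ⟨b, hb, hob⟩ := h1
    rcases hob.lt_or_eq with h2 | h2
    · obtain ⟨c, hc1, hc2, hc3⟩ := ih b hb hb.1 h2
      refine ⟨c, hc1, hc2, ?_⟩
      have h3 : sc.AE fun z => c z < b z ∧ b z < a z :=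
        (AE_and (FS_fs (FS_lt hc1 hb.1)) (FS_fs (FS_lt hb.1 ha))).2 ⟨hc3, hb.2.2⟩
      exact AE_mono (FS_fs (FS_lt hc1 ha)) h3 fun z hz => hz.1.trans hz.2
    · exact ⟨b, hb.1, h2.symm, hb.2.2⟩

theorem le_rho_const (sc : Scr S) (s α : Ordinal.{0}) : α ≤ sc.rho s (fun _ => α) := by
  induction α using WellFoundedLT.induction with
  | _ α ih =>
    refine le_of_forall_lt fun β hβ => ?_
    refine (ih β hβ).trans_lt (RHO_mono ⟨FS_const sc s β, FS_const sc s α, ?_⟩)
    exact (AE_const _).2 hβ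

theorem rho_all (sc : Scr S) (s o : Ordinal.{0}) : ∃ b, sc.FS s b ∧ sc.rho s b = o := by
  have h1 : o < sc.rho s (fun _ => o + 1) := (lt_add_one o).trans_le (le_rho_const sc s (o + 1))
  obtain ⟨b, hb1, hb2, _⟩ := rho_surj (FS_const sc s (o + 1)) h1
  exact ⟨b, hb1, hb2⟩

/-- `rho` is the strict supremum of the smaller values -/
theorem rho_le_of (ha : sc.FS s a) {o : Ordinal.{0}}
    (h : ∀ b, sc.FS s b → (sc.AE fun z => b z < a z) → sc.rho s b < o) : sc.rho s a ≤ o :=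
  RHO_le fun b hb => h b hb.1 hb.2.2

theorem rho_nat (sc : Scr S) (s : Ordinal.{0}) (n : ℕ) :
    sc.rho s (fun _ => (n : Ordinal.{0})) = n := by
  refine le_antisymm ?_ (le_rho_const sc s n)
  induction n with
  | zero =>
    refine rho_le_of (FS_const sc s _) fun b _ h => ?_
    obtain ⟨z, hz⟩ := AE_exists h
    simp at hz
  | succ n ih =>
    refine rho_le_of (FS_const sc s _) fun b hb h => ?_
    have h1 : sc.AE fun z => b z ≤ (n : Ordinal.{0}) := by
      refine AE_mono (FS_fs (FS_le hb (FS_const sc s _))) h fun z hz => ?_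
      rw [Nat.cast_succ] at hz
      exact Order.lt_add_one_iff.1 hz
    have h2 := ((rho_le hb (FS_const sc s _)).2 h1).trans ih
    rw [Nat.cast_succ]
    exact h2.trans_lt (lt_add_one _)

end rho

end Pool.Agent.SC
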