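import Pool.Agent.Lib_helper73.SCL.COD
import Pool.Agent.Lib_helper73.SCL.RHO

/-!
# Block SZB: the size bound
-/

set_option linter.unusedSectionVars false

namespace Pool.Agent.SC

open FirstOrder Pool.Agent.Lib_helper27 Pool.Agent.Lib_helper27.ST

universe u v w

variable {S : MSys}

theorem SZB_trunc (ξ : Ordinal.{0}) :
    Dbl S.V (fun x : S.V => (open Classical in if rk x < ξ then rk x else 0 : Ordinal.{0})) := by
  apply dbl_of_graph_ord
  have h : Dbl S.V (fun z : S.V × S.V =>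
      (rk z.1 < ξ ∧ rk z.1 = rk z.2) ∨ (¬ rk z.1 < ξ ∧ (0 : Ordinal.{0}) = rk z.2)) := by
    fun_prop
  refine h.congr_prop fun z => ?_
  by_cases hz : rk z.1 < ξ <;> simp [hz]

open Classical in
/-- the rank of the function with code `x` -/
noncomputable def SZB_F (sc : Scr S) (s : Ordinal.{0}) (x : S.V) : S.V :=
  if sc.VC s x then oo S.V (sc.rho s (cfun x)) else oo S.V 0

theorem SZB_dbl {sc : Scr S} (hd : sc.IsDef) (s : Ordinal.{0}) : Dbl S.V (SZB_F sc s) := by
  have h1 : Dbl S.V (fun x : S.V => sc.VC s x) := by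
    have := Dbl.comp (M := S.V) (f := fun x : S.V => (oo S.V s, x))
      (g := fun z : S.V × S.V => sc.VC (rk z.1) z.2) (by fun_prop) hd.1
    simpa using this
  have h2 : Dbl S.V (fun z : S.V × S.V => sc.VC s z.1 ∧ sc.rho s (cfun z.1) = rk z.2) := by
    have := Dbl.comp (M := S.V) (f := fun z : S.V × S.V => ((oo S.V s, z.1), z.2))
      (g := fun z : (S.V × S.V) × S.V => sc.VC (rk z.1.1) z.1.2 ∧
        sc.rho (rk z.1.1) (cfun z.1.2) = rk z.2) (by fun_prop) hd.2
    simpa using this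
  apply dbl_of_graph
  have h3 : Dbl S.V (fun z : S.V × S.V =>
      ((sc.VC s z.1 ∧ sc.rho s (cfun z.1) = rk z.2) ∧ z.2 = oo S.V (rk z.2)) ∨
      (¬ sc.VC s z.1 ∧ z.2 = oo S.V 0)) := by
    have h4 : Dbl S.V (fun z : S.V × S.V => sc.VC s z.1) :=
      Dbl.comp (f := fun z : S.V × S.V => z.1) (g := fun x : S.V => sc.VC s x) (by fun_prop) h1
    exact (h2.and (by fun_prop)).or (h4.not.and (by fun_prop))
  refine h3.congr_prop fun z => ?_
  unfold SZB_F
  by_cases hz : sc.VC s z.1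
  · simp only [hz, if_true, true_and, not_true, false_and, or_false]
    constructor
    · intro h
      rw [← h, rk_oo]
      exact ⟨rfl, rfl⟩
    · rintro ⟨h5, h6⟩
      rw [h5, ← h6]
  · simp only [hz, if_false, false_and, not_false_eq_true, true_and, false_or]
    exact eq_comm

theorem size_bound {sc : Scr S} (hd : sc.IsDef) {y s ξ : Ordinal.{0}} (hy : StrongLimit S.V y)
    (hκ : S.κ < y) (hs : s < y) (hξ : ξ < y) {a : Asg S → Ordinal.{0}} (ha : sc.FS s a)
    (h : sc.AE fun z => a z < ξ) : sc.rho s a < y := by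
  classical
  obtain ⟨D, hD, hcode⟩ := vc_bound sc hy hκ hs hξ
  have hξ0 : 0 < ξ := by
    obtain ⟨z, hz⟩ := AE_exists h
    exact (zero_le).trans_lt hz
  refine HSet_surj hy hD (SZB_dbl hd s) ?_
  intro β hβ
  obtain ⟨b, hb, hbβ, hlt⟩ := rho_surj ha hβ
  have hb' : sc.FS s (fun z => if b z < ξ then b z else 0) :=
    FS_compo (F := fun α => if α < ξ then α else 0) hb (SZB_trunc ξ)
  obtain ⟨x, hxD, hxV, hxc⟩ := hcode _ hb' (fun z => by
    by_cases hz : b z < ξ
    · simp [hz]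
    · simpa [hz] using hξ0)
  refine ⟨x, hxD, ?_⟩
  have h1 : sc.rho s (fun z => if b z < ξ then b z else 0) = sc.rho s b := by
    refine (rho_eq hb' hb).2 ?_
    have h2 := (AE_and (AE_fs hlt) (AE_fs h)).2 ⟨hlt, h⟩
    refine AE_mono (FS_fs (FS_eqo hb' hb)) h2 ?_
    rintro z ⟨h3, h4⟩
    show (if b z < ξ then b z else 0) = b z
    rw [if_pos (h3.trans h4)]
  unfold SZB_F
  rw [if_pos hxV, hxc, h1, hbβ]

end Pool.Agent.SC
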