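import Pool.Agent.Lib_helper73.SCL.IDX
import Pool.Agent.Lib_helper73.SCL.SZB

set_option linter.unusedSectionVars false

namespace Pool.Agent.SC

open FirstOrder Pool.Agent.Lib_helper27 Pool.Agent.Lib_helper27.ST

universe u v w

variable {S : MSys}

section idx

variable {sc : Scr S} {bl : Ordinal.{0} → Ordinal.{0}} {s t : Ordinal.{0}}

theorem YCR_kap_le {i : Ordinal.{0}} (hi : i ≤ S.κ) : S.kap i ≤ S.κ := by
  rcases hi.eq_or_lt with rfl | hi
  · exact S.kap_top.le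
  · have := S.kap_lt i S.κ hi le_rfl
    rw [S.kap_top] at this
    exact this.le

theorem crit_eq (hg : sc.Good bl) (hbl : ∀ s, bl s ≤ s) (hd : sc.IsDef) {y s : Ordinal.{0}}
    (hy : StrongLimit S.V y) (hκ : S.κ < y) (hs : s < y) (hb : bl s = bl y)
    (hlt : bl s < sc.rho s (Scr.kc (S := S))) : sc.crit y = y := by
  refine le_antisymm ?_ (le_crit hg y)
  refine le_of_forall_lt fun o ho => ?_
  obtain ⟨a, ha, rfl, hak⟩ := rho_surj (FS_kapg sc y) ho
  have hgs : ∀ r, s ≤ r → sc.FS r (sc.g s) := fun r hr => FS_mono (FS_g sc s) hr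
  have hcmp : ∀ r, s ≤ r → bl r = bl s → sc.AE fun z => sc.g r z = sc.g s z := by
    intro r hr hbr
    refine (rho_eq (FS_g sc r) (hgs r hr)).1 ?_
    rw [rho_g hg hbl, rho_g_later hg hbl hr hlt, hbr]
  have hy0 := hcmp y hs.le hb.symm
  obtain ⟨s1, hs1, ha1⟩ := FS_lim ha (fun s hs => sl_limit hy hs) (hs.bot_lt)
  have hs' : max s s1 < y := max_lt hs hs1
  have ha' : sc.FS (max s s1) a := FS_mono ha1 (le_max_right _ _)
  have hbs' : bl (max s s1) = bl s :=
    le_antisymm ((hg.1 hs'.le).trans hb.symm.le) (hg.1 (le_max_left _ _))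
  have hs0 := hcmp (max s s1) (le_max_left _ _) hbs'
  have hkap : sc.FS y (fun z => S.kap (sc.g (max s s1) z)) :=
    FS_mono (FS_kapg sc (max s s1)) hs'.le
  have h1 : sc.AE fun z => a z < S.kap (sc.g (max s s1) z) := by
    refine AE_mono (FS_fs (FS_lt ha hkap)) ((AE_and (FS_fs (FS_lt ha (FS_kapg sc y)))
      (FS_fs (FS_and (FS_eqo (FS_g sc y) (hgs y hs.le))
        (FS_eqo (FS_mono (FS_g sc (max s s1)) hs'.le) (hgs y hs.le))))).2
      ⟨hak, (AE_and (FS_fs (FS_eqo (FS_g sc y) (hgs y hs.le)))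
        (FS_fs (FS_eqo (FS_mono (FS_g sc (max s s1)) hs'.le) (hgs y hs.le)))).2 ⟨hy0, hs0⟩⟩) ?_
    rintro z ⟨h1, h2, h3⟩
    rw [h3, ← h2]
    exact h1
  rw [rho_fix hg hs'.le ha' h1]
  refine size_bound hd hy hκ hs' hκ ha' ?_
  refine AE_mono (FS_fs (FS_lt ha' (FS_const sc _ S.κ))) h1 fun z hz => ?_
  exact hz.trans_le (YCR_kap_le (sc.g_le _ _))

end idx

end Pool.Agent.SC
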