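import Pool.Agent.Lib_helper73.SCL.KST
import Pool.Agent.Lib_helper73.SCL.YCR

/-!
# Block LOW
-/

set_option linter.unusedSectionVars false

namespace Pool.Agent.SC

open FirstOrder Pool.Agent.Lib_helper27 Pool.Agent.Lib_helper27.ST

universe u v w

variable {S : MSys}

section low

variable {sc : Scr S}

theorem LOW_supp_mono {X : Type w} {c c' : Finset Ordinal.{0}} {f : Asg S → X}
    (hf : Supp c f) (h : c ⊆ c') : Supp c' f :=
  fun z z' hz => hf z z' fun s hs => hz s (h hs)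

theorem LOW_Fs_comp {X : Type u} {Y : Type v} {f : Asg S → X} (hf : sc.Fs f) (G : X → Y) :
    sc.Fs (fun z => G (f z)) := by
  obtain ⟨c, hc, hs⟩ := hf
  exact ⟨c, hc, fun z z' hz => congrArg G (hs z z' hz)⟩

theorem LOW_Fs_pair {X : Type u} {Y : Type v} {f : Asg S → X} {g : Asg S → Y} (hf : sc.Fs f)
    (hg : sc.Fs g) : sc.Fs (fun z => (f z, g z)) := by
  obtain ⟨c, hc, hs⟩ := hf
  obtain ⟨c', hc', hs'⟩ := hg
  refine ⟨c ∪ c', Cl_union hc hc', fun z z' hz => ?_⟩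
  show (f z, g z) = (f z', g z')
  rw [hs z z' fun s h => hz s (Finset.mem_union_left _ h),
    hs' z z' fun s h => hz s (Finset.mem_union_right _ h)]

theorem LOW_Fs_comp2 {X : Type u} {Y : Type v} {Z : Type w} {f : Asg S → X} {g : Asg S → Y}
    (hf : sc.Fs f) (hg : sc.Fs g) (G : X → Y → Z) : sc.Fs (fun z => G (f z) (g z)) :=
  LOW_Fs_comp (LOW_Fs_pair hf hg) fun p => G p.1 p.2

theorem LOW_AE_congr {φ ψ : Asg S → Prop} (hφ : sc.Fs φ) (hψ : sc.Fs ψ)
    (h : sc.AE fun z => (φ z ↔ ψ z)) : sc.AE φ ↔ sc.AE ψ := by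
  constructor
  · intro h1
    exact AE_mp hψ h1 (AE_mono (LOW_Fs_comp2 hφ hψ fun a b => (a → b)) h fun z hz => hz.1)
  · intro h1
    exact AE_mp hφ h1 (AE_mono (LOW_Fs_comp2 hψ hφ fun a b => (a → b)) h fun z hz => hz.2)

theorem LOW_AE_and {φ ψ : Asg S → Prop} (h1 : sc.AE φ) (h2 : sc.AE ψ) :
    sc.AE fun z => φ z ∧ ψ z := (AE_and (AE_fs h1) (AE_fs h2)).2 ⟨h1, h2⟩

theorem LOW_InU_congr {i : Ordinal.{0}} (hi : i ≤ S.κ) {X Y : ZFSet.{0}}
    (h : ∀ ξ < S.kap i, (ξ.toZFSet ∈ X ↔ ξ.toZFSet ∈ Y)) : S.InU i X ↔ S.InU i Y := by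
  have hc := S.conc i hi
  unfold MSys.InU
  constructor
  · intro hX
    filter_upwards [hc, hX] with ξ h1 h2
    exact (h _ h1).1 h2
  · intro hX
    filter_upwards [hc, hX] with ξ h1 h2
    exact (h _ h1).2 h2

end low

namespace FD

variable (F : FD S)

theorem LOW_succ_lt {i x : Ordinal.{0}} (h : x < F.lam i) : x + 1 < F.lam i := by
  obtain ⟨y, -, h1, h2⟩ := Lam_limit (Y := YS S.V) (ν := S.κ) (ys_unbounded S.V) i x h
  exact lt_of_le_of_lt (by rwa [← Order.succ_eq_add_one, Order.succ_le_iff]) h2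

theorem low_meas {j : Asg S → Ordinal.{0}} (hj : F.sc.FS F.ks j)
    (hlt : F.sc.AE fun z => j z < S.κ) {h : Asg S → S.V} (hh : F.sc.FS F.ks h) :
    ∃ θ < F.lam (F.sc.rho F.ks j), ∀ y ∈ YS S.V, θ < y → y < F.lam (F.sc.rho F.ks j) →
      F.sc.rho F.ks (fun z => (z y).1) = y ∧
      ((F.sc.AE fun z => oo S.V (z y).1 ∈ h z) ↔ F.sc.AE fun z => S.InU (j z) (h z).1) := by
  have hY := ys_unbounded S.V
  have hbl : ∀ s, blk (YS S.V) S.κ s ≤ s := blk_le hY
  set i := F.sc.rho F.ks j with hi_def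
  -- `i < ks`
  have hi : i < F.ks := by
    have h1 := (rho_lt hj (FS_const F.sc F.ks S.κ)).2 hlt
    have h2 : F.sc.rho F.ks (fun _ => S.κ) = F.ks := F.rho_ks
    rw [h2] at h1
    exact h1
  have hlam : F.lam i < F.ks := F.lam_lt hi
  -- the step `s0`
  set s0 : Ordinal.{0} := max S.κ (Mu (YS S.V) S.κ i) + 1 with hs0_def
  have hlt0 : max S.κ (Mu (YS S.V) S.κ i) < s0 := by
    rw [hs0_def, ← Order.succ_eq_add_one]
    exact Order.lt_succ _
  have hs0 : s0 < F.lam i :=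
    F.LOW_succ_lt (max_lt (lt_Lam hY i).2 (Mu_lt hY i))
  have hκs0 : S.κ < s0 := (le_max_left _ _).trans_lt hlt0
  have hMs0 : Mu (YS S.V) S.κ i < s0 := (le_max_right _ _).trans_lt hlt0
  have his0 : i < s0 := (le_Mu hY i).trans_lt hMs0
  have hb0 : blk (YS S.V) S.κ s0 = i := blk_eq hY hMs0.le hs0
  have hlt0' : blk (YS S.V) S.κ s0 < F.sc.rho s0 (Scr.kc (S := S)) := by
    rw [hb0]
    exact his0.trans_le (le_rho_kc F.good s0)
  have hg0 : ∀ t, s0 ≤ t → F.sc.rho t (F.sc.g s0) = i := fun t ht => by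
    rw [rho_g_later F.good hbl ht hlt0', hb0]
  have hFSg0 : ∀ t, s0 ≤ t → F.sc.FS t (F.sc.g s0) := fun t ht => FS_mono (FS_g F.sc s0) ht
  have hs0ks : s0 ≤ F.ks := (hs0.trans hlam).le
  -- `j = g s0` almost everywhere
  have hjg : F.sc.AE fun z => j z = F.sc.g s0 z :=
    (rho_eq hj (hFSg0 _ hs0ks)).1 ((hg0 _ hs0ks).symm ▸ rfl)
  -- the power set
  have hFSk : F.sc.FS s0 (fun z => oo S.V (S.kap (F.sc.g s0 z))) := FS_oo (FS_kapg F.sc s0)
  have hFSB : F.sc.FS (F.lam i) (fun z => ST.power (oo S.V (S.kap (F.sc.g s0 z)))) := by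
    refine FS_comp (FS_mono hFSk hs0.le) (G := fun x : S.V => ST.power x) ?_
    fun_prop
  have hsm : ∀ x : S.V × S.V, ST.Small fun p => p ∈ x.1 ∧ p ∈ x.2 := fun x =>
    small_sep (D := fun p => p ∈ x.2) (by fun_prop) x.1
  set hc : Asg S → S.V := fun z =>
    ST.comp fun p => p ∈ h z ∧ p ∈ oo S.V (S.kap (F.sc.g s0 z)) with hc_def
  have hmemc : ∀ z p, p ∈ hc z ↔ p ∈ h z ∧ p ∈ oo S.V (S.kap (F.sc.g s0 z)) := fun z p =>
    mem_comp (hsm (h z, oo S.V (S.kap (F.sc.g s0 z))))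
  have hFSh : F.sc.FS F.ks hc := by
    refine FS_comp (FS_pair hh (FS_mono hFSk hs0ks))
      (G := fun x : S.V × S.V => ST.comp fun p => p ∈ x.1 ∧ p ∈ x.2) ?_
    exact dbl_comp hsm (by fun_prop)
  -- removing the coordinates from `lam i` on
  obtain ⟨h', hh', heq⟩ : ∃ h', F.sc.FS (F.lam i) h' ∧ F.sc.AE fun z => hc z = h' z := by
    refine reduce_below hlam.le hFSh hFSB (AE_all fun z => ?_) ?_
    · exact mem_power.2 fun v hv => ((hmemc z v).1 hv).2
    · intro t h1 _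
      have hs0t : s0 ≤ t := hs0.le.trans h1
      have h3 : i < blk (YS S.V) S.κ t := (lt_blk_iff hY).2 h1
      have h4 : F.sc.rho t (F.sc.g s0) < F.sc.rho t (F.sc.g t) := by
        rw [hg0 t hs0t, rho_g F.good hbl]
        exact h3
      have h5 := (rho_lt (hFSg0 t hs0t) (FS_g F.sc t)).1 h4
      refine AE_mono ?_ h5 fun z hz => ?_
      · exact LOW_Fs_comp2 (FS_fs (FS_mono hFSB h1)) (FS_fs (FS_g F.sc t))
          fun x a => x.1.card < (S.kap a).card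
      · have h6 := S.slim _ _ hz (F.sc.g_le t z)
        refine lt_of_le_of_lt ?_ h6
        rw [val_power]
        refine (ZFSet.card_mono (ZFSet.sep_subset)).trans ?_
        rw [ZFSet.card_powerset]
        show 2 ^ ((S.kap (F.sc.g s0 z)).toZFSet).card ≤ _
        rw [Ordinal.card_toZFSet]
  have hlim : ∀ s < F.lam i, s + 1 < F.lam i := fun s hs => F.LOW_succ_lt hs
  have hpos : 0 < F.lam i := lt_of_le_of_lt zero_le hs0
  obtain ⟨s1, hs1, hh1⟩ := FS_lim hh' hlim hpos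
  refine ⟨max s0 s1, max_lt hs0 hs1, fun y hy hθ hyl => ?_⟩
  have hs0y : s0 < y := (le_max_left _ _).trans_lt hθ
  have hs1y : s1 < y := (le_max_right _ _).trans_lt hθ
  have hyks : y < F.ks := hyl.trans hlam
  have hby : blk (YS S.V) S.κ y = i := blk_eq hY (hMs0.le.trans hs0y.le) hyl
  constructor
  · rw [rho_coord F.good hyks]
    exact crit_eq F.good hbl F.isDef (ys_sl hy) (hκs0.trans hs0y) hs0y (hb0.trans hby.symm) hlt0'
  · have hgy : F.sc.AE fun z => F.sc.g y z = F.sc.g s0 z := by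
      refine (rho_eq (FS_g F.sc y) (hFSg0 y hs0y.le)).1 ?_
      rw [rho_g F.good hbl, hg0 y hs0y.le, hby]
    have hcl := coord_lt F.sc y
    have hFc : F.sc.Fs (fun z : Asg S => (z y).1) := FS_fs (FS_coord F.sc hyks)
    have hFh : F.sc.Fs h := FS_fs hh
    have hFh' : F.sc.Fs h' := FS_fs hh'
    have hFgy : F.sc.Fs (F.sc.g y) := FS_fs (FS_g F.sc y)
    have hFj : F.sc.Fs j := FS_fs hj
    have e1 : (F.sc.AE fun z => oo S.V (z y).1 ∈ h z) ↔
        F.sc.AE fun z => oo S.V (z y).1 ∈ h' z := by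
      refine LOW_AE_congr ?_ ?_ ?_
      · exact LOW_Fs_comp2 hFc hFh fun a x => oo S.V a ∈ x
      · exact LOW_Fs_comp2 hFc hFh' fun a x => oo S.V a ∈ x
      · refine AE_mono ?_ (LOW_AE_and (LOW_AE_and hgy hcl) heq) fun z hz => ?_
        · exact LOW_Fs_comp2 (LOW_Fs_comp2 hFc hFh fun a x => oo S.V a ∈ x)
            (LOW_Fs_comp2 hFc hFh' fun a x => oo S.V a ∈ x) fun p q => (p ↔ q)
        · obtain ⟨⟨h1, h2⟩, h3⟩ := hz
          rw [← h3, hmemc, h1] at *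
          exact ⟨fun h4 => ⟨h4, oo_mem.2 h2⟩, fun h4 => h4.1⟩
    have e2 := AE_coord (FS_mono hh1 hs1y.le)
    have e3 : (F.sc.AE fun z => S.InU (F.sc.g y z) (h' z).1) ↔
        F.sc.AE fun z => S.InU (j z) (h z).1 := by
      refine LOW_AE_congr ?_ ?_ ?_
      · exact LOW_Fs_comp2 hFgy hFh' fun a x => S.InU a x.1
      · exact LOW_Fs_comp2 hFj hFh fun a x => S.InU a x.1
      · refine AE_mono ?_ (LOW_AE_and (LOW_AE_and hgy hjg) heq) fun z hz => ?_
        · exact LOW_Fs_comp2 (LOW_Fs_comp2 hFgy hFh' fun a x => S.InU a x.1)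
            (LOW_Fs_comp2 hFj hFh fun a x => S.InU a x.1) fun p q => (p ↔ q)
        · obtain ⟨⟨h1, h2⟩, h3⟩ := hz
          rw [h1, h2, ← h3]
          refine LOW_InU_congr (F.sc.g_le s0 z) fun ξ hξ => ?_
          have h4 := hmemc z (oo S.V ξ)
          have h5 : oo S.V ξ ∈ oo S.V (S.kap (F.sc.g s0 z)) := oo_mem.2 hξ
          exact ⟨fun h6 => (h4.1 h6).1, fun h6 => h4.2 ⟨h6, h5⟩⟩
    exact e1.trans (e2.trans e3)

end FD

end Pool.Agent.SC
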