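import Pool.Agent.Lib_helper73.SCL.PIF

set_option linter.unusedSectionVars false

namespace Pool.Agent.SC

open FirstOrder Pool.Agent.Lib_helper27 Pool.Agent.Lib_helper27.ST

universe u v w

variable {S : MSys}

namespace FD

variable (F : FD S)

variable {F} {f h : Asg S → S.V} {a : Asg S → Ordinal.{0}}

theorem PIP_mem_oo {x : S.V} {α : Ordinal.{0}} (h : x ∈ oo S.V α) : x = oo S.V (rk x) ∧ rk x < α := by
  have h1 : x.1 ∈ α.toZFSet := h
  rw [Ordinal.mem_toZFSet_iff] at h1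
  obtain ⟨β, hβ, hx⟩ := h1
  have h2 : x = oo S.V β := Subtype.ext hx.symm
  rw [h2, rk_oo]
  exact ⟨rfl, hβ⟩

theorem Pi_oo (ha : F.sc.FS F.ks a) :
    F.Pi (fun z => oo S.V (a z)) = (F.sc.rho F.ks a).toZFSet := by
  suffices H : ∀ o : Ordinal.{0}, ∀ a : Asg S → Ordinal.{0}, F.sc.FS F.ks a → F.sc.rho F.ks a = o →
      F.Pi (fun z => oo S.V (a z)) = o.toZFSet from H _ a ha rfl
  intro o
  induction o using Ordinal.induction with
  | h o ih =>
    intro a ha hao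
    ext x
    rw [Ordinal.mem_toZFSet_iff]
    constructor
    · intro hx
      obtain ⟨f, hf, rfl, hfa⟩ := Pi_surj (FS_oo ha) hx
      have hb : F.sc.FS F.ks (fun z => rk (f z)) := FS_rk hf
      have h1 : F.sc.AE fun z => f z = oo S.V (rk (f z)) :=
        AE_mono (FS_fs (FS_eq hf (FS_oo hb))) hfa (fun z hz => (PIP_mem_oo hz).1)
      have h2 : F.sc.AE fun z => rk (f z) < a z :=
        AE_mono (FS_fs (FS_lt hb ha)) hfa (fun z hz => (PIP_mem_oo hz).2)
      have h3 : F.sc.rho F.ks (fun z => rk (f z)) < o := by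
        rw [← hao]; exact (rho_lt hb ha).2 h2
      refine ⟨_, h3, ?_⟩
      rw [(Pi_eq hf (FS_oo hb)).2 h1]
      exact (ih _ h3 _ hb rfl).symm
    · rintro ⟨β, hβ, rfl⟩
      obtain ⟨b, hb, hbβ, hba⟩ := rho_surj ha (by rw [hao]; exact hβ)
      rw [← ih β hβ b hb hbβ]
      rw [Pi_mem (FS_oo hb) (FS_oo ha)]
      exact AE_mono (FS_fs (FS_mem (FS_oo hb) (FS_oo ha))) hba (fun z hz => oo_mem.2 hz)

theorem PIP_fs_upair (hf : F.sc.FS F.ks f) (hh : F.sc.FS F.ks h) :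
    F.sc.FS F.ks (fun z => upair (f z) (h z)) :=
  FS_comp (FS_pair hf hh) (G := fun p : S.V × S.V => upair p.1 p.2) (by fun_prop)

theorem PIP_upair (hf : F.sc.FS F.ks f) (hh : F.sc.FS F.ks h) :
    F.Pi (fun z => upair (f z) (h z)) = {F.Pi f, F.Pi h} := by
  ext x
  rw [ZFSet.mem_pair]
  constructor
  · intro hx
    obtain ⟨g, hg, rfl, hgm⟩ := Pi_surj (PIP_fs_upair hf hh) hx
    have h1 : F.sc.AE fun z => (g z = f z ∨ g z = h z) :=
      AE_mono (FS_fs (FS_or (FS_eq hg hf) (FS_eq hg hh))) hgm (fun z hz => mem_upair.1 hz)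
    rw [AE_or (FS_fs (FS_eq hg hf)) (FS_fs (FS_eq hg hh))] at h1
    rcases h1 with h1 | h1
    · left; exact (Pi_eq hg hf).2 h1
    · right; exact (Pi_eq hg hh).2 h1
  · rintro (rfl | rfl)
    · rw [Pi_mem hf (PIP_fs_upair hf hh)]
      exact AE_mono (FS_fs (FS_mem hf (PIP_fs_upair hf hh))) ((AE_const True).2 trivial)
        (fun z _ => mem_upair.2 (Or.inl rfl))
    · rw [Pi_mem hh (PIP_fs_upair hf hh)]
      exact AE_mono (FS_fs (FS_mem hh (PIP_fs_upair hf hh))) ((AE_const True).2 trivial)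
        (fun z _ => mem_upair.2 (Or.inr rfl))

theorem Pi_opair (hf : F.sc.FS F.ks f) (hh : F.sc.FS F.ks h) :
    F.Pi (fun z => opair (f z) (h z)) = ZFSet.pair (F.Pi f) (F.Pi h) := by
  have h1 := PIP_upair (PIP_fs_upair hf hf) (PIP_fs_upair hf hh)
  rw [PIP_upair hf hf, PIP_upair hf hh] at h1
  have h2 : ({F.Pi f, F.Pi f} : ZFSet.{0}) = {F.Pi f} := by
    ext x; simp
  rw [h2] at h1
  exact h1

/-- if `Pi f` is a pair then `f` is almost everywhere a pair -/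
theorem Pi_opair_inv (hf : F.sc.FS F.ks f) {x y : ZFSet.{0}} (h : F.Pi f = ZFSet.pair x y) :
    ∃ g g', F.sc.FS F.ks g ∧ F.sc.FS F.ks g' ∧ x = F.Pi g ∧ y = F.Pi g' ∧
      F.sc.AE fun z => f z = opair (g z) (g' z) := by
  have h1 : ({x, y} : ZFSet.{0}) ∈ F.Pi f := by
    rw [h]
    unfold ZFSet.pair
    rw [ZFSet.mem_pair]
    exact Or.inr rfl
  obtain ⟨e, he, hxy, _⟩ := Pi_surj hf h1
  have hx : x ∈ F.Pi e := by rw [← hxy, ZFSet.mem_pair]; exact Or.inl rfl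
  have hy : y ∈ F.Pi e := by rw [← hxy, ZFSet.mem_pair]; exact Or.inr rfl
  obtain ⟨g, hg, rfl, _⟩ := Pi_surj he hx
  obtain ⟨g', hg', rfl, _⟩ := Pi_surj he hy
  refine ⟨g, g', hg, hg', rfl, rfl, ?_⟩
  have hp : F.sc.FS F.ks (fun z => opair (g z) (g' z)) :=
    FS_comp (FS_pair hg hg') (G := fun p : S.V × S.V => opair p.1 p.2) (by fun_prop)
  rw [← Pi_opair hg hg'] at h
  exact (Pi_eq hf hp).1 h

end FD

end Pool.Agent.SC
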