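import Pool.Agent.Lib_helper73.SCL.AFI_a
import Pool.Agent.Lib_helper73.SCL.LOW
import Pool.Agent.Lib_helper73.SCL.PIP

/-! Block AFI: the measures of the iterate, decoded. -/

set_option linter.unusedSectionVars false

namespace Pool.Agent.SC

open FirstOrder Pool.Agent.Lib_helper27 Pool.Agent.Lib_helper27.ST

universe u v w

variable {S : MSys}

theorem AFI_fs2 {sc : Scr S} {X : Type v} {Y : Type w} {Z : Type u} {f : Asg S → X}
    {g : Asg S → Y} (hf : sc.Fs f) (hg : sc.Fs g) (G : X → Y → Z) :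
    sc.Fs (fun z => G (f z) (g z)) := by
  obtain ⟨c, hc, hs⟩ := hf
  obtain ⟨c', hc', hs'⟩ := hg
  refine ⟨c ∪ c', Cl_union hc hc', fun z z' hz => ?_⟩
  show G (f z) (g z) = G (f z') (g z')
  rw [hs z z' fun s h => hz s (Finset.mem_union_left _ h),
    hs' z z' fun s h => hz s (Finset.mem_union_right _ h)]

namespace FD

variable {F : FD S} {f h : Asg S → S.V}

theorem AFI_kc (F : FD S) : F.sc.FS F.ks (Scr.kc (S := S)) := FS_const _ _ _

theorem AFI_ks (F : FD S) : F.Pi (fun _ => oo S.V S.κ) = F.ks.toZFSet := by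
  have h1 := Pi_oo (F := F) (AFI_kc F)
  rw [rho_ks] at h1
  exact h1

theorem AFI_sub_fs (hh : F.sc.FS F.ks h) : F.sc.Fs (fun z => (h z).1 ⊆ S.κ.toZFSet) :=
  AFI_fs2 (FS_fs hh) (FS_fs hh) (fun x _ => x.1 ⊆ S.κ.toZFSet)

theorem AFI_sub (hh : F.sc.FS F.ks h) :
    F.Pi h ⊆ F.ks.toZFSet ↔ F.sc.AE fun z => (h z).1 ⊆ S.κ.toZFSet := by
  have hc : F.sc.FS F.ks (fun _ : Asg S => oo S.V S.κ) := FS_const _ _ _
  constructor
  · intro hsub
    by_contra hne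
    have h1 := (AE_not (AFI_sub_fs hh)).2 hne
    obtain ⟨h', hh', hP⟩ := FS_choice hh (P := fun x v : S.V => v ∈ x ∧ ¬ v ∈ oo S.V S.κ)
      (by fun_prop)
    have h2 : F.sc.AE fun z => h' z ∈ h z ∧ ¬ h' z ∈ oo S.V S.κ := by
      refine AE_mono ?_ h1 fun z hz => hP z ?_
      · exact AFI_fs2 (FS_fs hh') (FS_fs hh) (fun x y => x ∈ y ∧ ¬ x ∈ oo S.V S.κ)
      · by_contra hcon
        apply hz
        intro v hv
        by_contra hv'
        exact hcon ⟨⟨v, Inner.trans _ (h z).2 v hv⟩, hv, hv'⟩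
    have h3 : F.sc.AE fun z => h' z ∈ h z :=
      AE_mono (FS_fs (FS_mem hh' hh)) h2 fun z hz => hz.1
    have h4 : F.sc.AE fun z => ¬ h' z ∈ oo S.V S.κ :=
      AE_mono (FS_fs (FS_not (FS_mem hh' hc))) h2 fun z hz => hz.2
    have h5 := hsub ((Pi_mem hh' hh).2 h3)
    rw [← AFI_ks F, Pi_mem hh' hc] at h5
    exact (AE_not (FS_fs (FS_mem hh' hc))).1 h4 h5
  · intro hae x hx
    obtain ⟨f', hf', rfl, h1⟩ := Pi_surj hh hx
    rw [← AFI_ks F, Pi_mem hf' hc]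
    refine AE_mono (FS_fs (FS_mem hf' hc)) ((AE_and (AE_fs h1) (AE_fs hae)).2 ⟨h1, hae⟩) ?_
    rintro z ⟨h2, h3⟩
    exact h3 h2

theorem AFI_coord (hh : F.sc.FS F.ks h) {y : Ordinal.{0}} (hy : y < F.ks)
    (hr : F.sc.rho F.ks (fun z => (z y).1) = y) :
    y.toZFSet ∈ F.Pi h ↔ F.sc.AE fun z => oo S.V (z y).1 ∈ h z := by
  have hc := FS_coord F.sc hy
  have h1 := Pi_oo (F := F) hc
  rw [hr] at h1
  rw [← h1, Pi_mem (FS_oo hc) hh]

theorem AFI_core {j : Asg S → Ordinal.{0}} (hj : F.sc.FS F.ks j) (hh : F.sc.FS F.ks h) :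
    F.Pi (fun z => opair (oo S.V (j z)) (h z)) ∈ F.AF ↔
      F.sc.AE fun z => j z ≤ S.κ ∧ (h z).1 ⊆ S.κ.toZFSet ∧ S.InU (j z) (h z).1 := by
  have hkc := AFI_kc F
  rw [Pi_opair (FS_oo hj) hh, Pi_oo hj]
  have hB : ZFSet.pair (F.sc.rho F.ks j).toZFSet (F.Pi h) ∈ F.AF ↔
      (F.Pi h ⊆ F.ks.toZFSet ∧ ((F.sc.rho F.ks j < F.ks ∧ ∃ θ < F.lam (F.sc.rho F.ks j),
        ∀ y ∈ YS S.V, θ < y → y < F.lam (F.sc.rho F.ks j) → y.toZFSet ∈ F.Pi h) ∨
      (F.sc.rho F.ks j = F.ks ∧ ∃ θ < F.ks, ∀ α, θ < α → α < F.ks →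
        triple F.m α F.bs ∈ Stab S.V → α.toZFSet ∈ F.Pi h))) := by
    constructor
    · rintro ⟨i, X, hp, hX⟩
      obtain ⟨h1, h2⟩ := ZFSet.pair_inj.1 hp
      rw [Ordinal.toZFSet_injective h1, h2]
      exact hX
    · intro hX
      exact ⟨_, _, rfl, hX⟩
  rw [hB, AFI_sub hh]
  have hInU : F.sc.Fs (fun z => S.InU (j z) (h z).1) :=
    AFI_fs2 (FS_fs hj) (FS_fs hh) (fun a x => S.InU a x.1)
  have hsub := AFI_sub_fs hh
  have hFT : F.sc.Fs (fun z => j z ≤ S.κ ∧ (h z).1 ⊆ S.κ.toZFSet ∧ S.InU (j z) (h z).1) :=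
    AFI_fs2 (FS_fs hj) (FS_fs hh) (fun a x => a ≤ S.κ ∧ x.1 ⊆ S.κ.toZFSet ∧ S.InU a x.1)
  have hlt : F.sc.rho F.ks j < F.ks ↔ F.sc.AE fun z => j z < S.κ := by
    have := rho_lt hj hkc
    rw [rho_ks] at this
    exact this
  have heq : F.sc.rho F.ks j = F.ks ↔ F.sc.AE fun z => j z = S.κ := by
    have := rho_eq hj hkc
    rw [rho_ks] at this
    exact this
  have hκks : ∀ i, i < F.ks → F.lam i < F.ks := fun i hi => F.lam_lt hi
  constructor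
  · rintro ⟨hs, ⟨hi, θ, hθ, hX⟩ | ⟨hi, θ, hθ, hX⟩⟩
    · obtain ⟨θ', hθ', hm⟩ := low_meas F hj (hlt.1 hi) hh
      obtain ⟨y, hyY, hy1, hy2⟩ := Lam_limit (ν := S.κ) (ys_unbounded S.V) (F.sc.rho F.ks j)
        (max θ θ') (max_lt hθ hθ')
      have hyk : y < F.ks := lt_trans hy2 (hκks _ hi)
      obtain ⟨hr, hiff⟩ := hm y hyY ((le_max_right _ _).trans_lt hy1) hy2
      have h1 := hX y hyY ((le_max_left _ _).trans_lt hy1) hy2
      rw [AFI_coord hh hyk hr] at h1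
      have h2 := hiff.1 h1
      have h3 := hlt.1 hi
      have h4 := (AE_and (AE_fs hs) (AE_fs h2)).2 ⟨hs, h2⟩
      refine AE_mono hFT ((AE_and (AE_fs h3) (AE_fs h4)).2 ⟨h3, h4⟩) ?_
      rintro z ⟨h5, h6, h7⟩
      exact ⟨h5.le, h6, h7⟩
    · obtain ⟨θ', hθ', hm⟩ := top_meas F hh
      obtain ⟨α, hα1, hα2, hα3⟩ := F.lim (max (max θ θ') F.nu)
        (max_lt (max_lt hθ hθ') F.nu_lt)
      have hr := top_coord F ((le_max_right _ _).trans_lt hα1) hα3 hα2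
      have hm1 := hm α (((le_max_right _ _).trans (le_max_left _ _)).trans_lt hα1) hα2 hα3
      have h1 := hX α (((le_max_left _ _).trans (le_max_left _ _)).trans_lt hα1) hα2 hα3
      rw [AFI_coord hh hα2 hr] at h1
      have h2 := hm1.1 h1
      have h3 := heq.1 hi
      have h4 := (AE_and (AE_fs hs) (AE_fs h2)).2 ⟨hs, h2⟩
      refine AE_mono hFT ((AE_and (AE_fs h3) (AE_fs h4)).2 ⟨h3, h4⟩) ?_
      rintro z ⟨h5, h6, h7⟩
      exact ⟨h5.le, h6, h5 ▸ h7⟩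
  · intro hT
    have hs : F.sc.AE fun z => (h z).1 ⊆ S.κ.toZFSet := AE_mono hsub hT fun z hz => hz.2.1
    have hU : F.sc.AE fun z => S.InU (j z) (h z).1 := AE_mono hInU hT fun z hz => hz.2.2
    have h1 : F.sc.AE fun z => j z < S.κ ∨ j z = S.κ := by
      refine AE_mono ?_ hT fun z hz => hz.1.lt_or_eq
      exact AFI_fs2 (FS_fs hj) (FS_fs hj) (fun a _ => a < S.κ ∨ a = S.κ)
    replace h1 := (AE_or (FS_fs (FS_lt hj hkc)) (FS_fs (FS_eqo hj hkc))).1 h1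
    refine ⟨hs, ?_⟩
    rcases h1 with h1 | h1
    · left
      have hi := hlt.2 h1
      obtain ⟨θ', hθ', hm⟩ := low_meas F hj h1 hh
      refine ⟨hi, θ', hθ', fun y hyY hy1 hy2 => ?_⟩
      obtain ⟨hr, hiff⟩ := hm y hyY hy1 hy2
      rw [AFI_coord hh (lt_trans hy2 (hκks _ hi)) hr]
      exact hiff.2 hU
    · right
      have hi := heq.2 h1
      obtain ⟨θ', hθ', hm⟩ := top_meas F hh
      refine ⟨hi, max θ' F.nu, max_lt hθ' F.nu_lt, fun α hα1 hα2 hα3 => ?_⟩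
      have hr := top_coord F ((le_max_right _ _).trans_lt hα1) hα3 hα2
      have hm1 := hm α ((le_max_left _ _).trans_lt hα1) hα2 hα3
      rw [AFI_coord hh hα2 hr]
      refine hm1.2 ?_
      have hfs : F.sc.Fs (fun z => S.InU S.κ (h z).1) :=
        AFI_fs2 (FS_fs hh) (FS_fs hh) (fun x _ => S.InU S.κ x.1)
      refine AE_mono hfs ((AE_and (AE_fs h1) (AE_fs hU)).2 ⟨h1, hU⟩) ?_
      rintro z ⟨h2, h3⟩
      have h2 : j z = S.κ := h2
      have h3 : S.InU (j z) (h z).1 := h3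
      rwa [h2] at h3

theorem AFI_mem_A {i : Ordinal.{0}} {x : S.V} : (opair (oo S.V i) x).1 ∈ S.A ↔
    i ≤ S.κ ∧ x.1 ⊆ S.κ.toZFSet ∧ S.InU i x.1 := by
  rw [val_opair]
  constructor
  · rintro ⟨i', X, h1, h2, h3, h4⟩
    obtain ⟨h5, h6⟩ := ZFSet.pair_inj.1 h2
    have h7 : i = i' := Ordinal.toZFSet_injective h5
    rw [h7, h6]
    exact ⟨h1, h3, h4⟩
  · rintro ⟨h1, h2, h3⟩
    exact ⟨i, x.1, h1, rfl, h2, h3⟩

theorem AF_iff (hf : F.sc.FS F.ks f) : F.Pi f ∈ F.AF ↔ F.sc.AE fun z => (f z).1 ∈ S.A := by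
  have hfA : F.sc.Fs (fun z => (f z).1 ∈ S.A) := AFI_fs2 (FS_fs hf) (FS_fs hf)
    (fun x _ => x.1 ∈ S.A)
  constructor
  · intro hmem
    have hmem' := hmem
    obtain ⟨i, X, hp, -⟩ := hmem'
    obtain ⟨g, g', hg, hg', h1, h2, h3⟩ := Pi_opair_inv hf hp
    obtain ⟨j, hj, hji⟩ := piO_rep F i
    have h4 : F.Pi (fun z => oo S.V (j z)) = F.Pi g := by rw [Pi_oo hj, hji, h1]
    rw [Pi_eq (FS_oo hj) hg] at h4
    have h5 : F.sc.AE fun z => f z = opair (oo S.V (j z)) (g' z) := by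
      have hop : F.sc.FS F.ks fun z => opair (oo S.V (j z)) (g' z) :=
        FS_comp (FS_pair (FS_oo hj) hg') (G := fun p : S.V × S.V => opair p.1 p.2) (by fun_prop)
      refine AE_mono (FS_fs (FS_eq hf hop)) ((AE_and (AE_fs h3) (AE_fs h4)).2 ⟨h3, h4⟩) ?_
      rintro z ⟨h6, h7⟩
      have h7 : oo S.V (j z) = g z := h7
      rw [h7]
      exact h6
    have hop : F.sc.FS F.ks fun z => opair (oo S.V (j z)) (g' z) :=
      FS_comp (FS_pair (FS_oo hj) hg') (G := fun p : S.V × S.V => opair p.1 p.2) (by fun_prop)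
    rw [(Pi_eq hf hop).2 h5, AFI_core hj hg'] at hmem
    refine AE_mono hfA ((AE_and (AE_fs h5) (AE_fs hmem)).2 ⟨h5, hmem⟩) ?_
    rintro z ⟨h6, h7⟩
    have h6 : f z = opair (oo S.V (j z)) (g' z) := h6
    show (f z).1 ∈ S.A
    rw [h6]
    exact AFI_mem_A.2 h7
  · intro hA
    set j : Asg S → Ordinal.{0} := fun z => rk (fstp (f z)) with hj'
    set g : Asg S → S.V := fun z => sndp (f z) with hg'
    have hj : F.sc.FS F.ks j := FS_rk (FS_comp hf (G := fun x : S.V => fstp x) (by fun_prop))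
    have hg : F.sc.FS F.ks g := FS_comp hf (G := fun x : S.V => sndp x) (by fun_prop)
    have hop : F.sc.FS F.ks fun z => opair (oo S.V (j z)) (g z) :=
      FS_comp (FS_pair (FS_oo hj) hg) (G := fun p : S.V × S.V => opair p.1 p.2) (by fun_prop)
    have hkey : ∀ z, (f z).1 ∈ S.A → f z = opair (oo S.V (j z)) (g z) := by
      rintro z ⟨i, X, -, h2, -⟩
      have hm : ZFSet.pair i.toZFSet X ∈ S.V := h2 ▸ (f z).2
      have hXV : X ∈ S.V := (pair_mem_iff.1 hm).2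
      have hxe : f z = opair (oo S.V i) ⟨X, hXV⟩ := Subtype.ext (by rw [val_opair, h2]; rfl)
      simp only [hj', hg']
      rw [hxe, fstp_opair, sndp_opair, rk_oo]
    have h5 : F.sc.AE fun z => f z = opair (oo S.V (j z)) (g z) :=
      AE_mono (FS_fs (FS_eq hf hop)) hA hkey
    rw [(Pi_eq hf hop).2 h5, AFI_core hj hg]
    have hFT : F.sc.Fs (fun z => j z ≤ S.κ ∧ (g z).1 ⊆ S.κ.toZFSet ∧ S.InU (j z) (g z).1) :=
      AFI_fs2 (FS_fs hj) (FS_fs hg) (fun a x => a ≤ S.κ ∧ x.1 ⊆ S.κ.toZFSet ∧ S.InU a x.1)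
    refine AE_mono hFT hA fun z hz => ?_
    rw [hkey z hz] at hz
    exact AFI_mem_A.1 hz

end FD

end Pool.Agent.SC
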