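import Pool.Agent.Lib_helper73.SCL.EFD_a

set_option linter.unusedSectionVars false

namespace Pool.Agent.SC

open FirstOrder Pool.Agent.Lib_helper27 Pool.Agent.Lib_helper27.ST

universe u v w

variable {S : MSys}

namespace FD

variable (F : FD S)

variable {F} {f h : Asg S → S.V} {a : Asg S → Ordinal.{0}}

/-- the predicate defining the iterate, read off from the stability predicate -/
def AF (F : FD S) : Set ZFSet.{0} := {t | ∃ (i : Ordinal.{0}) (X : ZFSet.{0}),
  t = ZFSet.pair i.toZFSet X ∧ X ⊆ F.ks.toZFSet ∧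
  ((i < F.ks ∧ ∃ θ < F.lam i, ∀ y ∈ YS S.V, θ < y → y < F.lam i → y.toZFSet ∈ X) ∨
    (i = F.ks ∧ ∃ θ < F.ks, ∀ α, θ < α → α < F.ks → triple F.m α F.bs ∈ Stab S.V →
      α.toZFSet ∈ X))}

end FD

end Pool.Agent.SC
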