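import Pool.Agent.Lib_helper73.SCL.Defs

/-!
# Basic notions inside an inner model
-/

namespace Pool.Agent.SC

open FirstOrder Pool.Agent.Lib_helper27 Pool.Agent.Lib_helper27.ST

universe u v w

section

variable (V : Set ZFSet.{0}) [Inner V]

/-- The von Neumann ordinal `α`, as an element of the inner model `V`. -/
noncomputable def oo (α : Ordinal.{0}) : V := ⟨α.toZFSet, Inner.ord α⟩

/-- Maps with values in the ordinals can be definable. -/
noncomputable instance instTgtOrd : Tgt V Ordinal.{0} where
  idx := Unit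
  graph := fun α v => v () = oo V α
  def_graph := fun α => definable_eq_const () (oo V α)

variable {V}

/-- The rank of an element of `V`. -/
noncomputable def rk (x : V) : Ordinal.{0} := x.1.rank

@[simp] theorem rk_oo (α : Ordinal.{0}) : rk (oo V α) = α := Ordinal.rank_toZFSet α

theorem oo_inj {α β : Ordinal.{0}} : oo V α = oo V β ↔ α = β :=
  ⟨fun h => Ordinal.toZFSet_injective (congrArg Subtype.val h), fun h => by rw [h]⟩

theorem oo_mem {α β : Ordinal.{0}} : oo V α ∈ oo V β ↔ α < β := Ordinal.toZFSet_mem_toZFSet_iff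

theorem mem_def' {x y : V} : x ∈ y ↔ x.1 ∈ y.1 := Iff.rfl

/-- A map into the ordinals is definable iff the corresponding map into `V` is. -/
theorem dbl_ord_iff {Γ : Type v} [Ctx V Γ] {a : Γ → Ordinal.{0}} :
    Dbl V a ↔ Dbl V (fun γ => oo V (a γ)) := by
  unfold Dbl
  have h : ∀ w : Ctx.idx (↥V) Γ ⊕ Unit → ↥V,
      (Tgt.graph (M := ↥V) (a ((Ctx.coord (M := ↥V)).symm (fun i => w (Sum.inl i))))
        (fun i => w (Sum.inr i)) ↔
      Tgt.graph (M := ↥V) (oo V (a ((Ctx.coord (M := ↥V)).symm (fun i => w (Sum.inl i)))))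
        (fun i => w (Sum.inr i))) := by
    intro w
    show w (Sum.inr ()) = oo V _ ↔ oo V _ = w (Sum.inr ())
    exact eq_comm
  constructor
  · intro h1
    convert! h1 using 1
    ext w
    exact (h w).symm
  · intro h1
    convert! h1 using 1
    ext w
    exact h w

end

/-- The class function `F` on the ordinals takes values in `V` and is definable over `V`. -/
def DO (V : Set ZFSet.{0}) [Inner V] (F : Ordinal.{0} → ZFSet.{0}) : Prop :=
  ∃ h : ∀ α, F α ∈ V, Dbl V (fun x : V => (⟨F (rk x), h _⟩ : V))

end Pool.Agent.SC
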