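import Pool.Agent.Lib_helper73.SCL.SDefs

set_option linter.unusedSectionVars false

namespace Pool.Agent.SC

open FirstOrder Pool.Agent.Lib_helper27 Pool.Agent.Lib_helper27.ST

universe u v w

section

variable {V : Set ZFSet.{0}} [Inner V] [GW V] {α β γ : Ordinal.{0}}

theorem HSet_sub : HSet V α ⊆ V := fun _ h => h.1

theorem HSet_mono (h : α ≤ β) : HSet V α ⊆ HSet V β :=
  fun _ ⟨h1, t, h2, h3, h4, γ, h5, h6⟩ => ⟨h1, t, h2, h3, h4, γ, h5.trans_le h, h6⟩

end 

end Pool.Agent.SC
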