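import Pool.Agent.Lib_helper73.SCL.Defs

/-!
# RFL: reflection for continuous increasing unions of sets
-/

set_option linter.unusedSectionVars false

namespace Pool.Agent.SC

open FirstOrder Pool.Agent.Lib_helper27 Pool.Agent.Lib_helper27.ST

universe u v w

theorem RFL_step (W : Set ZFSet.{0}) (X : Ordinal.{0} → Set ZFSet.{0}) (hm : Monotone X)
    (hs : ∀ δ, Small.{0} (X δ)) (hW : W = ⋃ δ, X δ) (C : Set Ordinal.{0})
    (hC : ∀ θ, ∃ δ ∈ C, θ < δ) (δ : Ordinal.{0}) :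
    ∃ ε ∈ C, δ < ε ∧ ∀ (k : ℕ) (φ : Fm (k + 1)) (xs : Fin k → W), (∀ i, (xs i).1 ∈ X δ) →
      (∃ y : W, Sat W φ (Fin.snoc xs y : Fin (k + 1) → W)) →
      ∃ y : W, y.1 ∈ X ε ∧ Sat W φ (Fin.snoc xs y : Fin (k + 1) → W) := by
  have hle : ∀ δ, X δ ⊆ W := by
    intro δ x hx
    rw [hW]
    exact Set.mem_iUnion.mpr ⟨δ, hx⟩
  let f : (Σ k, Fm (k + 1) × (Fin k → X δ)) → Ordinal.{0} := fun i =>
    sInf {η | ∃ y : W, y.1 ∈ X η ∧
      Sat W i.2.1 (Fin.snoc (fun j => Set.inclusion (hle δ) (i.2.2 j)) y : Fin (i.1 + 1) → W)}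
  have hsm := hs δ
  obtain ⟨b, hb⟩ := Ordinal.bddAbove_of_small (s := Set.range f)
  obtain ⟨ε, hε, hlt⟩ := hC (max b δ)
  refine ⟨ε, hε, lt_of_le_of_lt (le_max_right _ _) hlt, ?_⟩
  intro k φ xs hxs hy
  let i : (Σ k, Fm (k + 1) × (Fin k → X δ)) := ⟨k, φ, fun j => ⟨(xs j).1, hxs j⟩⟩
  have hfi : f i ≤ ε := le_of_lt (lt_of_le_of_lt ((hb ⟨i, rfl⟩).trans (le_max_left _ _)) hlt)
  have hne : {η | ∃ y : W, y.1 ∈ X η ∧
      Sat W i.2.1 (Fin.snoc (fun j => Set.inclusion (hle δ) (i.2.2 j)) y :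
        Fin (i.1 + 1) → W)}.Nonempty := by
    obtain ⟨y, hy⟩ := hy
    have h1 : y.1 ∈ ⋃ δ, X δ := hW ▸ y.2
    obtain ⟨η, hη⟩ := Set.mem_iUnion.mp h1
    exact ⟨η, y, hη, hy⟩
  obtain ⟨y, hy1, hy2⟩ := csInf_mem hne
  exact ⟨y, hm hfi hy1, hy2⟩

/-- Reflection for continuous increasing unions of sets. -/
theorem reflect (W : Set ZFSet.{0}) (X : Ordinal.{0} → Set ZFSet.{0}) (hm : Monotone X)
    (hs : ∀ δ, Small.{0} (X δ))
    (hc : ∀ d : ℕ → Ordinal.{0}, StrictMono d → X (⨆ n, d n) ⊆ ⋃ n, X (d n))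
    (hW : W = ⋃ δ, X δ) (hne : ∃ δ, (X δ).Nonempty) (C : Set Ordinal.{0})
    (hC : ∀ θ, ∃ δ ∈ C, θ < δ)
    (hC' : ∀ d : ℕ → Ordinal.{0}, StrictMono d → (∀ n, d n ∈ C) → (⨆ n, d n) ∈ C)
    (θ : Ordinal.{0}) : ∃ δ ∈ C, θ < δ ∧ ∃ h : X δ ⊆ W, ∀ (k : ℕ) (φ : Fm k) (xs : Fin k → X δ),
      Sat (X δ) φ xs ↔ Sat W φ (fun i => Set.inclusion h (xs i)) := by
  have hle : ∀ δ, X δ ⊆ W := by
    intro δ x hx
    rw [hW]
    exact Set.mem_iUnion.mpr ⟨δ, hx⟩
  choose g hg1 hg2 hg3 using RFL_step W X hm hs hW C hC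
  obtain ⟨d0, hd0, hd0'⟩ := hC θ
  let d : ℕ → Ordinal.{0} := fun n => Nat.rec d0 (fun _ x => g x) n
  have hdC : ∀ n, d n ∈ C := by
    intro n
    cases n with
    | zero => exact hd0
    | succ n => exact hg1 _
  have hd : StrictMono d := strictMono_nat_of_lt_succ fun n => hg2 (d n)
  have hds : ∀ n, d n ≤ ⨆ n, d n := fun n => Ordinal.le_iSup d n
  refine ⟨⨆ n, d n, hC' d hd hdC, lt_of_lt_of_le hd0' (hds 0), hle _, ?_⟩
  -- Tarski-Vaught
  have htv : ∀ (k : ℕ) (φ : Fm (k + 1)) (xs : Fin k → X (⨆ n, d n)) (y : W),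
      Sat W φ (Fin.snoc (fun i => Set.inclusion (hle _) (xs i)) y : Fin (k + 1) → W) →
      ∃ z : X (⨆ n, d n), Sat W φ (Fin.snoc (fun i => Set.inclusion (hle _) (xs i))
        (Set.inclusion (hle _) z) : Fin (k + 1) → W) := by
    intro k φ xs y hy
    have h1 : ∀ i, ∃ n, (xs i).1 ∈ X (d n) := fun i => Set.mem_iUnion.mp (hc d hd (xs i).2)
    choose m hm' using h1
    let N := Finset.univ.sup m
    have h2 : ∀ i, (Set.inclusion (hle _) (xs i) : W).1 ∈ X (d N) := fun i =>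
      hm (hd.monotone (Finset.le_sup (Finset.mem_univ i))) (hm' i)
    obtain ⟨z, hz1, hz2⟩ := hg3 (d N) k φ _ h2 ⟨y, hy⟩
    have h3 : z.1 ∈ X (⨆ n, d n) := hm (hds (N + 1)) hz1
    exact ⟨⟨z.1, h3⟩, hz2⟩
  intro k φ
  induction φ with
  | falsum => intro xs; exact Iff.rfl
  | equal t s =>
    intro xs
    have key : ∀ t : LSet.Term (Empty ⊕ Fin _), (t.realize
        (Sum.elim Empty.elim (fun i => (Set.inclusion (hle _) (xs i) : W)))) =
        Set.inclusion (hle _) (t.realize (Sum.elim Empty.elim xs)) := by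
      intro t
      cases t with
      | var a =>
        rcases a with a | a
        · exact a.elim
        · rfl
      | func f _ => exact f.elim
    show (_ = _) ↔ (_ = _)
    rw [key, key]
    exact (Set.inclusion_injective (hle _)).eq_iff.symm
  | rel R ts =>
    intro xs
    have key : ∀ t : LSet.Term (Empty ⊕ Fin _), (t.realize
        (Sum.elim Empty.elim (fun i => (Set.inclusion (hle _) (xs i) : W)))) =
        Set.inclusion (hle _) (t.realize (Sum.elim Empty.elim xs)) := by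
      intro t
      cases t with
      | var a =>
        rcases a with a | a
        · exact a.elim
        · rfl
      | func f _ => exact f.elim
    cases R
    show (SetStr.E (M := X (⨆ n, d n)) ((ts 0).realize (Sum.elim Empty.elim xs))
        ((ts 1).realize (Sum.elim Empty.elim xs))) ↔
      (SetStr.E (M := W)
        ((ts 0).realize (Sum.elim Empty.elim (fun i => (Set.inclusion (hle _) (xs i) : W))))
        ((ts 1).realize (Sum.elim Empty.elim (fun i => (Set.inclusion (hle _) (xs i) : W)))))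
    rw [key, key]
    exact Iff.rfl
  | imp φ ψ ih1 ih2 =>
    intro xs
    exact imp_congr (ih1 xs) (ih2 xs)
  | all φ ih =>
    intro xs
    have hsn : ∀ z : X (⨆ n, d n), (fun i => (Set.inclusion (hle _)
        ((Fin.snoc xs z : Fin _ → X (⨆ n, d n)) i) : W)) =
        (Fin.snoc (fun i => Set.inclusion (hle _) (xs i)) (Set.inclusion (hle _) z) :
          Fin _ → W) := by
      intro z
      exact Fin.comp_snoc (Set.inclusion (hle _)) xs z
    constructor
    · intro h y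
      by_contra hcon
      obtain ⟨z, hz⟩ := htv _ φ.not xs y hcon
      apply hz
      have h1 := (ih (Fin.snoc xs z)).mp (h z)
      rw [hsn z] at h1
      exact h1
    · intro h z
      refine (ih (Fin.snoc xs z)).mpr ?_
      rw [hsn z]
      exact h _

end Pool.Agent.SC
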