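import Pool.Agent.Lib_helper73.SCL.HST
import Pool.Agent.Lib_helper73.SCL.HST_a
import Pool.Agent.Lib_helper73.SCL.RFL

/-!
# Block CIN: fully elementary cardinals
-/

set_option linter.unusedSectionVars false

namespace Pool.Agent.SC

open FirstOrder Pool.Agent.Lib_helper27 Pool.Agent.Lib_helper27.ST

universe u v w

section

variable {V : Set ZFSet.{0}} [Inner V] [GW V] {α β γ : Ordinal.{0}}

theorem cinf_unbounded (V : Set ZFSet.{0}) [Inner V] [GW V] (θ : Ordinal.{0}) :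
    ∃ β, θ < β ∧ CInf V β := by
  obtain ⟨δ, h1, h2, h3⟩ := reflect V (HSet V) (fun _ _ h => HSet_mono h)
    (fun _ => HSet_small)
    (fun d hd x hx => by
      obtain ⟨n, hn⟩ := HSet_limit hd hx
      exact Set.mem_iUnion.2 ⟨n, hn⟩)
    (by
      ext x
      constructor
      · intro hx
        obtain ⟨β, hβ⟩ := exists_HSet (⟨x, hx⟩ : V)
        exact Set.mem_iUnion.2 ⟨β, hβ⟩
      · intro hx
        obtain ⟨β, hβ⟩ := Set.mem_iUnion.1 hx
        exact HSet_sub hβ)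
    (by
      obtain ⟨β, hβ⟩ := exists_HSet (oo V 0)
      exact ⟨β, _, hβ⟩)
    {δ | StrongLimit V δ}
    (fun θ => by
      obtain ⟨δ, h1, h2⟩ := sl_unbounded V θ
      exact ⟨δ, h2, h1⟩)
    (fun d hd h => sl_closed V d hd h) θ
  exact ⟨δ, h2, h1, h3⟩

/-- renaming of variables -/
def CIN_ren {k m : ℕ} (f : _root_.Fin k → _root_.Fin m) (φ : Fm k) : Fm m :=
  Language.BoundedFormula.relabel (n := m)
    (fun s : Empty ⊕ _root_.Fin k => s.elim Empty.elim (fun i => Sum.inr (f i))) φ.toFormula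

theorem CIN_sat_ren (H : Set ZFSet.{0}) {k m : ℕ} (f : _root_.Fin k → _root_.Fin m) (φ : Fm k)
    (xs : _root_.Fin m → H) : Sat H (CIN_ren f φ) xs ↔ Sat H φ (xs ∘ f) := by
  have h := Language.BoundedFormula.realize_relabel (L := LSet) (M := H) (φ := φ.toFormula)
    (m := m) (n := 0)
    (g := fun s : Empty ⊕ _root_.Fin k => s.elim Empty.elim (fun i => Sum.inr (f i)))
    (v := Empty.elim) (xs := xs)
  refine Iff.trans h ?_
  have h2 : (xs ∘ Fin.natAdd m : _root_.Fin 0 → H) = default := Subsingleton.elim _ _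
  rw [h2]
  refine Iff.trans (Language.BoundedFormula.realize_toFormula φ _) ?_
  unfold Sat
  have h3 : ((Sum.elim Empty.elim (xs ∘ Fin.castAdd 0) ∘
      (fun s : Empty ⊕ _root_.Fin k => s.elim Empty.elim (fun i => Sum.inr (f i)))) ∘ Sum.inl :
      Empty → H) = Empty.elim := Subsingleton.elim _ _
  rw [h3]
  exact Iff.rfl

theorem CIN_sat_mem (H : Set ZFSet.{0}) {k : ℕ} (i j : _root_.Fin k) (xs : _root_.Fin k → H) :
    Sat H (Fm.mem i j) xs ↔ (xs i).1 ∈ (xs j).1 := by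
  unfold Sat Fm.mem
  rw [Language.BoundedFormula.realize_rel₂]
  exact Iff.rfl

/-- the positions of the variables -/
def CIN_pos (k : ℕ) : _root_.Fin (k + 2) → _root_.Fin (k + 4) :=
  Fin.snoc (α := fun _ => _root_.Fin (k + 4)) (Fin.snoc (α := fun _ => _root_.Fin (k + 4))
    (fun i : _root_.Fin k => i.castSucc.castSucc.castSucc.castSucc) (Fin.last (k + 2)).castSucc)
      (Fin.last (k + 3))

/-- the formula `∃ b ∀ x ∈ a ∃ y ∈ b φ` -/
def CIN_psi {k : ℕ} (φ : Fm (k + 2)) : Fm (k + 1) :=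
  Language.BoundedFormula.ex (Language.BoundedFormula.all (Language.BoundedFormula.imp
    (Fm.mem (k := k + 3) (Fin.last (k + 2)) (Fin.last k).castSucc.castSucc)
    (Language.BoundedFormula.ex
      (Fm.mem (k := k + 4) (Fin.last (k + 3)) (Fin.last (k + 1)).castSucc.castSucc ⊓
        CIN_ren (CIN_pos k) φ))))

theorem CIN_pos_comp {X : Type*} {k : ℕ} (p : _root_.Fin k → X) (a b x y : X) :
    (Fin.snoc (Fin.snoc (Fin.snoc (Fin.snoc p a : _root_.Fin (k + 1) → X) b :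
      _root_.Fin (k + 2) → X) x : _root_.Fin (k + 3) → X) y : _root_.Fin (k + 4) → X) ∘ CIN_pos k =
      (Fin.snoc (Fin.snoc p x : _root_.Fin (k + 1) → X) y : _root_.Fin (k + 2) → X) := by
  funext i
  refine Fin.lastCases ?_ (fun i => ?_) i
  · simp [CIN_pos]
  · refine Fin.lastCases ?_ (fun i => ?_) i
    · simp [CIN_pos]
    · simp [CIN_pos]

theorem CIN_sat_psi (H : Set ZFSet.{0}) {k : ℕ} (φ : Fm (k + 2)) (p : _root_.Fin k → H) (a : H) :
    Sat H (CIN_psi φ) (Fin.snoc p a : _root_.Fin (k + 1) → H) ↔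
      ∃ b : H, ∀ x : H, x.1 ∈ a.1 → ∃ y : H, y.1 ∈ b.1 ∧
        Sat H φ (Fin.snoc (Fin.snoc p x : _root_.Fin (k + 1) → H) y) := by
  unfold CIN_psi
  show Language.BoundedFormula.Realize _ _ _ ↔ _
  rw [Language.BoundedFormula.realize_ex]
  refine exists_congr fun b => ?_
  rw [Language.BoundedFormula.realize_all]
  refine forall_congr' fun x => ?_
  rw [Language.BoundedFormula.realize_imp]
  refine imp_congr ?_ ?_
  · refine (CIN_sat_mem H _ _ _).trans ?_
    rw [Fin.snoc_last, Fin.snoc_castSucc, Fin.snoc_castSucc, Fin.snoc_last]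
  · rw [Language.BoundedFormula.realize_ex]
    refine exists_congr fun y => ?_
    rw [Language.BoundedFormula.realize_inf]
    refine and_congr ?_ ?_
    · refine (CIN_sat_mem H _ _ _).trans ?_
      rw [Fin.snoc_last, Fin.snoc_castSucc, Fin.snoc_castSucc, Fin.snoc_last]
    · refine (CIN_sat_ren H _ _ _).trans ?_
      rw [CIN_pos_comp]

theorem CIN_sat_dbl2 {k : ℕ} (φ : Fm (k + 2)) (p : _root_.Fin k → V) :
    Dbl V (fun z : V × V => Sat V φ (Fin.snoc (Fin.snoc p z.1 : _root_.Fin (k + 1) → V) z.2)) := by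
  rw [dbl_prop_iff, Set.definable_iff_exists_formula_sum]
  let g : Empty ⊕ _root_.Fin (k + 2) → ↑(Set.univ : Set V) ⊕ (Unit ⊕ Unit) := fun s =>
    s.elim Empty.elim (Fin.snoc (α := fun _ => ↑(Set.univ : Set V) ⊕ (Unit ⊕ Unit))
      (Fin.snoc (α := fun _ => ↑(Set.univ : Set V) ⊕ (Unit ⊕ Unit))
        (fun j : _root_.Fin k => Sum.inl ⟨p j, trivial⟩) (Sum.inr (Sum.inl ())))
        (Sum.inr (Sum.inr ())))
  refine ⟨φ.toFormula.relabel g, ?_⟩
  ext v
  show Sat V φ (Fin.snoc (Fin.snoc p (v (Sum.inl ())) : _root_.Fin (k + 1) → V)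
    (v (Sum.inr ()))) ↔ Language.Formula.Realize _ _
  rw [Language.Formula.realize_relabel, Language.BoundedFormula.realize_toFormula]
  unfold Sat
  have h1 : ((Sum.elim (↑) v ∘ g) ∘ Sum.inl : Empty → V) = Empty.elim := Subsingleton.elim _ _
  have h2 : ((Sum.elim (↑) v ∘ g) ∘ Sum.inr : _root_.Fin (k + 2) → V) =
      (Fin.snoc (Fin.snoc p (v (Sum.inl ())) : _root_.Fin (k + 1) → V) (v (Sum.inr ()))) := by
    funext i
    refine Fin.lastCases ?_ (fun i => ?_) i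
    · simp [g]
    · refine Fin.lastCases ?_ (fun i => ?_) i
      · simp [g]
      · simp [g]
  rw [h1, h2]

/-- collection in `V` -/
theorem CIN_collect {k : ℕ} (φ : Fm (k + 2)) (p : _root_.Fin k → V) (a : V)
    (h : ∀ x : V, x.1 ∈ a.1 →
      ∃ y : V, Sat V φ (Fin.snoc (Fin.snoc p x : _root_.Fin (k + 1) → V) y)) :
    ∃ b : V, ∀ x : V, x.1 ∈ a.1 → ∃ y : V, y.1 ∈ b.1 ∧
        Sat V φ (Fin.snoc (Fin.snoc p x : _root_.Fin (k + 1) → V) y) := by
  obtain ⟨c, hc, hcd⟩ := GW.out (V := V)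
  have hR := CIN_sat_dbl2 φ p
  let R : V → V → Prop := fun x y => Sat V φ (Fin.snoc (Fin.snoc p x : _root_.Fin (k + 1) → V) y)
  have hR' : Dbl V (fun z : V × V => R z.1 z.2) := hR
  let D : V → V → Prop := fun x y => R x y ∧ ∀ y', R x y' → c y ≤ c y'
  have hD : Dbl V (fun z : V × V => D z.1 z.2) := by
    have h1 : Dbl V (fun z : (V × V) × V => R z.1.1 z.2) :=
      Dbl.comp (f := fun z : (V × V) × V => (z.1.1, z.2)) (g := fun z : V × V => R z.1 z.2)
        (by fun_prop) hR'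
    have h2 : Dbl V (fun z : (V × V) × V => c z.1.2) :=
      Dbl.comp (f := fun z : (V × V) × V => z.1.2) (g := c) (by fun_prop) hcd
    have h3 : Dbl V (fun z : (V × V) × V => c z.2) :=
      Dbl.comp (f := fun z : (V × V) × V => z.2) (g := c) (by fun_prop) hcd
    exact hR'.and (Dbl.all (h1.imp (dbl_le h2 h3)))
  have hF : Dbl V (fun x => iota (D x)) := dbl_iota hD
  have hspec : ∀ x : V, (∃ y, R x y) → D x (iota (D x)) := by
    intro x hx
    apply iota_spec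
    obtain ⟨o, ⟨y, hy, rfl⟩, hmin⟩ := WellFounded.has_min
      (r := ((· < ·) : Ordinal.{0} → Ordinal.{0} → Prop)) Ordinal.lt_wf
      {o | ∃ y, R x y ∧ c y = o} ⟨_, hx.choose, hx.choose_spec, rfl⟩
    refine ⟨y, ⟨hy, fun y' hy' => not_lt.1 (hmin _ ⟨y', hy', rfl⟩)⟩, fun z hz => ?_⟩
    exact hc (le_antisymm (hz.2 y hy) (not_lt.1 (hmin _ ⟨z, hz.1, rfl⟩)))
  refine ⟨image (fun x => iota (D x)) a, fun x hx => ⟨iota (D x), ?_, (hspec x (h x hx)).1⟩⟩
  exact (mem_image hF).2 ⟨x, hx, rfl⟩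

theorem CIN_coll {n : ℕ} (hα : CInf V α) : SigColl n (HSet V α) := by
  obtain ⟨-, hs, hfull⟩ := hα
  intro k φ _ p a hyp
  have h1 : ∃ b : V, ∀ x : V, x.1 ∈ (Set.inclusion hs a).1 → ∃ y : V, y.1 ∈ b.1 ∧
      Sat V φ (Fin.snoc (Fin.snoc (fun i => Set.inclusion hs (p i)) x :
        _root_.Fin (k + 1) → V) y) := by
    apply CIN_collect
    intro x hx
    have hx' : x.1 ∈ HSet V α := HSet_trans a.2 hx
    obtain ⟨y, hy⟩ := hyp ⟨x.1, hx'⟩ hx
    rw [hfull] at hy
    refine ⟨Set.inclusion hs y, ?_⟩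
    convert! hy using 2
    rename_i i
    refine Fin.lastCases ?_ (fun i => ?_) i
    · simp
    · refine Fin.lastCases ?_ (fun i => ?_) i
      · simp
      · simp
  rw [← CIN_sat_psi] at h1
  rw [← CIN_sat_psi, hfull]
  convert! h1 using 2
  rename_i i
  refine Fin.lastCases ?_ (fun i => ?_) i
  · simp
  · simp

theorem cinf_stab {n : ℕ} (hn : 1 ≤ n) (hα : CInf V α) (hβ : CInf V β) (h : α ≤ β) :
    triple n α β ∈ Stab V := by
  refine ⟨n, α, β, hn, rfl, ⟨hα.1, CIN_coll hα⟩, ⟨hβ.1, CIN_coll hβ⟩, HSet_mono h, ?_⟩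
  intro k φ _ xs
  obtain ⟨-, hs, hfull⟩ := hα
  obtain ⟨-, hs', hfull'⟩ := hβ
  exact (hfull k φ xs).trans (hfull' k φ (fun i => Set.inclusion (HSet_mono h) (xs i))).symm

end

end Pool.Agent.SC
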