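import Pool.Agent.Lib_helper73.SCL.ADB_a

set_option linter.unusedSectionVars false

namespace Pool.Agent.SC

open FirstOrder Pool.Agent.Lib_helper27 Pool.Agent.Lib_helper27.ST

universe u v w

variable {S : MSys}

/-- the 8-fold power set -/
noncomputable def bigp (x : S.V) : S.V :=
  power (power (power (power (power (power (power (power x)))))))

end Pool.Agent.SC
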