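import Pool.Agent.Lib_helper73.SCL.ADB_a

set_option linter.unusedSectionVars false

namespace Pool.Agent.SC

open FirstOrder Pool.Agent.Lib_helper27 Pool.Agent.Lib_helper27.ST

universe u v w

variable {S : MSys}

/-- restriction of a set function `w` to the set `d` -/
noncomputable def resf (d w : S.V) : S.V := comp fun p => p ∈ w ∧ fstp p ∈ d

end Pool.Agent.SC
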