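import Pool.Agent.Lib_helper73.SCL.DIC
import Pool.Agent.Lib_helper73.SCL.ENC_a

/-!
# Block ENC: coding of assignments
-/

set_option linter.unusedSectionVars false

namespace Pool.Agent.SC

open FirstOrder Pool.Agent.Lib_helper27 Pool.Agent.Lib_helper27.ST

universe u v w

variable {S : MSys}

theorem ENC_mem_encZ {c : Finset Ordinal.{0}} {z : Asg S} {x : ZFSet.{0}} :
    x ∈ encZ c z ↔ ∃ s ∈ c, x = ZFSet.pair s.toZFSet (z s).1.toZFSet := by
  unfold encZ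
  rw [ZFSet.mem_range]
  constructor
  · rintro ⟨⟨s, hs⟩, rfl⟩
    exact ⟨s, hs, rfl⟩
  · rintro ⟨s, hs, rfl⟩
    exact ⟨⟨s, hs⟩, rfl⟩

theorem ENC_mem_fcZ {c : Finset Ordinal.{0}} {x : ZFSet.{0}} :
    x ∈ fcZ c ↔ ∃ s ∈ c, x = s.toZFSet := by
  unfold fcZ
  rw [ZFSet.mem_range]
  constructor
  · rintro ⟨⟨s, hs⟩, rfl⟩
    exact ⟨s, hs, rfl⟩
  · rintro ⟨s, hs, rfl⟩
    exact ⟨⟨s, hs⟩, rfl⟩

theorem ENC_encZ_mem (c : Finset Ordinal.{0}) (z : Asg S) : encZ c z ∈ S.V := by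
  refine finite_mem _ ?_ ?_
  · unfold encZ
    rw [ZFSet.coe_range]
    exact Set.finite_range _
  · intro y hy
    obtain ⟨s, hs, rfl⟩ := ENC_mem_encZ.1 hy
    exact pair_mem_iff.2 ⟨Inner.ord _, Inner.ord _⟩

theorem ENC_fcZ_mem (c : Finset Ordinal.{0}) : fcZ c ∈ S.V := by
  refine finite_mem _ ?_ ?_
  · unfold fcZ
    rw [ZFSet.coe_range]
    exact Set.finite_range _
  · intro y hy
    obtain ⟨s, hs, rfl⟩ := ENC_mem_fcZ.1 hy
    exact Inner.ord _

theorem val_enc (c : Finset Ordinal.{0}) (z : Asg S) : (enc c z).1 = encZ c z := by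
  unfold enc
  rw [dif_pos (ENC_encZ_mem c z)]

theorem val_fc (c : Finset Ordinal.{0}) : (fc S c).1 = fcZ c := by
  unfold fc
  rw [dif_pos (ENC_fcZ_mem c)]

theorem mem_fc {c : Finset Ordinal.{0}} {x : S.V} : x ∈ fc S c ↔ ∃ s ∈ c, x = oo S.V s := by
  rw [mem_def', val_fc, ENC_mem_fcZ]
  exact exists_congr fun s => and_congr_right fun _ =>
    (Subtype.ext_iff (a1 := x) (a2 := oo S.V s)).symm

theorem fc_inj {c c' : Finset Ordinal.{0}} : fc S c = fc S c' ↔ c = c' := by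
  constructor
  · intro h
    have key : ∀ {c c' : Finset Ordinal.{0}}, fc S c = fc S c' → ∀ s ∈ c, s ∈ c' := by
      intro c c' h s hs
      have h1 : oo S.V s ∈ fc S c := mem_fc.2 ⟨s, hs, rfl⟩
      rw [h, mem_fc] at h1
      obtain ⟨s', hs', h2⟩ := h1
      rw [oo_inj.1 h2]; exact hs'
    exact Finset.ext fun s => ⟨key h s, key h.symm s⟩
  · rintro rfl; rfl

theorem mem_enc {c : Finset Ordinal.{0}} {z : Asg S} {x : S.V} :
    x ∈ enc c z ↔ ∃ s ∈ c, x = opair (oo S.V s) (oo S.V (z s).1) := by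
  rw [mem_def', val_enc, ENC_mem_encZ]
  refine exists_congr fun s => and_congr_right fun _ => ?_
  rw [Subtype.ext_iff, val_opair]
  rfl

theorem fapp_enc {c : Finset Ordinal.{0}} {z : Asg S} {s : Ordinal.{0}} (hs : s ∈ c) :
    fapp (enc c z) (oo S.V s) = oo S.V (z s).1 := by
  unfold fapp
  refine iota_eq (mem_enc.2 ⟨s, hs, rfl⟩) fun y hy => ?_
  obtain ⟨s', hs', h⟩ := mem_enc.1 hy
  obtain ⟨h1, h2⟩ := opair_inj.1 h
  rw [h2, oo_inj.1 h1]

theorem enc_congr {c : Finset Ordinal.{0}} {z z' : Asg S} (h : ∀ s ∈ c, z s = z' s) :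
    enc c z = enc c z' := by
  refine ST.ext fun x => ?_
  rw [mem_enc, mem_enc]
  refine exists_congr fun s => and_congr_right fun hs => ?_
  rw [h s hs]

theorem enc_inj {c : Finset Ordinal.{0}} {z z' : Asg S} (h : enc c z = enc c z') :
    ∀ s ∈ c, z s = z' s := by
  intro s hs
  have h1 := fapp_enc (z := z) hs
  rw [h, fapp_enc hs] at h1
  exact Subtype.ext (oo_inj.1 h1).symm

theorem enc_insert {c : Finset Ordinal.{0}} {z : Asg S} {m : Ordinal.{0}} (hm : m ∉ c)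
    (ξ : Set.Iio S.κ) : enc (insert m c) (Function.update z m ξ) =
      union (enc c z) (upair (opair (oo S.V m) (oo S.V ξ.1)) (opair (oo S.V m) (oo S.V ξ.1))) := by
  refine ST.ext fun x => ?_
  rw [mem_enc, mem_union, mem_enc, mem_upair, or_self]
  constructor
  · rintro ⟨s, hs, h⟩
    rcases Finset.mem_insert.1 hs with h1 | h1
    · subst h1
      rw [Function.update_self] at h
      exact Or.inr h
    · have hsm : s ≠ m := fun h2 => hm (h2 ▸ h1)
      rw [Function.update_of_ne hsm] at h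
      exact Or.inl ⟨s, h1, h⟩
  · rintro (⟨s, hs, h⟩ | h)
    · refine ⟨s, Finset.mem_insert_of_mem hs, ?_⟩
      have hsm : s ≠ m := fun h2 => hm (h2 ▸ hs)
      rw [Function.update_of_ne hsm]
      exact h
    · refine ⟨m, Finset.mem_insert_self _ _, ?_⟩
      rw [Function.update_self]
      exact h

theorem ENC_small (d w : S.V) : Small (fun p : S.V => p ∈ w ∧ fstp p ∈ d) :=
  small_sep (D := fun p : S.V => fstp p ∈ d) (by fun_prop) w

theorem ENC_mem_resf {d w p : S.V} : p ∈ resf d w ↔ p ∈ w ∧ fstp p ∈ d := by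
  unfold resf
  exact mem_comp (ENC_small d w)

@[fun_prop] theorem resf_dbl {Γ : Type v} [Ctx S.V Γ] {f g : Γ → S.V} (hf : Dbl S.V f) (hg : Dbl S.V g) :
    Dbl S.V (fun γ => resf (f γ) (g γ)) := by
  unfold resf
  exact dbl_comp (fun γ => ENC_small _ _) (by fun_prop)

theorem resf_enc {c c' : Finset Ordinal.{0}} (h : c ⊆ c') (z : Asg S) :
    resf (fc S c) (enc c' z) = enc c z := by
  refine ST.ext fun x => ?_
  rw [ENC_mem_resf, mem_enc, mem_enc, mem_fc]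
  constructor
  · rintro ⟨⟨s, hs, rfl⟩, s', hs', h2⟩
    rw [fstp_opair] at h2
    have := oo_inj.1 h2
    subst this
    exact ⟨s, hs', rfl⟩
  · rintro ⟨s, hs, rfl⟩
    exact ⟨⟨s, h hs, rfl⟩, s, hs, fstp_opair _ _⟩

theorem cdom_code (c : Finset Ordinal.{0}) (F : S.V) : cdom (opair (fc S c) F) = c := by
  unfold cdom
  have h : ∃ c', fstp (opair (fc S c) F) = fc S c' := ⟨c, fstp_opair _ _⟩
  rw [dif_pos h]
  have h1 : fc S c = fc S h.choose := (fstp_opair _ _).symm.trans h.choose_spec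
  exact (fc_inj.1 h1).symm

theorem cfun_code (c : Finset Ordinal.{0}) (F : S.V) (z : Asg S) :
    cfun (opair (fc S c) F) z = rk (fapp F (enc c z)) := by
  unfold cfun
  rw [cdom_code, sndp_opair]

theorem ENC_pos (S : MSys) : 0 < S.κ := by
  have h := S.unc S.κ le_rfl
  rw [S.kap_top] at h
  rcases eq_zero_or_pos S.κ with h0 | h0
  · rw [h0, Ordinal.card_zero] at h
    exact absurd h (by simp)
  · exact h0

theorem ENC_mem_oo {α : Ordinal.{0}} {y : S.V} : y ∈ oo S.V α ↔ ∃ β < α, y = oo S.V β := by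
  rw [mem_def']
  constructor
  · intro h
    obtain ⟨β, hβ, h1⟩ := Ordinal.mem_toZFSet_iff.1 h
    exact ⟨β, hβ, Subtype.ext h1.symm⟩
  · rintro ⟨β, hβ, rfl⟩
    exact Ordinal.toZFSet_mem_toZFSet_iff.2 hβ

theorem exists_Fn (c : Finset Ordinal.{0}) :
    ∃ D : S.V, ∀ w, w ∈ D ↔ ∃ z : Asg S, w = enc c z := by
  classical
  obtain ⟨D, hD⟩ := sep_exists (M := S.V) (D := fun w : S.V => ∀ x, x ∈ fc S c → ∃ y,
    y ∈ oo S.V S.κ ∧ opair x y ∈ w ∧ ∀ y', opair x y' ∈ w → y' = y) (by fun_prop)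
    (power (prod (fc S c) (oo S.V S.κ)))
  refine ⟨D, fun w => ?_⟩
  rw [hD]
  constructor
  · rintro ⟨h1, h2⟩
    rw [mem_power] at h1
    have h3 : ∀ s : Ordinal.{0}, s ∈ c → ∃ α : Set.Iio S.κ, opair (oo S.V s) (oo S.V α.1) ∈ w ∧
        ∀ y', opair (oo S.V s) y' ∈ w → y' = oo S.V α.1 := by
      intro s hs
      obtain ⟨y, hy, hy1, hy2⟩ := h2 (oo S.V s) (mem_fc.2 ⟨s, hs, rfl⟩)
      obtain ⟨α, hα, rfl⟩ := ENC_mem_oo.1 hy
      exact ⟨⟨α, hα⟩, hy1, hy2⟩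
    choose f hf1 hf2 using h3
    refine ⟨fun s => if h : s ∈ c then f s h else ⟨0, ENC_pos S⟩, ?_⟩
    refine ST.ext fun p => ?_
    rw [mem_enc]
    constructor
    · intro hp
      obtain ⟨x, hx, y, hy, rfl⟩ := mem_prod.1 (h1 p hp)
      obtain ⟨s, hs, rfl⟩ := mem_fc.1 hx
      refine ⟨s, hs, ?_⟩
      rw [dif_pos hs, hf2 s hs y hp]
    · rintro ⟨s, hs, rfl⟩
      rw [dif_pos hs]
      exact hf1 s hs
  · rintro ⟨z, rfl⟩
    constructor
    · rw [mem_power]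
      intro p hp
      obtain ⟨s, hs, rfl⟩ := mem_enc.1 hp
      rw [opair_mem_prod]
      exact ⟨mem_fc.2 ⟨s, hs, rfl⟩, ENC_mem_oo.2 ⟨_, (z s).2, rfl⟩⟩
    · intro x hx
      obtain ⟨s, hs, rfl⟩ := mem_fc.1 hx
      refine ⟨oo S.V (z s).1, ENC_mem_oo.2 ⟨_, (z s).2, rfl⟩, mem_enc.2 ⟨s, hs, rfl⟩, ?_⟩
      intro y' hy'
      obtain ⟨s', hs', h⟩ := mem_enc.1 hy'
      obtain ⟨h1, h2⟩ := opair_inj.1 h
      rw [h2, oo_inj.1 h1]

end Pool.Agent.SC
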