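import Pool.Agent.Lib_helper73.SCL.DIC
import Pool.Agent.Lib_helper73.SCL.SDefs

/-!
# SC block SLM (MP_80bdc1_lc): strong limit cardinals of inner models
-/

set_option linter.unusedSectionVars false

namespace Pool.Agent.SC

open FirstOrder Pool.Agent.Lib_helper27 Pool.Agent.Lib_helper27.ST

universe u v w

section

variable {V : Set ZFSet.{0}} [Inner V] [GW V] {α β γ : Ordinal.{0}}

omit [GW V] in
theorem slm_inj {α β : Ordinal.{0}} :
    InjIn V α.toZFSet β.toZFSet ↔ ST.Inj (oo V α) (oo V β) := (inj_iff (oo V α) (oo V β)).symm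

omit [GW V] in
theorem slm_inj_pow {α β : Ordinal.{0}} :
    InjIn V (ZFSet.sep (· ∈ V) (ZFSet.powerset α.toZFSet)) β.toZFSet ↔
      ST.Inj (ST.power (oo V α)) (oo V β) := by
  rw [inj_iff, val_power]
  rfl

omit [GW V] in
theorem slm_sub {α β : Ordinal.{0}} (h : α ≤ β) (x : V) (hx : x ∈ oo V α) : x ∈ oo V β :=
  Ordinal.toZFSet_subset_toZFSet_iff.2 h hx

omit [GW V] in
theorem slm_inj_le {α β : Ordinal.{0}} (h : α ≤ β) : ST.Inj (oo V α) (oo V β) :=
  Inj.of_subset (slm_sub h)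

omit [GW V] in
/-- Cantor's theorem in `V` -/
theorem slm_cantor (x : V) : ¬ ST.Inj (ST.power x) x := by
  intro h
  obtain ⟨F, hF, h1, h2⟩ := h.exists_fun
  have hD : Dbl V (fun y : V => ∃ z, z ∈ ST.power x ∧ F z = y ∧ ¬ y ∈ z) := by fun_prop
  obtain ⟨D, hD'⟩ := sep_exists hD x
  have hDp : D ∈ ST.power x := by
    rw [mem_power]
    intro v hv
    exact ((hD' v).1 hv).1
  by_cases hm : F D ∈ D
  · obtain ⟨_, z, hz, hz2, hz3⟩ := (hD' _).1 hm
    have : z = D := h2 z hz D hDp hz2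
    rw [this] at hz3
    exact hz3 hm
  · exact hm ((hD' _).2 ⟨h1 D hDp, D, hDp, rfl, hm⟩)

/-- every set of `V` injects in `V` into an ordinal -/
theorem slm_inj_ord (x : V) (θ : Ordinal.{0}) : ∃ β, θ < β ∧ ST.Inj x (oo V β) := by
  obtain ⟨c, hc, hcd⟩ := (inferInstance : GW V).out
  have hsm : Small.{0} (Set.range (fun z : {z : V // z ∈ x} => c z.1)) := by
    have h1 : Small.{0} {z : V // z ∈ x} := by
      have h2 : Small.{0} {z : ZFSet.{0} // z ∈ x.1} := inferInstance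
      exact small_of_injective (β := {z : ZFSet.{0} // z ∈ x.1})
        (f := fun z => ⟨z.1.1, z.2⟩) (by
          intro a b hab
          simp only [Subtype.mk.injEq] at hab
          exact Subtype.ext (Subtype.ext hab))
    infer_instance
  obtain ⟨B, hB⟩ := Ordinal.bddAbove_of_small (s := Set.range (fun z : {z : V // z ∈ x} => c z.1))
  refine ⟨max (θ + 1) (B + 1), lt_of_lt_of_le (lt_add_one θ) (le_max_left _ _), ?_⟩
  refine Inj.of_fun (φ := fun z => oo V (c z)) (dbl_ord_iff.1 hcd) (fun z hz => ?_) (fun z _ w _ h => ?_)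
  · rw [oo_mem]
    have h3 : c z ≤ B := hB ⟨⟨z, hz⟩, rfl⟩
    exact lt_of_lt_of_le (lt_of_le_of_lt h3 (lt_add_one B)) (le_max_right _ _)
  · exact hc (oo_inj.1 h)

theorem sl_unbounded (V : Set ZFSet.{0}) [Inner V] [GW V] (θ : Ordinal.{0}) :
    ∃ α, θ < α ∧ StrongLimit V α := by
  choose f hf1 hf2 using fun θ' : Ordinal.{0} => slm_inj_ord (ST.power (oo V θ')) θ'
  set d : ℕ → Ordinal.{0} := fun n => Nat.rec (max θ Ordinal.omega0) (fun _ a => f a) n with hd
  have hd0 : d 0 = max θ Ordinal.omega0 := rfl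
  have hds : ∀ n, d (n + 1) = f (d n) := fun n => rfl
  have hmono : StrictMono d := strictMono_nat_of_lt_succ fun n => by rw [hds]; exact hf1 _
  have hlt : ∀ n, d n < ⨆ n, d n := fun n =>
    lt_of_lt_of_le (hmono (Nat.lt_succ_self n)) (Ordinal.le_iSup d (n + 1))
  have hex : ∀ β < ⨆ n, d n, ∃ n, β < d n := fun β hβ => Ordinal.lt_iSup_iff.1 hβ
  refine ⟨⨆ n, d n, lt_of_le_of_lt (hd0 ▸ le_max_left _ _) (hlt 0), ?_, ?_, ?_⟩
  · exact (hd0 ▸ le_max_right _ _ : Ordinal.omega0 ≤ d 0).trans (hlt 0).le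
  · intro β hβ hinj
    obtain ⟨n, hn⟩ := hex β hβ
    rw [slm_inj] at hinj
    refine slm_cantor (V := V) (oo V (d n)) ?_
    have h1 : ST.Inj (ST.power (oo V (d n))) (oo V (d (n + 1))) := by
      rw [hds]
      exact hf2 _
    exact ((h1.trans (slm_inj_le (hlt (n + 1)).le)).trans hinj).trans (slm_inj_le hn.le)
  · intro β hβ
    obtain ⟨n, hn⟩ := hex β hβ
    refine ⟨d (n + 1), hlt (n + 1), ?_⟩
    rw [slm_inj_pow]
    have h1 : ST.Inj (ST.power (oo V (d n))) (oo V (d (n + 1))) := by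
      rw [hds]
      exact hf2 _
    refine Inj.trans (Inj.of_subset fun x hx => ?_) h1
    rw [mem_power] at hx ⊢
    exact fun v hv => slm_sub hn.le v (hx v hv)

theorem sl_closed (V : Set ZFSet.{0}) [Inner V] [GW V] (d : ℕ → Ordinal.{0}) (hd : StrictMono d)
    (h : ∀ n, StrongLimit V (d n)) : StrongLimit V (⨆ n, d n) := by
  have hlt : ∀ n, d n < ⨆ n, d n := fun n =>
    lt_of_lt_of_le (hd (Nat.lt_succ_self n)) (Ordinal.le_iSup d (n + 1))
  have hex : ∀ β < ⨆ n, d n, ∃ n, β < d n := fun β hβ => Ordinal.lt_iSup_iff.1 hβ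
  refine ⟨(h 0).1.trans (hlt 0).le, ?_, ?_⟩
  · intro β hβ hinj
    obtain ⟨n, hn⟩ := hex β hβ
    refine (h n).2.1 β hn ?_
    rw [slm_inj] at hinj ⊢
    exact (slm_inj_le (hlt n).le).trans hinj
  · intro β hβ
    obtain ⟨n, hn⟩ := hex β hβ
    obtain ⟨γ, hγ, hγ2⟩ := (h n).2.2 β hn
    exact ⟨γ, hγ.trans (hlt n), hγ2⟩

theorem sl_limit (hα : StrongLimit V α) {ξ : Ordinal.{0}} (hξ : ξ < α) : ξ + 1 < α := by
  by_contra hcon
  have h1 : α = ξ + 1 := le_antisymm (not_lt.1 hcon) (Order.add_one_le_of_lt hξ)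
  have h2 : Ordinal.omega0 ≤ ξ := by
    by_contra h3
    rw [not_le] at h3
    obtain ⟨n, rfl⟩ := Ordinal.lt_omega0.1 h3
    have h4 : ((n : Ordinal.{0}) + 1) < Ordinal.omega0 := by
      exact_mod_cast Ordinal.natCast_lt_omega0 (n + 1)
    have := hα.1
    rw [h1] at this
    exact absurd h4 (not_lt.2 this)
  refine hα.2.1 ξ hξ ?_
  rw [slm_inj, h1]
  have h3 : InfOrd (oo V ξ) := infOrd_iff.2 ⟨ξ, h2, rfl⟩
  have h4 := h3.succ_inj
  have h5 : ST.succ (oo V ξ) = oo V (ξ + 1) := by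
    apply Subtype.ext
    rw [val_succ]
    exact (Ordinal.toZFSet_add_one ξ).symm
  rwa [h5] at h4

end

end Pool.Agent.SC
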