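import Pool.Agent.Lib_helper73.SCL.ORD
import Pool.Agent.Lib_helper73.SCL.SLM

/-!
# Block HST: the sets `H_α`
-/

set_option linter.unusedSectionVars false
set_option linter.unusedVariables false

namespace Pool.Agent.SC

open FirstOrder Pool.Agent.Lib_helper27 Pool.Agent.Lib_helper27.ST

universe u v w

section

variable {V : Set ZFSet.{0}} [Inner V] [GW V] {α β γ : Ordinal.{0}}

theorem hst_mem_oo {z : V} : z ∈ oo V α ↔ ∃ ξ < α, z = oo V ξ := by
  constructor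
  · intro h
    obtain ⟨ξ, h1, h2⟩ := (Ordinal.mem_toZFSet_iff).1 (show z.1 ∈ α.toZFSet from h)
    exact ⟨ξ, h1, Subtype.ext h2.symm⟩
  · rintro ⟨ξ, h1, rfl⟩
    exact oo_mem.2 h1

theorem hst_iff {x : V} : x.1 ∈ HSet V α ↔ ∃ t : V, (∀ y, y ∈ t → ∀ z, z ∈ y → z ∈ t) ∧
    (∀ z, z ∈ x → z ∈ t) ∧ ∃ β < α, ST.Inj t (oo V β) := by
  constructor
  · rintro ⟨hx, t, ht, htt, hxt, β, hβ, hi⟩
    exact ⟨⟨t, ht⟩, fun y hy z hz => htt y.1 hy hz, fun z hz => hxt hz, β, hβ, (inj_iff _ _).2 hi⟩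
  · rintro ⟨t, ht, hxt, β, hβ, hi⟩
    refine ⟨x.2, t.1, t.2, ?_, ?_, β, hβ, (inj_iff _ _).1 hi⟩
    · intro y hy z hz
      have hyV := Inner.trans _ t.2 _ hy
      exact ht ⟨y, hyV⟩ hy ⟨z, Inner.trans _ hyV _ hz⟩ hz
    · intro z hz
      exact hxt ⟨z, Inner.trans _ x.2 _ hz⟩ hz

theorem HSet_trans {x y : ZFSet.{0}} (hx : x ∈ HSet V α) (hy : y ∈ x) : y ∈ HSet V α := by
  obtain ⟨h1, t, ht, htt, hxt, h2⟩ := hx
  exact ⟨Inner.trans _ h1 _ hy, t, ht, htt, htt y (hxt hy), h2⟩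

theorem HSet_subset {x y : ZFSet.{0}} (hx : x ∈ HSet V α) (hy : y ∈ V) (h : y ⊆ x) :
    y ∈ HSet V α := by
  obtain ⟨h1, t, ht, htt, hxt, h2⟩ := hx
  exact ⟨hy, t, ht, htt, fun z hz => hxt (h hz), h2⟩

theorem hst_trans_oo (ξ : Ordinal.{0}) : ∀ y, y ∈ oo V ξ → ∀ z, z ∈ y → z ∈ oo V ξ := by
  intro y hy z hz
  obtain ⟨η, h1, rfl⟩ := hst_mem_oo.1 hy
  obtain ⟨ζ, h2, rfl⟩ := hst_mem_oo.1 hz
  exact oo_mem.2 (h2.trans h1)

theorem ord_mem_HSet (hα : StrongLimit V α) {ξ : Ordinal.{0}} :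
    ξ.toZFSet ∈ HSet V α ↔ ξ < α := by
  have h0 : ξ.toZFSet = (oo V ξ).1 := rfl
  rw [h0, hst_iff]
  constructor
  · rintro ⟨t, ht, hxt, β, hβ, hi⟩
    by_contra hcon
    rw [not_lt] at hcon
    refine hα.2.1 β hβ ?_
    have h1 : ST.Inj (oo V α) (oo V β) := by
      refine (ST.Inj.of_subset fun z hz => ?_).trans hi
      obtain ⟨η, h1, rfl⟩ := hst_mem_oo.1 hz
      exact hxt _ (oo_mem.2 (h1.trans_le hcon))
    exact (inj_iff _ _).1 h1
  · intro h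
    exact ⟨oo V ξ, hst_trans_oo ξ, fun z hz => hz, ξ, h, ST.Inj.refl _⟩

/-- sets injecting into a power set are small -/
theorem hst_pow (hα : StrongLimit V α) {t : V} (hβ : β < α)
    (h : ST.Inj t (ST.power (oo V β))) : ∃ γ < α, ST.Inj t (oo V γ) := by
  obtain ⟨γ, hγ, hi⟩ := hα.2.2 β hβ
  refine ⟨γ, hγ, h.trans ?_⟩
  rw [inj_iff, val_power]
  exact hi

theorem hst_union (hα : StrongLimit V α) {s t : V} (hβ : β < α) (hγ : γ < α)
    (hs : ST.Inj s (oo V β)) (ht : ST.Inj t (oo V γ)) : ∃ δ < α, ST.Inj (ST.union s t) (oo V δ) := by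
  classical
  obtain ⟨f, hf, hf1, hf2⟩ := hs.exists_fun
  obtain ⟨g, hg, hg1, hg2⟩ := ht.exists_fun
  have hmax : max β γ + 1 < α := sl_limit hα (max_lt hβ hγ)
  have hf3 : ∀ z, z ∈ s → f z ∈ oo V (max β γ) := fun z hz => by
    obtain ⟨ξ, h1, h2⟩ := hst_mem_oo.1 (hf1 z hz)
    rw [h2]
    exact oo_mem.2 (h1.trans_le (le_max_left _ _))
  have hg3 : ∀ z, z ∈ t → g z ∈ oo V (max β γ) := fun z hz => by
    obtain ⟨ξ, h1, h2⟩ := hst_mem_oo.1 (hg1 z hz)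
    rw [h2]
    exact oo_mem.2 (h1.trans_le (le_max_right _ _))
  have hsub : ∀ w, w ∈ oo V (max β γ) → w ∈ oo V (max β γ + 1) := fun w hw => by
    obtain ⟨ξ, h1, rfl⟩ := hst_mem_oo.1 hw
    exact oo_mem.2 (h1.trans (lt_add_one _))
  have htop : oo V (max β γ) ∈ oo V (max β γ + 1) := oo_mem.2 (lt_add_one _)
  refine hst_pow hα hmax (ST.Inj.of_fun (φ := fun z => if z ∈ s then ST.upair (f z) (f z)
    else ST.upair (g z) (oo V (max β γ))) (ST.Dbl_ite (by fun_prop) (by fun_prop) (by fun_prop))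
    ?_ ?_)
  · intro z hz
    rw [ST.mem_power]
    intro v hv
    by_cases h : z ∈ s
    · rw [if_pos h, ST.mem_upair, or_self] at hv
      rw [hv]
      exact hsub _ (hf3 z h)
    · rw [if_neg h, ST.mem_upair] at hv
      have hzt : z ∈ t := (ST.mem_union.1 hz).resolve_left h
      rcases hv with rfl | rfl
      · exact hsub _ (hg3 z hzt)
      · exact htop
  · intro z hz w hw he
    have key : ∀ z w, z ∈ s → w ∈ t →
        ST.upair (f z) (f z) ≠ ST.upair (g w) (oo V (max β γ)) := by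
      intro z w hz hw he
      have h1 : oo V (max β γ) ∈ ST.upair (f z) (f z) := by
        rw [he, ST.mem_upair]; exact Or.inr rfl
      rw [ST.mem_upair, or_self] at h1
      have h2 := hf3 z hz
      rw [← h1] at h2
      exact ST.mem_irrefl _ h2
    by_cases h : z ∈ s
    · rw [if_pos h] at he
      by_cases h' : w ∈ s
      · rw [if_pos h', ST.upair_self_eq] at he
        exact hf2 z h w h' he
      · rw [if_neg h'] at he
        exact (key z w h ((ST.mem_union.1 hw).resolve_left h') he).elim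
    · have hzt : z ∈ t := (ST.mem_union.1 hz).resolve_left h
      rw [if_neg h] at he
      by_cases h' : w ∈ s
      · rw [if_pos h'] at he
        exact (key w z h' hzt he.symm).elim
      · have hwt : w ∈ t := (ST.mem_union.1 hw).resolve_left h'
        rw [if_neg h'] at he
        have h1 : g z ∈ ST.upair (g w) (oo V (max β γ)) := by
          rw [← he, ST.mem_upair]; exact Or.inl rfl
        rw [ST.mem_upair] at h1
        rcases h1 with h1 | h1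
        · exact hg2 z hzt w hwt h1
        · have h2 := hg3 z hzt
          rw [h1] at h2
          exact (ST.mem_irrefl _ h2).elim

theorem hst_single (hα : StrongLimit V α) (x : V) : ∃ δ < α, ST.Inj (ST.upair x x) (oo V δ) := by
  refine ⟨1, ?_, ST.Inj.of_fun (φ := fun _ => oo V 0) (by fun_prop) (fun _ _ => ?_) ?_⟩
  · exact lt_of_lt_of_le (by exact_mod_cast Ordinal.natCast_lt_omega0 1) hα.1
  · exact oo_mem.2 zero_lt_one
  · intro y hy z hz _
    rw [ST.mem_upair, or_self] at hy hz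
    rw [hy, hz]

theorem hst_pair (hα : StrongLimit V α) {x y : V} (hx : x.1 ∈ HSet V α)
    (hy : y.1 ∈ HSet V α) : (ST.upair x y).1 ∈ HSet V α := by
  rw [hst_iff] at hx hy ⊢
  obtain ⟨s, hs, hxs, β, hβ, hi⟩ := hx
  obtain ⟨t, ht, hyt, γ, hγ, hj⟩ := hy
  obtain ⟨δ1, h1, h2⟩ := hst_union hα hβ hγ hi hj
  obtain ⟨δ2, h3, h4⟩ := hst_single hα x
  obtain ⟨δ3, h5, h6⟩ := hst_single hα y
  obtain ⟨δ4, h7, h8⟩ := hst_union hα h3 h5 h4 h6
  obtain ⟨δ5, h9, h10⟩ := hst_union hα h1 h7 h2 h8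
  refine ⟨_, ?_, ?_, δ5, h9, h10⟩
  · intro v hv w hw
    simp only [ST.mem_union, ST.mem_upair, or_self] at hv ⊢
    rcases hv with (hv | hv) | (rfl | rfl)
    · exact Or.inl (Or.inl (hs v hv w hw))
    · exact Or.inl (Or.inr (ht v hv w hw))
    · exact Or.inl (Or.inl (hxs w hw))
    · exact Or.inl (Or.inr (hyt w hw))
  · intro v hv
    simp only [ST.mem_union, ST.mem_upair, or_self] at hv ⊢
    exact Or.inr hv

theorem HSet_pair (hα : StrongLimit V α) {x y : ZFSet.{0}} (hx : x ∈ HSet V α)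
    (hy : y ∈ HSet V α) : ({x, y} : ZFSet.{0}) ∈ HSet V α := by
  have h := hst_pair hα (x := ⟨x, hx.1⟩) (y := ⟨y, hy.1⟩) hx hy
  rwa [val_upair] at h

theorem HSet_opair (hα : StrongLimit V α) {x y : ZFSet.{0}} (hx : x ∈ HSet V α)
    (hy : y ∈ HSet V α) : ZFSet.pair x y ∈ HSet V α := by
  have h1 : ({x} : ZFSet.{0}) ∈ HSet V α := by
    have := HSet_pair hα hx hx
    rwa [show ({x, x} : ZFSet.{0}) = {x} by ext z; simp] at this
  exact HSet_pair hα h1 (HSet_pair hα hx hy)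

theorem HSet_power (hα : StrongLimit V α) {x : V} (hx : x.1 ∈ HSet V α) :
    (ST.power x).1 ∈ HSet V α := by
  rw [hst_iff] at hx ⊢
  obtain ⟨t, ht, hxt, β, hβ, hi⟩ := hx
  obtain ⟨f, hf, hf1, hf2⟩ := hi.exists_fun
  have h1 : ST.Inj (ST.power t) (ST.power (oo V β)) := by
    refine ST.Inj.of_fun (φ := fun w => ST.image f w) (by fun_prop) ?_ ?_
    · intro w hw
      rw [ST.mem_power] at hw ⊢
      intro v hv
      obtain ⟨z, hz, rfl⟩ := (ST.mem_image hf).1 hv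
      exact hf1 z (hw z hz)
    · have key : ∀ w w', w ∈ ST.power t → w' ∈ ST.power t → ST.image f w = ST.image f w' →
          ∀ z, z ∈ w → z ∈ w' := by
        intro w w' hw hw' he z hz
        rw [ST.mem_power] at hw hw'
        have h1 : f z ∈ ST.image f w' := by
          rw [← he]
          exact (ST.mem_image hf).2 ⟨z, hz, rfl⟩
        obtain ⟨z', hz', h2⟩ := (ST.mem_image hf).1 h1
        have h3 := hf2 z' (hw' z' hz') z (hw z hz) h2
        rwa [← h3]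
      intro w hw w' hw' he
      exact ST.ext fun z => ⟨key w w' hw hw' he z, key w' w hw' hw he.symm z⟩
  obtain ⟨γ, hγ, h2⟩ := hst_pow hα hβ h1
  refine ⟨ST.power t, ?_, ?_, γ, hγ, h2⟩
  · intro y hy z hz
    rw [ST.mem_power] at hy ⊢
    exact fun w hw => ht z (hy z hz) w hw
  · intro z hz
    rw [ST.mem_power] at hz ⊢
    exact fun w hw => hxt w (hz w hw)

/-- If `x ∈ H_α` is mapped by a function definable in `V` onto a superset of `γ`, then `γ < α`. -/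
theorem HSet_surj (hα : StrongLimit V α) {x : V} (hx : x.1 ∈ HSet V α) {F : V → V}
    (hF : Dbl V F) (h : ∀ β < γ, ∃ y : V, y ∈ x ∧ F y = oo V β) : γ < α := by
  by_contra hcon
  rw [not_lt] at hcon
  rw [hst_iff] at hx
  obtain ⟨t, ht, hxt, β, hβ, hi⟩ := hx
  obtain ⟨φ, hφ, h1⟩ := ST.choice_fun (R := fun z y => F y = z) (by fun_prop) (a := oo V α)
    (b := x) (by
      intro z hz
      obtain ⟨ξ, h2, rfl⟩ := hst_mem_oo.1 hz
      exact h ξ (h2.trans_le hcon))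
  have h2 : ST.Inj (oo V α) x := by
    refine ST.Inj.of_fun hφ (fun z hz => (h1 z hz).1) ?_
    intro z hz w hw he
    rw [← (h1 z hz).2, ← (h1 w hw).2, he]
  exact hα.2.1 β hβ ((inj_iff _ _).1 ((h2.trans (ST.Inj.of_subset hxt)).trans hi))

/-- every set in `V` belongs to some `H_β` -/
theorem exists_HSet (x : V) : ∃ β, x.1 ∈ HSet V β := by
  obtain ⟨c, hc, hcd⟩ := GW.out (V := V)
  obtain ⟨t, ht, hxt⟩ := ST.exists_trans x
  have hb : BddAbove (Set.range fun z : t.1 => c ⟨z.1, Inner.trans _ t.2 _ z.2⟩) :=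
    Ordinal.bddAbove_of_small
  obtain ⟨θ, hθ⟩ := hb
  refine ⟨θ + 1 + 1, hst_iff.2 ⟨t, ht, hxt, θ + 1, lt_add_one _, ?_⟩⟩
  refine ST.Inj.of_fun (φ := fun z => oo V (c z)) (by fun_prop) ?_ ?_
  · intro z hz
    refine oo_mem.2 (lt_of_le_of_lt ?_ (lt_add_one θ))
    exact hθ ⟨⟨z.1, hz⟩, rfl⟩
  · intro z _ w _ he
    exact hc (oo_inj.1 he)

theorem HSet_limit {d : ℕ → Ordinal.{0}} (hd : StrictMono d) {x : ZFSet.{0}}
    (h : x ∈ HSet V (⨆ n, d n)) : ∃ n, x ∈ HSet V (d n) := by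
  obtain ⟨h1, t, ht, htt, hxt, β, hβ, hi⟩ := h
  obtain ⟨n, hn⟩ := (Ordinal.lt_iSup_iff).1 hβ
  exact ⟨n, h1, t, ht, htt, hxt, β, hn, hi⟩

theorem hst_rank {t : ZFSet.{0}} (ht : t.IsTransitive) {ρ : Ordinal.{0}} (hρ : ρ < t.rank) :
    ∃ z ∈ t, z.rank = ρ := by
  have h1 : ∃ z ∈ t, ρ ≤ z.rank := ZFSet.lt_rank_iff.1 hρ
  have h2 : ∃ o, ∃ z ∈ t, ρ ≤ z.rank ∧ z.rank = o := by
    obtain ⟨z, hz, h⟩ := h1
    exact ⟨_, z, hz, h, rfl⟩
  obtain ⟨o, ⟨z, hz, h3, h4⟩, hmin⟩ := WellFounded.has_min (wellFounded_lt (α := Ordinal.{0}))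
    {o | ∃ z ∈ t, ρ ≤ z.rank ∧ z.rank = o} h2
  refine ⟨z, hz, ?_⟩
  by_contra hne
  have h5 : ρ < z.rank := lt_of_le_of_ne h3 (Ne.symm hne)
  obtain ⟨w, hw, h6⟩ := ZFSet.lt_rank_iff.1 h5
  refine hmin w.rank ⟨w, ht z hz hw, h6, rfl⟩ ?_
  rw [← h4]
  exact ZFSet.rank_lt_of_mem hw

theorem hst_rank_lt {x : ZFSet.{0}} (hx : x ∈ HSet V α) :
    x.rank < (Order.succ α.card).ord := by
  obtain ⟨h1, t, ht, htt, hxt, β, hβ, hi⟩ := hx
  have hi' : ST.Inj (⟨t, ht⟩ : V) (oo V β) := (inj_iff _ _).2 hi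
  obtain ⟨f, hf, hf1, hf2⟩ := hi'.exists_fun
  have h2 : x.rank ≤ t.rank := ZFSet.rank_mono hxt
  refine lt_of_le_of_lt h2 ?_
  rw [Cardinal.lt_ord, Order.lt_succ_iff]
  refine le_trans ?_ (Ordinal.card_le_card hβ.le)
  -- an injection of `Iio (rank t)` into `Iio β`
  have hch : ∀ ρ : Set.Iio t.rank, ∃ z ∈ t, z.rank = ρ.1 := fun ρ => hst_rank htt ρ.2
  choose z hz hzr using hch
  have hv : ∀ ρ : Set.Iio t.rank, ∃ ξ < β, f ⟨z ρ, Inner.trans _ ht _ (hz ρ)⟩ = oo V ξ := fun ρ =>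
    hst_mem_oo.1 (hf1 ⟨z ρ, Inner.trans _ ht _ (hz ρ)⟩ (hz ρ))
  choose ξ hξ hξ2 using hv
  have hinj : Function.Injective (fun ρ : Set.Iio t.rank => (⟨ξ ρ, hξ ρ⟩ : Set.Iio β)) := by
    intro ρ σ h
    have h3 : ξ ρ = ξ σ := congrArg Subtype.val h
    have h4 := hf2 ⟨z ρ, Inner.trans _ ht _ (hz ρ)⟩ (hz ρ) ⟨z σ, Inner.trans _ ht _ (hz σ)⟩ (hz σ)
      (by rw [hξ2, hξ2, h3])
    have h5 : z ρ = z σ := congrArg Subtype.val h4
    apply Subtype.ext
    rw [← hzr ρ, ← hzr σ, h5]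
  have h6 := Cardinal.mk_le_of_injective hinj
  rw [Cardinal.mk_Iio_ordinal, Cardinal.mk_Iio_ordinal] at h6
  exact Cardinal.lift_le.1 h6

theorem HSet_small : Small.{0} (HSet V α) := by
  have h : HSet V α ⊆ {x : ZFSet.{0} | x ∈ ZFSet.vonNeumann (Order.succ α.card).ord} :=
    fun x hx => ZFSet.mem_vonNeumann.2 (hst_rank_lt hx)
  have h2 : Small.{0} {x : ZFSet.{0} | x ∈ ZFSet.vonNeumann (Order.succ α.card).ord} :=
    ZFSet.small_coe (ZFSet.vonNeumann (Order.succ α.card).ord)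
  exact small_subset h

end

end Pool.Agent.SC
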