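import Pool.Agent.Lib_helper73.SCL.ADB
import Pool.Agent.Lib_helper73.SCL.COD_a
import Pool.Agent.Lib_helper73.SCL.ENC
import Pool.Agent.Lib_helper73.SCL.HST

set_option linter.unusedSectionVars false

namespace Pool.Agent.SC

open FirstOrder Pool.Agent.Lib_helper27 Pool.Agent.Lib_helper27.ST

universe u v w

variable {S : MSys}

/-! ## BLOCK COD: codes of functions -/

theorem VC_cfun {sc : Scr S} {s : Ordinal.{0}} {x : S.V} (hx : sc.VC s x) : sc.FS s (cfun x) :=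
  ⟨cdom x, hx.2.1, hx.2.2, fun w => rk (fapp (sndp x) w), by fun_prop, fun _ => rfl⟩

/-- the code -/
theorem COD_code {c : Finset Ordinal.{0}} {a : Asg S → Ordinal.{0}} (ha : FF c a) :
    ∃ F : S.V, cfun (opair (fc S c) F) = a ∧
      ∀ p : S.V, p ∈ F → ∃ z, p = opair (enc c z) (oo S.V (a z)) := by
  obtain ⟨H, hH, hf⟩ := ha
  obtain ⟨D, hD⟩ := exists_Fn (S := S) c
  have hH' : Dbl S.V (fun w => oo S.V (H w)) := dbl_oo hH
  refine ⟨graph (fun w => oo S.V (H w)) D, ?_, ?_⟩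
  · funext z
    rw [cfun_code, fapp_graph hH' ((hD _).2 ⟨z, rfl⟩), rk_oo, hf]
  · intro p hp
    obtain ⟨w, hw, rfl⟩ := (mem_graph hH').1 hp
    obtain ⟨z, rfl⟩ := (hD w).1 hw
    exact ⟨z, by rw [hf]⟩

theorem exists_vc {sc : Scr S} {s : Ordinal.{0}} {a : Asg S → Ordinal.{0}} (ha : sc.FS s a) :
    ∃ x, sc.VC s x ∧ cfun x = a := by
  obtain ⟨c, hc, hs, hf⟩ := ha
  obtain ⟨F, hF, -⟩ := COD_code hf
  refine ⟨opair (fc S c) F, ⟨⟨c, F, rfl⟩, ?_, ?_⟩, hF⟩
  · rw [cdom_code]; exact hc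
  · rw [cdom_code]; exact hs

/-- iterated power sets -/
noncomputable def COD_T (γ : Ordinal.{0}) : ℕ → S.V
  | 0 => oo S.V γ
  | n + 1 => power (COD_T γ n)

theorem COD_trans (γ : Ordinal.{0}) (n : ℕ) :
    ∀ y : S.V, y ∈ COD_T (S := S) γ n → ∀ z, z ∈ y → z ∈ COD_T (S := S) γ n := by
  induction n with
  | zero =>
    intro y hy z hz
    exact (isOrd_iff.2 ⟨γ, rfl⟩ : IsOrd (oo S.V γ)).trans hy hz
  | succ n ih =>
    intro y hy z hz
    refine mem_power.2 fun v hv => ?_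
    exact ih z (mem_power.1 hy z hz) v hv

theorem COD_step (γ : Ordinal.{0}) (n : ℕ) :
    ∀ y : S.V, y ∈ COD_T (S := S) γ n → y ∈ COD_T (S := S) γ (n + 1) :=
  fun y hy => mem_power.2 fun z hz => COD_trans γ n y hy z hz

theorem COD_le (γ : Ordinal.{0}) {n m : ℕ} (h : n ≤ m) :
    ∀ y : S.V, y ∈ COD_T (S := S) γ n → y ∈ COD_T (S := S) γ m := by
  induction m, h using Nat.le_induction with
  | base => exact fun y hy => hy
  | succ m _ ih => exact fun y hy => COD_step γ m y (ih y hy)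

theorem COD_opair (γ : Ordinal.{0}) (n : ℕ) {x y : S.V} (hx : x ∈ COD_T (S := S) γ n)
    (hy : y ∈ COD_T (S := S) γ n) : opair x y ∈ COD_T (S := S) γ (n + 2) := by
  refine mem_power.2 fun v hv => ?_
  refine mem_power.2 fun w hw => ?_
  rcases mem_upair.1 hv with rfl | rfl
  · rcases mem_upair.1 hw with rfl | rfl <;> exact hx
  · rcases mem_upair.1 hw with rfl | rfl
    · exact hx
    · exact hy

/-- All functions of stage `s ≤ γ` with values less than `γ` have codes in the 8-fold power set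
of `γ`. -/
theorem vc_big (sc : Scr S) {s γ : Ordinal.{0}} (hs : s ≤ γ) (hκ : S.κ ≤ γ)
    {a : Asg S → Ordinal.{0}} (ha : sc.FS s a) (h : ∀ z, a z < γ) :
    ∃ x, x ∈ bigp (oo S.V γ) ∧ sc.VC s x ∧ cfun x = a := by
  obtain ⟨c, hc, hcs, hf⟩ := ha
  obtain ⟨F, hF, hF'⟩ := COD_code hf
  refine ⟨opair (fc S c) F, ?_, ⟨⟨c, F, rfl⟩, ?_, ?_⟩, hF⟩
  · show opair (fc S c) F ∈ COD_T (S := S) γ 8
    have h0 : ∀ t ∈ c, oo S.V t ∈ COD_T (S := S) γ 0 := fun t ht =>
      oo_mem.2 ((hcs t ht).trans_le hs)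
    refine COD_opair γ 6 ?_ ?_
    · refine COD_le γ (show 1 ≤ 6 by norm_num) _ (mem_power.2 fun v hv => ?_)
      obtain ⟨t, ht, rfl⟩ := mem_fc.1 hv
      exact h0 t ht
    · refine mem_power.2 fun p hp => ?_
      obtain ⟨z, rfl⟩ := hF' p hp
      refine COD_opair γ 3 ?_ ?_
      · refine mem_power.2 fun q hq => ?_
        obtain ⟨t, ht, rfl⟩ := mem_enc.1 hq
        exact COD_opair γ 0 (h0 t ht) (oo_mem.2 (lt_of_lt_of_le (z t).2 hκ))
      · exact COD_le γ (show 0 ≤ 3 by norm_num) _ (oo_mem.2 (h z))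
  · rw [cdom_code]; exact hc
  · rw [cdom_code]; exact hcs

/-- All bounded functions of stage `s < y` have codes in a set in `H_y`. -/
theorem vc_bound (sc : Scr S) {y s ξ : Ordinal.{0}} (hy : StrongLimit S.V y) (hκ : S.κ < y)
    (hs : s < y) (hξ : ξ < y) : ∃ D : S.V, D.1 ∈ HSet S.V y ∧ ∀ a : Asg S → Ordinal.{0},
      sc.FS s a → (∀ z, a z < ξ) → ∃ x, x ∈ D ∧ sc.VC s x ∧ cfun x = a := by
  set γ := max S.κ (max s ξ) with hγ
  have hγy : γ < y := max_lt hκ (max_lt hs hξ)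
  refine ⟨bigp (oo S.V γ), ?_, fun a ha h => ?_⟩
  · have h0 : (oo S.V γ).1 ∈ HSet S.V y := (ord_mem_HSet hy).2 hγy
    exact HSet_power hy (HSet_power hy (HSet_power hy (HSet_power hy (HSet_power hy
      (HSet_power hy (HSet_power hy (HSet_power hy h0)))))))
  · exact vc_big sc ((le_max_left s ξ).trans (le_max_right _ _)) (le_max_left _ _) ha
      fun z => (h z).trans_le ((le_max_right s ξ).trans (le_max_right _ _))

end Pool.Agent.SC
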