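import Pool.Agent.Lib_helper73.SCL.RED
import Pool.Agent.Lib_helper73.SCL.RHO

/-! MP_80bdc1_lc, block FIX: functions below a critical point. -/

set_option linter.unusedSectionVars false

namespace Pool.Agent.SC

open FirstOrder Pool.Agent.Lib_helper27 Pool.Agent.Lib_helper27.ST

universe u v w

variable {S : MSys}

section rho

variable {sc : Scr S} {s t : Ordinal.{0}} {a b : Asg S → Ordinal.{0}}

theorem fix_mkFS {X : Type w} [Tgt S.V X] {c : Finset Ordinal.{0}} {f : Asg S → X} (hc : sc.Cl c)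
    (hlt : ∀ t' ∈ c, t' < t) (hf : FF c f) : sc.FS t f := ⟨c, hc, hlt, hf⟩

theorem fix_step (hsN : ∀ t', s < t' → t' < t → sc.AE fun z => (z s).1 < S.kap (sc.g t' z))
    (c : Finset Ordinal.{0}) : sc.Cl c → s ∈ c → (∀ t' ∈ c, t' < t) →
      ∀ a : Asg S → Ordinal.{0}, FF c a → (sc.AE fun z => a z < (z s).1) →
        ∃ a', sc.FS s a' ∧ sc.AE fun z => a z = a' z := by
  classical
  induction c using Finset.induction_on_max with
  | empty =>
    intro _ hs
    exact absurd hs (Finset.notMem_empty s)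
  | insert m c hmax ih =>
    intro hcl hs hlt a ha h
    have hbm : sc.b m ⊆ c := by
      intro t' ht'
      have h1 := hcl m (Finset.mem_insert_self m c) ht'
      rcases Finset.mem_insert.1 h1 with h2 | h2
      · exact absurd (sc.b_lt m t' ht') (by rw [h2]; exact lt_irrefl _)
      · exact h2
    have hclc : sc.Cl c := by
      intro s' hs' t' ht'
      have h1 := hcl s' (Finset.mem_insert_of_mem hs') ht'
      rcases Finset.mem_insert.1 h1 with h2 | h2
      · have h3 := sc.b_lt s' t' ht'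
        rw [h2] at h3
        exact absurd (h3.trans (hmax s' hs')) (lt_irrefl _)
      · exact h2
    by_cases hsm : s = m
    · subst hsm
      obtain ⟨a', ha', haa⟩ := reduce_normal hclc hbm hmax ha h
      exact ⟨a', ⟨c, hclc, hmax, ha'⟩, haa⟩
    · have hsc : s ∈ c := (Finset.mem_insert.1 hs).resolve_left hsm
      have hltc : ∀ t' ∈ c, t' < t := fun t' ht' => hlt t' (Finset.mem_insert_of_mem ht')
      have hmt : m < t := hlt m (Finset.mem_insert_self m c)
      have hfs : sc.FS t (fun z : Asg S => (z s).1) := fix_mkFS hclc hltc (FF.coord hsc)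
      have hfa : sc.FS t a := fix_mkFS hcl hlt ha
      have hcard : sc.AE fun z => (oo S.V (z s).1).1.card < (S.kap (sc.g m z)).card := by
        have h1 := hsN m (hmax s hsc) hmt
        have h2 : sc.FS t (fun z : Asg S => oo S.V (z s).1) := FS_oo hfs
        refine AE_mono ?_ h1 fun z hz => ?_
        · obtain ⟨c1, hc1, hs1⟩ := AE_fs h1
          refine ⟨insert m c, hcl, fun z z' hzz => ?_⟩
          have e1 : sc.g m z = sc.g m z' := FF.supp (sc.g_ff m) z z' fun t' ht' =>
            hzz t' (Finset.mem_insert_of_mem (hbm ht'))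
          have e2 : z s = z' s := hzz s hs
          show (((oo S.V (z s).1).1.card < (S.kap (sc.g m z)).card) : Prop) =
            ((oo S.V (z' s).1).1.card < (S.kap (sc.g m z')).card)
          rw [e1, e2]
        · show (Ordinal.toZFSet (z s).1).card < _
          rw [Ordinal.card_toZFSet, ← Cardinal.lt_ord, S.kap_card _ (sc.g_le m z)]
          exact hz
      have hmem : sc.AE fun z => oo S.V (a z) ∈ oo S.V (z s).1 := by
        refine AE_mono (FS_fs (FS_mem (FS_oo hfa) (FS_oo hfs))) h fun z hz => ?_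
        exact oo_mem.2 hz
      obtain ⟨f', hf', hff⟩ := reduce hclc hbm hmax (FF.oo ha) (FF.oo (FF.coord hsc)) hcard hmem
      have hfs' : sc.FS t (fun z => rk (f' z)) := fix_mkFS hclc hltc (FF.rk hf')
      have haf : sc.AE fun z => a z = rk (f' z) := by
        refine AE_mono (FS_fs (FS_eqo hfa hfs')) hff fun z hz => ?_
        rw [← hz, rk_oo]
      have hlt' : sc.AE fun z => rk (f' z) < (z s).1 := by
        refine AE_mono (FS_fs (FS_lt hfs' hfs)) ((AE_and (FS_fs (FS_eqo hfa hfs'))
          (FS_fs (FS_lt hfa hfs))).2 ⟨haf, h⟩) fun z hz => ?_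
        rw [← hz.1]
        exact hz.2
      obtain ⟨a', ha', haa⟩ := ih hclc hsc hltc (fun z => rk (f' z)) (FF.rk hf') hlt'
      refine ⟨a', ha', ?_⟩
      have hfa' : sc.Fs (fun z => a z = a' z) := by
        obtain ⟨c1, h1, h2, h3⟩ := ha'
        refine ⟨insert m c ∪ c1, Cl_union hcl h1, fun z z' hzz => ?_⟩
        have e1 : a z = a z' := FF.supp ha z z' fun t' ht' => hzz t' (Finset.mem_union_left _ ht')
        have e2 : a' z = a' z' := FF.supp h3 z z' fun t' ht' =>
          hzz t' (Finset.mem_union_right _ ht')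
        show (a z = a' z) = (a z' = a' z')
        rw [e1, e2]
      refine AE_mono hfa' ((AE_and (AE_fs haf) (AE_fs haa)).2 ⟨haf, haa⟩) fun z hz => ?_
      exact hz.1.trans hz.2

theorem fix_aux (hst : s < t)
    (hN : ∀ t', s < t' → t' < t → sc.AE fun z => (z s).1 < S.kap (sc.g t' z))
    (ha : sc.FS t a) (h : sc.AE fun z => a z < (z s).1) :
    ∃ a', sc.FS s a' ∧ sc.AE fun z => a z = a' z := by
  classical
  obtain ⟨c, hc, hlt, hf⟩ := ha
  obtain ⟨c1, hsub, hcl1, hlt1⟩ := exists_cl sc {s}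
  have hs1 : s ∈ c1 := hsub (Finset.mem_singleton_self s)
  have hlt1' : ∀ t' ∈ c1, t' < t := hlt1 t fun t' ht' => by
    rw [Finset.mem_singleton.1 ht']; exact hst
  refine fix_step hN (c ∪ c1) (Cl_union hc hcl1) (Finset.mem_union_right _ hs1) ?_ a
    (FF.mono hf Finset.subset_union_left) h
  intro t' ht'
  rcases Finset.mem_union.1 ht' with h1 | h1
  · exact hlt t' h1
  · exact hlt1' t' h1

/-- almost every value of coordinate `s` is above a given function of stage `s` -/
theorem lt_coord (ha : sc.FS s a) (h : sc.AE fun z => a z < S.kap (sc.g s z)) :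
    sc.AE fun z => a z < (z s).1 := by
  classical
  obtain ⟨c, hc, hlt, hf⟩ := ha
  obtain ⟨c1, hsub, hcl1, hlt1⟩ := exists_cl sc (sc.b s)
  have hlt1' : ∀ t' ∈ c1, t' < s := hlt1 s fun t' ht' => sc.b_lt s t' ht'
  have hcl : sc.Cl (c ∪ c1) := Cl_union hc hcl1
  have hltu : ∀ t' ∈ c ∪ c1, t' < s := by
    intro t' ht'
    rcases Finset.mem_union.1 ht' with h1 | h1
    · exact hlt t' h1
    · exact hlt1' t' h1
  have hb : sc.b s ⊆ c ∪ c1 := hsub.trans Finset.subset_union_right
  have hs : Supp (insert s (c ∪ c1)) (fun z : Asg S => a z < (z s).1) := by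
    intro z z' hzz
    have e1 : a z = a z' := FF.supp hf z z' fun t' ht' =>
      hzz t' (Finset.mem_insert_of_mem (Finset.mem_union_left _ ht'))
    have e2 : z s = z' s := hzz s (Finset.mem_insert_self _ _)
    show (a z < (z s).1) = (a z' < (z' s).1)
    rw [e1, e2]
  rw [AE_insert hcl hb hltu hs]
  refine AE_mono ⟨c ∪ c1, hcl, It_supp hltu hb hs⟩ h fun z hz => ?_
  have h1 := S.tail (sc.g s z) (sc.g_le s z) (a z) hz
  show ∀ᶠ ξ in S.U (sc.g s z), a (Function.update z s ξ) < ((Function.update z s ξ) s).1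
  refine Filter.mem_of_superset h1 fun ξ hξ => ?_
  have e1 : a (Function.update z s ξ) = a z := FF.supp hf _ _ fun t' ht' => by
    rw [Function.update_of_ne (ne_of_lt (hlt t' ht'))]
  show a (Function.update z s ξ) < ((Function.update z s ξ) s).1
  rw [e1, Function.update_self]
  exact hξ

theorem coord_lt (sc : Scr S) (s : Ordinal.{0}) :
    sc.AE fun z => (z s).1 < S.kap (sc.g s z) := by
  classical
  obtain ⟨c1, hsub, hcl1, hlt1⟩ := exists_cl sc (sc.b s)
  have hlt1' : ∀ t' ∈ c1, t' < s := hlt1 s fun t' ht' => sc.b_lt s t' ht'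
  have hs : Supp (insert s c1) (fun z : Asg S => (z s).1 < S.kap (sc.g s z)) := by
    intro z z' hzz
    have e1 : sc.g s z = sc.g s z' := FF.supp (sc.g_ff s) z z' fun t' ht' =>
      hzz t' (Finset.mem_insert_of_mem (hsub ht'))
    have e2 : z s = z' s := hzz s (Finset.mem_insert_self _ _)
    show ((z s).1 < S.kap (sc.g s z)) = ((z' s).1 < S.kap (sc.g s z'))
    rw [e1, e2]
  rw [AE_insert hcl1 hsub hlt1' hs]
  apply AE_all
  intro z
  have h1 := S.conc (sc.g s z) (sc.g_le s z)
  show ∀ᶠ ξ in S.U (sc.g s z), ((Function.update z s ξ) s).1 <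
    S.kap (sc.g s (Function.update z s ξ))
  refine Filter.mem_of_superset h1 fun ξ hξ => ?_
  have e1 : sc.g s (Function.update z s ξ) = sc.g s z := FF.supp (sc.g_ff s) _ _ fun t' ht' => by
    rw [Function.update_of_ne (ne_of_lt (sc.b_lt s t' ht'))]
  show ((Function.update z s ξ) s).1 < S.kap (sc.g s (Function.update z s ξ))
  rw [e1, Function.update_self]
  exact hξ

theorem fix_trans_lt (ha : sc.FS t a) (_hb : sc.FS t b) {d : Asg S → Ordinal.{0}} (hd : sc.FS t d)
    (h : sc.AE fun z => a z < b z) (h' : sc.AE fun z => b z < d z) :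
    sc.AE fun z => a z < d z :=
  AE_mono (FS_fs (FS_lt ha hd)) ((AE_and (AE_fs h) (AE_fs h')).2 ⟨h, h'⟩) fun _ hz =>
    hz.1.trans hz.2

theorem fix_eq_lt (_ha : sc.FS t a) (hb : sc.FS t b) {d : Asg S → Ordinal.{0}} (hd : sc.FS t d)
    (h : sc.AE fun z => a z = b z) (h' : sc.AE fun z => a z < d z) :
    sc.AE fun z => b z < d z :=
  AE_mono (FS_fs (FS_lt hb hd)) ((AE_and (AE_fs h) (AE_fs h')).2 ⟨h, h'⟩) fun _ hz =>
    hz.1 ▸ hz.2

theorem rho_fix_aux (hst : s < t)
    (hN : ∀ t', s < t' → t' < t → sc.AE fun z => (z s).1 < S.kap (sc.g t' z))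
    (ha : sc.FS s a) (h : sc.AE fun z => a z < S.kap (sc.g s z)) : sc.rho t a = sc.rho s a := by
  revert ha h
  induction a using (rlt_wf sc s).induction with
  | _ a ih =>
    intro ha h
    have hkap : sc.FS s (fun z => S.kap (sc.g s z)) := FS_kapg sc s
    have hat : sc.FS t a := FS_mono ha hst.le
    have hz : sc.FS t (fun z : Asg S => (z s).1) := FS_coord sc hst
    have hIH : ∀ b, sc.FS s b → (sc.AE fun z => b z < a z) → sc.rho t b = sc.rho s b := by
      intro b hb hba
      exact ih b ⟨hb, ha, hba⟩ hb (fix_trans_lt hb ha hkap hba h)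
    apply le_antisymm
    · refine rho_le_of hat fun b hb hba => ?_
      have hbz : sc.AE fun z => b z < (z s).1 := fix_trans_lt hb hat hz hba (lt_coord ha h)
      obtain ⟨b', hb', hbb⟩ := fix_aux hst hN hb hbz
      have hbt' : sc.FS t b' := FS_mono hb' hst.le
      have hba' : sc.AE fun z => b' z < a z := fix_eq_lt hb hbt' hat hbb hba
      rw [(rho_eq hb hbt').2 hbb, hIH b' hb' hba']
      exact (rho_lt hb' ha).2 hba'
    · refine rho_le_of ha fun b hb hba => ?_
      rw [← hIH b hb hba]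
      exact (rho_lt (FS_mono hb hst.le) hat).2 hba

theorem rho_coord_aux (hst : s < t)
    (hN : ∀ t', s < t' → t' < t → sc.AE fun z => (z s).1 < S.kap (sc.g t' z)) :
    sc.rho t (fun z => (z s).1) = sc.rho s (fun z => S.kap (sc.g s z)) := by
  have hkap : sc.FS s (fun z => S.kap (sc.g s z)) := FS_kapg sc s
  have hz : sc.FS t (fun z : Asg S => (z s).1) := FS_coord sc hst
  apply le_antisymm
  · refine rho_le_of hz fun b hb hbz => ?_
    obtain ⟨b', hb', hbb⟩ := fix_aux hst hN hb hbz
    have hbt' : sc.FS t b' := FS_mono hb' hst.le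
    have hbz' : sc.AE fun z => b' z < (z s).1 := fix_eq_lt hb hbt' hz hbb hbz
    have hbk : sc.AE fun z => b' z < S.kap (sc.g s z) :=
      fix_trans_lt hbt' hz (FS_mono hkap hst.le) hbz' (coord_lt sc s)
    rw [(rho_eq hb hbt').2 hbb, rho_fix_aux hst hN hb' hbk]
    exact (rho_lt hb' hkap).2 hbk
  · refine rho_le_of hkap fun b hb hbk => ?_
    rw [← rho_fix_aux hst hN hb hbk]
    exact (rho_lt (FS_mono hb hst.le) hz).2 (lt_coord hb hbk)

end rho

end Pool.Agent.SC
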