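import Pool.Agent.Lib_helper73.SCL.CRT_a
import Pool.Agent.Lib_helper73.SCL.FIX

/-! # Block CRT: critical points -/

set_option linter.unusedSectionVars false

namespace Pool.Agent.SC

open FirstOrder Pool.Agent.Lib_helper27 Pool.Agent.Lib_helper27.ST

universe u v w

variable {S : MSys}

theorem CRT_kap_mono {i j : Ordinal.{0}} (hij : i ≤ j) (hj : j ≤ S.κ) : S.kap i ≤ S.kap j := by
  rcases hij.eq_or_lt with rfl | h
  · exact le_rfl
  · exact (S.kap_lt i j h hj).le

theorem CRT_le_kap {i : Ordinal.{0}} (hi : i ≤ S.κ) : i ≤ S.kap i := by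
  rcases hi.eq_or_lt with rfl | h
  · rw [S.kap_top]
  · exact (S.lt_kap i h).le

section rho

variable {sc : Scr S} {s t : Ordinal.{0}} {a b : Asg S → Ordinal.{0}}

variable {bl : Ordinal.{0} → Ordinal.{0}}

theorem CRT_kc (sc : Scr S) (s : Ordinal.{0}) : sc.FS s (Scr.kc (S := S)) := FS_const sc s S.κ

/-- the dichotomy at a step -/
theorem CRT_cases (hg : sc.Good bl) (s : Ordinal.{0}) :
    (sc.rho s (Scr.kc (S := S)) ≤ bl s ∧ sc.rho s (sc.g s) = sc.rho s (Scr.kc (S := S)) ∧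
      sc.AE fun z => sc.g s z = S.κ) ∨
    (bl s < sc.rho s (Scr.kc (S := S)) ∧ sc.rho s (sc.g s) = bl s ∧
      sc.AE fun z => sc.g s z < S.κ) := by
  rcases le_or_gt (sc.rho s (Scr.kc (S := S))) (bl s) with h | h
  · left
    have e : sc.rho s (sc.g s) = sc.rho s (Scr.kc (S := S)) := by rw [hg.2 s, min_eq_right h]
    exact ⟨h, e, (rho_eq (FS_g sc s) (CRT_kc sc s)).1 e⟩
  · right
    have e : sc.rho s (sc.g s) = bl s := by rw [hg.2 s, min_eq_left h.le]
    refine ⟨h, e, (rho_lt (FS_g sc s) (CRT_kc sc s)).1 ?_⟩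
    rw [e]; exact h

theorem CRT_g_lt_kap (h : sc.AE fun z => sc.g s z < S.κ) :
    sc.AE fun z => sc.g s z < S.kap (sc.g s z) :=
  AE_mono (FS_fs (FS_lt (FS_g sc s) (FS_kapg sc s))) h fun _ hz => S.lt_kap _ hz

theorem crit_lt (hg : sc.Good bl) (hst : s < t) :
    sc.AE fun z => (z s).1 < S.kap (sc.g t z) := by
  induction t using WellFoundedLT.induction with
  | ind t ih =>
  have hN : ∀ t', s < t' → t' < t → sc.AE fun z => (z s).1 < S.kap (sc.g t' z) :=
    fun t' h1 h2 => ih t' h2 h1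
  have hcoord := rho_coord_aux hst hN
  have hFcs : sc.FS t (fun z : Asg S => (z s).1) := FS_coord sc hst
  have hFk : sc.FS t (fun z => S.kap (sc.g t z)) := FS_kapg sc t
  have hfs : sc.Fs (fun z : Asg S => (z s).1 < S.kap (sc.g t z)) := FS_fs (FS_lt hFcs hFk)
  rcases CRT_cases hg s with ⟨h1, h2, h3⟩ | ⟨h1, h2, h3⟩
  · have e1 : sc.rho s (fun z => S.kap (sc.g s z)) = sc.rho s (Scr.kc (S := S)) := by
      refine (rho_eq (FS_kapg sc s) (CRT_kc sc s)).2 ?_
      refine AE_mono (FS_fs (FS_eqo (FS_kapg sc s) (CRT_kc sc s))) h3 fun z hz => ?_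
      show S.kap (sc.g s z) = S.κ
      rw [hz, S.kap_top]
    rw [e1] at hcoord
    have h4 : sc.rho t (fun z => (z s).1) < sc.rho t (Scr.kc (S := S)) :=
      (rho_lt hFcs (CRT_kc sc t)).2 (AE_all fun z => (z s).2)
    have h5 : sc.rho t (fun z => (z s).1) ≤ sc.rho t (sc.g t) := by
      rw [hg.2 t]
      refine le_min ?_ h4.le
      rw [hcoord]
      exact h1.trans (hg.1 hst.le)
    refine AE_mono hfs ((rho_le hFcs (FS_g sc t)).1 h5) fun z hz => ?_
    rcases (sc.g_le t z).eq_or_lt with h | h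
    · show (z s).1 < S.kap (sc.g t z)
      rw [h, S.kap_top]
      exact (z s).2
    · exact lt_of_le_of_lt hz (S.lt_kap _ h)
  · have h4 : sc.rho t (sc.g s) = bl s := by
      rw [rho_fix_aux hst hN (FS_g sc s) (CRT_g_lt_kap h3), h2]
    have hgt : sc.FS t (sc.g s) := FS_mono (FS_g sc s) hst.le
    have h5 : sc.rho t (sc.g s) < sc.rho t (Scr.kc (S := S)) :=
      (rho_lt hgt (CRT_kc sc t)).2 h3
    have h6 : sc.rho t (sc.g s) ≤ sc.rho t (sc.g t) := by
      rw [hg.2 t]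
      refine le_min ?_ h5.le
      rw [h4]
      exact hg.1 hst.le
    have h7 := (rho_le hgt (FS_g sc t)).1 h6
    have h8 : sc.AE fun z => (z s).1 < S.kap (sc.g s z) := coord_lt sc s
    have h9 : sc.AE fun z => sc.g s z ≤ sc.g t z ∧ (z s).1 < S.kap (sc.g s z) :=
      (AE_and (AE_fs h7) (AE_fs h8)).2 ⟨h7, h8⟩
    exact AE_mono hfs h9 fun z hz => lt_of_lt_of_le hz.2 (CRT_kap_mono hz.1 (sc.g_le t z))

theorem fix (hg : sc.Good bl) (hst : s < t) (ha : sc.FS t a)
    (h : sc.AE fun z => a z < (z s).1) : ∃ a', sc.FS s a' ∧ sc.AE fun z => a z = a' z :=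
  fix_aux hst (fun _ h1 _ => crit_lt hg h1) ha h

theorem rho_fix (hg : sc.Good bl) (hst : s ≤ t) (ha : sc.FS s a)
    (h : sc.AE fun z => a z < S.kap (sc.g s z)) : sc.rho t a = sc.rho s a := by
  rcases hst.eq_or_lt with rfl | hst
  · rfl
  · exact rho_fix_aux hst (fun _ h1 _ => crit_lt hg h1) ha h

theorem rho_coord (hg : sc.Good bl) (hst : s < t) : sc.rho t (fun z => (z s).1) = sc.crit s :=
  rho_coord_aux hst (fun _ h1 _ => crit_lt hg h1)

theorem crit_mono (hg : sc.Good bl) (hst : s < t) : sc.crit s < sc.crit t := by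
  rw [← rho_coord hg hst]
  exact (rho_lt (FS_coord sc hst) (FS_kapg sc t)).2 (crit_lt hg hst)

theorem le_crit (hg : sc.Good bl) (s : Ordinal.{0}) : s ≤ sc.crit s := by
  have h : StrictMono sc.crit := fun a b hab => crit_mono hg hab
  exact h.le_apply

theorem crit_le (sc : Scr S) (s : Ordinal.{0}) : sc.crit s ≤ sc.rho s (Scr.kc (S := S)) := by
  refine (rho_le (FS_kapg sc s) (CRT_kc sc s)).2 (AE_all fun z => ?_)
  have := CRT_kap_mono (S := S) (sc.g_le s z) le_rfl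
  rw [S.kap_top] at this
  exact this

theorem crit_of_index (hg : sc.Good bl) (h : s ≤ bl s) (h' : s < sc.rho s (Scr.kc (S := S))) :
    s < sc.crit s := by
  rcases CRT_cases hg s with ⟨h1, h2, h3⟩ | ⟨h1, h2, h3⟩
  · refine lt_of_lt_of_le h' ?_
    rw [← h2]
    exact (rho_le (FS_g sc s) (FS_kapg sc s)).2 (AE_all fun z => CRT_le_kap (sc.g_le s z))
  · refine lt_of_le_of_lt h ?_
    rw [← h2]
    exact (rho_lt (FS_g sc s) (FS_kapg sc s)).2 (CRT_g_lt_kap h3)

end rho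

end Pool.Agent.SC
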