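import Pool.Agent.Lib_helper73.SCL.ADB_a

set_option linter.unusedSectionVars false

namespace Pool.Agent.SC

open FirstOrder Pool.Agent.Lib_helper27 Pool.Agent.Lib_helper27.ST

universe u v w

variable {S : MSys}

section rho

variable {sc : Scr S} {s t : Ordinal.{0}} {a b : Asg S → Ordinal.{0}}

variable {bl : Ordinal.{0} → Ordinal.{0}}

/-- the critical point of step `s` -/
noncomputable def Scr.crit (sc : Scr S) (s : Ordinal.{0}) : Ordinal.{0} :=
  sc.rho s (fun z => S.kap (sc.g s z))

end rho

end Pool.Agent.SC
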