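import Pool.Agent.Lib_helper73.SCL.LDefs

/-!
# Block DD: the enumeration of pairs of ordinals
-/

set_option linter.unusedSectionVars false

namespace Pool.Agent.SC

open FirstOrder Pool.Agent.Lib_helper27 Pool.Agent.Lib_helper27.ST

universe u v w

open Classical in
theorem DD_eq (η : Ordinal.{0}) : dd η =
    if h : {p : Ordinal.{0} × Ordinal.{0} | ∀ ξ < η, dd ξ ≠ p}.Nonempty then
      plt_wf.min _ h else (0, 0) := by
  unfold dd
  rw [WellFounded.fix_eq]

theorem DD_nonempty (η : Ordinal.{0}) :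
    {p : Ordinal.{0} × Ordinal.{0} | ∀ ξ < η, dd ξ ≠ p}.Nonempty := by
  by_contra hne
  rw [Set.not_nonempty_iff_eq_empty, Set.eq_empty_iff_forall_notMem] at hne
  have h1 : Function.Surjective (fun ξ : Set.Iio η => (dd ξ.1).1) := by
    intro o
    have h2 := hne (o, 0)
    simp only [Set.mem_ofPred_eq, not_forall, ne_eq, not_not] at h2
    obtain ⟨ξ, hξ, h3⟩ := h2
    exact ⟨⟨ξ, hξ⟩, by simp [h3]⟩
  exact not_small_ordinal.{0} (small_of_surjective h1)

theorem dd_spec (η : Ordinal.{0}) :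
    (∀ ξ < η, dd ξ ≠ dd η) ∧ ∀ p, plt p (dd η) → ∃ ξ < η, dd ξ = p := by
  have h := DD_eq η
  rw [dif_pos (DD_nonempty η)] at h
  constructor
  · intro ξ hξ
    have h1 := plt_wf.min_mem _ (DD_nonempty η)
    rw [← h] at h1
    exact h1 ξ hξ
  · intro p hp
    by_contra hcon
    push Not at hcon
    rw [h] at hp
    have hmem : p ∈ {p : Ordinal.{0} × Ordinal.{0} | ∀ ξ < η, dd ξ ≠ p} := hcon
    exact plt_wf.not_lt_min _ hmem hp

theorem DD_inj : Function.Injective dd := by
  intro a b hab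
  rcases lt_trichotomy a b with h | h | h
  · exact absurd hab ((dd_spec b).1 a h)
  · exact h
  · exact absurd hab.symm ((dd_spec a).1 b h)

theorem DD_tri {p q : Ordinal.{0} × Ordinal.{0}} (h : p ≠ q) : plt p q ∨ plt q p := by
  unfold plt
  rcases lt_trichotomy (max p.1 p.2) (max q.1 q.2) with h1 | h1 | h1
  · exact Or.inl (Or.inl h1)
  · rcases lt_trichotomy p.1 q.1 with h2 | h2 | h2
    · exact Or.inl (Or.inr ⟨h1, Or.inl h2⟩)
    · rcases lt_trichotomy p.2 q.2 with h3 | h3 | h3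
      · exact Or.inl (Or.inr ⟨h1, Or.inr ⟨h2, h3⟩⟩)
      · exact absurd (Prod.ext h2 h3) h
      · exact Or.inr (Or.inr ⟨h1.symm, Or.inr ⟨h2.symm, h3⟩⟩)
    · exact Or.inr (Or.inr ⟨h1.symm, Or.inl h2⟩)
  · exact Or.inr (Or.inl h1)

theorem DD_le {p q : Ordinal.{0} × Ordinal.{0}} (h : plt p q) : max p.1 p.2 ≤ max q.1 q.2 := by
  rcases h with h | ⟨h, -⟩
  · exact h.le
  · exact h.le

theorem dd_surj : Function.Surjective dd := by
  intro p
  by_contra hcon
  push Not at hcon
  have h1 : ∀ η, plt (dd η) p := by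
    intro η
    rcases DD_tri (hcon η) with h | h
    · exact h
    · obtain ⟨ξ, -, h2⟩ := (dd_spec η).2 p h
      exact absurd h2 (hcon ξ)
  have h2 : ∀ η, max (dd η).1 (dd η).2 ≤ max p.1 p.2 := fun η => DD_le (h1 η)
  let f : Ordinal.{0} → Set.Iic (max p.1 p.2) × Set.Iic (max p.1 p.2) := fun η =>
    (⟨(dd η).1, (le_max_left _ _).trans (h2 η)⟩, ⟨(dd η).2, (le_max_right _ _).trans (h2 η)⟩)
  have hf : Function.Injective f := by
    intro a b hab
    apply DD_inj
    have h3 := congrArg (fun z => z.1.1) hab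
    have h4 := congrArg (fun z => z.2.1) hab
    exact Prod.ext h3 h4
  exact not_small_ordinal.{0} (small_of_injective hf)

/-- Every code occurs cofinally. -/
theorem exists_code (k x y θ : Ordinal.{0}) :
    ∃ η, θ < η ∧ kk η = k ∧ xx η = x ∧ yy η = y := by
  obtain ⟨a, ha⟩ := dd_surj (k, x)
  choose b hb using fun δ : Ordinal.{0} => dd_surj (y, δ)
  choose e he using fun δ : Ordinal.{0} => dd_surj (a, b δ)
  have hinj : Function.Injective e := by
    intro δ δ' h
    have h1 : b δ = b δ' := by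
      have h2 := (he δ).symm.trans ((congrArg dd h).trans (he δ'))
      exact congrArg Prod.snd h2
    have h3 := (hb δ).symm.trans ((congrArg dd h1).trans (hb δ'))
    exact congrArg Prod.snd h3
  have hex : ∃ δ, θ < e δ := by
    by_contra hcon
    push Not at hcon
    let f : Ordinal.{0} → Set.Iic θ := fun δ => ⟨e δ, hcon δ⟩
    have hf : Function.Injective f := fun δ δ' h => hinj (congrArg Subtype.val h)
    exact not_small_ordinal.{0} (small_of_injective hf)
  obtain ⟨δ, hδ⟩ := hex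
  refine ⟨e δ, hδ, ?_, ?_, ?_⟩
  · simp [kk, he, ha]
  · simp [xx, he, ha]
  · simp [yy, he, hb]

/-- `dd` is the only function with the property `dd_spec` -/
theorem dd_unique {p : Ordinal.{0} × Ordinal.{0}} {η : Ordinal.{0}} (h1 : ∀ ξ < η, dd ξ ≠ p)
    (h2 : ∀ q, plt q p → ∃ ξ < η, dd ξ = q) : p = dd η := by
  by_contra hne
  rcases DD_tri hne with h | h
  · obtain ⟨ξ, hξ, h3⟩ := (dd_spec η).2 p h
    exact h1 ξ hξ h3
  · obtain ⟨ξ, hξ, h3⟩ := h2 _ h
    exact (dd_spec η).1 ξ hξ h3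

end Pool.Agent.SC
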