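import Pool.Agent.Lib_helper73.SCL.Base

set_option linter.unusedSectionVars false

namespace Pool.Agent.SC

open FirstOrder Pool.Agent.Lib_helper27 Pool.Agent.Lib_helper27.ST

universe u v w

variable {V : Set ZFSet.{0}} [Inner V]

/-! ## BLOCK DIC: the notions of `ST` in an inner model are the true ones -/

theorem DIC_ext {x : V} {s : ZFSet.{0}} (h1 : ∀ y : V, y ∈ x → y.1 ∈ s)
    (h2 : ∀ y ∈ s, ∃ h : y ∈ V, (⟨y, h⟩ : V) ∈ x) : x.1 = s := by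
  refine ZFSet.ext fun y => ⟨fun hy => ?_, fun hy => ?_⟩
  · exact h1 ⟨y, Inner.trans x.1 x.2 y hy⟩ hy
  · obtain ⟨h, h'⟩ := h2 y hy
    exact h'

theorem val_empty : (ST.empty : V).1 = ∅ :=
  DIC_ext (fun y hy => (not_mem_empty y hy).elim) fun y hy => (ZFSet.notMem_empty y hy).elim

theorem val_upair (x y : V) : (ST.upair x y).1 = {x.1, y.1} := by
  refine DIC_ext (fun z hz => ?_) fun z hz => ?_
  · rw [ZFSet.mem_pair]
    rcases mem_upair.1 hz with rfl | rfl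
    · exact Or.inl rfl
    · exact Or.inr rfl
  · rcases ZFSet.mem_pair.1 hz with rfl | rfl
    · exact ⟨x.2, mem_upair.2 (Or.inl rfl)⟩
    · exact ⟨y.2, mem_upair.2 (Or.inr rfl)⟩

theorem val_opair (x y : V) : (ST.opair x y).1 = ZFSet.pair x.1 y.1 := by
  unfold ST.opair ZFSet.pair
  rw [val_upair, val_upair, val_upair, ZFSet.pair_eq_singleton]

theorem val_union (x y : V) : (ST.union x y).1 = x.1 ∪ y.1 := by
  refine DIC_ext (fun z hz => ?_) fun z hz => ?_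
  · rw [ZFSet.mem_union]
    exact mem_union.1 hz
  · rw [ZFSet.mem_union] at hz
    rcases hz with hz | hz
    · exact ⟨Inner.trans x.1 x.2 z hz, mem_union.2 (Or.inl hz)⟩
    · exact ⟨Inner.trans y.1 y.2 z hz, mem_union.2 (Or.inr hz)⟩

theorem val_sUnion (x : V) : (ST.sUnion x).1 = ZFSet.sUnion x.1 := by
  refine DIC_ext (fun z hz => ?_) fun z hz => ?_
  · obtain ⟨y, hy, hzy⟩ := mem_sUnion.1 hz
    exact ZFSet.mem_sUnion.2 ⟨y.1, hy, hzy⟩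
  · obtain ⟨y, hy, hzy⟩ := ZFSet.mem_sUnion.1 hz
    have hyV : y ∈ V := Inner.trans x.1 x.2 y hy
    exact ⟨Inner.trans y hyV z hzy, mem_sUnion.2 ⟨⟨y, hyV⟩, hy, hzy⟩⟩

theorem val_succ (x : V) : (ST.succ x).1 = insert x.1 x.1 := by
  refine DIC_ext (fun z hz => ?_) fun z hz => ?_
  · rw [ZFSet.mem_insert_iff]
    rcases mem_succ.1 hz with h | rfl
    · exact Or.inr h
    · exact Or.inl rfl
  · rcases ZFSet.mem_insert_iff.1 hz with rfl | h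
    · exact ⟨x.2, mem_succ.2 (Or.inr rfl)⟩
    · exact ⟨Inner.trans x.1 x.2 z h, mem_succ.2 (Or.inl h)⟩

theorem val_prod (x y : V) : (ST.prod x y).1 = ZFSet.prod x.1 y.1 := by
  refine DIC_ext (fun z hz => ?_) fun z hz => ?_
  · obtain ⟨a, ha, b, hb, rfl⟩ := mem_prod.1 hz
    rw [val_opair]
    exact ZFSet.mem_prod.2 ⟨a.1, ha, b.1, hb, rfl⟩
  · obtain ⟨a, ha, b, hb, rfl⟩ := ZFSet.mem_prod.1 hz
    have haV : a ∈ V := Inner.trans x.1 x.2 a ha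
    have hbV : b ∈ V := Inner.trans y.1 y.2 b hb
    have h1 := val_opair (⟨a, haV⟩ : V) (⟨b, hbV⟩ : V)
    refine ⟨h1 ▸ (ST.opair (⟨a, haV⟩ : V) (⟨b, hbV⟩ : V)).2, mem_prod.2
      ⟨⟨a, haV⟩, ha, ⟨b, hbV⟩, hb, Subtype.ext h1.symm⟩⟩

theorem val_power (x : V) :
    (ST.power x).1 = ZFSet.sep (· ∈ V) (ZFSet.powerset x.1) := by
  refine DIC_ext (fun z hz => ?_) fun z hz => ?_
  · rw [ZFSet.mem_sep, ZFSet.mem_powerset]
    refine ⟨fun w hw => ?_, z.2⟩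
    exact mem_power.1 hz ⟨w, Inner.trans z.1 z.2 w hw⟩ hw
  · rw [ZFSet.mem_sep, ZFSet.mem_powerset] at hz
    exact ⟨hz.2, mem_power.2 fun w hw => hz.1 hw⟩

theorem isOrd_iff {x : V} : ST.IsOrd x ↔ ∃ α, x = oo V α := by
  constructor
  · rintro ⟨h1, h2⟩
    have hV : ∀ y ∈ x.1, y ∈ V := Inner.trans x.1 x.2
    have ht : ZFSet.IsTransitive x.1 := fun y hy z hz =>
      h1 ⟨y, hV y hy⟩ hy ⟨z, Inner.trans y (hV y hy) z hz⟩ hz
    have ho : ZFSet.IsOrdinal x.1 := by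
      refine ⟨ht, ?_⟩
      intro a b c hab hbc hcx
      have hbx : b ∈ x.1 := ht.mem_trans hbc hcx
      have hax : a ∈ x.1 := ht.mem_trans hab hbx
      rcases h2 ⟨a, hV a hax⟩ hax ⟨c, hV c hcx⟩ hcx with h | h | h
      · exact h
      · have h' : a = c := congrArg Subtype.val h
        subst h'
        exact (ZFSet.mem_asymm hab hbc).elim
      · exact (ZFSet.mem_wf.asymmetric₃ _ _ _ hab hbc h).elim
    exact ⟨x.1.rank, Subtype.ext ho.toZFSet_rank_eq.symm⟩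
  · rintro ⟨α, rfl⟩
    have ho : ZFSet.IsOrdinal (oo V α).1 := ZFSet.isOrdinal_toZFSet α
    refine ⟨fun y hy z hz => ho.mem_trans hz hy, fun y hy z hz => ?_⟩
    rcases ZFSet.IsOrdinal.mem_trichotomous (ho.mem hy) (ho.mem hz) with h | h | h
    · exact Or.inl h
    · exact Or.inr (Or.inl (Subtype.ext h))
    · exact Or.inr (Or.inr h)

theorem DIC_mem_oo {y : V} {α : Ordinal.{0}} : y ∈ oo V α ↔ ∃ β < α, y = oo V β := by
  show y.1 ∈ α.toZFSet ↔ _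
  rw [Ordinal.mem_toZFSet_iff]
  constructor
  · rintro ⟨β, hβ, h⟩
    exact ⟨β, hβ, Subtype.ext h.symm⟩
  · rintro ⟨β, hβ, rfl⟩
    exact ⟨β, hβ, rfl⟩

theorem val_omega : (ST.omega : V) = oo V Ordinal.omega0 := by
  symm
  refine ST.eq_omega (isOrd_iff.2 ⟨_, rfl⟩) ?_ ?_ ?_
  · exact ⟨oo V 0, oo_mem.2 Ordinal.omega0_pos⟩
  · intro x hx
    obtain ⟨β, hβ, rfl⟩ := DIC_mem_oo.1 hx
    exact ⟨oo V (Order.succ β), oo_mem.2 (Ordinal.isSuccLimit_omega0.succ_lt hβ),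
      oo_mem.2 (Order.lt_succ β)⟩
  · intro k hk hne
    obtain ⟨β, hβ, rfl⟩ := DIC_mem_oo.1 hk
    obtain ⟨n, rfl⟩ := Ordinal.lt_omega0.1 hβ
    obtain ⟨y, hy⟩ := hne
    obtain ⟨γ, hγ, rfl⟩ := DIC_mem_oo.1 hy
    cases n with
    | zero => simp at hγ
    | succ n =>
      refine ⟨oo V n, oo_mem.2 (by exact_mod_cast Nat.lt_succ_self n), fun z hz => ?_⟩
      obtain ⟨δ, hδ, rfl⟩ := DIC_mem_oo.1 hz
      rw [oo_mem, not_lt]
      have : δ < Order.succ (n : Ordinal) := by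
        simpa using hδ
      exact Order.lt_succ_iff.1 this

theorem pair_mem_iff {x y : ZFSet.{0}} : ZFSet.pair x y ∈ V ↔ x ∈ V ∧ y ∈ V := by
  constructor
  · intro h
    have h1 : ({x, y} : ZFSet) ∈ ZFSet.pair x y := by
      unfold ZFSet.pair
      exact ZFSet.mem_pair.2 (Or.inr rfl)
    have h2 := Inner.trans _ h _ h1
    exact ⟨Inner.trans _ h2 x (ZFSet.mem_pair.2 (Or.inl rfl)),
      Inner.trans _ h2 y (ZFSet.mem_pair.2 (Or.inr rfl))⟩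
  · rintro ⟨hx, hy⟩
    have h1 := val_opair (⟨x, hx⟩ : V) (⟨y, hy⟩ : V)
    exact h1 ▸ (ST.opair (⟨x, hx⟩ : V) (⟨y, hy⟩ : V)).2

theorem DIC_opair_mem {x y f : V} : opair x y ∈ f ↔ ZFSet.pair x.1 y.1 ∈ f.1 := by
  rw [mem_def', val_opair]

theorem isFunc_iff {f a b : V} : ZFSet.IsFunc a.1 b.1 f.1 ↔
    ((∀ z : V, z ∈ f → ∃ x, x ∈ a ∧ ∃ y, y ∈ b ∧ z = opair x y) ∧
      (∀ x : V, x ∈ a → ∃ y, y ∈ b ∧ opair x y ∈ f) ∧
      (∀ x y y' : V, opair x y ∈ f ∧ opair x y' ∈ f → y = y')) := by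
  constructor
  · rintro ⟨h1, h2⟩
    refine ⟨fun z hz => ?_, fun x hx => ?_, fun x y y' hy => ?_⟩
    · obtain ⟨x, hx, y, hy, hz'⟩ := ZFSet.mem_prod.1 (h1 hz)
      have hxV : x ∈ V := Inner.trans a.1 a.2 x hx
      have hyV : y ∈ V := Inner.trans b.1 b.2 y hy
      exact ⟨⟨x, hxV⟩, hx, ⟨y, hyV⟩, hy, Subtype.ext
        (hz'.trans (val_opair (⟨x, hxV⟩ : V) (⟨y, hyV⟩ : V)).symm)⟩
    · obtain ⟨y, hy, -⟩ := h2 x.1 hx
      have h3 : y ∈ b.1 := (ZFSet.pair_mem_prod.1 (h1 hy)).2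
      have hyV : y ∈ V := Inner.trans b.1 b.2 y h3
      exact ⟨⟨y, hyV⟩, h3, DIC_opair_mem.2 hy⟩
    · have h3 := DIC_opair_mem.1 hy.1
      have h4 := DIC_opair_mem.1 hy.2
      exact Subtype.ext ((h2 x.1 (ZFSet.pair_mem_prod.1 (h1 h3)).1).unique h3 h4)
  · rintro ⟨h1, h2, h3⟩
    refine ⟨fun z hz => ?_, fun x hx => ?_⟩
    · have hzV : z ∈ V := Inner.trans f.1 f.2 z hz
      obtain ⟨x, hx, y, hy, hz'⟩ := h1 ⟨z, hzV⟩ hz
      have h4 : z = ZFSet.pair x.1 y.1 := (congrArg Subtype.val hz').trans (val_opair _ _)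
      rw [h4]
      exact ZFSet.pair_mem_prod.2 ⟨hx, hy⟩
    · have hxV : x ∈ V := Inner.trans a.1 a.2 x hx
      obtain ⟨y, hy, hxy⟩ := h2 ⟨x, hxV⟩ hx
      refine ⟨y.1, DIC_opair_mem.1 hxy, fun y' hy' => ?_⟩
      have hy'' : ZFSet.pair x y' ∈ V := Inner.trans f.1 f.2 _ hy'
      have hy'V : y' ∈ V := (pair_mem_iff.1 hy'').2
      have h4 : opair (⟨x, hxV⟩ : V) (⟨y', hy'V⟩ : V) ∈ f := DIC_opair_mem.2 hy'
      exact congrArg Subtype.val (h3 _ _ _ ⟨h4, hxy⟩)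

theorem inj_iff (a b : V) : ST.Inj a b ↔ InjIn V a.1 b.1 := by
  constructor
  · rintro ⟨f, h1, h2⟩
    refine ⟨f.1, f.2, isFunc_iff.2 h1, fun x x' y hy hy' => ?_⟩
    have h3 := pair_mem_iff.1 (Inner.trans f.1 f.2 _ hy)
    have h4 := pair_mem_iff.1 (Inner.trans f.1 f.2 _ hy')
    have h5 : opair (⟨x, h3.1⟩ : V) (⟨y, h3.2⟩ : V) ∈ f := DIC_opair_mem.2 hy
    have h6 : opair (⟨x', h4.1⟩ : V) (⟨y, h3.2⟩ : V) ∈ f := DIC_opair_mem.2 hy'
    exact congrArg Subtype.val (h2 _ _ _ ⟨h5, h6⟩)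
  · rintro ⟨f, hf, h1, h2⟩
    refine ⟨⟨f, hf⟩, isFunc_iff.1 h1, fun x x' y hy => ?_⟩
    exact Subtype.ext (h2 _ _ _ (DIC_opair_mem.1 hy.1) (DIC_opair_mem.1 hy.2))

/-- finite sets of elements of `V` belong to `V` -/
theorem finite_mem (x : ZFSet.{0}) (h : (x : Set ZFSet.{0}).Finite) (hV : ∀ y ∈ x, y ∈ V) :
    x ∈ V := by
  have key : ∀ s : Set ZFSet.{0}, s.Finite → s ⊆ V → ∃ t : V, ∀ y : ZFSet.{0}, y ∈ t.1 ↔ y ∈ s := by
    intro s hs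
    induction s, hs using Set.Finite.induction_on with
    | empty =>
      intro _
      refine ⟨ST.empty, fun y => ?_⟩
      rw [val_empty]
      exact ⟨fun h => (ZFSet.notMem_empty y h).elim, fun h => h.elim⟩
    | insert hs hfin ih =>
      rename_i a s
      intro hsub
      obtain ⟨t, ht⟩ := ih fun y hy => hsub (Set.mem_insert_of_mem _ hy)
      have haV : a ∈ V := hsub (Set.mem_insert _ _)
      refine ⟨ST.union t (ST.upair ⟨a, haV⟩ ⟨a, haV⟩), fun y => ?_⟩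
      rw [val_union, ZFSet.mem_union, val_upair, ZFSet.mem_pair, ht, Set.mem_insert_iff]
      tauto
  obtain ⟨t, ht⟩ := key _ h hV
  have : t.1 = x := ZFSet.ext fun y => by rw [ht]; rfl
  rw [← this]
  exact t.2

/-- the infinite ordinals of `ST` -/
theorem infOrd_iff {x : V} : ST.InfOrd x ↔ ∃ α, Ordinal.omega0 ≤ α ∧ x = oo V α := by
  unfold ST.InfOrd
  rw [isOrd_iff, val_omega]
  constructor
  · rintro ⟨⟨α, rfl⟩, h⟩
    refine ⟨α, ?_, rfl⟩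
    by_contra hlt
    rw [not_le] at hlt
    exact lt_irrefl α (oo_mem.1 (h (oo V α) (oo_mem.2 hlt)))
  · rintro ⟨α, hα, rfl⟩
    refine ⟨⟨α, rfl⟩, fun x hx => ?_⟩
    obtain ⟨β, hβ, rfl⟩ := DIC_mem_oo.1 hx
    exact oo_mem.2 (lt_of_lt_of_le hβ hα)

end Pool.Agent.SC
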