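import Pool.Agent.Lib_helper73.SCL.CRT

set_option linter.unusedSectionVars false

namespace Pool.Agent.SC

open FirstOrder Pool.Agent.Lib_helper27 Pool.Agent.Lib_helper27.ST

universe u v w

variable {S : MSys}

section idx

variable {sc : Scr S} {bl : Ordinal.{0} → Ordinal.{0}} {s t : Ordinal.{0}}

theorem le_rho_kc (hg : sc.Good bl) (s : Ordinal.{0}) : s ≤ sc.rho s (Scr.kc (S := S)) :=
  (le_crit hg s).trans (crit_le sc s)

theorem rho_g (hg : sc.Good bl) (hbl : ∀ s, bl s ≤ s) (s : Ordinal.{0}) :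
    sc.rho s (sc.g s) = bl s := by
  rw [hg.2 s]
  exact min_eq_left ((hbl s).trans (le_rho_kc hg s))

theorem IDX_lt (hg : sc.Good bl) (hbl : ∀ s, bl s ≤ s)
    (hlt : bl s < sc.rho s (Scr.kc (S := S))) :
    sc.AE fun z => sc.g s z < S.kap (sc.g s z) := by
  have h1 : sc.rho s (sc.g s) < sc.rho s (Scr.kc (S := S)) := by rwa [rho_g hg hbl s]
  have h2 := (rho_lt (FS_g sc s) (FS_const sc s S.κ)).1 h1
  exact AE_mono (FS_fs (FS_lt (FS_g sc s) (FS_kapg sc s))) h2 fun z hz => S.lt_kap _ hz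

theorem rho_g_later (hg : sc.Good bl) (hbl : ∀ s, bl s ≤ s) (hst : s ≤ t)
    (hlt : bl s < sc.rho s (Scr.kc (S := S))) : sc.rho t (sc.g s) = bl s := by
  rw [rho_fix hg hst (FS_g sc s) (IDX_lt hg hbl hlt), rho_g hg hbl s]

theorem AE_coord {h : Asg S → S.V} (hh : sc.FS s h) :
    (sc.AE fun z => oo S.V (z s).1 ∈ h z) ↔ sc.AE fun z => S.InU (sc.g s z) (h z).1 := by
  obtain ⟨c, hc, hcs, hf⟩ := hh
  have hc' : sc.Cl (c ∪ sc.b s) := Cl_union hc (fun t ht => sc.b_cl s t ht)
  have hlt : ∀ t ∈ c ∪ sc.b s, t < s := by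
    intro t ht
    rcases Finset.mem_union.1 ht with h1 | h1
    · exact hcs t h1
    · exact sc.b_lt s t h1
  have hsupp := hf.supp
  rw [AE_insert hc' Finset.subset_union_right hlt]
  · have : sc.It s (fun z => oo S.V (z s).1 ∈ h z) = fun z => S.InU (sc.g s z) (h z).1 := by
      funext z
      have hz : ∀ ξ, h (Function.update z s ξ) = h z := fun ξ => by
        refine hsupp _ _ fun r hr => ?_
        rw [Function.update_of_ne (hcs r hr).ne]
      show (∀ᶠ ξ in S.U (sc.g s z), oo S.V (Function.update z s ξ s).1 ∈ h (Function.update z s ξ)) = _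
      simp only [hz, Function.update_self]
      rfl
    rw [this]
  · intro z z' hzz
    show (oo S.V (z s).1 ∈ h z) = (oo S.V (z' s).1 ∈ h z')
    rw [hzz s (Finset.mem_insert_self _ _),
      hsupp z z' fun r hr => hzz r (Finset.mem_insert_of_mem (Finset.mem_union_left _ hr))]

theorem IDX_below (c2 : Finset Ordinal.{0}) (hc2 : ∀ r ∈ c2, r < s) {B : Asg S → S.V}
    (hB : FF c2 B)
    (hcard : ∀ t', s ≤ t' → t' < t → sc.AE fun z => (B z).1.card < (S.kap (sc.g t' z)).card)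
    (n : ℕ) : ∀ c : Finset Ordinal.{0}, c.card = n → sc.Cl c → (∀ r ∈ c, r < t) → c2 ⊆ c →
      ∀ h : Asg S → S.V, FF c h → (sc.AE fun z => h z ∈ B z) →
        ∃ h', sc.FS s h' ∧ sc.AE fun z => h z = h' z := by
  induction n with
  | zero =>
    intro c hcard0 hc hct hcc h hh hmem
    rw [Finset.card_eq_zero] at hcard0
    subst hcard0
    exact ⟨h, ⟨∅, hc, by simp, hh⟩, AE_all fun z => rfl⟩
  | succ n ih =>
    intro c hcard1 hc hct hcc h hh hmem
    have hne : c.Nonempty := by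
      rw [← Finset.card_pos, hcard1]
      exact Nat.succ_pos n
    let m := c.max' hne
    have hm : m ∈ c := Finset.max'_mem c hne
    have hmax : ∀ r ∈ c, r ≤ m := fun r hr => Finset.le_max' c r hr
    by_cases hms : m < s
    · exact ⟨h, ⟨c, hc, fun r hr => (hmax r hr).trans_lt hms, hh⟩, AE_all fun z => rfl⟩
    · have hms' : s ≤ m := not_lt.1 hms
      have hlt : ∀ r ∈ c.erase m, r < m := fun r hr =>
        lt_of_le_of_ne (hmax r (Finset.mem_of_mem_erase hr)) (Finset.ne_of_mem_erase hr)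
      have hb : ∀ r ∈ c, sc.b r ⊆ c.erase m := fun r hr q hq =>
        Finset.mem_erase.2 ⟨((sc.b_lt r q hq).trans_le (hmax r hr)).ne, hc r hr hq⟩
      have hc0 : sc.Cl (c.erase m) := fun r hr => hb r (Finset.mem_of_mem_erase hr)
      have hins : insert m (c.erase m) = c := Finset.insert_erase hm
      have hcc0 : c2 ⊆ c.erase m := fun r hr =>
        Finset.mem_erase.2 ⟨((hc2 r hr).trans_le hms').ne, hcc hr⟩
      obtain ⟨f', hf', he⟩ := reduce hc0 (hb m hm) hlt (f := h) (by rw [hins]; exact hh)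
        (hB.mono hcc0) (hcard m hms' (hct m hm)) hmem
      have hct0 : ∀ r ∈ c.erase m, r < t := fun r hr => hct r (Finset.mem_of_mem_erase hr)
      have hf'S : sc.FS t f' := ⟨_, hc0, hct0, hf'⟩
      have hhS : sc.FS t h := ⟨_, hc, hct, hh⟩
      have hBS : sc.FS t B := ⟨_, hc, hct, hB.mono hcc⟩
      have hmem' : sc.AE fun z => f' z ∈ B z := by
        refine AE_mono (FS_fs (FS_mem hf'S hBS)) ((AE_and (FS_fs (FS_eq hhS hf'S))
          (FS_fs (FS_mem hhS hBS))).2 ⟨he, hmem⟩) ?_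
        rintro z ⟨h1, h2⟩
        rwa [← h1]
      obtain ⟨h', hh', he'⟩ := ih (c.erase m) (by rw [Finset.card_erase_of_mem hm, hcard1]; rfl)
        hc0 hct0 hcc0 f' hf' hmem'
      by_cases hst : s ≤ t
      · refine ⟨h', hh', ?_⟩
        have hh'S : sc.FS t h' := FS_mono hh' hst
        refine AE_mono (FS_fs (FS_eq hhS hh'S)) ((AE_and (FS_fs (FS_eq hhS hf'S))
          (FS_fs (FS_eq hf'S hh'S))).2 ⟨he, he'⟩) ?_
        rintro z ⟨h1, h2⟩
        exact h1.trans h2
      · exact absurd (hms'.trans_lt (hct m hm)).le hst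

theorem reduce_below (hst : s ≤ t) {h B : Asg S → S.V} (hh : sc.FS t h) (hB : sc.FS s B)
    (hmem : sc.AE fun z => h z ∈ B z)
    (hcard : ∀ t', s ≤ t' → t' < t → sc.AE fun z => (B z).1.card < (S.kap (sc.g t' z)).card) :
    ∃ h', sc.FS s h' ∧ sc.AE fun z => h z = h' z := by
  obtain ⟨c1, hc1, hc1t, hf1⟩ := hh
  obtain ⟨c2, hc2, hc2s, hf2⟩ := hB
  refine IDX_below c2 hc2s hf2 hcard _ (c1 ∪ c2) rfl (Cl_union hc1 hc2) ?_
    Finset.subset_union_right h (hf1.mono Finset.subset_union_left) hmem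
  intro r hr
  rcases Finset.mem_union.1 hr with h1 | h1
  · exact hc1t r h1
  · exact (hc2s r h1).trans_le hst

end idx

end Pool.Agent.SC
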