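import Pool.Agent.Lib_helper73.SCL.REC
import Pool.Agent.Lib_helper73.SCL.SDefs

/-!
# Block LMP: limit points and blocks
-/

set_option linter.unusedSectionVars false
set_option linter.unusedVariables false

namespace Pool.Agent.SC

open FirstOrder Pool.Agent.Lib_helper27 Pool.Agent.Lib_helper27.ST

universe u v w

section lmp

variable {Y : Set Ordinal.{0}} {α ν : Ordinal.{0}}

/-- the least element of `Y` above `θ` -/
noncomputable def lmp_nxt (Y : Set Ordinal.{0}) (θ : Ordinal.{0}) : Ordinal.{0} :=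
  sInf {y | y ∈ Y ∧ θ < y}

theorem lmp_nxt_spec (hY : ∀ θ, ∃ y ∈ Y, θ < y) (θ : Ordinal.{0}) :
    lmp_nxt Y θ ∈ Y ∧ θ < lmp_nxt Y θ := by
  obtain ⟨y, hy, h⟩ := hY θ
  exact csInf_mem (s := {y | y ∈ Y ∧ θ < y}) ⟨y, hy, h⟩

/-- the successive elements of `Y` above `α` -/
noncomputable def lmp_it (Y : Set Ordinal.{0}) (α : Ordinal.{0}) : ℕ → Ordinal.{0}
  | 0 => lmp_nxt Y α
  | n + 1 => lmp_nxt Y (lmp_it Y α n)

theorem lmp_it_mem (hY : ∀ θ, ∃ y ∈ Y, θ < y) (α : Ordinal.{0}) (n : ℕ) : lmp_it Y α n ∈ Y := by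
  cases n with
  | zero => exact (lmp_nxt_spec hY _).1
  | succ n => exact (lmp_nxt_spec hY _).1

theorem lmp_it_lt (hY : ∀ θ, ∃ y ∈ Y, θ < y) (α : Ordinal.{0}) (n : ℕ) :
    lmp_it Y α n < lmp_it Y α (n + 1) := (lmp_nxt_spec hY _).2

theorem lmp_it_mono (hY : ∀ θ, ∃ y ∈ Y, θ < y) (α : Ordinal.{0}) : StrictMono (lmp_it Y α) :=
  strictMono_nat_of_lt_succ (lmp_it_lt hY α)

theorem lmp_lt_it (hY : ∀ θ, ∃ y ∈ Y, θ < y) (α : Ordinal.{0}) (n : ℕ) : α < lmp_it Y α n := by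
  induction n with
  | zero => exact (lmp_nxt_spec hY _).2
  | succ n ih => exact ih.trans (lmp_it_lt hY α n)

theorem lmp_sup (hY : ∀ θ, ∃ y ∈ Y, θ < y) (α : Ordinal.{0}) :
    α < (⨆ n, lmp_it Y α n) ∧ ∀ θ < (⨆ n, lmp_it Y α n), ∃ y ∈ Y, θ < y ∧
      y < ⨆ n, lmp_it Y α n := by
  have hlt : ∀ n, lmp_it Y α n < ⨆ n, lmp_it Y α n := fun n =>
    (lmp_it_lt hY α n).trans_le (Ordinal.le_iSup _ _)
  refine ⟨(lmp_lt_it hY α 0).trans (hlt 0), fun θ hθ => ?_⟩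
  obtain ⟨n, hn⟩ := (Ordinal.lt_iSup_iff).1 hθ
  exact ⟨_, lmp_it_mem hY α n, hn, hlt n⟩

theorem lmp_spec (hY : ∀ θ, ∃ y ∈ Y, θ < y) (α : Ordinal.{0}) :
    α < lmp Y α ∧ ∀ θ < lmp Y α, ∃ y ∈ Y, θ < y ∧ y < lmp Y α :=
  csInf_mem (s := {l | α < l ∧ ∀ θ < l, ∃ y ∈ Y, θ < y ∧ y < l}) ⟨_, lmp_sup hY α⟩

theorem lmp_le {l : Ordinal.{0}} (h : α < l) (h' : ∀ θ < l, ∃ y ∈ Y, θ < y ∧ y < l) :
    lmp Y α ≤ l := csInf_le' ⟨h, h'⟩

/-- a limit point obtained by `lmp` is the limit of an `ω`-sequence -/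
theorem lmp_seq (hY : ∀ θ, ∃ y ∈ Y, θ < y) (α : Ordinal.{0}) :
    ∃ y : ℕ → Ordinal.{0}, StrictMono y ∧ (∀ n, y n ∈ Y) ∧ (∀ n, α < y n) ∧
      (∀ n, y n < lmp Y α) ∧ ∀ θ < lmp Y α, ∃ n, θ < y n := by
  refine ⟨lmp_it Y α, lmp_it_mono hY α, lmp_it_mem hY α, lmp_lt_it hY α, fun n => ?_,
    fun θ hθ => ?_⟩
  · have key : ∀ θ < lmp Y α, lmp_nxt Y θ < lmp Y α := by
      intro θ hθ
      obtain ⟨y, hy, h1, h2⟩ := (lmp_spec hY α).2 θ hθ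
      exact lt_of_le_of_lt (csInf_le' ⟨hy, h1⟩) h2
    induction n with
    | zero => exact key _ (lmp_spec hY α).1
    | succ n ih => exact key _ ih
  · have h1 := lmp_sup hY α
    exact (Ordinal.lt_iSup_iff).1 (hθ.trans_le (lmp_le h1.1 h1.2))

theorem Lam_eq (i : Ordinal.{0}) : Lam Y ν i = lmp Y (max ν (Mu Y ν i)) := by
  unfold Lam
  rw [WellFounded.fix_eq]
  rfl

theorem Mu_lt (hY : ∀ θ, ∃ y ∈ Y, θ < y) (i : Ordinal.{0}) : Mu Y ν i < Lam Y ν i := by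
  rw [Lam_eq]
  exact (le_max_right _ _).trans_lt (lmp_spec hY _).1

theorem Lam_le_Mu (hY : ∀ θ, ∃ y ∈ Y, θ < y) {i j : Ordinal.{0}} (h : i < j) :
    Lam Y ν i ≤ Mu Y ν j :=
  Ordinal.le_iSup (fun j : Set.Iio j => Lam Y ν j.1) ⟨i, h⟩

theorem Lam_strictMono (hY : ∀ θ, ∃ y ∈ Y, θ < y) : StrictMono (Lam Y ν) :=
  fun _ j h => (Lam_le_Mu hY h).trans_lt (Mu_lt hY j)

theorem le_Mu (hY : ∀ θ, ∃ y ∈ Y, θ < y) (i : Ordinal.{0}) : i ≤ Mu Y ν i := by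
  induction i using WellFoundedLT.induction with
  | _ i ih =>
    refine le_of_forall_lt fun j hj => ?_
    exact ((ih j hj).trans_lt (Mu_lt hY j)).trans_le (Lam_le_Mu hY hj)

theorem lt_Lam (hY : ∀ θ, ∃ y ∈ Y, θ < y) (i : Ordinal.{0}) :
    i < Lam Y ν i ∧ ν < Lam Y ν i := by
  refine ⟨(le_Mu hY i).trans_lt (Mu_lt hY i), ?_⟩
  rw [Lam_eq]
  exact (le_max_left _ _).trans_lt (lmp_spec hY _).1

theorem Lam_limit (hY : ∀ θ, ∃ y ∈ Y, θ < y) (i θ : Ordinal.{0}) (h : θ < Lam Y ν i) :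
    ∃ y ∈ Y, θ < y ∧ y < Lam Y ν i := by
  rw [Lam_eq] at h ⊢
  exact (lmp_spec hY _).2 θ h

theorem lt_blk_iff (hY : ∀ θ, ∃ y ∈ Y, θ < y) {i s : Ordinal.{0}} :
    i < blk Y ν s ↔ Lam Y ν i ≤ s := by
  constructor
  · intro h
    by_contra hcon
    exact absurd (csInf_le' (s := {i | s < Lam Y ν i}) (not_le.1 hcon)) (not_le.2 h)
  · intro h
    have h1 : blk Y ν s ∈ {i | s < Lam Y ν i} := csInf_mem ⟨s, (lt_Lam hY s).1⟩
    exact (Lam_strictMono hY).lt_iff_lt.1 (h.trans_lt h1)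

theorem blk_mono (hY : ∀ θ, ∃ y ∈ Y, θ < y) : Monotone (blk Y ν) := by
  intro s s' h
  refine le_of_forall_lt fun i hi => ?_
  rw [lt_blk_iff hY] at hi ⊢
  exact hi.trans h

theorem blk_le (hY : ∀ θ, ∃ y ∈ Y, θ < y) (s : Ordinal.{0}) : blk Y ν s ≤ s :=
  csInf_le' (lt_Lam hY s).1

/-- an ordinal between `Mu i` and `Lam i` belongs to block `i` -/
theorem blk_eq (hY : ∀ θ, ∃ y ∈ Y, θ < y) {i s : Ordinal.{0}} (h : Mu Y ν i ≤ s)
    (h' : s < Lam Y ν i) : blk Y ν s = i := by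
  apply le_antisymm (show blk Y ν s ≤ i from csInf_le' (s := {i | s < Lam Y ν i}) h')
  refine le_of_forall_lt fun j hj => ?_
  rw [lt_blk_iff hY]
  exact (Lam_le_Mu hY hj).trans h

/-- if `α` is closed under `Lam` then it is in a block with index at least `α` -/
theorem le_blk (hY : ∀ θ, ∃ y ∈ Y, θ < y) {α : Ordinal.{0}} (h : ∀ i < α, Lam Y ν i < α) :
    α ≤ blk Y ν α := by
  refine le_of_forall_lt fun i hi => ?_
  rw [lt_blk_iff hY]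
  exact (h i hi).le

theorem lmp_local {x β : Ordinal.{0}} (hY : ∀ θ, ∃ y ∈ Y, θ < y) (h : lmp Y x < β) :
    lmp {y | y ∈ Y ∧ y < β} x = lmp Y x := by
  have h1 := lmp_spec hY x
  have h2 : lmp Y x ∈ {l | x < l ∧ ∀ θ < l, ∃ y ∈ {y | y ∈ Y ∧ y < β}, θ < y ∧ y < l} := by
    refine ⟨h1.1, fun θ hθ => ?_⟩
    obtain ⟨y, hy, h3, h4⟩ := h1.2 θ hθ
    exact ⟨y, ⟨hy, h4.trans h⟩, h3, h4⟩
  apply le_antisymm
  · exact csInf_le' h2
  · have h3 : lmp {y | y ∈ Y ∧ y < β} x ∈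
      {l | x < l ∧ ∀ θ < l, ∃ y ∈ {y | y ∈ Y ∧ y < β}, θ < y ∧ y < l} := csInf_mem ⟨_, h2⟩
    refine csInf_le' ⟨h3.1, fun θ hθ => ?_⟩
    obtain ⟨y, hy, h4, h5⟩ := h3.2 θ hθ
    exact ⟨y, hy.1, h4, h5⟩

/-- `Lam` only depends on the part of `Y` below its value -/
theorem Lam_local (hY : ∀ θ, ∃ y ∈ Y, θ < y) {β : Ordinal.{0}} {i : Ordinal.{0}}
    (h : Lam Y ν i < β) : Lam {y | y ∈ Y ∧ y < β} ν i = Lam Y ν i := by
  induction i using WellFoundedLT.induction with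
  | _ i ih =>
    have h1 : Mu {y | y ∈ Y ∧ y < β} ν i = Mu Y ν i := by
      unfold Mu
      exact iSup_congr fun j => ih j.1 j.2 (((Lam_strictMono hY) j.2).trans h)
    rw [Lam_eq, Lam_eq, h1]
    rw [Lam_eq] at h
    exact lmp_local hY h

variable {V : Set ZFSet.{0}} [Inner V]

theorem lmp_dbl (hY : Dbl V (fun x : V => rk x ∈ Y)) {Γ : Type v} [Ctx V Γ]
    {a : Γ → Ordinal.{0}} (ha : Dbl V a) : Dbl V (fun γ => lmp Y (a γ)) := by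
  refine dbl_sInf (P := fun γ l => a γ < l ∧ ∀ θ < l, ∃ y ∈ Y, θ < y ∧ y < l) ?_
  refine Dbl.and ?_ ?_
  · fun_prop
  · refine dbl_allo (P := fun (z : Γ × V) θ => θ < rk z.2 → ∃ y ∈ Y, θ < y ∧ y < rk z.2) ?_
    refine Dbl.imp (by fun_prop) ?_
    refine dbl_exo (P := fun (z : (Γ × V) × V) y => y ∈ Y ∧ rk z.2 < y ∧ y < rk z.1.2) ?_
    refine Dbl.and ?_ (by fun_prop)
    exact Dbl.comp (f := fun z : ((Γ × V) × V) × V => z.2) (g := fun x : V => rk x ∈ Y)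
      (by fun_prop) hY

theorem lmp_dbl_max {Γ : Type v} [Ctx V Γ] {a b : Γ → Ordinal.{0}} (ha : Dbl V a)
    (hb : Dbl V b) : Dbl V (fun γ => max (a γ) (b γ)) := by
  apply dbl_of_graph_ord
  refine Dbl.congr_prop (p := fun z : Γ × V => (a z.1 ≤ b z.1 ∧ b z.1 = rk z.2) ∨
    (b z.1 ≤ a z.1 ∧ a z.1 = rk z.2)) (by fun_prop) ?_
  intro z
  rcases le_total (a z.1) (b z.1) with h | h
  · rw [max_eq_right h]
    constructor
    · intro h1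
      exact Or.inl ⟨h, h1⟩
    · rintro (⟨_, h1⟩ | ⟨h1, h2⟩)
      · exact h1
      · rw [le_antisymm h1 h]; exact h2
  · rw [max_eq_left h]
    constructor
    · intro h1
      exact Or.inr ⟨h, h1⟩
    · rintro (⟨h1, h2⟩ | ⟨_, h1⟩)
      · rw [le_antisymm h1 h]; exact h2
      · exact h1

theorem Lam_dbl (hY : Dbl V (fun x : V => rk x ∈ Y)) (ν : Ordinal.{0}) {Γ : Type v} [Ctx V Γ]
    {a : Γ → Ordinal.{0}} (ha : Dbl V a) : Dbl V (fun γ => Lam Y ν (a γ)) := by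
  have hH : Dbl V (fun z : V × V =>
      lmp Y (max ν (⨆ i : Set.Iio (rk z.1), rk (fapp z.2 (oo V i.1))))) := by
    refine lmp_dbl hY (lmp_dbl_max (by fun_prop) ?_)
    exact dbl_sup (F := fun (z : V × V) i => rk (fapp z.2 (oo V i))) (by fun_prop) (by fun_prop)
  have h := rec_ord' (H := fun x g => lmp Y (max ν (⨆ i : Set.Iio (rk x),
    rk (fapp g (oo V i.1))))) hH (F := Lam Y ν) (by
      intro α g hg
      have key : ∀ β, β = α → (⨆ i : Set.Iio β, rk (fapp g (oo V i.1))) = Mu Y ν α := by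
        rintro _ rfl
        unfold Mu
        refine iSup_congr fun j => ?_
        rw [hg j.1 j.2, rk_oo]
      rw [Lam_eq, key _ (rk_oo α)])
  exact dbl_app' h ha

theorem blk_dbl (hY : Dbl V (fun x : V => rk x ∈ Y)) (ν : Ordinal.{0}) {Γ : Type v} [Ctx V Γ]
    {a : Γ → Ordinal.{0}} (ha : Dbl V a) : Dbl V (fun γ => blk Y ν (a γ)) := by
  refine dbl_sInf (P := fun γ i => a γ < Lam Y ν i) ?_
  have h1 : Dbl V (fun z : Γ × V => Lam Y ν (rk z.2)) := Lam_dbl hY ν (by fun_prop)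
  fun_prop

end lmp

end Pool.Agent.SC
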