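import Pool.Agent.Lib_helper73.SCL.CIN

/-!
# SC block STB (MP_80bdc1_lc): simple properties of the stability predicate
-/

set_option linter.unusedSectionVars false

namespace Pool.Agent.SC

open FirstOrder Pool.Agent.Lib_helper27 Pool.Agent.Lib_helper27.ST

universe u v w

section

variable {V : Set ZFSet.{0}} [Inner V] [GW V] {α β γ : Ordinal.{0}}

theorem stb_triple {n m : ℕ} {α β α' β' : Ordinal.{0}} (h : triple n α β = triple m α' β') :
    n = m ∧ α = α' ∧ β = β' := by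
  unfold triple at h
  rw [ZFSet.pair_inj, ZFSet.pair_inj] at h
  refine ⟨?_, Ordinal.toZFSet_injective h.1.2, Ordinal.toZFSet_injective h.2⟩
  exact Nat.cast_inj.1 (Ordinal.toZFSet_injective h.1.1)

theorem stab_iff {n : ℕ} : triple n α β ∈ Stab V ↔
    1 ≤ n ∧ NGood V n α ∧ NGood V n β ∧ SigElem n (HSet V α) (HSet V β) := by
  constructor
  · rintro ⟨m, α', β', h1, h2, h3, h4, h5⟩
    obtain ⟨rfl, rfl, rfl⟩ := stb_triple h2
    exact ⟨h1, h3, h4, h5⟩
  · rintro ⟨h1, h3, h4, h5⟩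
    exact ⟨n, α, β, h1, rfl, h3, h4, h5⟩

theorem stab_le {n : ℕ} (h : triple n α β ∈ Stab V) : α ≤ β := by
  rw [stab_iff] at h
  obtain ⟨_, h1, h2, h3, _⟩ := h
  by_contra hlt
  rw [not_le] at hlt
  have h4 : β.toZFSet ∈ HSet V α := (ord_mem_HSet h1.1).2 hlt
  have h5 := (ord_mem_HSet h2.1).1 (h3 h4)
  exact lt_irrefl _ h5

theorem ys_sl (h : α ∈ YS V) : StrongLimit V α := by
  obtain ⟨β, _, hβ⟩ := h 0
  exact (stab_iff.1 hβ).2.1.1

theorem ys_unbounded (V : Set ZFSet.{0}) [Inner V] [GW V] (θ : Ordinal.{0}) : ∃ α ∈ YS V, θ < α := by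
  obtain ⟨α, hθ, hα⟩ := cinf_unbounded V θ
  refine ⟨α, fun γ => ?_, hθ⟩
  obtain ⟨β, hβ1, hβ2⟩ := cinf_unbounded V (max γ α)
  exact ⟨β, lt_of_le_of_lt (le_max_left _ _) hβ1,
    cinf_stab le_rfl hα hβ2 (le_of_lt (lt_of_le_of_lt (le_max_right _ _) hβ1))⟩

/-! ### upward absoluteness -/

section abs

variable {H H' : Set ZFSet.{0}}

theorem stb_term (h : H ⊆ H') {k : ℕ} (t : LSet.Term (Empty ⊕ Fin k)) (xs : Fin k → H) :
    Set.inclusion h (t.realize (Sum.elim Empty.elim xs)) =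
      t.realize (Sum.elim Empty.elim (fun i => Set.inclusion h (xs i))) := by
  cases t with
  | var a =>
    cases a with
    | inl e => exact e.elim
    | inr i => rfl
  | func f ts => exact f.elim

theorem stb_snoc (h : H ⊆ H') {k : ℕ} (xs : Fin k → H) (a : H) :
    (fun i => Set.inclusion h ((Fin.snoc xs a : Fin (k + 1) → H) i)) =
      (Fin.snoc (fun i => Set.inclusion h (xs i)) (Set.inclusion h a) : Fin (k + 1) → H') := by
  funext i
  refine Fin.lastCases ?_ (fun j => ?_) i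
  · simp
  · simp

theorem stb_ball {k : ℕ} (i : Fin k) (φ : Fm (k + 1)) (xs : Fin k → H) :
    Sat H (Fm.ball i φ) xs ↔ ∀ y : H, y.1 ∈ (xs i).1 → Sat H φ (Fin.snoc xs y) := by
  unfold Sat Fm.ball Fm.mem
  rw [Language.BoundedFormula.realize_all]
  refine forall_congr' fun y => ?_
  rw [Language.BoundedFormula.realize_imp, Language.BoundedFormula.realize_rel₂]
  have h1 : Language.Structure.RelMap (L := LSet) (M := H) memSym
      ![Language.Term.realize (Sum.elim Empty.elim (Fin.snoc xs y : Fin (k + 1) → H))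
        (Language.Term.var (Sum.inr (Fin.last k)) : LSet.Term (Empty ⊕ Fin (k + 1))),
      Language.Term.realize (Sum.elim Empty.elim (Fin.snoc xs y : Fin (k + 1) → H))
        (Language.Term.var (Sum.inr i.castSucc) : LSet.Term (Empty ⊕ Fin (k + 1)))] ↔
      y.1 ∈ (xs i).1 := by
    show ((Fin.snoc xs y : Fin (k + 1) → H) (Fin.last k)).1 ∈
      ((Fin.snoc xs y : Fin (k + 1) → H) i.castSucc).1 ↔ _
    rw [Fin.snoc_last, Fin.snoc_castSucc]
  exact imp_congr h1 Iff.rfl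

theorem stb_delta (h : H ⊆ H') (ht : ∀ x ∈ H, ∀ y ∈ x, y ∈ H) {k : ℕ} {φ : Fm k} (hφ : IsDelta0 φ) :
    ∀ xs : Fin k → H, Sat H φ xs ↔ Sat H' φ (fun i => Set.inclusion h (xs i)) := by
  induction hφ with
  | falsum => exact fun xs => Iff.rfl
  | equal t s =>
    intro xs
    show (t.realize (Sum.elim Empty.elim xs) = s.realize (Sum.elim Empty.elim xs)) ↔
      (t.realize _ = s.realize _)
    rw [← stb_term h, ← stb_term h]
    exact (Set.inclusion_injective h).eq_iff.symm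
  | @rel k l R ts =>
    intro xs
    cases R with
    | mem =>
      show ((ts 0).realize (Sum.elim Empty.elim xs)).1 ∈ ((ts 1).realize (Sum.elim Empty.elim xs)).1 ↔
        ((ts 0).realize (Sum.elim Empty.elim (fun i => Set.inclusion h (xs i)))).1 ∈
        ((ts 1).realize (Sum.elim Empty.elim (fun i => Set.inclusion h (xs i)))).1
      rw [← stb_term h, ← stb_term h]
  | imp _ _ ih1 ih2 =>
    intro xs
    unfold Sat at ih1 ih2 ⊢
    rw [Language.BoundedFormula.realize_imp, Language.BoundedFormula.realize_imp, ih1, ih2]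
  | @ball k i φ _ ih =>
    intro xs
    rw [stb_ball, stb_ball]
    constructor
    · intro h1 y hy
      have hyH : y.1 ∈ H := ht _ (xs i).2 _ hy
      have h2 := (ih _).1 (h1 ⟨y.1, hyH⟩ hy)
      rw [stb_snoc] at h2
      exact h2
    · intro h1 y hy
      rw [ih, stb_snoc]
      exact h1 _ hy

theorem stb_zero {b : Bool} {n k : ℕ} {φ : Fm k} (hφ : IsLevy b n φ) (hn : n = 0) : IsDelta0 φ := by
  cases hφ with
  | base _ h => exact h
  | flip _ _ => exact absurd hn (Nat.succ_ne_zero _)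
  | ex _ => exact absurd hn (Nat.succ_ne_zero _)
  | all _ => exact absurd hn (Nat.succ_ne_zero _)

theorem stb_up (h : H ⊆ H') (ht : ∀ x ∈ H, ∀ y ∈ x, y ∈ H) {b : Bool} {n k : ℕ} {φ : Fm k}
    (hφ : IsLevy b n φ) : b = true → n = 1 →
    ∀ xs : Fin k → H, Sat H φ xs → Sat H' φ (fun i => Set.inclusion h (xs i)) := by
  induction hφ with
  | base _ _ => intro _ h1; exact absurd h1 (by decide)
  | flip b h1 _ =>
    intro _ hn xs hx
    exact (stb_delta h ht (stb_zero h1 (by omega)) xs).1 hx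
  | @ex n k φ _ ih =>
    intro _ hn xs hx
    unfold Sat at hx ih ⊢
    rw [Language.BoundedFormula.realize_ex] at hx ⊢
    obtain ⟨a, ha⟩ := hx
    refine ⟨Set.inclusion h a, ?_⟩
    have h2 := ih rfl hn _ ha
    rw [stb_snoc] at h2
    exact h2
  | all _ _ => intro hb; exact absurd hb (by decide)

end abs

theorem stb_trans {n : ℕ} {H₁ H₂ H₃ : Set ZFSet.{0}} (h1 : SigElem n H₁ H₂) (h2 : SigElem n H₂ H₃) :
    SigElem n H₁ H₃ := by
  obtain ⟨a1, b1⟩ := h1
  obtain ⟨a2, b2⟩ := h2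
  refine ⟨a1.trans a2, fun k φ hφ xs => ?_⟩
  rw [b1 k φ hφ xs, b2 k φ hφ]

/-- below a fully elementary cardinal, `YS` can be read off the stability predicate -/
theorem ys_iff (hβ : CInf V β) (h : α < β) : α ∈ YS V ↔ triple 1 α β ∈ Stab V := by
  constructor
  · intro hα
    obtain ⟨δ, hδ, hδs⟩ := hα β
    rw [stab_iff] at hδs ⊢
    have hββ := stab_iff.1 (cinf_stab (n := 1) le_rfl hβ hβ le_rfl)
    refine ⟨le_rfl, hδs.2.1, hββ.2.1, HSet_mono h.le, fun k φ hφ xs => ?_⟩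
    obtain ⟨_, _, _, a1, a2⟩ := hδs
    constructor
    · exact stb_up (HSet_mono h.le) (fun x hx y hy => HSet_trans hx hy) hφ rfl rfl xs
    · intro hs
      rw [a2 k φ hφ xs]
      exact stb_up (HSet_mono hδ.le) (fun x hx y hy => HSet_trans hx hy) hφ rfl rfl _ hs
  · intro hs γ
    obtain ⟨δ, hδ1, hδ2⟩ := cinf_unbounded V (max γ β)
    refine ⟨δ, lt_of_le_of_lt (le_max_left _ _) hδ1, ?_⟩
    have hβδ : β ≤ δ := (lt_of_le_of_lt (le_max_right _ _) hδ1).le
    have h1 := stab_iff.1 (cinf_stab (n := 1) le_rfl hβ hδ2 hβδ)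
    have h2 := stab_iff.1 hs
    exact stab_iff.2 ⟨le_rfl, h2.2.1, h1.2.2.1, stb_trans h2.2.2.2 h1.2.2.2⟩

end

end Pool.Agent.SC
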