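import Pool.Agent.Lib_helper73.SCL.FML
import Pool.Agent.Lib_helper73.SCL.STB

/-!
# Block LVY: reflection
-/

set_option linter.unusedSectionVars false
set_option linter.unusedVariables false

namespace Pool.Agent.SC

open FirstOrder Pool.Agent.Lib_helper27 Pool.Agent.Lib_helper27.ST

universe u v w

section

variable {V : Set ZFSet.{0}} [Inner V] [GW V] {α β γ : Ordinal.{0}}

theorem lvy_succ {b : Bool} {n k : ℕ} {φ : Fm k} (h : IsLevy b n φ) : IsLevy b (n + 1) φ := by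
  induction h with
  | base b h =>
    have := IsLevy.flip (!b) (IsLevy.base (!b) h)
    rwa [Bool.not_not] at this
  | flip b h ih => exact IsLevy.flip b ih
  | ex h ih => exact IsLevy.ex ih
  | all h ih => exact IsLevy.all ih

/-- the Lévy hierarchy is cumulative -/
theorem levy_mono {b : Bool} {n m k : ℕ} {φ : Fm k} (h : IsLevy b n φ) (hnm : n ≤ m) :
    IsLevy b m φ := by
  induction m, hnm using Nat.le_induction with
  | base => exact h
  | succ m _ ih => exact lvy_succ ih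

theorem lvy_qf {k : ℕ} {φ : Fm k} (h : φ.IsQF) : IsDelta0 φ := by
  induction h with
  | falsum => exact IsDelta0.falsum
  | of_isAtomic h =>
    cases h with
    | equal t s => exact IsDelta0.equal t s
    | rel R ts => exact IsDelta0.rel R ts
  | imp h1 h2 ih1 ih2 => exact IsDelta0.imp ih1 ih2

theorem lvy_prenex {k : ℕ} {φ : Fm k} (h : φ.IsPrenex) :
    ∃ n, IsLevy true (n + 1) φ ∧ IsLevy false (n + 1) φ := by
  induction h with
  | of_isQF h =>
    exact ⟨0, lvy_succ (IsLevy.base true (lvy_qf h)), lvy_succ (IsLevy.base false (lvy_qf h))⟩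
  | all h ih =>
    obtain ⟨n, h1, h2⟩ := ih
    exact ⟨n + 1, IsLevy.flip false (IsLevy.all h2), lvy_succ (IsLevy.all h2)⟩
  | ex h ih =>
    obtain ⟨n, h1, h2⟩ := ih
    exact ⟨n + 1, lvy_succ (IsLevy.ex h1), IsLevy.flip true (IsLevy.ex h1)⟩

/-- every formula is equivalent to a formula in the Lévy hierarchy -/
theorem exists_levy {k : ℕ} (φ : Fm k) : ∃ (n : ℕ) (ψ : Fm k), IsLevy true n ψ ∧
    ∀ (H : Set ZFSet.{0}), H.Nonempty → ∀ xs : Fin k → H, Sat H φ xs ↔ Sat H ψ xs := by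
  obtain ⟨n, h1, h2⟩ := lvy_prenex φ.toPrenex_isPrenex
  refine ⟨n + 1, φ.toPrenex, h1, fun H hH xs => ?_⟩
  have : Nonempty H := hH.to_subtype
  exact (Language.BoundedFormula.realize_toPrenex φ).symm

/-- the hierarchy of levels of stability -/
theorem stab_anti {m n : ℕ} (hm : 1 ≤ m) (hmn : m ≤ n) (h : triple n α β ∈ Stab V) :
    triple m α β ∈ Stab V := by
  rw [stab_iff] at h ⊢
  obtain ⟨_, h1, h2, h3, h4⟩ := h
  refine ⟨hm, ⟨h1.1, ?_⟩, ⟨h2.1, ?_⟩, h3, ?_⟩
  · intro k φ hφ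
    exact h1.2 k φ (levy_mono hφ hmn)
  · intro k φ hφ
    exact h2.2 k φ (levy_mono hφ hmn)
  · intro k φ hφ
    exact h4 k φ (levy_mono hφ hmn)

theorem lvy_snoc {X : Type u} {k : ℕ} (p : Fin k → X) (x y : X) :
    (Fin.append p ![x, y] : Fin (k + 2) → X) =
      (Fin.snoc (Fin.snoc p x : Fin (k + 1) → X) y : Fin (k + 1 + 1) → X) := by
  funext i
  refine Fin.lastCases ?_ (fun i => ?_) i
  · rw [Fin.snoc_last]
    have : (Fin.last (k + 1) : Fin (k + 2)) = Fin.natAdd k (1 : _root_.Fin 2) := rfl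
    rw [this, Fin.append_right]
    rfl
  · rw [Fin.snoc_castSucc]
    refine Fin.lastCases ?_ (fun i => ?_) i
    · rw [Fin.snoc_last]
      have : ((Fin.last k).castSucc : Fin (k + 2)) = Fin.natAdd k (0 : _root_.Fin 2) := rfl
      rw [this, Fin.append_right]
      rfl
    · rw [Fin.snoc_castSucc]
      have : (i.castSucc.castSucc : Fin (k + 2)) = Fin.castAdd 2 i := rfl
      rw [this, Fin.append_left]

/-- Reflection of definable statements by the stability predicate. -/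
theorem stab_reflect {P : V → V → Prop} (hP : Dbl V (fun z : V × V => P z.1 z.2)) :
    ∃ (n : ℕ) (θ : Ordinal.{0}), 1 ≤ n ∧ ∀ α β, θ < α → CInf V β → triple n α β ∈ Stab V →
      ∀ p : V, p.1 ∈ HSet V α → (∃ s : V, P s p) → ∃ s : V, s.1 ∈ HSet V α ∧ P s p := by
  have hP' : Dbl V (fun z : V × V => P z.2 z.1) :=
    Dbl.comp (f := fun z : V × V => (z.2, z.1)) (g := fun z : V × V => P z.1 z.2)
      (by fun_prop) hP
  obtain ⟨k, φ, p0, hφ⟩ := dbl_fm2 (P := fun x y => P y x) hP'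
  obtain ⟨n1, ψ1, hψ1, hs1⟩ := exists_levy (φ.ex : Fm (k + 1))
  obtain ⟨n2, ψ2, hψ2, hs2⟩ := exists_levy φ
  have hθ : ∀ i, ∃ θ, (p0 i).1 ∈ HSet V θ := fun i => exists_HSet (p0 i)
  choose θ hθ using hθ
  have hle : ∀ i, θ i ≤ ⨆ i, θ i := fun i => Ordinal.le_iSup θ i
  refine ⟨max n1 n2 + 1, ⨆ i, θ i, by omega, fun α β hα hβ hst p hp hex => ?_⟩
  rw [stab_iff] at hst
  obtain ⟨_, -, -, hsub, hel⟩ := hst
  obtain ⟨_, hsubV, helV⟩ := hβ
  have hpα : ∀ i, (p0 i).1 ∈ HSet V α := fun i => HSet_mono ((hle i).trans hα.le) (hθ i)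
  have hne : (HSet V α).Nonempty := ⟨_, hp⟩
  have hneβ : (HSet V β).Nonempty := ⟨_, hsub hp⟩
  -- the assignment in `H_α`
  let q : Fin k → HSet V α := fun i => ⟨(p0 i).1, hpα i⟩
  let q1 : Fin (k + 1) → HSet V α := Fin.snoc q ⟨p.1, hp⟩
  have hq1V : (fun i => Set.inclusion hsubV (Set.inclusion hsub (q1 i))) =
      (Fin.snoc p0 p : Fin (k + 1) → V) := by
    funext i
    refine Fin.lastCases ?_ (fun i => ?_) i
    · simp only [q1, Fin.snoc_last]
    · simp only [q1, Fin.snoc_castSucc]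
      rfl
  -- truth of the existential formula
  have h1 : Sat V (φ.ex : Fm (k + 1)) (Fin.snoc p0 p) := by
    obtain ⟨s, hs⟩ := hex
    refine (Language.BoundedFormula.realize_ex).2 ⟨s, ?_⟩
    have := (hφ p s).1 hs
    rw [lvy_snoc] at this
    exact this
  rw [← hq1V] at h1
  have h2 := (helV _ _ (fun i => Set.inclusion hsub (q1 i))).2 h1
  have h3 := (hs1 _ hneβ _).1 h2
  have h4 := (hel _ ψ1 (levy_mono hψ1 (by omega)) q1).2 h3
  have h5 := (hs1 _ hne _).2 h4
  obtain ⟨s, hs⟩ := (Language.BoundedFormula.realize_ex).1 h5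
  refine ⟨⟨s.1, HSet_sub s.2⟩, s.2, ?_⟩
  -- going back
  have h6 : Sat (HSet V α) φ (Fin.snoc q1 s) := hs
  have h7 := (hs2 _ hne _).1 h6
  have h8 := (hel _ ψ2 (levy_mono hψ2 (by omega)) _).1 h7
  have h9 := (hs2 _ hneβ _).2 h8
  have h10 := (helV _ _ _).1 h9
  rw [hφ p ⟨s.1, HSet_sub s.2⟩, lvy_snoc, ← hq1V]
  have h11 : (fun i => Set.inclusion hsubV (Set.inclusion hsub
      ((Fin.snoc q1 s : Fin (k + 1 + 1) → HSet V α) i))) =
      (Fin.snoc (fun i => Set.inclusion hsubV (Set.inclusion hsub (q1 i)))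
        (⟨s.1, HSet_sub s.2⟩ : V) : Fin (k + 1 + 1) → V) := by
    funext i
    refine Fin.lastCases ?_ (fun i => ?_) i
    · simp only [Fin.snoc_last]
    · simp only [Fin.snoc_castSucc]
  rw [← h11]
  exact h10

end

end Pool.Agent.SC
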