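import Pool.Agent.Lib_helper73.SCL.HST
import Pool.Agent.Lib_helper73.SCL.HST_a

/-!
# Block SDB: the stability predicate is definable

Internal satisfaction is avoided: the pairs of relations defined by the same formula over two set
structures are generated inductively, and an inductively generated class is definable (by finite
derivations).
-/

set_option linter.unusedSectionVars false
set_option autoImplicit false

namespace Pool.Agent.SC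

open FirstOrder Pool.Agent.Lib_helper27 Pool.Agent.Lib_helper27.ST

universe u v w

section basic

variable {V : Set ZFSet.{0}} [Inner V]

theorem SDB_mem_oo {x : V} {α : Ordinal.{0}} : x ∈ oo V α ↔ ∃ β < α, x = oo V β := by
  rw [mem_def']
  show x.1 ∈ α.toZFSet ↔ _
  rw [Ordinal.mem_toZFSet_iff]
  constructor
  · rintro ⟨β, hβ, h⟩
    exact ⟨β, hβ, Subtype.ext h.symm⟩
  · rintro ⟨β, hβ, rfl⟩
    exact ⟨β, hβ, rfl⟩

theorem SDB_mem_omega {x : V} : x ∈ (ST.omega : V) ↔ ∃ i : ℕ, x = oo V (i : Ordinal.{0}) := by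
  rw [val_omega, SDB_mem_oo]
  constructor
  · rintro ⟨β, hβ, rfl⟩
    obtain ⟨i, rfl⟩ := Ordinal.lt_omega0.1 hβ
    exact ⟨i, rfl⟩
  · rintro ⟨i, rfl⟩
    exact ⟨_, Ordinal.natCast_lt_omega0 i, rfl⟩

theorem SDB_mem_nat {x : V} {k : ℕ} :
    x ∈ oo V (k : Ordinal.{0}) ↔ ∃ i : ℕ, i < k ∧ x = oo V (i : Ordinal.{0}) := by
  rw [SDB_mem_oo]
  constructor
  · rintro ⟨β, hβ, rfl⟩
    obtain ⟨i, rfl⟩ := Ordinal.lt_omega0.1 (hβ.trans (Ordinal.natCast_lt_omega0 k))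
    exact ⟨i, by exact_mod_cast hβ, rfl⟩
  · rintro ⟨i, hi, rfl⟩
    exact ⟨_, by exact_mod_cast hi, rfl⟩

theorem SDB_nat_mem {i k : ℕ} : oo V (i : Ordinal.{0}) ∈ oo V (k : Ordinal.{0}) ↔ i < k := by
  rw [oo_mem]
  exact_mod_cast Iff.rfl

theorem SDB_nat_inj {i k : ℕ} : oo V (i : Ordinal.{0}) = oo V (k : Ordinal.{0}) ↔ i = k := by
  rw [oo_inj]
  exact_mod_cast Iff.rfl

theorem SDB_succ_nat (k : ℕ) : ST.succ (oo V (k : Ordinal.{0})) = oo V ((k + 1 : ℕ) : Ordinal.{0}) := by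
  refine ext fun z => ?_
  rw [mem_succ, SDB_mem_nat, SDB_mem_nat]
  constructor
  · rintro (⟨i, hi, rfl⟩ | rfl)
    · exact ⟨i, by omega, rfl⟩
    · exact ⟨k, by omega, rfl⟩
  · rintro ⟨i, hi, rfl⟩
    rcases Nat.lt_succ_iff_lt_or_eq.1 hi with h | h
    · exact Or.inl ⟨i, h, rfl⟩
    · exact Or.inr (by rw [h])

theorem SDB_fin_set {k : ℕ} (g : Fin k → V) : ∃ s : V, ∀ z : V, z ∈ s ↔ ∃ i, z = g i := by
  have h1 : ((ZFSet.range fun i : Fin k => (g i).1 : ZFSet.{0}) : Set ZFSet.{0}) =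
      Set.range fun i : Fin k => (g i).1 := by
    ext z
    simp
  refine ⟨⟨ZFSet.range fun i : Fin k => (g i).1, finite_mem _ ?_ ?_⟩, ?_⟩
  · rw [h1]
    exact Set.finite_range _
  · intro y hy
    rw [ZFSet.mem_range] at hy
    obtain ⟨i, rfl⟩ := hy
    exact (g i).2
  · intro z
    rw [mem_def', ZFSet.mem_range]
    constructor
    · rintro ⟨i, hi⟩
      exact ⟨i, Subtype.ext hi.symm⟩
    · rintro ⟨i, rfl⟩
      exact ⟨i, rfl⟩

/-- the finite sequence `xs`, as a set -/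
noncomputable def SDB_fn {k : ℕ} (xs : Fin k → V) : V :=
  (SDB_fin_set fun i => opair (oo V ((i : ℕ) : Ordinal.{0})) (xs i)).choose

theorem SDB_mem_fn {k : ℕ} {xs : Fin k → V} {z : V} :
    z ∈ SDB_fn xs ↔ ∃ i : Fin k, z = opair (oo V ((i : ℕ) : Ordinal.{0})) (xs i) :=
  (SDB_fin_set fun i => opair (oo V ((i : ℕ) : Ordinal.{0})) (xs i)).choose_spec z

theorem SDB_opair_fn {k : ℕ} {xs : Fin k → V} {i : Fin k} {y : V} :
    opair (oo V ((i : ℕ) : Ordinal.{0})) y ∈ SDB_fn xs ↔ y = xs i := by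
  rw [SDB_mem_fn]
  constructor
  · rintro ⟨j, hj⟩
    rw [opair_inj, SDB_nat_inj] at hj
    have : i = j := Fin.ext hj.1
    rw [this]
    exact hj.2
  · rintro rfl
    exact ⟨i, rfl⟩

theorem SDB_fapp_fn {k : ℕ} (xs : Fin k → V) (i : Fin k) :
    fapp (SDB_fn xs) (oo V ((i : ℕ) : Ordinal.{0})) = xs i :=
  iota_eq (SDB_opair_fn.2 rfl) fun _ h => SDB_opair_fn.1 h

theorem SDB_fn_inj {k : ℕ} {xs ys : Fin k → V} (h : SDB_fn xs = SDB_fn ys) : xs = ys := by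
  funext i
  rw [← SDB_fapp_fn xs i, h, SDB_fapp_fn]

/-- classes of bounded rank are sets -/
theorem SDB_small_rk (θ : Ordinal.{0}) : Small (fun z : V => rk z < θ) := by
  induction θ using Ordinal.limitRecOn with
  | zero => exact ⟨empty, fun x => by simp [not_mem_empty]⟩
  | add_one θ ih =>
    obtain ⟨b, hb⟩ := ih
    refine ⟨power b, fun x => ?_⟩
    rw [mem_power]
    simp only [hb]
    show _ ↔ x.1.rank < θ + 1
    rw [Order.lt_add_one_iff, ZFSet.rank_le_iff]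
    constructor
    · intro h y hy
      exact h ⟨y, Inner.trans x.1 x.2 y hy⟩ hy
    · intro h y hy
      exact h hy
  | limit θ hθ ih =>
    have h1 : Dbl V (fun z : V × V => rk z.2 < rk z.1) := by fun_prop
    have h2 : Dbl V (fun z : V => rk z < rk (oo V θ)) := by fun_prop
    have h3 : ∀ γ : V, Small (fun z : V => rk γ < rk (oo V θ) ∧ rk z < rk γ) := by
      intro γ
      by_cases h : rk γ < rk (oo V θ)
      · obtain ⟨b, hb⟩ := ih (rk γ) (by rwa [rk_oo] at h)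
        exact ⟨b, fun x => by rw [hb]; exact ⟨fun h' => ⟨h, h'⟩, fun h' => h'.2⟩⟩
      · exact ⟨empty, fun x => ⟨fun h' => (not_mem_empty x h').elim, fun h' => (h h'.1).elim⟩⟩
    have h4 : Dbl V (fun γ : V => comp (fun z : V => rk γ < rk (oo V θ) ∧ rk z < rk γ)) :=
      dbl_comp h3 (by fun_prop)
    refine ⟨sUnion (image (fun γ : V => comp (fun z : V => rk γ < rk (oo V θ) ∧ rk z < rk γ))
      (oo V θ)), fun x => ?_⟩
    rw [mem_sUnion]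
    constructor
    · rintro ⟨y, hy, hx⟩
      obtain ⟨γ, hγ, rfl⟩ := (mem_image h4).1 hy
      rw [mem_comp (h3 γ), rk_oo] at hx
      exact hx.2.trans hx.1
    · intro hx
      refine ⟨_, (mem_image h4).2 ⟨oo V (Order.succ (rk x)), ?_, rfl⟩, ?_⟩
      · exact oo_mem.2 (hθ.succ_lt hx)
      · rw [mem_comp (h3 _)]
        simp only [rk_oo]
        exact ⟨hθ.succ_lt hx, Order.lt_succ _⟩

theorem SDB_small_of_small {D : V → Prop} (hD : Dbl V D) (H : Set ZFSet.{0}) [Small.{0} H]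
    (h : ∀ x : V, D x → x.1 ∈ H) : ST.Small D := by
  obtain ⟨b, hb⟩ := SDB_small_rk (V := V) (ZFSet.range fun x : H => x.1).rank
  refine small_of_subset hD b fun x hx => ?_
  rw [hb]
  refine ZFSet.rank_lt_of_mem ?_
  rw [ZFSet.mem_range]
  exact ⟨⟨x.1, h x hx⟩, rfl⟩

end basic

/-! ### Inductively generated classes -/

section ind

/-- the class generated by `B` and the rule `R` -/
inductive SDB_Ind {V : Type u} (B : V → Prop) (R : V → V → V → Prop) : V → Prop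
  | base (x : V) : B x → SDB_Ind B R x
  | step (a b x : V) : SDB_Ind B R a → SDB_Ind B R b → R a b x → SDB_Ind B R x

theorem SDB_ind_seq {V : Type u} {B : V → Prop} {R : V → V → V → Prop} {x : V}
    (h : SDB_Ind B R x) : ∃ (N : ℕ) (s : ℕ → V), s N = x ∧
      ∀ i ≤ N, B (s i) ∨ ∃ j < i, ∃ k < i, R (s j) (s k) (s i) := by
  induction h with
  | base x hx => exact ⟨0, fun _ => x, rfl, fun i _ => Or.inl hx⟩
  | step a b x _ _ hR iha ihb =>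
    obtain ⟨N, s, hs, h1⟩ := iha
    obtain ⟨N', s', hs', h2⟩ := ihb
    refine ⟨N + N' + 2, fun i => if i ≤ N then s i else if i ≤ N + N' + 1 then s' (i - (N + 1))
      else x, ?_, ?_⟩
    · simp only
      rw [if_neg (by omega), if_neg (by omega)]
    · intro i hi
      by_cases h3 : i ≤ N
      · simp only [if_pos h3]
        rcases h1 i h3 with h4 | ⟨j, hj, k, hk, h4⟩
        · exact Or.inl h4
        · refine Or.inr ⟨j, hj, k, hk, ?_⟩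
          rw [if_pos (by omega), if_pos (by omega)]
          exact h4
      · by_cases h5 : i ≤ N + N' + 1
        · simp only [if_neg h3, if_pos h5]
          rcases h2 (i - (N + 1)) (by omega) with h4 | ⟨j, hj, k, hk, h4⟩
          · exact Or.inl h4
          · refine Or.inr ⟨j + (N + 1), by omega, k + (N + 1), by omega, ?_⟩
            rw [if_neg (by omega), if_pos (by omega), if_neg (by omega), if_pos (by omega)]
            simpa using h4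
        · simp only [if_neg h3, if_neg h5]
          refine Or.inr ⟨N, by omega, N + N' + 1, by omega, ?_⟩
          rw [if_pos le_rfl, if_neg (by omega), if_pos le_rfl, hs,
            show N + N' + 1 - (N + 1) = N' by omega, hs']
          exact hR

theorem SDB_ind_iff {V : Set ZFSet.{0}} [Inner V] {B : V → Prop} {R : V → V → V → Prop} {x : V} :
    SDB_Ind B R x ↔ ∃ n f : V, n ∈ (ST.omega : V) ∧ fapp f n = x ∧ ∀ i : V, i ∈ ST.succ n →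
      (B (fapp f i) ∨ ∃ j, j ∈ i ∧ ∃ k, k ∈ i ∧ R (fapp f j) (fapp f k) (fapp f i)) := by
  constructor
  · intro h
    obtain ⟨N, s, hs, h1⟩ := SDB_ind_seq h
    have hf : ∀ i : ℕ, i ≤ N → fapp (SDB_fn fun j : Fin (N + 1) => s j)
        (oo V (i : Ordinal.{0})) = s i := fun i hi =>
      SDB_fapp_fn (fun j : Fin (N + 1) => s j) ⟨i, by omega⟩
    refine ⟨oo V (N : Ordinal.{0}), SDB_fn fun j : Fin (N + 1) => s j,
      SDB_mem_omega.2 ⟨N, rfl⟩, ?_, ?_⟩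
    · rw [hf N le_rfl, hs]
    · intro i hi
      rw [SDB_succ_nat, SDB_mem_nat] at hi
      obtain ⟨i, hi, rfl⟩ := hi
      rw [hf i (by omega)]
      rcases h1 i (by omega) with h2 | ⟨j, hj, k, hk, h2⟩
      · exact Or.inl h2
      · refine Or.inr ⟨_, SDB_nat_mem.2 hj, _, SDB_nat_mem.2 hk, ?_⟩
        rw [hf j (by omega), hf k (by omega)]
        exact h2
  · rintro ⟨n, f, hn, hx, h⟩
    obtain ⟨N, rfl⟩ := SDB_mem_omega.1 hn
    have key : ∀ i : ℕ, i ≤ N → SDB_Ind B R (fapp f (oo V (i : Ordinal.{0}))) := by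
      intro i
      induction i using Nat.strong_induction_on with
      | _ i ih =>
        intro hi
        rcases h (oo V (i : Ordinal.{0})) (by rw [SDB_succ_nat, SDB_nat_mem]; omega) with
          h1 | ⟨j, hj, k, hk, h1⟩
        · exact SDB_Ind.base _ h1
        · obtain ⟨j, hj', rfl⟩ := SDB_mem_nat.1 hj
          obtain ⟨k, hk', rfl⟩ := SDB_mem_nat.1 hk
          exact SDB_Ind.step _ _ _ (ih j hj' (by omega)) (ih k hk' (by omega)) h1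
    rw [← hx]
    exact key N le_rfl

theorem SDB_dbl_ind {V : Set ZFSet.{0}} [Inner V] {Γ : Type v} [Ctx V Γ] {B : Γ → V → Prop}
    {R : Γ → V → V → V → Prop} {x : Γ → V} (hB : Dbl V (fun z : Γ × V => B z.1 z.2))
    (hR : Dbl V (fun z : Γ × (V × V × V) => R z.1 z.2.1 z.2.2.1 z.2.2.2)) (hx : Dbl V x) :
    Dbl V (fun γ => SDB_Ind (B γ) (R γ) (x γ)) := by
  simp only [SDB_ind_iff]
  have h1 : Dbl V (fun z : ((Γ × V) × V) × V => B z.1.1.1 (fapp z.1.2 z.2)) :=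
    Dbl.comp (f := fun z : ((Γ × V) × V) × V => (z.1.1.1, fapp z.1.2 z.2))
      (g := fun z : Γ × V => B z.1 z.2) (by fun_prop) hB
  have h2 : Dbl V (fun z : ((((Γ × V) × V) × V) × V) × V =>
      R z.1.1.1.1.1 (fapp z.1.1.1.2 z.1.2) (fapp z.1.1.1.2 z.2) (fapp z.1.1.1.2 z.1.1.2)) :=
    Dbl.comp (f := fun z : ((((Γ × V) × V) × V) × V) × V =>
      (z.1.1.1.1.1, fapp z.1.1.1.2 z.1.2, fapp z.1.1.1.2 z.2, fapp z.1.1.1.2 z.1.1.2))
      (g := fun z : Γ × (V × V × V) => R z.1 z.2.1 z.2.2.1 z.2.2.2) (by fun_prop) hR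
  fun_prop

end ind

/-! ### Tuples and relations on a set structure -/

section rep

variable {V : Set ZFSet.{0}} [Inner V]

/-- `f` is a function from `k` to `h` -/
def SDB_Tup (h k f : V) : Prop :=
  (∀ z, z ∈ f → ∃ i, i ∈ k ∧ ∃ y, y ∈ h ∧ z = opair i y) ∧
    (∀ i, i ∈ k → ∃ y, y ∈ h ∧ opair i y ∈ f) ∧
    (∀ i y y', opair i y ∈ f ∧ opair i y' ∈ f → y = y')

@[fun_prop]
theorem SDB_dbl_tup {Γ : Type v} [Ctx V Γ] {h k f : Γ → V} (hh : Dbl V h) (hk : Dbl V k)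
    (hf : Dbl V f) : Dbl V (fun γ => SDB_Tup (h γ) (k γ) (f γ)) := by
  unfold SDB_Tup
  fun_prop

/-- the underlying class of a set -/
abbrev SDB_H (h : V) : Set ZFSet.{0} := {x | x ∈ h.1}

/-- an element of `h`, as an element of `V` -/
def SDB_up {h : V} (x : SDB_H h) : V := ⟨x.1, Inner.trans h.1 h.2 x.1 x.2⟩

theorem SDB_up_mem {h : V} (x : SDB_H h) : SDB_up x ∈ h := x.2

theorem SDB_up_inj {h : V} {x y : SDB_H h} (e : SDB_up x = SDB_up y) : x = y :=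
  Subtype.ext (congrArg (fun z : V => z.1) e)

theorem SDB_ex_up {h y : V} (hy : y ∈ h) : ∃ x : SDB_H h, SDB_up x = y := ⟨⟨y.1, hy⟩, rfl⟩

theorem SDB_tup_iff {h f : V} {k : ℕ} : SDB_Tup h (oo V (k : Ordinal.{0})) f ↔
    ∃ xs : Fin k → SDB_H h, f = SDB_fn (fun i => SDB_up (xs i)) := by
  constructor
  · rintro ⟨h1, h2, h3⟩
    have h4 : ∀ i : Fin k, ∃ y : SDB_H h, opair (oo V ((i : ℕ) : Ordinal.{0})) (SDB_up y) ∈ f := by
      intro i
      obtain ⟨y, hy, hyf⟩ := h2 (oo V ((i : ℕ) : Ordinal.{0})) (SDB_nat_mem.2 i.2)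
      obtain ⟨x, rfl⟩ := SDB_ex_up hy
      exact ⟨x, hyf⟩
    choose xs hxs using h4
    refine ⟨xs, ext fun z => ?_⟩
    rw [SDB_mem_fn]
    constructor
    · intro hz
      obtain ⟨i, hi, y, hy, rfl⟩ := h1 z hz
      obtain ⟨i, hi', rfl⟩ := SDB_mem_nat.1 hi
      refine ⟨⟨i, hi'⟩, ?_⟩
      rw [h3 _ _ _ ⟨hz, hxs ⟨i, hi'⟩⟩]
    · rintro ⟨i, rfl⟩
      exact hxs i
  · rintro ⟨xs, rfl⟩
    refine ⟨?_, ?_, ?_⟩
    · intro z hz
      obtain ⟨i, rfl⟩ := SDB_mem_fn.1 hz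
      exact ⟨_, SDB_nat_mem.2 i.2, _, SDB_up_mem _, rfl⟩
    · intro i hi
      obtain ⟨i, hi', rfl⟩ := SDB_mem_nat.1 hi
      exact ⟨SDB_up (xs ⟨i, hi'⟩), SDB_up_mem _, SDB_mem_fn.2 ⟨⟨i, hi'⟩, rfl⟩⟩
    · rintro i y y' ⟨h1, h2⟩
      obtain ⟨j, hj⟩ := SDB_mem_fn.1 h1
      rw [opair_inj] at hj
      obtain ⟨rfl, rfl⟩ := hj
      exact (SDB_opair_fn.1 h2).symm

/-- adding an element to a sequence -/
noncomputable def SDB_snc (k f y : V) : V := union f (upair (opair k y) (opair k y))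

@[fun_prop]
theorem SDB_dbl_snc {Γ : Type v} [Ctx V Γ] {h k f : Γ → V} (hh : Dbl V h) (hk : Dbl V k)
    (hf : Dbl V f) : Dbl V (fun γ => SDB_snc (h γ) (k γ) (f γ)) := by
  unfold SDB_snc
  fun_prop

theorem SDB_snc_fn {h : V} {k : ℕ} (xs : Fin k → SDB_H h) (y : SDB_H h) :
    SDB_snc (oo V (k : Ordinal.{0})) (SDB_fn fun i => SDB_up (xs i)) (SDB_up y) =
      SDB_fn (fun i => SDB_up ((Fin.snoc xs y : Fin (k + 1) → SDB_H h) i)) := by
  refine ext fun z => ?_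
  rw [SDB_snc, mem_union, mem_upair, or_self, SDB_mem_fn, SDB_mem_fn]
  constructor
  · rintro (⟨i, rfl⟩ | rfl)
    · refine ⟨i.castSucc, ?_⟩
      rw [Fin.snoc_castSucc]
      rfl
    · refine ⟨Fin.last k, ?_⟩
      rw [Fin.snoc_last]
      rfl
  · rintro ⟨i, rfl⟩
    induction i using Fin.lastCases with
    | last =>
      right
      rw [Fin.snoc_last]
      rfl
    | cast i =>
      left
      refine ⟨i, ?_⟩
      rw [Fin.snoc_castSucc]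
      rfl

/-- `C` is the relation on `h` defined by `φ` -/
def SDB_Rep (h : V) {k : ℕ} (φ : Fm k) (C : V) : Prop :=
  ∀ f : V, f ∈ C ↔ ∃ xs : Fin k → SDB_H h, f = SDB_fn (fun i => SDB_up (xs i)) ∧
    Sat (SDB_H h) φ xs

/-- `C` is the set of all sequences of length `k` with the property `P` -/
def SDB_Op (h k : V) (P : V → Prop) (C : V) : Prop := ∀ f : V, f ∈ C ↔ SDB_Tup h k f ∧ P f

theorem SDB_rep_mem {h C : V} {k : ℕ} {φ : Fm k} (hC : SDB_Rep h φ C) (xs : Fin k → SDB_H h) :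
    SDB_fn (fun i => SDB_up (xs i)) ∈ C ↔ Sat (SDB_H h) φ xs := by
  rw [hC]
  constructor
  · rintro ⟨ys, h1, h2⟩
    have h3 : xs = ys := by
      funext i
      exact SDB_up_inj (congrFun (SDB_fn_inj h1) i)
    rw [h3]
    exact h2
  · intro h1
    exact ⟨xs, rfl, h1⟩

theorem SDB_rep_of_op {h C : V} {k : ℕ} {φ : Fm k} {P : V → Prop}
    (hC : SDB_Op h (oo V (k : Ordinal.{0})) P C)
    (hP : ∀ xs : Fin k → SDB_H h, P (SDB_fn (fun i => SDB_up (xs i))) ↔ Sat (SDB_H h) φ xs) :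
    SDB_Rep h φ C := by
  intro f
  rw [hC, SDB_tup_iff]
  constructor
  · rintro ⟨⟨xs, rfl⟩, h2⟩
    exact ⟨xs, rfl, (hP xs).1 h2⟩
  · rintro ⟨xs, rfl, h2⟩
    exact ⟨⟨xs, rfl⟩, (hP xs).2 h2⟩

theorem SDB_op_exists (h k : V) {P : V → Prop} (hP : Dbl V P) : ∃ C, SDB_Op h k P C := by
  obtain ⟨C, hC⟩ := small_of_subset (D := fun f => SDB_Tup h k f ∧ P f) (by fun_prop)
    (power (prod k h)) (by
      rintro f ⟨⟨h1, _, _⟩, _⟩
      rw [mem_power]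
      intro z hz
      obtain ⟨i, hi, y, hy, rfl⟩ := h1 z hz
      exact opair_mem_prod.2 ⟨hi, hy⟩)
  exact ⟨C, hC⟩

/-! ### Satisfaction of the formulas -/

theorem SDB_term {k : ℕ} (t : LSet.Term (Empty ⊕ Fin k)) :
    ∃ i : Fin k, t = Language.Term.var (Sum.inr i) := by
  cases t with
  | var a =>
    cases a with
    | inl e => exact e.elim
    | inr i => exact ⟨i, rfl⟩
  | func f _ => exact f.elim

theorem SDB_sat_falsum {H : Set ZFSet.{0}} {k : ℕ} (xs : Fin k → H) :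
    ¬ Sat H (Language.BoundedFormula.falsum : Fm k) xs := fun h => h

theorem SDB_sat_equal {H : Set ZFSet.{0}} {k : ℕ} (i j : Fin k) (xs : Fin k → H) :
    Sat H (Language.BoundedFormula.equal (Language.Term.var (Sum.inr i))
      (Language.Term.var (Sum.inr j)) : Fm k) xs ↔ xs i = xs j := Iff.rfl

theorem SDB_sat_rel {H : Set ZFSet.{0}} {k : ℕ}
    (ts : _root_.Fin 2 → LSet.Term (Empty ⊕ Fin k)) {i j : Fin k} (hi : ts 0 = Language.Term.var (Sum.inr i))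
    (hj : ts 1 = Language.Term.var (Sum.inr j)) (xs : Fin k → H) :
    Sat H (Language.BoundedFormula.rel (L := LSet) memSym ts : Fm k) xs ↔
      (xs i).1 ∈ (xs j).1 := by
  show ((ts 0).realize (Sum.elim Empty.elim xs)).1 ∈ ((ts 1).realize (Sum.elim Empty.elim xs)).1 ↔ _
  rw [hi, hj]
  rfl

theorem SDB_sat_imp {H : Set ZFSet.{0}} {k : ℕ} (φ ψ : Fm k) (xs : Fin k → H) :
    Sat H (φ.imp ψ) xs ↔ (Sat H φ xs → Sat H ψ xs) := Iff.rfl

theorem SDB_sat_all {H : Set ZFSet.{0}} {k : ℕ} (φ : Fm (k + 1)) (xs : Fin k → H) :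
    Sat H φ.all xs ↔ ∀ y : H, Sat H φ (Fin.snoc xs y) := Iff.rfl

theorem SDB_sat_ex {H : Set ZFSet.{0}} {k : ℕ} (φ : Fm (k + 1)) (xs : Fin k → H) :
    Sat H φ.ex xs ↔ ∃ y : H, Sat H φ (Fin.snoc xs y) := Language.BoundedFormula.realize_ex

theorem SDB_sat_ball {H : Set ZFSet.{0}} {k : ℕ} (i : Fin k) (φ : Fm (k + 1)) (xs : Fin k → H) :
    Sat H (Fm.ball i φ) xs ↔ ∀ y : H, y.1 ∈ (xs i).1 → Sat H φ (Fin.snoc xs y) := by
  unfold Fm.ball
  rw [SDB_sat_all]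
  refine forall_congr' fun y => ?_
  rw [SDB_sat_imp]
  have h1 : Sat H (Fm.mem (Fin.last k) i.castSucc) (Fin.snoc xs y) ↔ y.1 ∈ (xs i).1 := by
    unfold Fm.mem Language.Relations.boundedFormula₂ Language.Relations.boundedFormula
    refine (SDB_sat_rel (i := Fin.last k) (j := i.castSucc) _ rfl rfl _).trans ?_
    rw [Fin.snoc_last, Fin.snoc_castSucc]
  rw [h1]

end rep

/-! ### Pairs of relations defined by the same formula -/

section pairs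

variable {V : Set ZFSet.{0}} [Inner V]

/-- code of a pair of relations -/
noncomputable def SDB_cd (k C C' : V) : V := opair k (opair C C')

@[fun_prop]
theorem SDB_dbl_cd {Γ : Type v} [Ctx V Γ] {h k f : Γ → V} (hh : Dbl V h) (hk : Dbl V k)
    (hf : Dbl V f) : Dbl V (fun γ => SDB_cd (h γ) (k γ) (f γ)) := by
  unfold SDB_cd
  fun_prop

theorem SDB_cd_inj {k l C C' D D' : V} :
    SDB_cd k C C' = SDB_cd l D D' ↔ k = l ∧ C = D ∧ C' = D' := by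
  unfold SDB_cd
  rw [opair_inj, opair_inj]

/-- atomic formulas -/
def SDB_B0 (h h' x : V) : Prop := ∃ k C C', k ∈ (ST.omega : V) ∧ x = SDB_cd k C C' ∧
  (((∀ f, f ∈ C ↔ SDB_Tup h k f ∧ False) ∧ (∀ f, f ∈ C' ↔ SDB_Tup h' k f ∧ False)) ∨
  (∃ i j, i ∈ k ∧ j ∈ k ∧ (∀ f, f ∈ C ↔ SDB_Tup h k f ∧ fapp f i = fapp f j) ∧
    (∀ f, f ∈ C' ↔ SDB_Tup h' k f ∧ fapp f i = fapp f j)) ∨
  (∃ i j, i ∈ k ∧ j ∈ k ∧ (∀ f, f ∈ C ↔ SDB_Tup h k f ∧ fapp f i ∈ fapp f j) ∧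
    (∀ f, f ∈ C' ↔ SDB_Tup h' k f ∧ fapp f i ∈ fapp f j)))

/-- implication and bounded quantifiers -/
def SDB_R0 (h h' a b x : V) : Prop := ∃ k C C' A A', k ∈ (ST.omega : V) ∧ x = SDB_cd k C C' ∧
  ((a = SDB_cd k A A' ∧ ∃ B B', b = SDB_cd k B B' ∧
    (∀ f, f ∈ C ↔ SDB_Tup h k f ∧ (f ∈ A → f ∈ B)) ∧
    (∀ f, f ∈ C' ↔ SDB_Tup h' k f ∧ (f ∈ A' → f ∈ B'))) ∨
  (a = SDB_cd (ST.succ k) A A' ∧ ∃ i, i ∈ k ∧
    (∀ f, f ∈ C ↔ SDB_Tup h k f ∧ (∀ y, y ∈ h → y ∈ fapp f i → SDB_snc k f y ∈ A)) ∧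
    (∀ f, f ∈ C' ↔ SDB_Tup h' k f ∧ (∀ y, y ∈ h' → y ∈ fapp f i → SDB_snc k f y ∈ A'))))

theorem SDB_dbl_B0 : Dbl V (fun z : (V × V) × V => SDB_B0 z.1.1 z.1.2 z.2) := by
  unfold SDB_B0
  fun_prop

theorem SDB_dbl_R0 : Dbl V (fun z : (V × V) × (V × V × V) =>
    SDB_R0 z.1.1 z.1.2 z.2.1 z.2.2.1 z.2.2.2) := by
  unfold SDB_R0
  fun_prop

/-- `Δ₀` relations -/
def SDB_D0 (h h' x : V) : Prop := SDB_Ind (SDB_B0 h h') (SDB_R0 h h') x

@[fun_prop]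
theorem SDB_dbl_D0 {Γ : Type v} [Ctx V Γ] {h h' x : Γ → V} (hh : Dbl V h) (hk : Dbl V h')
    (hf : Dbl V x) : Dbl V (fun γ => SDB_D0 (h γ) (h' γ) (x γ)) := by
  have h1 : Dbl V (fun z : (V × V) × V => SDB_D0 z.1.1 z.1.2 z.2) := by
    refine SDB_dbl_ind (Γ := (V × V) × V) (B := fun z => SDB_B0 z.1.1 z.1.2)
      (R := fun z => SDB_R0 z.1.1 z.1.2) (x := fun z => z.2) ?_ ?_ (by fun_prop)
    · exact Dbl.comp (f := fun z : ((V × V) × V) × V => (z.1.1, z.2))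
        (g := fun z : (V × V) × V => SDB_B0 z.1.1 z.1.2 z.2) (by fun_prop) SDB_dbl_B0
    · exact Dbl.comp (f := fun z : ((V × V) × V) × (V × V × V) => (z.1.1, z.2))
        (g := fun z : (V × V) × (V × V × V) => SDB_R0 z.1.1 z.1.2 z.2.1 z.2.2.1 z.2.2.2)
        (by fun_prop) SDB_dbl_R0
  exact Dbl.comp (f := fun γ => ((h γ, h' γ), x γ))
    (g := fun z : (V × V) × V => SDB_D0 z.1.1 z.1.2 z.2) (by fun_prop) h1

theorem SDB_D0_of {h h' : V} {k : ℕ} {φ : Fm k} (hφ : IsDelta0 φ) :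
    ∃ C C', SDB_Rep h φ C ∧ SDB_Rep h' φ C' ∧ SDB_D0 h h' (SDB_cd (oo V (k : Ordinal.{0})) C C') := by
  induction hφ with
  | @falsum k =>
    obtain ⟨C, hC⟩ := SDB_op_exists h (oo V (k : Ordinal.{0})) (P := fun _ => False) (by fun_prop)
    obtain ⟨C', hC'⟩ := SDB_op_exists h' (oo V (k : Ordinal.{0})) (P := fun _ => False)
      (by fun_prop)
    refine ⟨C, C', SDB_rep_of_op hC fun xs => ⟨fun e => e.elim, fun e => SDB_sat_falsum _ e⟩,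
      SDB_rep_of_op hC' fun xs => ⟨fun e => e.elim, fun e => SDB_sat_falsum _ e⟩,
      SDB_Ind.base _ ⟨_, _, _, SDB_mem_omega.2 ⟨k, rfl⟩, rfl, Or.inl ⟨hC, hC'⟩⟩⟩
  | @equal k t s =>
    obtain ⟨i, rfl⟩ := SDB_term t
    obtain ⟨j, rfl⟩ := SDB_term s
    have key : ∀ h : V, ∃ C, SDB_Op h (oo V (k : Ordinal.{0})) (fun f =>
        fapp f (oo V ((i : ℕ) : Ordinal.{0})) = fapp f (oo V ((j : ℕ) : Ordinal.{0}))) C ∧
        SDB_Rep h (Language.BoundedFormula.equal (Language.Term.var (Sum.inr i))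
      (Language.Term.var (Sum.inr j)) : Fm k) C := by
      intro h
      obtain ⟨C, hC⟩ := SDB_op_exists h (oo V (k : Ordinal.{0})) (P := fun f =>
        fapp f (oo V ((i : ℕ) : Ordinal.{0})) = fapp f (oo V ((j : ℕ) : Ordinal.{0}))) (by fun_prop)
      refine ⟨C, hC, SDB_rep_of_op hC fun xs => ?_⟩
      rw [SDB_fapp_fn, SDB_fapp_fn, SDB_sat_equal]
      exact ⟨fun e => SDB_up_inj e, fun e => by rw [e]⟩
    obtain ⟨C, hC, hC1⟩ := key h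
    obtain ⟨C', hC', hC1'⟩ := key h'
    exact ⟨C, C', hC1, hC1', SDB_Ind.base _ ⟨_, _, _, SDB_mem_omega.2 ⟨k, rfl⟩, rfl,
      Or.inr (Or.inl ⟨_, _, SDB_nat_mem.2 i.2, SDB_nat_mem.2 j.2, hC, hC'⟩)⟩⟩
  | @rel k l R ts =>
    cases R
    obtain ⟨i, hi⟩ := SDB_term (ts 0)
    obtain ⟨j, hj⟩ := SDB_term (ts 1)
    have key : ∀ h : V, ∃ C, SDB_Op h (oo V (k : Ordinal.{0})) (fun f =>
        fapp f (oo V ((i : ℕ) : Ordinal.{0})) ∈ fapp f (oo V ((j : ℕ) : Ordinal.{0}))) C ∧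
        SDB_Rep h (Language.BoundedFormula.rel (L := LSet) memSym ts : Fm k) C := by
      intro h
      obtain ⟨C, hC⟩ := SDB_op_exists h (oo V (k : Ordinal.{0})) (P := fun f =>
        fapp f (oo V ((i : ℕ) : Ordinal.{0})) ∈ fapp f (oo V ((j : ℕ) : Ordinal.{0}))) (by fun_prop)
      refine ⟨C, hC, SDB_rep_of_op hC fun xs => ?_⟩
      rw [SDB_fapp_fn, SDB_fapp_fn, SDB_sat_rel ts hi hj]
      rfl
    obtain ⟨C, hC, hC1⟩ := key h
    obtain ⟨C', hC', hC1'⟩ := key h'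
    exact ⟨C, C', hC1, hC1', SDB_Ind.base _ ⟨_, _, _, SDB_mem_omega.2 ⟨k, rfl⟩, rfl,
      Or.inr (Or.inr ⟨_, _, SDB_nat_mem.2 i.2, SDB_nat_mem.2 j.2, hC, hC'⟩)⟩⟩
  | @imp k φ ψ _ _ ih1 ih2 =>
    obtain ⟨A, A', hA, hA', h1⟩ := ih1
    obtain ⟨B, B', hB, hB', h2⟩ := ih2
    have key : ∀ h A B : V, SDB_Rep h φ A → SDB_Rep h ψ B → ∃ C, SDB_Op h (oo V (k : Ordinal.{0}))
        (fun f => f ∈ A → f ∈ B) C ∧ SDB_Rep h (φ.imp ψ) C := by
      intro h A B hA hB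
      obtain ⟨C, hC⟩ := SDB_op_exists h (oo V (k : Ordinal.{0})) (P := fun f => f ∈ A → f ∈ B)
        (by fun_prop)
      refine ⟨C, hC, SDB_rep_of_op hC fun xs => ?_⟩
      rw [SDB_rep_mem hA, SDB_rep_mem hB, SDB_sat_imp]
    obtain ⟨C, hC, hC1⟩ := key h A B hA hB
    obtain ⟨C', hC', hC1'⟩ := key h' A' B' hA' hB'
    exact ⟨C, C', hC1, hC1', SDB_Ind.step _ _ _ h1 h2 ⟨_, _, _, A, A',
      SDB_mem_omega.2 ⟨k, rfl⟩, rfl, Or.inl ⟨rfl, B, B', rfl, hC, hC'⟩⟩⟩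
  | @ball k i φ _ ih =>
    obtain ⟨A, A', hA, hA', h1⟩ := ih
    have key : ∀ h A : V, SDB_Rep h φ A → ∃ C, SDB_Op h (oo V (k : Ordinal.{0}))
        (fun f => ∀ y, y ∈ h → y ∈ fapp f (oo V ((i : ℕ) : Ordinal.{0})) →
          SDB_snc (oo V (k : Ordinal.{0})) f y ∈ A) C ∧ SDB_Rep h (Fm.ball i φ) C := by
      intro h A hA
      obtain ⟨C, hC⟩ := SDB_op_exists h (oo V (k : Ordinal.{0}))
        (P := fun f => ∀ y, y ∈ h → y ∈ fapp f (oo V ((i : ℕ) : Ordinal.{0})) →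
          SDB_snc (oo V (k : Ordinal.{0})) f y ∈ A) (by fun_prop)
      refine ⟨C, hC, SDB_rep_of_op hC fun xs => ?_⟩
      rw [SDB_sat_ball, SDB_fapp_fn]
      constructor
      · intro e y hy
        have := e (SDB_up y) (SDB_up_mem y) hy
        rwa [SDB_snc_fn, SDB_rep_mem hA] at this
      · intro e y hy hyi
        obtain ⟨y, rfl⟩ := SDB_ex_up hy
        rw [SDB_snc_fn, SDB_rep_mem hA]
        exact e y hyi
    obtain ⟨C, hC, hC1⟩ := key h A hA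
    obtain ⟨C', hC', hC1'⟩ := key h' A' hA'
    exact ⟨C, C', hC1, hC1', SDB_Ind.step _ _ _ h1 h1 ⟨_, _, _, A, A',
      SDB_mem_omega.2 ⟨k, rfl⟩, rfl, Or.inr ⟨by rw [SDB_succ_nat], _, SDB_nat_mem.2 i.2,
        hC, hC'⟩⟩⟩

theorem SDB_of_D0 {h h' x : V} (hx : SDB_D0 h h' x) : ∃ (k : ℕ) (φ : Fm k) (C C' : V),
    x = SDB_cd (oo V (k : Ordinal.{0})) C C' ∧ IsDelta0 φ ∧ SDB_Rep h φ C ∧ SDB_Rep h' φ C' := by
  induction hx with
  | base x hx =>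
    obtain ⟨k, C, C', hk, rfl, h1 | ⟨i, j, hi, hj, h1, h2⟩ | ⟨i, j, hi, hj, h1, h2⟩⟩ := hx
    · obtain ⟨k, rfl⟩ := SDB_mem_omega.1 hk
      exact ⟨k, _, C, C', rfl, IsDelta0.falsum,
        SDB_rep_of_op h1.1 fun xs => ⟨fun e => e.elim, fun e => SDB_sat_falsum _ e⟩,
        SDB_rep_of_op h1.2 fun xs => ⟨fun e => e.elim, fun e => SDB_sat_falsum _ e⟩⟩
    · obtain ⟨k, rfl⟩ := SDB_mem_omega.1 hk
      obtain ⟨i, hi', rfl⟩ := SDB_mem_nat.1 hi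
      obtain ⟨j, hj', rfl⟩ := SDB_mem_nat.1 hj
      have key : ∀ h C : V, SDB_Op h (oo V (k : Ordinal.{0})) (fun f =>
        fapp f (oo V ((i : ℕ) : Ordinal.{0})) = fapp f (oo V ((j : ℕ) : Ordinal.{0}))) C →
        SDB_Rep h (Language.BoundedFormula.equal (Language.Term.var (Sum.inr ⟨i, hi'⟩))
          (Language.Term.var (Sum.inr ⟨j, hj'⟩)) : Fm k) C := by
        intro h C hC
        refine SDB_rep_of_op hC fun xs => ?_
        rw [SDB_fapp_fn _ ⟨i, hi'⟩, SDB_fapp_fn _ ⟨j, hj'⟩, SDB_sat_equal]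
        exact ⟨fun e => SDB_up_inj e, fun e => by rw [e]⟩
      exact ⟨k, _, C, C', rfl, IsDelta0.equal _ _, key _ _ h1, key _ _ h2⟩
    · obtain ⟨k, rfl⟩ := SDB_mem_omega.1 hk
      obtain ⟨i, hi', rfl⟩ := SDB_mem_nat.1 hi
      obtain ⟨j, hj', rfl⟩ := SDB_mem_nat.1 hj
      have key : ∀ h C : V, SDB_Op h (oo V (k : Ordinal.{0})) (fun f =>
        fapp f (oo V ((i : ℕ) : Ordinal.{0})) ∈ fapp f (oo V ((j : ℕ) : Ordinal.{0}))) C →
        SDB_Rep h (Language.BoundedFormula.rel (L := LSet) memSym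
          ![Language.Term.var (Sum.inr ⟨i, hi'⟩), Language.Term.var (Sum.inr ⟨j, hj'⟩)] : Fm k)
          C := by
        intro h C hC
        refine SDB_rep_of_op hC fun xs => ?_
        rw [SDB_fapp_fn _ ⟨i, hi'⟩, SDB_fapp_fn _ ⟨j, hj'⟩, SDB_sat_rel _ rfl rfl]
        rfl
      exact ⟨k, _, C, C', rfl, IsDelta0.rel _ _, key _ _ h1, key _ _ h2⟩
  | step a b x _ _ hR iha ihb =>
    obtain ⟨k, C, C', A, A', hk, rfl, ⟨rfl, B, B', rfl, h1, h2⟩ | ⟨rfl, i, hi, h1, h2⟩⟩ := hR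
    · obtain ⟨k, rfl⟩ := SDB_mem_omega.1 hk
      obtain ⟨l, φ, D, D', e, hφ, hD, hD'⟩ := iha
      rw [SDB_cd_inj, SDB_nat_inj] at e
      obtain ⟨rfl, rfl, rfl⟩ := e
      obtain ⟨l, ψ, E, E', e, hψ, hE, hE'⟩ := ihb
      rw [SDB_cd_inj, SDB_nat_inj] at e
      obtain ⟨rfl, rfl, rfl⟩ := e
      refine ⟨k, φ.imp ψ, C, C', rfl, IsDelta0.imp hφ hψ, SDB_rep_of_op h1 fun xs => ?_,
        SDB_rep_of_op h2 fun xs => ?_⟩
      · rw [SDB_rep_mem hD, SDB_rep_mem hE, SDB_sat_imp]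
      · rw [SDB_rep_mem hD', SDB_rep_mem hE', SDB_sat_imp]
    · obtain ⟨k, rfl⟩ := SDB_mem_omega.1 hk
      obtain ⟨i, hi', rfl⟩ := SDB_mem_nat.1 hi
      obtain ⟨l, φ, D, D', e, hφ, hD, hD'⟩ := iha
      rw [SDB_succ_nat, SDB_cd_inj, SDB_nat_inj] at e
      obtain ⟨rfl, rfl, rfl⟩ := e
      have key : ∀ h A C : V, SDB_Rep h φ A → SDB_Op h (oo V (k : Ordinal.{0}))
          (fun f => ∀ y, y ∈ h → y ∈ fapp f (oo V ((i : ℕ) : Ordinal.{0})) →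
            SDB_snc (oo V (k : Ordinal.{0})) f y ∈ A) C → SDB_Rep h (Fm.ball ⟨i, hi'⟩ φ) C := by
        intro h A C hA hC
        refine SDB_rep_of_op hC fun xs => ?_
        rw [SDB_sat_ball, SDB_fapp_fn _ ⟨i, hi'⟩]
        constructor
        · intro e y hy
          have := e (SDB_up y) (SDB_up_mem y) hy
          rwa [SDB_snc_fn, SDB_rep_mem hA] at this
        · intro e y hy hyi
          obtain ⟨y, rfl⟩ := SDB_ex_up hy
          rw [SDB_snc_fn, SDB_rep_mem hA]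
          exact e y hyi
      exact ⟨k, _, C, C', rfl, IsDelta0.ball _ hφ, key _ _ _ hD h1, key _ _ _ hD' h2⟩

end pairs

/-! ### The Lévy hierarchy -/

section levy

variable {V : Set ZFSet.{0}} [Inner V]

/-- code of a truth value -/
noncomputable def SDB_bb (V : Set ZFSet.{0}) [Inner V] (b : Bool) : V :=
  oo V (((if b = true then 1 else 0 : ℕ) : ℕ) : Ordinal.{0})

theorem SDB_bb_inj {b c : Bool} : SDB_bb V b = SDB_bb V c ↔ b = c := by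
  unfold SDB_bb
  rw [SDB_nat_inj]
  cases b <;> cases c <;> simp

/-- code of a pair of relations in the Lévy hierarchy -/
noncomputable def SDB_lc (b n k C C' : V) : V := opair (opair b n) (SDB_cd k C C')

@[fun_prop]
theorem SDB_dbl_lc {Γ : Type v} [Ctx V Γ] {b n k C C' : Γ → V} (hb : Dbl V b) (hn : Dbl V n)
    (hk : Dbl V k) (hC : Dbl V C) (hC' : Dbl V C') :
    Dbl V (fun γ => SDB_lc (b γ) (n γ) (k γ) (C γ) (C' γ)) := by
  unfold SDB_lc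
  fun_prop

theorem SDB_lc_inj {b n k C C' b' n' k' D D' : V} :
    SDB_lc b n k C C' = SDB_lc b' n' k' D D' ↔ b = b' ∧ n = n' ∧ k = k' ∧ C = D ∧ C' = D' := by
  unfold SDB_lc
  rw [opair_inj, opair_inj, SDB_cd_inj]
  tauto

/-- the base of the hierarchy -/
def SDB_BL (h h' x : V) : Prop := ∃ b k C C', (b = SDB_bb V true ∨ b = SDB_bb V false) ∧
  SDB_D0 h h' (SDB_cd k C C') ∧ x = SDB_lc b (oo V ((0 : ℕ) : Ordinal.{0})) k C C'

/-- the rules of the hierarchy -/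
def SDB_RL (h h' a x : V) : Prop := ∃ n k C C', n ∈ (ST.omega : V) ∧ k ∈ (ST.omega : V) ∧
  ((a = SDB_lc (SDB_bb V true) n k C C' ∧ x = SDB_lc (SDB_bb V false) (ST.succ n) k C C') ∨
  (a = SDB_lc (SDB_bb V false) n k C C' ∧ x = SDB_lc (SDB_bb V true) (ST.succ n) k C C') ∨
  (∃ A A', a = SDB_lc (SDB_bb V true) (ST.succ n) (ST.succ k) A A' ∧
    x = SDB_lc (SDB_bb V true) (ST.succ n) k C C' ∧
    (∀ f, f ∈ C ↔ SDB_Tup h k f ∧ (∃ y, y ∈ h ∧ SDB_snc k f y ∈ A)) ∧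
    (∀ f, f ∈ C' ↔ SDB_Tup h' k f ∧ (∃ y, y ∈ h' ∧ SDB_snc k f y ∈ A'))) ∨
  (∃ A A', a = SDB_lc (SDB_bb V false) (ST.succ n) (ST.succ k) A A' ∧
    x = SDB_lc (SDB_bb V false) (ST.succ n) k C C' ∧
    (∀ f, f ∈ C ↔ SDB_Tup h k f ∧ (∀ y, y ∈ h → SDB_snc k f y ∈ A)) ∧
    (∀ f, f ∈ C' ↔ SDB_Tup h' k f ∧ (∀ y, y ∈ h' → SDB_snc k f y ∈ A'))))

theorem SDB_dbl_BL : Dbl V (fun z : (V × V) × V => SDB_BL z.1.1 z.1.2 z.2) := by
  unfold SDB_BL
  fun_prop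

theorem SDB_dbl_RL : Dbl V (fun z : (V × V) × (V × V × V) =>
    SDB_RL z.1.1 z.1.2 z.2.1 z.2.2.2) := by
  unfold SDB_RL
  fun_prop

/-- the relations in the Lévy hierarchy -/
def SDB_L (h h' x : V) : Prop := SDB_Ind (SDB_BL h h') (fun a _ x => SDB_RL h h' a x) x

@[fun_prop]
theorem SDB_dbl_L {Γ : Type v} [Ctx V Γ] {h h' x : Γ → V} (hh : Dbl V h) (hk : Dbl V h')
    (hf : Dbl V x) : Dbl V (fun γ => SDB_L (h γ) (h' γ) (x γ)) := by
  have h1 : Dbl V (fun z : (V × V) × V => SDB_L z.1.1 z.1.2 z.2) := by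
    refine SDB_dbl_ind (Γ := (V × V) × V) (B := fun z => SDB_BL z.1.1 z.1.2)
      (R := fun z a _ x => SDB_RL z.1.1 z.1.2 a x) (x := fun z => z.2) ?_ ?_ (by fun_prop)
    · exact Dbl.comp (f := fun z : ((V × V) × V) × V => (z.1.1, z.2))
        (g := fun z : (V × V) × V => SDB_BL z.1.1 z.1.2 z.2) (by fun_prop) SDB_dbl_BL
    · exact Dbl.comp (f := fun z : ((V × V) × V) × (V × V × V) => (z.1.1, z.2))
        (g := fun z : (V × V) × (V × V × V) => SDB_RL z.1.1 z.1.2 z.2.1 z.2.2.2)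
        (by fun_prop) SDB_dbl_RL
  exact Dbl.comp (f := fun γ => ((h γ, h' γ), x γ))
    (g := fun z : (V × V) × V => SDB_L z.1.1 z.1.2 z.2) (by fun_prop) h1

theorem SDB_rep_ex {h A C : V} {k : ℕ} {φ : Fm (k + 1)} (hA : SDB_Rep h φ A)
    (hC : SDB_Op h (oo V (k : Ordinal.{0}))
      (fun f => ∃ y, y ∈ h ∧ SDB_snc (oo V (k : Ordinal.{0})) f y ∈ A) C) :
    SDB_Rep h φ.ex C := by
  refine SDB_rep_of_op hC fun xs => ?_
  rw [SDB_sat_ex]
  constructor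
  · rintro ⟨y, hy, e⟩
    obtain ⟨y, rfl⟩ := SDB_ex_up hy
    rw [SDB_snc_fn, SDB_rep_mem hA] at e
    exact ⟨y, e⟩
  · rintro ⟨y, e⟩
    refine ⟨SDB_up y, SDB_up_mem y, ?_⟩
    rw [SDB_snc_fn, SDB_rep_mem hA]
    exact e

theorem SDB_rep_all {h A C : V} {k : ℕ} {φ : Fm (k + 1)} (hA : SDB_Rep h φ A)
    (hC : SDB_Op h (oo V (k : Ordinal.{0}))
      (fun f => ∀ y, y ∈ h → SDB_snc (oo V (k : Ordinal.{0})) f y ∈ A) C) :
    SDB_Rep h φ.all C := by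
  refine SDB_rep_of_op hC fun xs => ?_
  rw [SDB_sat_all]
  constructor
  · intro e y
    have := e (SDB_up y) (SDB_up_mem y)
    rwa [SDB_snc_fn, SDB_rep_mem hA] at this
  · intro e y hy
    obtain ⟨y, rfl⟩ := SDB_ex_up hy
    rw [SDB_snc_fn, SDB_rep_mem hA]
    exact e y

theorem SDB_L_of {h h' : V} {b : Bool} {n k : ℕ} {φ : Fm k} (hφ : IsLevy b n φ) :
    ∃ C C', SDB_Rep h φ C ∧ SDB_Rep h' φ C' ∧ SDB_L h h' (SDB_lc (SDB_bb V b)
      (oo V (n : Ordinal.{0})) (oo V (k : Ordinal.{0})) C C') := by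
  induction hφ with
  | @base b k φ hφ =>
    obtain ⟨C, C', hC, hC', h1⟩ := SDB_D0_of (h := h) (h' := h') hφ
    exact ⟨C, C', hC, hC', SDB_Ind.base _ ⟨_, _, _, _, by cases b <;> simp, h1, rfl⟩⟩
  | @flip b n k φ hφ ih =>
    obtain ⟨C, C', hC, hC', h1⟩ := ih
    refine ⟨C, C', hC, hC', SDB_Ind.step _ _ _ h1 h1 ⟨oo V (n : Ordinal.{0}),
      oo V (k : Ordinal.{0}), C, C', SDB_mem_omega.2 ⟨n, rfl⟩, SDB_mem_omega.2 ⟨k, rfl⟩, ?_⟩⟩
    rw [← SDB_succ_nat]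
    cases b
    · exact Or.inr (Or.inl ⟨rfl, rfl⟩)
    · exact Or.inl ⟨rfl, rfl⟩
  | @ex n k φ hφ ih =>
    obtain ⟨A, A', hA, hA', h1⟩ := ih
    obtain ⟨C, hC⟩ := SDB_op_exists h (oo V (k : Ordinal.{0}))
      (P := fun f => ∃ y, y ∈ h ∧ SDB_snc (oo V (k : Ordinal.{0})) f y ∈ A) (by fun_prop)
    obtain ⟨C', hC'⟩ := SDB_op_exists h' (oo V (k : Ordinal.{0}))
      (P := fun f => ∃ y, y ∈ h' ∧ SDB_snc (oo V (k : Ordinal.{0})) f y ∈ A') (by fun_prop)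
    refine ⟨C, C', SDB_rep_ex hA hC, SDB_rep_ex hA' hC', SDB_Ind.step _ _ _ h1 h1
      ⟨oo V (n : Ordinal.{0}), oo V (k : Ordinal.{0}), C, C', SDB_mem_omega.2 ⟨n, rfl⟩,
        SDB_mem_omega.2 ⟨k, rfl⟩, Or.inr (Or.inr (Or.inl ⟨A, A', ?_, ?_, hC, hC'⟩))⟩⟩
    · rw [SDB_succ_nat, SDB_succ_nat]
    · rw [SDB_succ_nat]
  | @all n k φ hφ ih =>
    obtain ⟨A, A', hA, hA', h1⟩ := ih
    obtain ⟨C, hC⟩ := SDB_op_exists h (oo V (k : Ordinal.{0}))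
      (P := fun f => ∀ y, y ∈ h → SDB_snc (oo V (k : Ordinal.{0})) f y ∈ A) (by fun_prop)
    obtain ⟨C', hC'⟩ := SDB_op_exists h' (oo V (k : Ordinal.{0}))
      (P := fun f => ∀ y, y ∈ h' → SDB_snc (oo V (k : Ordinal.{0})) f y ∈ A') (by fun_prop)
    refine ⟨C, C', SDB_rep_all hA hC, SDB_rep_all hA' hC', SDB_Ind.step _ _ _ h1 h1
      ⟨oo V (n : Ordinal.{0}), oo V (k : Ordinal.{0}), C, C', SDB_mem_omega.2 ⟨n, rfl⟩,
        SDB_mem_omega.2 ⟨k, rfl⟩, Or.inr (Or.inr (Or.inr ⟨A, A', ?_, ?_, hC, hC'⟩))⟩⟩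
    · rw [SDB_succ_nat, SDB_succ_nat]
    · rw [SDB_succ_nat]

theorem SDB_of_L {h h' x : V} (hx : SDB_L h h' x) : ∃ (b : Bool) (n k : ℕ) (φ : Fm k) (C C' : V),
    x = SDB_lc (SDB_bb V b) (oo V (n : Ordinal.{0})) (oo V (k : Ordinal.{0})) C C' ∧
      IsLevy b n φ ∧ SDB_Rep h φ C ∧ SDB_Rep h' φ C' := by
  induction hx with
  | base x hx =>
    obtain ⟨b, k, C, C', hb, h1, rfl⟩ := hx
    obtain ⟨l, φ, D, D', e, hφ, hD, hD'⟩ := SDB_of_D0 h1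
    rw [SDB_cd_inj] at e
    obtain ⟨rfl, rfl, rfl⟩ := e
    rcases hb with rfl | rfl
    · exact ⟨true, 0, l, φ, C, C', rfl, IsLevy.base _ hφ, hD, hD'⟩
    · exact ⟨false, 0, l, φ, C, C', rfl, IsLevy.base _ hφ, hD, hD'⟩
  | step a b x _ _ hR iha _ =>
    obtain ⟨n, k, C, C', hn, hk, h1⟩ := hR
    obtain ⟨n, rfl⟩ := SDB_mem_omega.1 hn
    obtain ⟨k, rfl⟩ := SDB_mem_omega.1 hk
    obtain ⟨c, m, l, φ, D, D', rfl, hφ, hD, hD'⟩ := iha
    simp only [SDB_succ_nat] at h1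
    rcases h1 with ⟨e, rfl⟩ | ⟨e, rfl⟩ | ⟨A, A', e, rfl, h2, h3⟩ | ⟨A, A', e, rfl, h2, h3⟩
    · rw [SDB_lc_inj, SDB_bb_inj, SDB_nat_inj, SDB_nat_inj] at e
      obtain ⟨rfl, rfl, rfl, rfl, rfl⟩ := e
      exact ⟨false, m + 1, l, φ, D, D', rfl, IsLevy.flip true hφ, hD, hD'⟩
    · rw [SDB_lc_inj, SDB_bb_inj, SDB_nat_inj, SDB_nat_inj] at e
      obtain ⟨rfl, rfl, rfl, rfl, rfl⟩ := e
      exact ⟨true, m + 1, l, φ, D, D', rfl, IsLevy.flip false hφ, hD, hD'⟩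
    · rw [SDB_lc_inj, SDB_bb_inj, SDB_nat_inj, SDB_nat_inj] at e
      obtain ⟨rfl, rfl, rfl, rfl, rfl⟩ := e
      exact ⟨true, n + 1, k, φ.ex, C, C', rfl, IsLevy.ex hφ, SDB_rep_ex hD h2,
        SDB_rep_ex hD' h3⟩
    · rw [SDB_lc_inj, SDB_bb_inj, SDB_nat_inj, SDB_nat_inj] at e
      obtain ⟨rfl, rfl, rfl, rfl, rfl⟩ := e
      exact ⟨false, n + 1, k, φ.all, C, C', rfl, IsLevy.all hφ, SDB_rep_all hD h2,
        SDB_rep_all hD' h3⟩

/-! ### Elementarity and collection -/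

/-- `Σ_n`-elementarity -/
def SDB_elem (n h h' : V) : Prop := (∀ x, x ∈ h → x ∈ h') ∧ ∀ k C C', k ∈ (ST.omega : V) →
  SDB_L h h' (SDB_lc (SDB_bb V true) n k C C') → ∀ f, SDB_Tup h k f → (f ∈ C ↔ f ∈ C')

@[fun_prop]
theorem SDB_dbl_elem {Γ : Type v} [Ctx V Γ] {n h h' : Γ → V} (hn : Dbl V n) (hh : Dbl V h)
    (hh' : Dbl V h') : Dbl V (fun γ => SDB_elem (n γ) (h γ) (h' γ)) := by
  unfold SDB_elem
  fun_prop

theorem SDB_incl {h h' : V} (e : SDB_H h ⊆ SDB_H h') (x : SDB_H h) :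
    SDB_up (Set.inclusion e x) = SDB_up x := rfl

theorem SDB_elem_iff {n : ℕ} {h h' : V} :
    SDB_elem (oo V (n : Ordinal.{0})) h h' ↔ SigElem n (SDB_H h) (SDB_H h') := by
  constructor
  · rintro ⟨h1, h2⟩
    have h3 : SDB_H h ⊆ SDB_H h' := by
      intro x hx
      exact h1 ⟨x, Inner.trans h.1 h.2 x hx⟩ hx
    refine ⟨h3, fun k φ hφ xs => ?_⟩
    obtain ⟨C, C', hC, hC', h4⟩ := SDB_L_of (h := h) (h' := h') hφ
    have h5 := h2 _ C C' (SDB_mem_omega.2 ⟨k, rfl⟩) h4 (SDB_fn fun i => SDB_up (xs i))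
      (SDB_tup_iff.2 ⟨xs, rfl⟩)
    rw [SDB_rep_mem hC] at h5
    rw [h5]
    exact SDB_rep_mem hC' (fun i => Set.inclusion h3 (xs i))
  · rintro ⟨h1, h2⟩
    refine ⟨fun x hx => h1 hx, ?_⟩
    intro k C C' hk hL f hf
    obtain ⟨k, rfl⟩ := SDB_mem_omega.1 hk
    obtain ⟨b, m, l, φ, D, D', e, hφ, hD, hD'⟩ := SDB_of_L hL
    rw [SDB_lc_inj, SDB_bb_inj, SDB_nat_inj, SDB_nat_inj] at e
    obtain ⟨rfl, rfl, rfl, rfl, rfl⟩ := e
    obtain ⟨xs, rfl⟩ := SDB_tup_iff.1 hf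
    rw [SDB_rep_mem hD, h2 k φ hφ xs]
    exact (SDB_rep_mem hD' (fun i => Set.inclusion h1 (xs i))).symm

/-- `Σ_n`-collection -/
def SDB_coll (n h : V) : Prop := ∀ k C C', k ∈ (ST.omega : V) →
  SDB_L h h (SDB_lc (SDB_bb V true) n (ST.succ (ST.succ k)) C C') → ∀ p, SDB_Tup h k p →
    ∀ a, a ∈ h → (∀ x, x ∈ h → x ∈ a → ∃ y, y ∈ h ∧ SDB_snc (ST.succ k) (SDB_snc k p x) y ∈ C) →
      ∃ b, b ∈ h ∧ ∀ x, x ∈ h → x ∈ a → ∃ y, y ∈ h ∧ y ∈ b ∧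
        SDB_snc (ST.succ k) (SDB_snc k p x) y ∈ C

@[fun_prop]
theorem SDB_dbl_coll {Γ : Type v} [Ctx V Γ] {n h : Γ → V} (hn : Dbl V n) (hh : Dbl V h) :
    Dbl V (fun γ => SDB_coll (n γ) (h γ)) := by
  unfold SDB_coll
  fun_prop

theorem SDB_coll_iff {n : ℕ} {h : V} :
    SDB_coll (oo V (n : Ordinal.{0})) h ↔ SigColl n (SDB_H h) := by
  have key : ∀ (k : ℕ) (φ : Fm (k + 2)) (C : V), SDB_Rep h φ C → ∀ (p : Fin k → SDB_H h)
      (x y : SDB_H h), SDB_snc (oo V ((k + 1 : ℕ) : Ordinal.{0})) (SDB_snc (oo V (k : Ordinal.{0}))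
        (SDB_fn fun i => SDB_up (p i)) (SDB_up x)) (SDB_up y) ∈ C ↔
      Sat (SDB_H h) φ (Fin.snoc (Fin.snoc p x : Fin (k + 1) → SDB_H h) y) := by
    intro k φ C hC p x y
    rw [SDB_snc_fn, SDB_snc_fn, SDB_rep_mem hC]
  constructor
  · intro h1 k φ hφ p a ha
    obtain ⟨C, C', hC, hC', h4⟩ := SDB_L_of (h := h) (h' := h) hφ
    have h5 := h1 (oo V (k : Ordinal.{0})) C C' (SDB_mem_omega.2 ⟨k, rfl⟩)
      (by rw [SDB_succ_nat, SDB_succ_nat]; exact h4) (SDB_fn fun i => SDB_up (p i))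
      (SDB_tup_iff.2 ⟨p, rfl⟩) (SDB_up a) (SDB_up_mem a) (by
        intro x hx hxa
        obtain ⟨x, rfl⟩ := SDB_ex_up hx
        obtain ⟨y, hy⟩ := ha x hxa
        refine ⟨SDB_up y, SDB_up_mem y, ?_⟩
        rw [SDB_succ_nat, key k φ C hC]
        exact hy)
    obtain ⟨b, hb, h6⟩ := h5
    obtain ⟨b, rfl⟩ := SDB_ex_up hb
    refine ⟨b, fun x hx => ?_⟩
    obtain ⟨y, hy, hyb, h7⟩ := h6 (SDB_up x) (SDB_up_mem x) hx
    obtain ⟨y, rfl⟩ := SDB_ex_up hy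
    rw [SDB_succ_nat, key k φ C hC] at h7
    exact ⟨y, hyb, h7⟩
  · intro h1 k C C' hk hL p hp a ha h2
    obtain ⟨k, rfl⟩ := SDB_mem_omega.1 hk
    obtain ⟨b, m, l, φ, D, D', e, hφ, hD, hD'⟩ := SDB_of_L hL
    rw [SDB_succ_nat, SDB_succ_nat, SDB_lc_inj, SDB_bb_inj, SDB_nat_inj, SDB_nat_inj] at e
    obtain ⟨rfl, rfl, rfl, rfl, rfl⟩ := e
    obtain ⟨p, rfl⟩ := SDB_tup_iff.1 hp
    obtain ⟨a, rfl⟩ := SDB_ex_up ha
    obtain ⟨b, hb⟩ := h1 k φ hφ p a (by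
      intro x hx
      obtain ⟨y, hy, h3⟩ := h2 (SDB_up x) (SDB_up_mem x) hx
      obtain ⟨y, rfl⟩ := SDB_ex_up hy
      rw [SDB_succ_nat, key k φ C hD] at h3
      exact ⟨y, h3⟩)
    refine ⟨SDB_up b, SDB_up_mem b, fun x hx hxa => ?_⟩
    obtain ⟨x, rfl⟩ := SDB_ex_up hx
    obtain ⟨y, hy, h3⟩ := hb x hxa
    refine ⟨SDB_up y, SDB_up_mem y, hy, ?_⟩
    rw [SDB_succ_nat, key k φ C hD]
    exact h3

end levy

/-! ### The theorems -/

section final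

variable {V : Set ZFSet.{0}} [Inner V]

theorem SDB_inj_oo {a b : V} : InjIn V a.1 b.1 ↔ ST.Inj a b := (inj_iff a b).symm

theorem SDB_sl_iff {α : Ordinal.{0}} : StrongLimit V α ↔ Ordinal.omega0 ≤ α ∧
    (∀ b : V, rk b < α → ¬ ST.Inj (oo V α) (oo V (rk b))) ∧
      ∀ b : V, rk b < α → ∃ c : V, rk c < α ∧ ST.Inj (power (oo V (rk b))) (oo V (rk c)) := by
  unfold StrongLimit
  refine and_congr Iff.rfl (and_congr ?_ ?_)
  · constructor
    · intro e b hb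
      rw [← SDB_inj_oo]
      exact e _ hb
    · intro e β hβ
      have := e (oo V β) (by rwa [rk_oo])
      rwa [← SDB_inj_oo, rk_oo] at this
  · constructor
    · intro e b hb
      obtain ⟨γ, hγ, h1⟩ := e _ hb
      refine ⟨oo V γ, by rwa [rk_oo], ?_⟩
      rw [← SDB_inj_oo, rk_oo, val_power]
      exact h1
    · intro e β hβ
      obtain ⟨c, hc, h1⟩ := e (oo V β) (by rwa [rk_oo])
      refine ⟨rk c, hc, ?_⟩
      rw [← SDB_inj_oo, rk_oo, val_power] at h1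
      exact h1

theorem SDB_sl_dbl {Γ : Type v} [Ctx V Γ] {a : Γ → V} (ha : Dbl V a) :
    Dbl V (fun γ => StrongLimit V (rk (a γ))) := by
  simp only [SDB_sl_iff]
  fun_prop

theorem SDB_hset_iff {x : V} {α : Ordinal.{0}} : x.1 ∈ HSet V α ↔ ∃ t : V,
    (∀ y, y ∈ t → ∀ z, z ∈ y → z ∈ t) ∧ (∀ z, z ∈ x → z ∈ t) ∧
      ∃ b : V, rk b < α ∧ ST.Inj t (oo V (rk b)) := by
  constructor
  · rintro ⟨_, t, ht, h1, h2, β, hβ, h3⟩
    refine ⟨⟨t, ht⟩, ?_, fun z hz => h2 hz, oo V β, by rwa [rk_oo], ?_⟩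
    · intro y hy z hz
      exact h1.mem_trans hz hy
    · rw [← SDB_inj_oo, rk_oo]
      exact h3
  · rintro ⟨t, h1, h2, b, hb, h3⟩
    refine ⟨x.2, t.1, t.2, ?_, ?_, rk b, hb, ?_⟩
    · intro y hy z hz
      exact h1 ⟨y, Inner.trans t.1 t.2 y hy⟩ hy ⟨z, Inner.trans y (Inner.trans t.1 t.2 y hy) z hz⟩ hz
    · intro z hz
      exact h2 ⟨z, Inner.trans x.1 x.2 z hz⟩ hz
    · rw [← SDB_inj_oo] at h3
      exact h3

theorem SDB_hset_dbl {Γ : Type v} [Ctx V Γ] {a x : Γ → V} (ha : Dbl V a) (hx : Dbl V x) :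
    Dbl V (fun γ => (x γ).1 ∈ HSet V (rk (a γ))) := by
  simp only [SDB_hset_iff]
  fun_prop

variable [GW V]

theorem SDB_hset_small (a : V) : ST.Small (fun x : V => x.1 ∈ HSet V (rk a)) := by
  have := HSet_small (V := V) (α := rk a)
  exact SDB_small_of_small (SDB_hset_dbl (a := fun _ : V => a) (x := fun x : V => x)
    (by fun_prop) (by fun_prop)) (HSet V (rk a)) fun x hx => hx

/-- `H_α` as an element of `V` -/
noncomputable def SDB_hs (a : V) : V := comp (fun x : V => x.1 ∈ HSet V (rk a))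

@[fun_prop]
theorem SDB_hs_dbl {Γ : Type v} [Ctx V Γ] {a : Γ → V} (ha : Dbl V a) :
    Dbl V (fun γ => SDB_hs (a γ)) := by
  have h1 : Dbl V (fun a : V => SDB_hs a) :=
    dbl_comp SDB_hset_small (SDB_hset_dbl (a := fun z : V × V => z.1) (x := fun z : V × V => z.2)
      (by fun_prop) (by fun_prop))
  exact Dbl.comp (f := a) (g := fun a : V => SDB_hs a) ha h1

omit [GW V] in
/-- strong limit cardinals -/
def SDB_slp (a : V) : Prop := StrongLimit V (rk a)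

omit [GW V] in
@[fun_prop]
theorem SDB_slp_dbl {Γ : Type v} [Ctx V Γ] {a : Γ → V} (ha : Dbl V a) :
    Dbl V (fun γ => SDB_slp (a γ)) := SDB_sl_dbl ha

theorem SDB_hs_eq (a : V) : SDB_H (SDB_hs a) = HSet V (rk a) := by
  ext x
  constructor
  · intro hx
    have h1 : (⟨x, Inner.trans (SDB_hs a).1 (SDB_hs a).2 x hx⟩ : V) ∈ SDB_hs a := hx
    exact (mem_comp (SDB_hset_small a)).1 h1
  · intro hx
    exact (mem_comp (x := (⟨x, HSet_sub hx⟩ : V)) (SDB_hset_small a)).2 hx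

theorem SDB_triple (n : ℕ) (α β : Ordinal.{0}) : triple n α β =
    (opair (opair (oo V (n : Ordinal.{0})) (oo V α)) (oo V β)).1 := by
  rw [val_opair, val_opair]
  rfl

theorem SDB_stab_iff (t : V) : t.1 ∈ Stab V ↔ ∃ n a b : V, n ∈ (ST.omega : V) ∧
    oo V ((0 : ℕ) : Ordinal.{0}) ∈ n ∧ t = opair (opair n (oo V (rk a))) (oo V (rk b)) ∧
    (StrongLimit V (rk a) ∧ SDB_coll n (SDB_hs a)) ∧
    (StrongLimit V (rk b) ∧ SDB_coll n (SDB_hs b)) ∧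
    SDB_elem n (SDB_hs a) (SDB_hs b) := by
  constructor
  · rintro ⟨n, α, β, hn, ht, ⟨h1, h2⟩, ⟨h3, h4⟩, h5⟩
    refine ⟨oo V (n : Ordinal.{0}), oo V α, oo V β, SDB_mem_omega.2 ⟨n, rfl⟩,
      SDB_nat_mem.2 (by omega), ?_, ?_, ?_, ?_⟩
    · rw [rk_oo, rk_oo]
      exact Subtype.ext (by rw [ht, SDB_triple (V := V)])
    · rw [SDB_coll_iff, SDB_hs_eq, rk_oo]
      exact ⟨h1, h2⟩
    · rw [SDB_coll_iff, SDB_hs_eq, rk_oo]
      exact ⟨h3, h4⟩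
    · rw [SDB_elem_iff, SDB_hs_eq, SDB_hs_eq, rk_oo, rk_oo]
      exact h5
  · rintro ⟨n, a, b, hn, hn1, rfl, ⟨h1, h2⟩, ⟨h3, h4⟩, h5⟩
    obtain ⟨n, rfl⟩ := SDB_mem_omega.1 hn
    rw [SDB_coll_iff, SDB_hs_eq] at h2 h4
    rw [SDB_elem_iff, SDB_hs_eq, SDB_hs_eq] at h5
    exact ⟨n, rk a, rk b, by have := SDB_nat_mem.1 hn1; omega, (SDB_triple n _ _).symm,
      ⟨h1, h2⟩, ⟨h3, h4⟩, h5⟩

/-- SDB -/
theorem stab_dbl (V : Set ZFSet.{0}) [Inner V] [GW V] : Dbl V (fun t : V => t.1 ∈ Stab V) := by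
  simp only [SDB_stab_iff]
  show Dbl V (fun t : V => ∃ n a b : V, n ∈ (ST.omega : V) ∧
    oo V ((0 : ℕ) : Ordinal.{0}) ∈ n ∧ t = opair (opair n (oo V (rk a))) (oo V (rk b)) ∧
    (SDB_slp a ∧ SDB_coll n (SDB_hs a)) ∧ (SDB_slp b ∧ SDB_coll n (SDB_hs b)) ∧
    SDB_elem n (SDB_hs a) (SDB_hs b))
  fun_prop

/-- the stability predicate -/
def SDB_stp {V : Set ZFSet.{0}} [Inner V] (t : V) : Prop := t.1 ∈ Stab V

@[fun_prop]
theorem SDB_stp_dbl {Γ : Type v} [Ctx V Γ] {a : Γ → V} (ha : Dbl V a) :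
    Dbl V (fun γ => SDB_stp (a γ)) :=
  Dbl.comp (f := a) (g := fun t : V => t.1 ∈ Stab V) ha (stab_dbl V)

theorem ys_dbl (V : Set ZFSet.{0}) [Inner V] [GW V] : Dbl V (fun x : V => rk x ∈ YS V) := by
  have h1 := stab_dbl V
  have h2 : ∀ x : V, rk x ∈ YS V ↔ ∀ c : V, ∃ b : V, rk c < rk b ∧
      (opair (opair (oo V ((1 : ℕ) : Ordinal.{0})) (oo V (rk x))) (oo V (rk b))).1 ∈ Stab V := by
    intro x
    constructor
    · intro h c
      obtain ⟨β, hβ, h3⟩ := h (rk c)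
      refine ⟨oo V β, by rwa [rk_oo], ?_⟩
      rw [rk_oo, ← SDB_triple]
      exact h3
    · intro h γ
      obtain ⟨b, hb, h3⟩ := h (oo V γ)
      rw [← SDB_triple] at h3
      exact ⟨rk b, by rwa [rk_oo] at hb, h3⟩
  simp only [h2]
  show Dbl V (fun x : V => ∀ c : V, ∃ b : V, rk c < rk b ∧
    SDB_stp (opair (opair (oo V ((1 : ℕ) : Ordinal.{0})) (oo V (rk x))) (oo V (rk b))))
  fun_prop

end final

end Pool.Agent.SC
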