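import Pool.Agent.Lib_helper73.SCL.COD
import Pool.Agent.Lib_helper73.SCL.IDX
import Pool.Agent.Lib_helper73.SCL.LMP
import Pool.Agent.Lib_helper73.SCL.LVY
import Pool.Agent.Lib_helper73.SCL.SDB

set_option linter.unusedSectionVars false

namespace Pool.Agent.SC

open FirstOrder Pool.Agent.Lib_helper27 Pool.Agent.Lib_helper27.ST

universe u v w

variable {S : MSys}

section idx

variable {sc : Scr S} {bl : Ordinal.{0} → Ordinal.{0}} {s t : Ordinal.{0}}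

theorem DPT_kc_code (sc : Scr S) : ∃ x0 : S.V, (∀ s, sc.VC s x0) ∧ cfun x0 = Scr.kc (S := S) := by
  obtain ⟨x0, h1, h2⟩ := exists_vc (sc := sc) (FS_const sc 0 (S.κ : Ordinal.{0}))
  refine ⟨x0, fun s => ⟨h1.1, h1.2.1, fun t ht => ?_⟩, h2⟩
  exact absurd (h1.2.2 t ht) (not_lt.2 zero_le)

theorem DPT_VC_mono {sc : Scr S} {s t : Ordinal.{0}} (h : s ≤ t) {x : S.V} (hx : sc.VC s x) :
    sc.VC t x := ⟨hx.1, hx.2.1, fun r hr => (hx.2.2 r hr).trans_le h⟩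

theorem DPT_lt {sc : Scr S} {s ξ : Ordinal.{0}} (hξ : 0 < ξ) {b : Asg S → Ordinal.{0}}
    (hb : sc.FS s b) :
    ∃ b', sc.FS s b' ∧ (∀ z, b' z < ξ) ∧ ∀ z, b z < ξ → b' z = b z := by
  classical
  have hG : Dbl S.V (fun x : S.V => if x ∈ oo S.V ξ then x else oo S.V 0) :=
    Dbl_ite (by fun_prop) (by fun_prop) (by fun_prop)
  refine ⟨fun z => rk (if oo S.V (b z) ∈ oo S.V ξ then oo S.V (b z) else oo S.V 0),
    FS_rk (FS_comp (FS_oo hb) hG), fun z => ?_, fun z hz => ?_⟩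
  · dsimp only
    split_ifs with h1
    · rw [rk_oo]; exact oo_mem.1 h1
    · rw [rk_oo]; exact hξ
  · dsimp only
    rw [if_pos (oo_mem.2 hz), rk_oo]

theorem dpoint (hg : sc.Good (blk (YS S.V) S.κ)) (hd : sc.IsDef) :
    ∃ (m : ℕ) (θ : Ordinal.{0}), 1 ≤ m ∧ ∀ α β, θ < α → CInf S.V β → triple m α β ∈ Stab S.V →
      α ≤ blk (YS S.V) S.κ α ∧ sc.rho α (Scr.kc (S := S)) = α := by
  obtain ⟨x0, hx0, hx0'⟩ := DPT_kc_code sc
  have hY := ys_dbl S.V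
  have hYu := ys_unbounded S.V
  have hP1 : Dbl S.V (fun z : S.V × S.V => z.1 = oo S.V (Lam (YS S.V) S.κ (rk z.2))) := by
    refine Dbl.eq Dbl.fst (dbl_oo (Lam_dbl hY S.κ (dbl_rk Dbl.snd)))
  have hP2 : Dbl S.V (fun z : S.V × S.V => z.1 = oo S.V (rk z.1) ∧
      (sc.VC (rk z.1) z.2 ∧ sc.rho (rk z.1) (cfun z.2) = rk z.1) ∧
      rk z.1 ≤ blk (YS S.V) S.κ (rk z.1) ∧
      ∃ y : S.V, (sc.VC (rk z.1) x0 ∧ sc.rho (rk z.1) (cfun x0) = rk y) ∧ rk z.1 < rk y) := by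
    refine Dbl.and (by fun_prop) (Dbl.and ?_ (Dbl.and ?_ ?_))
    · exact Dbl.comp (f := fun z : S.V × S.V => ((z.1, z.2), z.1)) (by fun_prop) hd.2
    · exact dbl_le (dbl_rk Dbl.fst) (blk_dbl hY S.κ (dbl_rk Dbl.fst))
    · refine Dbl.exs (p := fun (z : S.V × S.V) (y : S.V) =>
        (sc.VC (rk z.1) x0 ∧ sc.rho (rk z.1) (cfun x0) = rk y) ∧ rk z.1 < rk y) ?_
      refine Dbl.and ?_ (dbl_lt (by fun_prop) (by fun_prop))
      exact Dbl.comp (f := fun z : (S.V × S.V) × S.V => ((z.1.1, x0), z.2)) (by fun_prop) hd.2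
  obtain ⟨m1, θ1, hm1, h1⟩ := stab_reflect (P := fun s p => s = oo S.V (Lam (YS S.V) S.κ (rk p))) hP1
  obtain ⟨m2, θ2, hm2, h2⟩ := stab_reflect (P := fun s p => s = oo S.V (rk s) ∧
      (sc.VC (rk s) p ∧ sc.rho (rk s) (cfun p) = rk s) ∧
      rk s ≤ blk (YS S.V) S.κ (rk s) ∧
      ∃ y : S.V, (sc.VC (rk s) x0 ∧ sc.rho (rk s) (cfun x0) = rk y) ∧ rk s < rk y) hP2
  refine ⟨max m1 m2, max (max θ1 θ2) S.κ, hm1.trans (le_max_left _ _), fun α β hα hβ hst => ?_⟩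
  have hα1 : θ1 < α := ((le_max_left _ _).trans (le_max_left _ _)).trans_lt hα
  have hα2 : θ2 < α := ((le_max_right _ _).trans (le_max_left _ _)).trans_lt hα
  have hακ : S.κ < α := (le_max_right _ _).trans_lt hα
  have hst1 := stab_anti hm1 (le_max_left m1 m2) hst
  have hst2 := stab_anti hm2 (le_max_right m1 m2) hst
  have hsl : StrongLimit S.V α := (stab_iff.1 hst).2.1.1
  have hbl : α ≤ blk (YS S.V) S.κ α := by
    refine le_blk hYu fun i hi => ?_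
    obtain ⟨s, hs1, hs2⟩ := h1 α β hα1 hβ hst1 (oo S.V i) ((ord_mem_HSet hsl).2 hi) ⟨_, rfl⟩
    rw [rk_oo] at hs2
    rw [hs2] at hs1
    exact (ord_mem_HSet hsl).1 hs1
  refine ⟨hbl, ?_⟩
  by_contra hne
  have hlt : α < sc.rho α (Scr.kc (S := S)) := lt_of_le_of_ne (le_rho_kc hg α) (Ne.symm hne)
  have hkc : sc.FS α (Scr.kc (S := S)) := FS_const sc α (S.κ : Ordinal.{0})
  obtain ⟨b, hb, hb1, hb2⟩ := rho_surj hkc hlt
  obtain ⟨s', hs', hb'⟩ := FS_lim hb (fun s hs => sl_limit hsl hs) (lt_of_le_of_lt zero_le hακ)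
  have hκ0 : 0 < S.κ := by
    obtain ⟨z, hz⟩ := AE_exists hb2
    exact lt_of_le_of_lt zero_le hz
  obtain ⟨b', hb'1, hb'2, hb'3⟩ := DPT_lt hκ0 hb'
  have hb'α := FS_mono hb'1 hs'.le
  have hae : sc.AE fun z => b' z = b z :=
    AE_mono (FS_fs (FS_eqo hb'α hb)) hb2 fun z hz => hb'3 z hz
  have hrho : sc.rho α b' = α := by rw [(rho_eq hb'α hb).2 hae, hb1]
  obtain ⟨D, hD, hD'⟩ := vc_bound sc hsl hακ hs' hακ
  obtain ⟨x, hxD, hx1, hx2⟩ := hD' b' hb'1 hb'2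
  have hxH : x.1 ∈ HSet S.V α := HSet_trans hD hxD
  have hxα : sc.VC α x := DPT_VC_mono hs'.le hx1
  obtain ⟨s, hs1, hs2, ⟨hs3, hs4⟩, hs5, y, ⟨hy1, hy2⟩, hy3⟩ := h2 α β hα2 hβ hst2 x hxH
    ⟨oo S.V α, by
      rw [rk_oo]
      refine ⟨rfl, ⟨hxα, by rw [hx2, hrho]⟩, hbl, oo S.V (sc.rho α (Scr.kc (S := S))),
        ⟨hx0 α, ?_⟩, ?_⟩
      · rw [hx0', rk_oo]
      · rw [rk_oo]; exact hlt⟩
  have hσ : rk s < α := by
    rw [hs2] at hs1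
    exact (ord_mem_HSet hsl).1 hs1
  rw [← hy2, hx0'] at hy3
  have hcr := crit_of_index hg hs5 hy3
  have h5 : sc.AE fun z => cfun x z < S.kap (sc.g (rk s) z) := by
    rw [← rho_lt (VC_cfun hs3) (FS_kapg sc (rk s)), hs4]
    exact hcr
  have h6 := rho_fix hg hσ.le (VC_cfun hs3) h5
  rw [hs4, hx2, hrho] at h6
  exact absurd h6 (ne_of_gt hσ)

end idx

end Pool.Agent.SC
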