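import Pool.Agent.Lib_helper73.SCL.Stmt
import Pool.Agent.Lib_helper27.Card

/-!
# Classes as structures
-/

namespace Pool.Agent.SC

open FirstOrder Pool.Agent.Lib_helper27

/-- A class `V`, considered as a structure with the true membership relation. -/
instance instSetStr (V : Set ZFSet.{0}) : SetStr V := ⟨fun x y => x.1 ∈ y.1⟩

instance (V : Set ZFSet.{0}) [h : Inner V] : ZFC V := ⟨h.zfc⟩

end Pool.Agent.SC
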