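import Pool.Agent.Lib_helper73.SCL.ADB_a
import Pool.Agent.Lib_helper73.SCL.SDefs

set_option linter.unusedSectionVars false

namespace Pool.Agent.SC

open FirstOrder Pool.Agent.Lib_helper27 Pool.Agent.Lib_helper27.ST

universe u v w

variable {S : MSys}

/-- The data of the final argument: a script, a level `m` of stability, a fully elementary cardinal
`bs`, and a limit `ks < bs` of ordinals `α` with `(m, α, bs)` in the stability predicate. -/
structure FD (S : MSys) where
  sc : Scr S
  m : ℕ
  bs : Ordinal.{0}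
  nu : Ordinal.{0}
  ks : Ordinal.{0}
  good : sc.Good (blk (YS S.V) S.κ)
  isDef : sc.IsDef
  hm : 1 ≤ m
  cinf : CInf S.V bs
  κ_lt : S.κ < nu
  nu_lt : nu < ks
  ks_lt : ks < bs
  lim : ∀ θ < ks, ∃ α, θ < α ∧ α < ks ∧ triple m α bs ∈ Stab S.V
  dp : ∀ α, nu < α → triple m α bs ∈ Stab S.V →
    α ≤ blk (YS S.V) S.κ α ∧ sc.rho α (Scr.kc (S := S)) = α

namespace FD

variable (F : FD S)

/-- the limit of block `i` -/
noncomputable def lam (_ : FD S) (i : Ordinal.{0}) : Ordinal.{0} := Lam (YS S.V) S.κ i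

end FD

end Pool.Agent.SC
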