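import Pool.Agent.Lib_helper73.SCL.IRH

/-! Block SCR: existence of the definable script. -/

set_option linter.unusedSectionVars false

namespace Pool.Agent.SC

open FirstOrder Pool.Agent.Lib_helper27 Pool.Agent.Lib_helper27.ST

universe u v w

variable {S : MSys}

theorem SCR_min {V : Set ZFSet.{0}} [Inner V] {Γ : Type v} [Ctx V Γ] {a b : Γ → Ordinal.{0}}
    (ha : Dbl V a) (hb : Dbl V b) : Dbl V (fun γ => min (a γ) (b γ)) := by
  refine dbl_of_graph_ord ?_
  have ha' : Dbl V (fun z : Γ × V => a z.1) := Dbl.comp Dbl.fst ha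
  have hb' : Dbl V (fun z : Γ × V => b z.1) := Dbl.comp Dbl.fst hb
  have hr : Dbl V (fun z : Γ × V => rk z.2) := dbl_rk Dbl.snd
  refine (((dbl_le ha' hb').and (dbl_eqo ha' hr)).or
    ((dbl_lt hb' ha').and (dbl_eqo hb' hr))).congr_prop fun z => ?_
  rcases le_or_gt (a z.1) (b z.1) with h | h
  · rw [min_eq_left h]
    exact ⟨fun h' => Or.inl ⟨h, h'⟩, fun h' => h'.elim (fun h1 => h1.2) fun h1 =>
      absurd h1.1 (not_lt.2 h)⟩
  · rw [min_eq_right h.le]
    exact ⟨fun h' => Or.inr ⟨h, h'⟩, fun h' => h'.elim (fun h1 => absurd h1.1 (not_le.2 h))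
      fun h1 => h1.2⟩

theorem SCR_graph {V : Set ZFSet.{0}} [Inner V] {Γ : Type v} [Ctx V Γ] {f : V → V} (hf : Dbl V f)
    {a : Γ → V} (ha : Dbl V a) : Dbl V (fun γ => graph f (a γ)) := by
  refine dbl_comp (fun γ => small_graph hf (a γ)) ?_
  have h1 : Dbl V (fun z : (Γ × V) × V => z.2 ∈ a z.1.1 ∧ z.1.2 = opair z.2 (f z.2)) := by
    have h2 : Dbl V (fun z : (Γ × V) × V => a z.1.1) :=
      Dbl.comp (f := fun z : (Γ × V) × V => z.1.1) (by fun_prop) ha
    have h3 : Dbl V (fun z : (Γ × V) × V => f z.2) :=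
      Dbl.comp (f := fun z : (Γ × V) × V => z.2) (by fun_prop) hf
    exact (Dbl.mem (by fun_prop) h2).and (Dbl.eq (by fun_prop) (dbl_opair (by fun_prop) h3))
  exact Dbl.exs h1

open Classical in
/-- the set of all pairs `(β, f β)`, `β < s` -/
noncomputable def SCR_gr (s : Ordinal.{0}) (f : ∀ t, t < s → S.V) : S.V :=
  if h : ∃ g : S.V, ∀ z, z ∈ g.1 ↔ ∃ β, ∃ hβ : β < s, z = ZFSet.pair β.toZFSet (f β hβ).1
  then h.choose else oo S.V 0

theorem SCR_gr_eq {s : Ordinal.{0}} {f : ∀ t, t < s → S.V} {g : S.V}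
    (h : ∀ z, z ∈ g.1 ↔ ∃ β, ∃ hβ : β < s, z = ZFSet.pair β.toZFSet (f β hβ).1) :
    SCR_gr s f = g := by
  have hex : ∃ g : S.V, ∀ z, z ∈ g.1 ↔ ∃ β, ∃ hβ : β < s, z = ZFSet.pair β.toZFSet (f β hβ).1 :=
    ⟨g, h⟩
  unfold SCR_gr
  rw [dif_pos hex]
  apply Subtype.ext
  apply ZFSet.ext
  intro z
  rw [h, hex.choose_spec]

noncomputable def SCR_G (H : S.V → S.V → S.V) : Ordinal.{0} → S.V :=
  Ordinal.lt_wf.fix fun s f => H (oo S.V s) (SCR_gr s f)

theorem SCR_G_eq (H : S.V → S.V → S.V) (s : Ordinal.{0}) :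
    SCR_G H s = H (oo S.V s) (SCR_gr s fun t _ => SCR_G H t) := by
  unfold SCR_G
  rw [WellFounded.fix_eq]

theorem SCR_rec {H : S.V → S.V → S.V} (hH : Dbl S.V (fun z : S.V × S.V => H z.1 z.2)) :
    Dbl S.V (fun x : S.V => SCR_G H (rk x)) ∧ ∀ s,
      (∀ t < s, fapp (graph (fun x : S.V => SCR_G H (rk x)) (oo S.V s)) (oo S.V t) = SCR_G H t) ∧
      SCR_G H s = H (oo S.V s) (graph (fun x : S.V => SCR_G H (rk x)) (oo S.V s)) := by
  have h1 : DO S.V (fun s => (SCR_G H s).1) := by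
    refine rec_ord hH fun α g hg _ => ?_
    have h2 : SCR_gr α (fun t _ => SCR_G H t) = g := SCR_gr_eq fun z => by
      rw [hg]
      simp only [exists_prop]
    show (SCR_G H α).1 = _
    rw [SCR_G_eq, h2]
  obtain ⟨h2, h3⟩ := h1
  have h4 : Dbl S.V (fun x : S.V => SCR_G H (rk x)) := h3
  refine ⟨h4, fun s => ⟨fun t ht => ?_, ?_⟩⟩
  · rw [fapp_graph h4 (oo_mem.2 ht), rk_oo]
  · rw [SCR_G_eq]
    congr 1
    refine SCR_gr_eq fun z => ?_
    constructor
    · intro hz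
      have hzV : z ∈ S.V := Inner.trans _ (Subtype.property _) z hz
      obtain ⟨x, hx, hx2⟩ := (mem_graph h4 (z := ⟨z, hzV⟩)).1 hz
      have hxo : IsOrd x := by
        have := isOrd_iff (V := S.V) (x := oo S.V s)
        exact (this.2 ⟨s, rfl⟩).mem hx
      obtain ⟨β, rfl⟩ := isOrd_iff.1 hxo
      refine ⟨β, oo_mem.1 hx, ?_⟩
      have h5 := congrArg Subtype.val hx2
      rw [val_opair, rk_oo] at h5
      exact h5
    · rintro ⟨β, hβ, rfl⟩
      have h5 : opair (oo S.V β) (SCR_G H β) ∈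
          graph (fun x : S.V => SCR_G H (rk x)) (oo S.V s) := by
        rw [opair_mem_graph h4]
        exact ⟨oo_mem.2 hβ, by rw [rk_oo]⟩
      have h6 : (opair (oo S.V β) (SCR_G H β)).1 ∈
          (graph (fun x : S.V => SCR_G H (rk x)) (oo S.V s)).1 := h5
      rw [val_opair] at h6
      exact h6

/-- selection of the element with least code -/
theorem SCR_sel {Q : S.V → Prop} (h : ∃ y, Q y) :
    Q (iota fun y => Q y ∧ ∀ y', Q y' → cod y ≤ cod y') := by
  obtain ⟨y, hy⟩ := h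
  obtain ⟨m, ⟨y0, hy0, rfl⟩, hmin⟩ := Ordinal.lt_wf.has_min {o | ∃ y, Q y ∧ cod y = o} ⟨_, y, hy, rfl⟩
  have h1 : ∀ y', Q y' → cod y0 ≤ cod y' := fun y' hy' => not_lt.1 (hmin _ ⟨y', hy', rfl⟩)
  have h2 : ∃! y, Q y ∧ ∀ y', Q y' → cod y ≤ cod y' := by
    refine ⟨y0, ⟨hy0, h1⟩, fun y' hy' => ?_⟩
    have h3 : cod y' = cod y0 := le_antisymm (hy'.2 y0 hy0) (h1 y' hy'.1)
    apply Subtype.ext
    rw [← (cod_spec y').1, ← (cod_spec y0).1, h3]
  exact (iota_spec h2).1

theorem exists_script (S : MSys) {bl : Ordinal.{0} → Ordinal.{0}} (hm : Monotone bl)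
    (hbl : Dbl S.V (fun x : S.V => bl (rk x))) : ∃ sc : Scr S, sc.Good bl ∧ sc.IsDef := by
  obtain ⟨W, hWd, hW⟩ := internal_vc S
  obtain ⟨R, hRd, hR⟩ := internal_rho S
  obtain ⟨P, hPd, hP⟩ := internal_fn S
  -- the code of the constant function `κ`
  obtain ⟨x0, hx0, hx0c⟩ := exists_vc (FS_const (mkS (fun _ => oo S.V 0)) 0 S.κ)
  have hx0d : cdom x0 = ∅ := by
    rw [Finset.eq_empty_iff_forall_notMem]
    intro t ht
    exact not_lt_bot (hx0.2.2 t ht)
  have hx0vc : ∀ (sc : Scr S) s, sc.VC s x0 := by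
    intro sc s
    refine ⟨hx0.1, ?_, ?_⟩
    · rw [hx0d]
      intro t ht
      simp at ht
    · rw [hx0d]
      intro t ht
      simp at ht
  have hx0f : cfun x0 = Scr.kc (S := S) := hx0c
  -- the defining property
  let Q : S.V → S.V → S.V → Prop := fun x g y => W g x y ∧
    (∀ w, P (fstp y) w → rk (fapp (sndp y) w) ≤ S.κ) ∧
    ∃ ab : S.V × S.V, R g x y (oo S.V (rk ab.1)) ∧ R g x x0 (oo S.V (rk ab.2)) ∧
      rk ab.1 = min (bl (rk x)) (rk ab.2)
  have hQd : Dbl S.V (fun z : (S.V × S.V) × S.V => Q z.1.1 z.1.2 z.2) := by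
    have h1 : Dbl S.V (fun z : (S.V × S.V) × S.V => W z.1.2 z.1.1 z.2) :=
      Dbl.comp (f := fun z : (S.V × S.V) × S.V => ((z.1.2, z.1.1), z.2))
        (g := fun z : (S.V × S.V) × S.V => W z.1.1 z.1.2 z.2) (by fun_prop) hWd
    have h2 : Dbl S.V (fun z : ((S.V × S.V) × S.V) × S.V => P (fstp z.1.2) z.2) :=
      Dbl.comp (f := fun z : ((S.V × S.V) × S.V) × S.V => (fstp z.1.2, z.2))
        (g := fun z : S.V × S.V => P z.1 z.2) (by fun_prop) hPd
    have h3 : Dbl S.V (fun z : ((S.V × S.V) × S.V) × S.V =>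
        rk (fapp (sndp z.1.2) z.2) ≤ S.κ) := by fun_prop
    have h4 : Dbl S.V (fun z : ((S.V × S.V) × S.V) × (S.V × S.V) =>
        R z.1.1.2 z.1.1.1 z.1.2 (oo S.V (rk z.2.1))) :=
      Dbl.comp (f := fun z : ((S.V × S.V) × S.V) × (S.V × S.V) =>
          (((z.1.1.2, z.1.1.1), z.1.2), oo S.V (rk z.2.1)))
        (g := fun z : ((S.V × S.V) × S.V) × S.V => R z.1.1.1 z.1.1.2 z.1.2 z.2)
        (by fun_prop) hRd
    have h5 : Dbl S.V (fun z : ((S.V × S.V) × S.V) × (S.V × S.V) =>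
        R z.1.1.2 z.1.1.1 x0 (oo S.V (rk z.2.2))) :=
      Dbl.comp (f := fun z : ((S.V × S.V) × S.V) × (S.V × S.V) =>
          (((z.1.1.2, z.1.1.1), x0), oo S.V (rk z.2.2)))
        (g := fun z : ((S.V × S.V) × S.V) × S.V => R z.1.1.1 z.1.1.2 z.1.2 z.2)
        (by fun_prop) hRd
    have h6 : Dbl S.V (fun z : ((S.V × S.V) × S.V) × (S.V × S.V) =>
        rk z.2.1 = min (bl (rk z.1.1.1)) (rk z.2.2)) := by
      have h7 : Dbl S.V (fun z : ((S.V × S.V) × S.V) × (S.V × S.V) => bl (rk z.1.1.1)) :=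
        Dbl.comp (f := fun z : ((S.V × S.V) × S.V) × (S.V × S.V) => z.1.1.1)
          (g := fun x : S.V => bl (rk x)) (by fun_prop) hbl
      exact dbl_eqo (by fun_prop) (SCR_min h7 (by fun_prop))
    exact h1.and ((Dbl.all (h2.imp h3)).and (Dbl.exs (h4.and (h5.and h6))))
  let H : S.V → S.V → S.V := fun x g => iota fun y => Q x g y ∧ ∀ y', Q x g y' → cod y ≤ cod y'
  have hHd : Dbl S.V (fun z : S.V × S.V => H z.1 z.2) := by
    refine dbl_iota ?_
    have h1 : Dbl S.V (fun z : ((S.V × S.V) × S.V) × S.V => Q z.1.1.1 z.1.1.2 z.2) :=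
      Dbl.comp (f := fun z : ((S.V × S.V) × S.V) × S.V => (z.1.1, z.2))
        (g := fun z : (S.V × S.V) × S.V => Q z.1.1 z.1.2 z.2) (by fun_prop) hQd
    have h2 : Dbl S.V (fun z : ((S.V × S.V) × S.V) × S.V => cod z.1.2 ≤ cod z.2) := by
      have h3 : Dbl S.V (fun z : ((S.V × S.V) × S.V) × S.V => cod z.1.2) :=
        cod_dbl (by fun_prop)
      have h4 : Dbl S.V (fun z : ((S.V × S.V) × S.V) × S.V => cod z.2) :=
        cod_dbl (by fun_prop)
      exact dbl_le h3 h4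
    exact hQd.and (Dbl.all (h1.imp h2))
  obtain ⟨hGd, hG⟩ := SCR_rec hHd
  set G : Ordinal.{0} → S.V := SCR_G H with hGdef
  let gs : Ordinal.{0} → S.V := fun s => graph (fun x : S.V => G (rk x)) (oo S.V s)
  have hgs : ∀ s, ∀ t < s, fapp (gs s) (oo S.V t) = G t := fun s => (hG s).1
  have hGs : ∀ s, G s = H (oo S.V s) (gs s) := fun s => (hG s).2
  set sc : Scr S := mkS G with hsc
  -- the rank of the constant
  have hkcFS : ∀ s, sc.FS s (Scr.kc (S := S)) := fun s => FS_const _ _ _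
  -- the main induction
  have hD : ∀ s, sc.VC s (G s) ∧ (∀ z, cfun (G s) z ≤ S.κ) ∧
      sc.rho s (cfun (G s)) = min (bl s) (sc.rho s (Scr.kc (S := S))) := by
    intro s
    induction s using Ordinal.lt_wf.induction with
    | _ s ih =>
      have hGV : GV G s := fun t ht => ⟨(ih t ht).1, (ih t ht).2.1⟩
      have hW' := hW G s (gs s) hGV (hgs s)
      have hR' := hR G s (gs s) hGV (hgs s)
      have hbound : ∀ y, sc.VC s y →
          ((∀ w, P (fstp y) w → rk (fapp (sndp y) w) ≤ S.κ) ↔ ∀ z, cfun y z ≤ S.κ) := by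
        rintro y ⟨⟨c, F, rfl⟩, -, -⟩
        rw [fstp_opair, sndp_opair]
        constructor
        · intro h z
          rw [cfun_code]
          exact h _ ((hP c _).2 ⟨z, rfl⟩)
        · intro h w hw
          obtain ⟨z, rfl⟩ := (hP c w).1 hw
          rw [← cfun_code]
          exact h z
      have hQiff : ∀ y, Q (oo S.V s) (gs s) y ↔ (sc.VC s y ∧ (∀ z, cfun y z ≤ S.κ) ∧
          sc.rho s (cfun y) = min (bl s) (sc.rho s (Scr.kc (S := S)))) := by
        intro y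
        have hx0R : ∀ β, R (gs s) (oo S.V s) x0 (oo S.V β) ↔
            sc.rho s (Scr.kc (S := S)) = β := by
          intro β
          rw [← hx0f]
          exact hR' x0 β (hx0vc sc s)
        constructor
        · rintro ⟨h1, h2, ⟨a, b⟩, h3, h4, h5⟩
          have h1' : sc.VC s y := (hW' y).1 h1
          have h3' : sc.rho s (cfun y) = rk a := (hR' y _ h1').1 h3
          have h4' : sc.rho s (Scr.kc (S := S)) = rk b := (hx0R _).1 h4
          refine ⟨h1', (hbound y h1').1 h2, ?_⟩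
          rw [h3', h4']
          have h5 : rk a = min (bl (rk (oo S.V s))) (rk b) := h5
          rw [rk_oo] at h5
          exact h5
        · rintro ⟨h1, h2, h3⟩
          refine ⟨(hW' y).2 h1, (hbound y h1).2 h2,
            ⟨oo S.V (sc.rho s (cfun y)), oo S.V (sc.rho s (Scr.kc (S := S)))⟩, ?_, ?_, ?_⟩
          · simp only [rk_oo]
            exact (hR' y _ h1).2 rfl
          · simp only [rk_oo]
            exact (hx0R _).2 rfl
          · simp only [rk_oo]
            exact h3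
      -- existence
      have hex : ∃ y, Q (oo S.V s) (gs s) y := by
        have hkey : ∃ a : Asg S → Ordinal.{0}, sc.FS s a ∧ (∀ z, a z ≤ S.κ) ∧
            sc.rho s a = min (bl s) (sc.rho s (Scr.kc (S := S))) := by
          rcases le_or_gt (sc.rho s (Scr.kc (S := S))) (bl s) with h | h
          · exact ⟨Scr.kc, hkcFS s, fun z => le_rfl, by rw [min_eq_right h]⟩
          · obtain ⟨b, hb, hb2, hb3⟩ := rho_surj (hkcFS s) h
            have hmind : Dbl S.V (fun x : S.V => min S.κ (rk x)) :=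
              SCR_min (Dbl.const _) (dbl_rk Dbl.id)
            have ha : sc.FS s (fun z => min S.κ (b z)) := FS_compo hb (F := fun α => min S.κ α) hmind
            refine ⟨fun z => min S.κ (b z), ha, fun z => min_le_left _ _, ?_⟩
            rw [min_eq_left h.le, ← hb2, rho_eq ha hb]
            refine AE_mono (FS_fs (FS_eqo ha hb)) hb3 fun z hz => ?_
            exact min_eq_right (le_of_lt hz)
        obtain ⟨a, ha, ha2, ha3⟩ := hkey
        obtain ⟨y, hy, rfl⟩ := exists_vc ha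
        exact ⟨y, (hQiff y).2 ⟨hy, ha2, ha3⟩⟩
      have h1 := SCR_sel hex
      rw [hGs s]
      exact (hQiff _).1 h1
  have hGV : ∀ s, GV G s := fun s t _ => ⟨(hD t).1, (hD t).2.1⟩
  have hVal : ∀ s, Val G s := fun s t ht => ⟨(hD s).1.2.2 t ht, (hD s).1.2.1 t ht⟩
  have hg : ∀ s, sc.g s = cfun (G s) := by
    intro s
    funext z
    show mkg G s z = _
    unfold mkg
    rw [if_pos (hVal s), min_eq_right ((hD s).2.1 z)]
  refine ⟨sc, ⟨hm, fun s => by rw [hg s]; exact (hD s).2.2⟩, ?_, ?_⟩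
  · have hgd : Dbl S.V (fun z : S.V × S.V => gs (rk z.1)) :=
      SCR_graph hGd (a := fun z : S.V × S.V => oo S.V (rk z.1)) (by fun_prop)
    have h1 : Dbl S.V (fun z : S.V × S.V => W (gs (rk z.1)) (oo S.V (rk z.1)) z.2) :=
      Dbl.comp (f := fun z : S.V × S.V => ((gs (rk z.1), oo S.V (rk z.1)), z.2))
        (g := fun z : (S.V × S.V) × S.V => W z.1.1 z.1.2 z.2) ((hgd.mk (by fun_prop)).mk
          (by fun_prop)) hWd
    exact h1.congr_prop fun z => (hW G _ _ (hGV _) (hgs _) _).symm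
  · have hgd : Dbl S.V (fun z : (S.V × S.V) × S.V => gs (rk z.1.1)) :=
      SCR_graph hGd (a := fun z : (S.V × S.V) × S.V => oo S.V (rk z.1.1)) (by fun_prop)
    have h1 : Dbl S.V (fun z : (S.V × S.V) × S.V =>
        W (gs (rk z.1.1)) (oo S.V (rk z.1.1)) z.1.2) :=
      Dbl.comp (f := fun z : (S.V × S.V) × S.V => ((gs (rk z.1.1), oo S.V (rk z.1.1)), z.1.2))
        (g := fun z : (S.V × S.V) × S.V => W z.1.1 z.1.2 z.2) ((hgd.mk (by fun_prop)).mk
          (by fun_prop)) hWd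
    have h2 : Dbl S.V (fun z : (S.V × S.V) × S.V =>
        R (gs (rk z.1.1)) (oo S.V (rk z.1.1)) z.1.2 (oo S.V (rk z.2))) :=
      Dbl.comp (f := fun z : (S.V × S.V) × S.V =>
          (((gs (rk z.1.1), oo S.V (rk z.1.1)), z.1.2), oo S.V (rk z.2)))
        (g := fun z : ((S.V × S.V) × S.V) × S.V => R z.1.1.1 z.1.1.2 z.1.2 z.2)
        (((hgd.mk (by fun_prop)).mk (by fun_prop)).mk (by fun_prop)) hRd
    refine (h1.and h2).congr_prop fun z => ?_
    have hW' := hW G (rk z.1.1) (gs (rk z.1.1)) (hGV _) (hgs _) z.1.2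
    constructor
    · rintro ⟨h3, h4⟩
      exact ⟨hW'.2 h3, (hR G _ _ (hGV _) (hgs _) _ _ h3).2 h4⟩
    · rintro ⟨h3, h4⟩
      have h5 := hW'.1 h3
      exact ⟨h5, (hR G _ _ (hGV _) (hgs _) _ _ h5).1 h4⟩

end Pool.Agent.SC
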