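import Pool.Agent.Lib_helper73.SCL.DPT
import Pool.Agent.Lib_helper73.SCL.EFD_a
import Pool.Agent.Lib_helper73.SCL.SCR

set_option linter.unusedSectionVars false

namespace Pool.Agent.SC

open FirstOrder Pool.Agent.Lib_helper27 Pool.Agent.Lib_helper27.ST

universe u v w

variable {S : MSys}

theorem efd_seq (S : MSys) (nu : Ordinal.{0}) : ∃ β : ℕ → Ordinal.{0}, StrictMono β ∧
    (∀ n, CInf S.V (β n)) ∧ ∀ n, nu < β n := by
  choose c hc hc' using cinf_unbounded S.V
  let β : ℕ → Ordinal.{0} := fun n => Nat.rec (c nu) (fun _ b => c b) n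
  have hs : ∀ n, β (n + 1) = c (β n) := fun n => rfl
  have hmono : StrictMono β := strictMono_nat_of_lt_succ fun n => by
    rw [hs]
    exact hc _
  refine ⟨β, hmono, fun n => ?_, fun n => ?_⟩
  · cases n with
    | zero => exact hc' nu
    | succ n => exact hc' (β n)
  · exact lt_of_lt_of_le (hc nu) (hmono.monotone (Nat.zero_le n))

theorem exists_FD (S : MSys) : Nonempty (FD S) := by
  have hY : ∀ θ, ∃ y ∈ YS S.V, θ < y := fun θ => ys_unbounded S.V θ
  obtain ⟨sc, good, isDef⟩ := exists_script S (bl := blk (YS S.V) S.κ) (blk_mono hY)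
    (blk_dbl (ys_dbl S.V) S.κ (dbl_rk Dbl.id))
  obtain ⟨m, θ0, hm, hdp⟩ := dpoint good isDef
  obtain ⟨β, hmono, hcinf, hlt⟩ := efd_seq S (max θ0 S.κ + 1)
  have hβks : ∀ n, β n < ⨆ n, β n := fun n =>
    lt_of_lt_of_le (hmono (Nat.lt_succ_self n)) (Ordinal.le_iSup β (n + 1))
  obtain ⟨bs, hbs, hbs'⟩ := cinf_unbounded S.V (⨆ n, β n)
  refine ⟨{ sc := sc, m := m, bs := bs, nu := max θ0 S.κ + 1, ks := ⨆ n, β n, good := good,
            isDef := isDef, hm := hm, cinf := hbs', κ_lt := ?_, nu_lt := ?_, ks_lt := hbs,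
            lim := ?_, dp := ?_ }⟩
  · exact Order.lt_add_one_iff.2 (le_max_right _ _)
  · exact (hlt 0).trans (hβks 0)
  · intro θ hθ
    obtain ⟨n, hn⟩ := (Ordinal.lt_iSup_iff).1 hθ
    exact ⟨β n, hn, hβks n, cinf_stab hm (hcinf n) hbs' ((hβks n).trans hbs).le⟩
  · intro α hα hst
    apply hdp α bs _ hbs' hst
    exact lt_of_le_of_lt (le_max_left θ0 S.κ) (lt_trans (Order.lt_add_one_iff.2 le_rfl) hα)

end Pool.Agent.SC
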