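import Pool.Agent.Lib_helper73.SCL.DD

/-!
# Block ENB: basic facts on the enumeration of constructible sets
-/

set_option linter.unusedSectionVars false

namespace Pool.Agent.SC

open FirstOrder Pool.Agent.Lib_helper27 Pool.Agent.Lib_helper27.ST

universe u v w

variable {A : Set ZFSet.{0}}

theorem ENB_congr {η : Ordinal.{0}} {f g : Ordinal.{0} → ZFSet.{0}} (h : ∀ ξ < η, f ξ = g ξ)
    {z : ZFSet.{0}} (hf : CPred A η f z) : CPred A η g z := by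
  obtain ⟨hx, hy, hf⟩ := hf
  have ex : f (xx η) = g (xx η) := h _ hx
  have ey : f (yy η) = g (yy η) := h _ hy
  have el : ∀ ι < xx η, f ι = g ι := fun ι hι => h ι (hι.trans hx)
  refine ⟨hx, hy, ?_⟩
  rw [ex, ey] at hf
  rcases hf with h0 | h1 | h2 | h3 | h4 | h5 | h6 | h7 | h8 | h9 | h10
  · obtain ⟨h0, ι, hι, hz⟩ := h0
    exact Or.inl ⟨h0, ι, hι, by rw [hz, el ι hι]⟩
  · exact Or.inr (Or.inl h1)
  · exact Or.inr (Or.inr (Or.inl h2))
  · exact Or.inr (Or.inr (Or.inr (Or.inl h3)))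
  · exact Or.inr (Or.inr (Or.inr (Or.inr (Or.inl h4))))
  · exact Or.inr (Or.inr (Or.inr (Or.inr (Or.inr (Or.inl h5)))))
  · exact Or.inr (Or.inr (Or.inr (Or.inr (Or.inr (Or.inr (Or.inl h6))))))
  · exact Or.inr (Or.inr (Or.inr (Or.inr (Or.inr (Or.inr (Or.inr (Or.inl h7)))))))
  · exact Or.inr (Or.inr (Or.inr (Or.inr (Or.inr (Or.inr (Or.inr (Or.inr (Or.inl h8))))))))
  · obtain ⟨h9, ι, ι', h11, h12, h13, h14⟩ := h9
    refine Or.inr (Or.inr (Or.inr (Or.inr (Or.inr (Or.inr (Or.inr (Or.inr (Or.inr (Or.inl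
      ⟨h9, ι, ι', h11, h12, ?_, ?_⟩)))))))))
    · intro j hj
      rw [← el j (hj.trans h12), ← el ι' h12]
      exact h13 j hj
    · rw [h14, el ι (h11.trans h12), el ι' h12]
  · exact Or.inr (Or.inr (Or.inr (Or.inr (Or.inr (Or.inr (Or.inr (Or.inr (Or.inr (Or.inr h10)))))))))

theorem ENB_congr_iff {η : Ordinal.{0}} {f g : Ordinal.{0} → ZFSet.{0}} (h : ∀ ξ < η, f ξ = g ξ)
    {z : ZFSet.{0}} : CPred A η f z ↔ CPred A η g z :=
  ⟨ENB_congr h, ENB_congr fun ξ hξ => (h ξ hξ).symm⟩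

open Classical in
theorem ENB_eq (η : Ordinal.{0}) : en A η =
    ZFSet.sep (CPred A η fun ξ => if _h : ξ < η then en A ξ else ∅)
      (ZFSet.range fun ξ : Set.Iio η => en A ξ.1) := by
  unfold en
  rw [WellFounded.fix_eq]

theorem mem_en {η : Ordinal.{0}} {z : ZFSet.{0}} :
    z ∈ en A η ↔ (∃ ξ < η, en A ξ = z) ∧ CPred A η (en A) z := by
  classical
  rw [ENB_eq, ZFSet.mem_sep, ZFSet.mem_range]
  refine and_congr ?_ ?_
  · constructor
    · rintro ⟨ξ, h⟩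
      exact ⟨ξ.1, ξ.2, h⟩
    · rintro ⟨ξ, h, h'⟩
      exact ⟨⟨ξ, h⟩, h'⟩
  · apply ENB_congr_iff
    intro ξ hξ
    simp [hξ]

theorem mem_layer {δ : Ordinal.{0}} {z : ZFSet.{0}} :
    z ∈ layer A δ ↔ ∃ ξ < δ, en A ξ = z := by
  unfold layer
  rw [ZFSet.mem_range]
  constructor
  · rintro ⟨ξ, h⟩
    exact ⟨ξ.1, ξ.2, h⟩
  · rintro ⟨ξ, h, h'⟩
    exact ⟨⟨ξ, h⟩, h'⟩

theorem LA_trans {x y : ZFSet.{0}} (hx : x ∈ LA A) (hy : y ∈ x) : y ∈ LA A := by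
  obtain ⟨η, rfl⟩ := hx
  obtain ⟨⟨ξ, -, h⟩, -⟩ := mem_en.1 hy
  exact ⟨ξ, h⟩

theorem layer_trans {δ : Ordinal.{0}} : (layer A δ).IsTransitive := by
  intro y hy z hz
  obtain ⟨ξ, hξ, rfl⟩ := mem_layer.1 hy
  obtain ⟨⟨ζ, hζ, h⟩, -⟩ := mem_en.1 hz
  exact mem_layer.2 ⟨ζ, hζ.trans hξ, h⟩

/-- a set of constructible sets is included in a layer -/
theorem LA_cover (x : ZFSet.{0}) (h : ∀ y ∈ x, y ∈ LA A) : ∃ δ, x ⊆ layer A δ := by
  have h' : ∀ y : {y : ZFSet.{0} // y ∈ x}, ∃ η, en A η = y.1 := fun y => h y.1 y.2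
  choose c hc using h'
  have : Small.{0} {y : ZFSet.{0} // y ∈ x} := ZFSet.small_coe x
  have hb : BddAbove (Set.range fun y : {y : ZFSet.{0} // y ∈ x} => c y + 1) :=
    Ordinal.bddAbove_of_small
  refine ⟨⨆ y : {y : ZFSet.{0} // y ∈ x}, (c y + 1), ?_⟩
  intro y hy
  refine mem_layer.2 ⟨c ⟨y, hy⟩, ?_, hc ⟨y, hy⟩⟩
  exact lt_of_lt_of_le (lt_add_one _) (le_ciSup hb ⟨y, hy⟩)

/-- The general closure principle: if for all large `η` with code `(k, x, y)` the elements of the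
set `D ⊆ L[A]` are given by the `η`-th predicate, then `D` is constructible. -/
theorem LA_of_code (k x y : Ordinal.{0}) (D : ZFSet.{0}) (hD : ∀ z ∈ D, z ∈ LA A)
    (h : ∀ η, kk η = k → xx η = x → yy η = y → x < η → y < η →
      ∀ z, (∃ ξ < η, en A ξ = z) → (CPred A η (en A) z ↔ z ∈ D)) : D ∈ LA A := by
  obtain ⟨δ, hδ⟩ := LA_cover D hD
  obtain ⟨η, hη, hk, hx, hy⟩ := exists_code k x y (max δ (max x y))
  have h1 : δ < η := (le_max_left _ _).trans_lt hη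
  have h2 : x < η := ((le_max_left _ _).trans (le_max_right _ _)).trans_lt hη
  have h3 : y < η := ((le_max_right _ _).trans (le_max_right _ _)).trans_lt hη
  refine ⟨η, ?_⟩
  ext z
  rw [mem_en]
  constructor
  · rintro ⟨h4, h5⟩
    exact (h η hk hx hy h2 h3 z h4).1 h5
  · intro hz
    obtain ⟨ξ, hξ, h4⟩ := mem_layer.1 (hδ hz)
    have h5 : ∃ ξ < η, en A ξ = z := ⟨ξ, hξ.trans h1, h4⟩
    exact ⟨h5, (h η hk hx hy h2 h3 z h5).2 hz⟩

end Pool.Agent.SC
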