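import Pool.Agent.Lib_helper73.SCL.ADB
import Pool.Agent.Lib_helper73.SCL.ENC

/-! MP_80bdc1_lc, block FFC: closure properties of definable finite support functions. -/

set_option linter.unusedSectionVars false

namespace Pool.Agent.SC

open FirstOrder Pool.Agent.Lib_helper27 Pool.Agent.Lib_helper27.ST

universe u v w

variable {S : MSys}

section FF

variable {c c' : Finset Ordinal.{0}} {X : Type w} [Tgt S.V X] {Γ : Type u} {Δ : Type v} [Ctx S.V Γ]
  [Ctx S.V Δ]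

theorem FF.mono {f : Asg S → X} (hf : FF c f) (h : c ⊆ c') : FF c' f := by
  obtain ⟨H, hH, hf⟩ := hf
  refine ⟨fun w => H (resf (fc S c) w), Dbl.comp (resf_dbl (Dbl.const _) Dbl.id) hH, fun z => ?_⟩
  show f z = H (resf (fc S c) (enc c' z))
  rw [resf_enc h, hf]

theorem FF.supp {f : Asg S → X} (hf : FF c f) : Supp c f := by
  obtain ⟨H, _, hf⟩ := hf
  intro z z' h
  rw [hf, hf, enc_congr h]

theorem FF.comp {f : Asg S → Γ} (hf : FF c f) {G : Γ → X} (hG : Dbl S.V G) :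
    FF c (fun z => G (f z)) := by
  obtain ⟨H, hH, hf⟩ := hf
  exact ⟨fun w => G (H w), Dbl.comp hH hG, fun z => by simp only [hf]⟩

theorem FF.pair {f : Asg S → Γ} {g : Asg S → Δ} (hf : FF c f) (hg : FF c g) :
    FF c (fun z => (f z, g z)) := by
  obtain ⟨H, hH, hf⟩ := hf
  obtain ⟨K, hK, hg⟩ := hg
  exact ⟨fun w => (H w, K w), Dbl.mk hH hK, fun z => by simp only [hf, hg]⟩

theorem FF.const (x : X) : FF c (fun _ : Asg S => x) :=
  ⟨fun _ => x, Dbl.const x, fun _ => rfl⟩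

theorem FF.oo {a : Asg S → Ordinal.{0}} (ha : FF c a) : FF c (fun z => SC.oo S.V (a z)) := by
  obtain ⟨H, hH, hf⟩ := ha
  exact ⟨fun w => SC.oo S.V (H w), dbl_oo hH, fun z => by simp only [hf]⟩

theorem FF.rk {f : Asg S → S.V} (hf : FF c f) : FF c (fun z => SC.rk (f z)) := by
  obtain ⟨H, hH, hf⟩ := hf
  exact ⟨fun w => SC.rk (H w), dbl_rk hH, fun z => by simp only [hf]⟩

theorem FF.compo {a : Asg S → Ordinal.{0}} (ha : FF c a) {F : Ordinal.{0} → X}
    (hF : Dbl S.V (fun x : S.V => F (SC.rk x))) : FF c (fun z => F (a z)) := by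
  obtain ⟨H, hH, hf⟩ := ha
  exact ⟨fun w => F (H w), dbl_app' hF hH, fun z => by simp only [hf]⟩

theorem FF.coord {s : Ordinal.{0}} (hs : s ∈ c) : FF c (fun z : Asg S => (z s).1) := by
  refine ⟨fun w => SC.rk (fapp w (SC.oo S.V s)), dbl_rk (dbl_fapp Dbl.id (Dbl.const _)),
    fun z => ?_⟩
  show (z s).1 = SC.rk (fapp (enc c z) (SC.oo S.V s))
  rw [fapp_enc hs, rk_oo]

theorem FF.not {φ : Asg S → Prop} (h : FF c φ) : FF c (fun z => ¬ φ z) := by
  obtain ⟨H, hH, hf⟩ := h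
  exact ⟨fun w => ¬ H w, Dbl.not hH, fun z => by simp only [hf]⟩

theorem FF.and {φ ψ : Asg S → Prop} (h : FF c φ) (h' : FF c ψ) :
    FF c (fun z => φ z ∧ ψ z) := by
  obtain ⟨H, hH, hf⟩ := h
  obtain ⟨K, hK, hg⟩ := h'
  exact ⟨fun w => H w ∧ K w, Dbl.and hH hK, fun z => by simp only [hf, hg]⟩

theorem FF.it (sc : Scr S) {m : Ordinal.{0}} {φ : Asg S → Prop} (hm : ∀ t ∈ c, t < m)
    (hb : sc.b m ⊆ c) (h : FF (insert m c) φ) : FF c (sc.It m φ) := by
  classical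
  obtain ⟨G, hG, hg⟩ := FF.mono (sc.g_ff m) hb
  obtain ⟨H, hH, hf⟩ := h
  have hmc : m ∉ c := fun h => lt_irrefl _ (hm m h)
  have hi : Dbl S.V (fun w : S.V => SC.rk (if G w ≤ S.κ then SC.oo S.V (G w) else
      SC.oo S.V S.κ)) := by
    refine dbl_rk (Dbl_ite (dbl_le hG (Dbl.const _)) (dbl_oo hG) (Dbl.const _))
  have hle : ∀ w : S.V, SC.rk (if G w ≤ S.κ then SC.oo S.V (G w) else SC.oo S.V S.κ) ≤ S.κ := by
    intro w
    split_ifs with h1
    · rw [rk_oo]; exact h1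
    · rw [rk_oo]
  have hP : Dbl S.V (fun z : S.V × S.V => H (union z.1 (upair
      (opair (SC.oo S.V m) (SC.oo S.V (SC.rk z.2))) (opair (SC.oo S.V m)
        (SC.oo S.V (SC.rk z.2)))))) := by
    have h1 : Dbl S.V (fun z : S.V × S.V => SC.oo S.V (SC.rk z.2)) := dbl_oo (dbl_rk Dbl.snd)
    have h2 : Dbl S.V (fun z : S.V × S.V => union z.1 (upair
      (opair (SC.oo S.V m) (SC.oo S.V (SC.rk z.2))) (opair (SC.oo S.V m)
        (SC.oo S.V (SC.rk z.2))))) := by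
      fun_prop
    exact Dbl.comp h2 hH
  refine ⟨fun w => ∀ᶠ ξ : Set.Iio S.κ in S.U (SC.rk (if G w ≤ S.κ then SC.oo S.V (G w) else
      SC.oo S.V S.κ)), H (union w (upair
      (opair (SC.oo S.V m) (SC.oo S.V ξ.1)) (opair (SC.oo S.V m)
        (SC.oo S.V ξ.1)))), ?_, ?_⟩
  · exact dbl_ev (P := fun w α => H (union w (upair
      (opair (SC.oo S.V m) (SC.oo S.V α)) (opair (SC.oo S.V m)
        (SC.oo S.V α))))) hi hle hP
  · intro z
    have h1 : G (enc c z) ≤ S.κ := by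
      rw [← hg]
      exact sc.g_le m z
    simp only [if_pos h1, rk_oo]
    rw [← hg]
    unfold Scr.It
    simp only [hf, enc_insert hmc]

end FF

end Pool.Agent.SC
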