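import Pool.Agent.Lib_helper73.SCL.PIF_a

set_option linter.unusedSectionVars false

namespace Pool.Agent.SC

open FirstOrder Pool.Agent.Lib_helper27 Pool.Agent.Lib_helper27.ST

universe u v w

variable {S : MSys}

namespace FD

variable (F : FD S)

variable {F} {f h : Asg S → S.V} {a : Asg S → Ordinal.{0}}

theorem mem_piO {α : Ordinal.{0}} {x : ZFSet.{0}} :
    x ∈ F.piO α ↔ ∃ β < α, F.EN β α ∧ F.piO β = x := by
  have h1 : F.piO α = ZFSet.range fun β : {β : Set.Iio α // F.EN β.1 α} => F.piO β.1.1 := by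
    unfold piO
    rw [WellFounded.fix_eq]
  rw [h1, ZFSet.mem_range]
  constructor
  · rintro ⟨β, hβ⟩
    exact ⟨β.1.1, β.1.2, β.2, hβ⟩
  · rintro ⟨β, hβ, h2, h3⟩
    exact ⟨⟨⟨β, hβ⟩, h2⟩, h3⟩

theorem PIF_en_dbl (S : MSys) :
    Dbl S.V (fun x : S.V => (⟨en S.A (rk x), Set.mem_range_self _⟩ : S.V)) :=
  en_dblV S (a := fun x : S.V => rk x) (dbl_rk Dbl.id)

theorem PIF_fs_en (ha : F.sc.FS F.ks a) :
    F.sc.FS F.ks (fun z => (⟨en S.A (a z), Set.mem_range_self _⟩ : S.V)) :=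
  FS_compo (F := fun α => (⟨en S.A α, Set.mem_range_self _⟩ : S.V)) ha (PIF_en_dbl S)

theorem PIF_fs_mem {a b : Asg S → Ordinal.{0}} (ha : F.sc.FS F.ks a) (hb : F.sc.FS F.ks b) :
    F.sc.FS F.ks (fun z => en S.A (a z) ∈ en S.A (b z)) :=
  FS_mem (PIF_fs_en ha) (PIF_fs_en hb)

theorem PIF_fs_eq {a b : Asg S → Ordinal.{0}} (ha : F.sc.FS F.ks a) (hb : F.sc.FS F.ks b) :
    F.sc.FS F.ks (fun z => en S.A (a z) = en S.A (b z)) := by
  have h1 := FS_eq (PIF_fs_en ha) (PIF_fs_en hb)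
  have h2 : (fun z => en S.A (a z) = en S.A (b z)) = fun z =>
      (⟨en S.A (a z), Set.mem_range_self _⟩ : S.V) = ⟨en S.A (b z), Set.mem_range_self _⟩ := by
    funext z
    exact propext ⟨fun h => Subtype.ext h, fun h => congrArg Subtype.val h⟩
  rw [h2]
  exact h1

theorem EN_iff {a b : Asg S → Ordinal.{0}} (ha : F.sc.FS F.ks a) (hb : F.sc.FS F.ks b) :
    F.EN (F.sc.rho F.ks a) (F.sc.rho F.ks b) ↔ F.sc.AE fun z => en S.A (a z) ∈ en S.A (b z) := by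
  constructor
  · rintro ⟨a', b', ha', hb', h1, h2, h3⟩
    rw [rho_eq ha' ha] at h1
    rw [rho_eq hb' hb] at h2
    have h4 := (AE_and (AE_fs h1) (AE_fs h2)).2 ⟨h1, h2⟩
    have h5 := (AE_and (AE_fs h4) (AE_fs h3)).2 ⟨h4, h3⟩
    refine AE_mono (FS_fs (PIF_fs_mem ha hb)) h5 ?_
    rintro z ⟨⟨h6, h7⟩, h8⟩
    rwa [h6, h7] at h8
  · intro h1
    exact ⟨a, b, ha, hb, rfl, rfl, h1⟩

theorem PIF_choice {a b : Asg S → Ordinal.{0}} (ha : F.sc.FS F.ks a) (hb : F.sc.FS F.ks b)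
    (h : F.sc.AE fun z => en S.A (a z) ∈ en S.A (b z)) :
    ∃ c, F.sc.FS F.ks c ∧ F.sc.rho F.ks c < F.sc.rho F.ks b ∧
      F.sc.AE (fun z => en S.A (c z) = en S.A (a z)) ∧
      F.sc.AE (fun z => en S.A (c z) ∈ en S.A (b z)) := by
  obtain ⟨c, hc, hc'⟩ := FS_choice_ord (Γ := S.V × S.V)
    (f := fun z => (oo S.V (a z), oo S.V (b z)))
    (FS_pair (FS_oo ha) (FS_oo hb))
    (P := fun γ α => α < rk γ.2 ∧ (⟨en S.A α, Set.mem_range_self _⟩ : S.V) =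
      (⟨en S.A (rk γ.1), Set.mem_range_self _⟩ : S.V)) (by
      refine Dbl.and ?_ ?_
      · refine dbl_lt ?_ ?_
        · fun_prop
        · fun_prop
      · refine Dbl.eq ?_ ?_
        · exact en_dblV S (dbl_rk Dbl.snd)
        · exact en_dblV S (dbl_rk (Dbl.comp (Dbl.fst) (Dbl.fst))))
  have key : ∀ z, en S.A (a z) ∈ en S.A (b z) → c z < b z ∧ en S.A (c z) = en S.A (a z) := by
    intro z hz
    obtain ⟨⟨ξ, hξ, h1⟩, -⟩ := mem_en.1 hz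
    have h2 := hc' z ⟨ξ, by simpa using hξ, by
      apply Subtype.ext
      simpa using h1⟩
    refine ⟨by simpa using h2.1, ?_⟩
    have h3 := congrArg Subtype.val h2.2
    simpa using h3
  have h1 : F.sc.AE (fun z => c z < b z) := AE_mono (FS_fs (FS_lt hc hb)) h fun z hz => (key z hz).1
  have h2 : F.sc.AE (fun z => en S.A (c z) = en S.A (a z)) :=
    AE_mono (FS_fs (PIF_fs_eq hc ha)) h fun z hz => (key z hz).2
  have h3 : F.sc.AE (fun z => en S.A (c z) ∈ en S.A (b z)) :=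
    AE_mono (FS_fs (PIF_fs_mem hc hb)) h fun z hz => by rw [(key z hz).2]; exact hz
  exact ⟨c, hc, (rho_lt hc hb).2 h1, h2, h3⟩

theorem PIF_mem {a b : Asg S → Ordinal.{0}} (ha : F.sc.FS F.ks a) (hb : F.sc.FS F.ks b)
    (H : ∀ c, F.sc.FS F.ks c → F.sc.rho F.ks c < F.sc.rho F.ks b →
      (F.piO (F.sc.rho F.ks c) = F.piO (F.sc.rho F.ks a) ↔
        F.sc.AE fun z => en S.A (c z) = en S.A (a z))) :
    F.piO (F.sc.rho F.ks a) ∈ F.piO (F.sc.rho F.ks b) ↔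
      F.sc.AE fun z => en S.A (a z) ∈ en S.A (b z) := by
  constructor
  · intro h1
    obtain ⟨γ, hγ, h2, h3⟩ := mem_piO.1 h1
    obtain ⟨c, b', hc, hb', rfl, h4, h5⟩ := h2
    have h6 := (H c hc hγ).1 h3
    rw [rho_eq hb' hb] at h4
    have h7 := (AE_and (AE_fs h6) (AE_fs h4)).2 ⟨h6, h4⟩
    have h8 := (AE_and (AE_fs h7) (AE_fs h5)).2 ⟨h7, h5⟩
    refine AE_mono (FS_fs (PIF_fs_mem ha hb)) h8 ?_
    rintro z ⟨⟨h6, h7⟩, h8⟩
    rwa [h6, h7] at h8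
  · intro h1
    obtain ⟨c, hc, h2, h3, h4⟩ := PIF_choice ha hb h1
    rw [← (H c hc h2).2 h3]
    exact mem_piO.2 ⟨_, h2, (EN_iff hc hb).2 h4, rfl⟩

theorem PIF_ext {a b : Asg S → Ordinal.{0}} (ha : F.sc.FS F.ks a) (hb : F.sc.FS F.ks b)
    (h : F.sc.AE fun z => ¬ en S.A (a z) = en S.A (b z)) :
    ∃ c, F.sc.FS F.ks c ∧
      ((F.sc.AE (fun z => en S.A (c z) ∈ en S.A (a z)) ∧
        F.sc.AE (fun z => ¬ en S.A (c z) ∈ en S.A (b z))) ∨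
      (F.sc.AE (fun z => en S.A (c z) ∈ en S.A (b z)) ∧
        F.sc.AE (fun z => ¬ en S.A (c z) ∈ en S.A (a z)))) := by
  obtain ⟨c, hc, hc'⟩ := FS_choice_ord (Γ := S.V × S.V)
    (f := fun z => ((⟨en S.A (a z), Set.mem_range_self _⟩ : S.V),
      (⟨en S.A (b z), Set.mem_range_self _⟩ : S.V)))
    (FS_pair (PIF_fs_en ha) (PIF_fs_en hb))
    (P := fun γ α => ((⟨en S.A α, Set.mem_range_self _⟩ : S.V) ∈ γ.1 ∧
      ¬ (⟨en S.A α, Set.mem_range_self _⟩ : S.V) ∈ γ.2) ∨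
      ((⟨en S.A α, Set.mem_range_self _⟩ : S.V) ∈ γ.2 ∧
      ¬ (⟨en S.A α, Set.mem_range_self _⟩ : S.V) ∈ γ.1)) (by
      have h0 : Dbl S.V (fun z : (S.V × S.V) × S.V =>
        (⟨en S.A (rk z.2), Set.mem_range_self _⟩ : S.V)) := en_dblV S (dbl_rk Dbl.snd)
      fun_prop)
  have key : ∀ z, ¬ en S.A (a z) = en S.A (b z) →
      (en S.A (c z) ∈ en S.A (a z) ∧ ¬ en S.A (c z) ∈ en S.A (b z)) ∨
      (en S.A (c z) ∈ en S.A (b z) ∧ ¬ en S.A (c z) ∈ en S.A (a z)) := by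
    intro z hz
    refine hc' z ?_
    by_contra hcon
    apply hz
    ext x
    constructor
    · intro h1
      obtain ⟨⟨ξ, hξ, rfl⟩, -⟩ := mem_en.1 h1
      by_contra h2
      exact hcon ⟨ξ, Or.inl ⟨h1, h2⟩⟩
    · intro h1
      obtain ⟨⟨ξ, hξ, rfl⟩, -⟩ := mem_en.1 h1
      by_contra h2
      exact hcon ⟨ξ, Or.inr ⟨h1, h2⟩⟩
  have f1 := PIF_fs_mem hc ha
  have f2 := PIF_fs_mem hc hb
  have h1 := AE_mono (FS_fs (FS_or (FS_and f1 (FS_not f2)) (FS_and f2 (FS_not f1)))) h key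
  rw [AE_or (FS_fs (FS_and f1 (FS_not f2))) (FS_fs (FS_and f2 (FS_not f1))),
    AE_and (FS_fs f1) (FS_fs (FS_not f2)), AE_and (FS_fs f2) (FS_fs (FS_not f1))] at h1
  exact ⟨c, hc, h1⟩

theorem PIF_eq (μ : Ordinal.{0}) : ∀ a b : Asg S → Ordinal.{0}, F.sc.FS F.ks a → F.sc.FS F.ks b →
    F.sc.rho F.ks a ≤ μ → F.sc.rho F.ks b ≤ μ →
    (F.piO (F.sc.rho F.ks a) = F.piO (F.sc.rho F.ks b) ↔
      F.sc.AE fun z => en S.A (a z) = en S.A (b z)) := by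
  induction μ using WellFoundedLT.induction with
  | ind μ ih =>
  intro a b ha hb h1 h2
  have sub : ∀ a b : Asg S → Ordinal.{0}, F.sc.FS F.ks a → F.sc.FS F.ks b →
      F.sc.rho F.ks a ≤ μ → F.sc.rho F.ks b ≤ μ →
      (F.sc.AE fun z => en S.A (a z) = en S.A (b z)) →
      F.piO (F.sc.rho F.ks a) ⊆ F.piO (F.sc.rho F.ks b) := by
    intro a b ha hb h1 h2 hab x hx
    obtain ⟨γ, hγ, h3, h4⟩ := mem_piO.1 hx
    obtain ⟨c, hc, rfl⟩ := piO_rep F γ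
    have h5 := (EN_iff hc ha).1 h3
    have h6 : F.sc.AE fun z => en S.A (c z) ∈ en S.A (b z) := by
      refine AE_mono (FS_fs (PIF_fs_mem hc hb)) ((AE_and (AE_fs h5) (AE_fs hab)).2 ⟨h5, hab⟩) ?_
      rintro z ⟨h7, h8⟩
      rwa [h8] at h7
    obtain ⟨d, hd, h7, h8, h9⟩ := PIF_choice hc hb h6
    have h10 := (ih (max (F.sc.rho F.ks d) (F.sc.rho F.ks c))
      (max_lt (h7.trans_le h2) (hγ.trans_le h1)) d c hd hc (le_max_left _ _) (le_max_right _ _)).2 h8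
    rw [← h4, ← h10]
    exact mem_piO.2 ⟨_, h7, (EN_iff hd hb).2 h9, rfl⟩
  constructor
  · intro h3
    by_contra h4
    rw [← AE_not (FS_fs (PIF_fs_eq ha hb))] at h4
    obtain ⟨c, hc, hcc⟩ := PIF_ext ha hb h4
    have key : ∀ a b : Asg S → Ordinal.{0}, F.sc.FS F.ks a → F.sc.FS F.ks b →
        F.sc.rho F.ks a ≤ μ → F.sc.rho F.ks b ≤ μ →
        F.piO (F.sc.rho F.ks a) = F.piO (F.sc.rho F.ks b) →
        F.sc.AE (fun z => en S.A (c z) ∈ en S.A (a z)) →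
        F.sc.AE (fun z => ¬ en S.A (c z) ∈ en S.A (b z)) → False := by
      intro a b ha hb h1 h2 h3 h5 h6
      obtain ⟨d, hd, h7, h8, h9⟩ := PIF_choice hc ha h5
      have h10 : F.piO (F.sc.rho F.ks d) ∈ F.piO (F.sc.rho F.ks b) := by
        rw [← h3]
        exact mem_piO.2 ⟨_, h7, (EN_iff hd ha).2 h9, rfl⟩
      rw [PIF_mem hd hb (fun e he h11 => ih (max (F.sc.rho F.ks e) (F.sc.rho F.ks d))
        (max_lt (h11.trans_le h2) (h7.trans_le h1)) e d he hd (le_max_left _ _)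
        (le_max_right _ _))] at h10
      obtain ⟨z, ⟨h12, h13⟩, h14⟩ := AE_exists ((AE_and (AE_fs ((AE_and (AE_fs h8) (AE_fs h10)).2
        ⟨h8, h10⟩)) (AE_fs h6)).2 ⟨(AE_and (AE_fs h8) (AE_fs h10)).2 ⟨h8, h10⟩, h6⟩)
      rw [h12] at h13
      exact h14 h13
    rcases hcc with ⟨h5, h6⟩ | ⟨h5, h6⟩
    · exact key a b ha hb h1 h2 h3 h5 h6
    · exact key b a hb ha h2 h1 h3.symm h5 h6
  · intro h3
    have h4 : F.sc.AE fun z => en S.A (b z) = en S.A (a z) :=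
      AE_mono (FS_fs (PIF_fs_eq hb ha)) h3 fun z hz => hz.symm
    ext x
    exact ⟨fun hx => sub a b ha hb h1 h2 h3 hx, fun hx => sub b a hb ha h2 h1 h4 hx⟩

theorem piO_mem_iff {a b : Asg S → Ordinal.{0}} (ha : F.sc.FS F.ks a) (hb : F.sc.FS F.ks b) :
    (F.piO (F.sc.rho F.ks a) ∈ F.piO (F.sc.rho F.ks b) ↔
      F.sc.AE fun z => en S.A (a z) ∈ en S.A (b z)) ∧
    (F.piO (F.sc.rho F.ks a) = F.piO (F.sc.rho F.ks b) ↔
      F.sc.AE fun z => en S.A (a z) = en S.A (b z)) :=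
  ⟨PIF_mem ha hb fun c hc _ => PIF_eq (max (F.sc.rho F.ks c) (F.sc.rho F.ks a)) c a hc ha
    (le_max_left _ _) (le_max_right _ _),
   PIF_eq (max (F.sc.rho F.ks a) (F.sc.rho F.ks b)) a b ha hb
    (le_max_left _ _) (le_max_right _ _)⟩

theorem PIF_fs_cod (hf : F.sc.FS F.ks f) : F.sc.FS F.ks (fun z => cod (f z)) :=
  FS_comp hf (G := fun x : S.V => cod x) (cod_dbl Dbl.id)

theorem Pi_en (ha : F.sc.FS F.ks a) :
    F.Pi (fun z => (⟨en S.A (a z), Set.mem_range_self _⟩ : S.V)) = F.piO (F.sc.rho F.ks a) := by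
  unfold Pi
  refine (piO_mem_iff (PIF_fs_cod (PIF_fs_en ha)) ha).2.2 (AE_all fun z => ?_)
  exact (cod_spec (⟨en S.A (a z), Set.mem_range_self _⟩ : S.V)).1

theorem Pi_mem (hf : F.sc.FS F.ks f) (hh : F.sc.FS F.ks h) :
    F.Pi f ∈ F.Pi h ↔ F.sc.AE fun z => f z ∈ h z := by
  unfold Pi
  rw [(piO_mem_iff (PIF_fs_cod hf) (PIF_fs_cod hh)).1]
  have : (fun z => en S.A (cod (f z)) ∈ en S.A (cod (h z))) = fun z => f z ∈ h z := by
    funext z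
    rw [(cod_spec (f z)).1, (cod_spec (h z)).1]
    rfl
  rw [this]

theorem Pi_eq (hf : F.sc.FS F.ks f) (hh : F.sc.FS F.ks h) :
    F.Pi f = F.Pi h ↔ F.sc.AE fun z => f z = h z := by
  unfold Pi
  rw [(piO_mem_iff (PIF_fs_cod hf) (PIF_fs_cod hh)).2]
  have : (fun z => en S.A (cod (f z)) = en S.A (cod (h z))) = fun z => f z = h z := by
    funext z
    rw [(cod_spec (f z)).1, (cod_spec (h z)).1]
    exact propext Subtype.ext_iff.symm
  rw [this]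

theorem Pi_surj (hh : F.sc.FS F.ks h) {x : ZFSet.{0}} (hx : x ∈ F.Pi h) :
    ∃ f, F.sc.FS F.ks f ∧ x = F.Pi f ∧ F.sc.AE fun z => f z ∈ h z := by
  unfold Pi at hx
  obtain ⟨β, hβ, h1, h2⟩ := mem_piO.1 hx
  obtain ⟨a, ha, rfl⟩ := piO_rep F β
  have h3 := (EN_iff ha (PIF_fs_cod hh)).1 h1
  refine ⟨_, PIF_fs_en ha, ?_, ?_⟩
  · rw [Pi_en ha, h2]
  · refine AE_mono (FS_fs (FS_mem (PIF_fs_en ha) hh)) h3 fun z hz => ?_
    rw [(cod_spec (h z)).1] at hz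
    exact hz

end FD

end Pool.Agent.SC
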