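import Pool.Agent.Lib_helper73.SCL.LOS_a
import Pool.Agent.Lib_helper73.SCL.PIF

/-!
# Block LOS: elementarity of the iterate
-/

set_option linter.unusedSectionVars false

namespace Pool.Agent.SC

open FirstOrder Pool.Agent.Lib_helper27 Pool.Agent.Lib_helper27.ST

universe u v w

/-- finite tuples as a context -/
@[reducible]
def LOS_ctx (M : Type u) (k : ℕ) : Ctx M (_root_.Fin k → M) where
  idx := _root_.Fin k
  fin := inferInstance
  coord := Equiv.refl _

attribute [local instance] LOS_ctx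

theorem LOS_sat {V : Set ZFSet.{0}} {k : ℕ} (φ : Fm k) :
    Dbl V (fun v : _root_.Fin k → V => Sat V φ v) := by
  rw [dbl_prop_iff]
  have h : (∅ : Set V).Definable LSet
      (codes (↥V) (fun v : _root_.Fin k → V => Sat V φ v)) := by
    rw [Set.empty_definable_iff]
    refine ⟨Language.Formula.relabel (Sum.elim Empty.elim id : Empty ⊕ _root_.Fin k → _root_.Fin k)
      (Language.BoundedFormula.toFormula φ), ?_⟩
    ext v
    show Sat V φ v ↔ _
    rw [Set.mem_ofPred_eq, Language.Formula.realize_relabel,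
      Language.BoundedFormula.realize_toFormula]
    unfold Sat
    have h1 : (v ∘ (Sum.elim Empty.elim id : Empty ⊕ _root_.Fin k → _root_.Fin k)) ∘ Sum.inl = Empty.elim := by
      funext e
      exact e.elim
    have h2 : (v ∘ (Sum.elim Empty.elim id : Empty ⊕ _root_.Fin k → _root_.Fin k)) ∘ Sum.inr = v := by
      funext i
      rfl
    rw [h1, h2]
  exact h.mono (Set.empty_subset _)

theorem LOS_snoc {V : Set ZFSet.{0}} (k : ℕ) :
    Dbl V (fun z : (_root_.Fin k → V) × V => (Fin.snoc z.1 z.2 : _root_.Fin (k + 1) → V)) := by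
  have h : (show Set ((Ctx.idx V ((_root_.Fin k → V) × V)) ⊕ (Tgt.idx V (_root_.Fin (k + 1) → V)) → V)
      from fun v =>
      Tgt.graph (M := V) ((fun z : (_root_.Fin k → V) × V => (Fin.snoc z.1 z.2 : _root_.Fin (k + 1) → V))
        ((Ctx.coord (M := V)).symm (fun i => v (Sum.inl i)))) (fun i => v (Sum.inr i))) =
      ⋂ i : _root_.Fin (k + 1), (show Set (((_root_.Fin k ⊕ Unit) ⊕ _root_.Fin (k + 1)) → V) from fun v =>
        v (Sum.inr i) = v (Sum.inl (Fin.lastCases (Sum.inr ()) (fun j => Sum.inl j) i))) := by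
    ext v
    rw [Set.mem_iInter]
    show (Fin.snoc (fun j : _root_.Fin k => v (Sum.inl (Sum.inl j))) (v (Sum.inl (Sum.inr ()))) :
      _root_.Fin (k + 1) → V) = (fun i => v (Sum.inr i)) ↔ ∀ i : _root_.Fin (k + 1), v (Sum.inr i) =
        v (Sum.inl (Fin.lastCases (Sum.inr ()) (fun j => Sum.inl j) i))
    rw [funext_iff]
    constructor
    · intro h i
      rw [← h i]
      refine Fin.lastCases ?_ (fun j => ?_) i
      · simp
      · simp
    · intro h i
      rw [h i]
      refine Fin.lastCases ?_ (fun j => ?_) i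
      · simp
      · simp
  unfold Dbl
  rw [h]
  exact Set.definable_iInter_of_finite fun i => definable_eq _ _

theorem LOS_empty {V : Set ZFSet.{0}} (x y : _root_.Fin 0 → V) : x = y := by
  funext i
  exact i.elim0

variable {S : MSys}

namespace FD

variable (F : FD S)

theorem LOS_FS {k : ℕ} (f : _root_.Fin k → Asg S → S.V) (hf : ∀ i, F.sc.FS F.ks (f i)) :
    F.sc.FS F.ks (fun z => (fun i => f i z : _root_.Fin k → S.V)) := by
  induction k with
  | zero =>
    have h := FS_const F.sc F.ks (X := _root_.Fin 0 → S.V) Fin.elim0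
    have h2 : (fun z : Asg S => (fun i => f i z : _root_.Fin 0 → S.V)) =
        fun _ : Asg S => (Fin.elim0 : _root_.Fin 0 → S.V) := by
      funext z
      exact LOS_empty _ _
    rw [h2]
    exact h
  | succ k ih =>
    have h1 := ih (fun i => f i.castSucc) (fun i => hf _)
    have h2 := hf (Fin.last k)
    have h3 := FS_comp (FS_pair h1 h2) (LOS_snoc (V := S.V) k)
    have h4 : (fun z : Asg S => (fun i => f i z : _root_.Fin (k + 1) → S.V)) =
        fun z : Asg S => (Fin.snoc (fun i : _root_.Fin k => f i.castSucc z) (f (Fin.last k) z) :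
          _root_.Fin (k + 1) → S.V) := by
      funext z i
      refine Fin.lastCases ?_ (fun j => ?_) i
      · simp
      · simp
    rw [h4]
    exact h3

theorem LOS_FSsat {k : ℕ} (φ : Fm k) (f : _root_.Fin k → Asg S → S.V)
    (hf : ∀ i, F.sc.FS F.ks (f i)) :
    F.sc.FS F.ks (fun z => Sat S.V φ (fun i => f i z)) :=
  FS_comp (F.LOS_FS f hf) (LOS_sat (V := S.V) φ)

variable {F}

theorem los {k : ℕ} (φ : Fm k) (f : Fin k → Asg S → S.V) (hf : ∀ i, F.sc.FS F.ks (f i)) :
    Sat F.NN φ (fun i => ⟨F.Pi (f i), mem_NN (f i) (hf i)⟩) ↔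
      F.sc.AE fun z => Sat S.V φ (fun i => f i z) := by
  induction φ with
  | falsum =>
    show False ↔ F.sc.AE fun _ => False
    rw [AE_const]
  | @equal n t₁ t₂ =>
    rcases t₁ with (e | i) | ⟨g, _⟩
    · exact e.elim
    · rcases t₂ with (e | j) | ⟨g, _⟩
      · exact e.elim
      · have h1 : Sat F.NN (Language.BoundedFormula.equal (Language.Term.var (Sum.inr i))
            (Language.Term.var (Sum.inr j)) : Fm n)
            (fun i => ⟨F.Pi (f i), mem_NN (f i) (hf i)⟩) ↔ F.Pi (f i) = F.Pi (f j) :=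
          Subtype.ext_iff
        rw [h1, Pi_eq (hf i) (hf j)]
        exact Iff.rfl
      · exact g.elim
    · exact g.elim
  | @rel n l R ts =>
    cases R
    obtain ⟨i, hi⟩ : ∃ i, ts 0 = Language.Term.var (Sum.inr i) := by
      rcases h : ts 0 with (e | i) | ⟨g, _⟩
      · exact e.elim
      · exact ⟨i, rfl⟩
      · exact g.elim
    obtain ⟨j, hj⟩ : ∃ j, ts 1 = Language.Term.var (Sum.inr j) := by
      rcases h : ts 1 with (e | i) | ⟨g, _⟩
      · exact e.elim
      · exact ⟨i, rfl⟩
      · exact g.elim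
    have h1 : ∀ (W : Set ZFSet.{0}) (xs : _root_.Fin n → W),
        Sat W (Language.BoundedFormula.rel SetRel.mem ts : Fm n) xs ↔ (xs i).1 ∈ (xs j).1 := by
      intro W xs
      show SetStr.E (Language.Term.realize (Sum.elim Empty.elim xs) (ts 0))
        (Language.Term.realize (Sum.elim Empty.elim xs) (ts 1)) ↔ _
      rw [hi, hj]
      exact Iff.rfl
    rw [h1]
    simp only [h1]
    exact Pi_mem (hf i) (hf j)
  | @imp n φ ψ ih1 ih2 =>
    have h1 : Sat F.NN (φ.imp ψ) (fun i => ⟨F.Pi (f i), mem_NN (f i) (hf i)⟩) ↔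
        (Sat F.NN φ (fun i => ⟨F.Pi (f i), mem_NN (f i) (hf i)⟩) →
          Sat F.NN ψ (fun i => ⟨F.Pi (f i), mem_NN (f i) (hf i)⟩)) := Iff.rfl
    rw [h1, ih1 f hf, ih2 f hf]
    have s1 := FS_fs (F.LOS_FSsat φ f hf)
    have s2 := FS_fs (F.LOS_FSsat ψ f hf)
    have s3 := FS_fs (FS_not (F.LOS_FSsat φ f hf))
    rw [imp_iff_not_or, ← AE_not s1, ← AE_or s3 s2]
    have h2 : (fun z => ¬ Sat S.V φ (fun i => f i z) ∨ Sat S.V ψ (fun i => f i z)) =
        fun z => Sat S.V (φ.imp ψ) (fun i => f i z) := by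
      funext z
      exact propext imp_iff_not_or.symm
    rw [h2]
  | @all n φ ih =>
    have h1 : Sat F.NN φ.all (fun i => ⟨F.Pi (f i), mem_NN (f i) (hf i)⟩) ↔
        ∀ x : F.NN, Sat F.NN φ (Fin.snoc (fun i => ⟨F.Pi (f i), mem_NN (f i) (hf i)⟩) x) :=
      Iff.rfl
    have h2 : ∀ z, Sat S.V φ.all (fun i => f i z) ↔
        ∀ y : S.V, Sat S.V φ (Fin.snoc (fun i => f i z) y) := fun z => Iff.rfl
    have key : ∀ g : Asg S → S.V, ∀ hg : F.sc.FS F.ks g,
        (Sat F.NN φ (Fin.snoc (fun i => ⟨F.Pi (f i), mem_NN (f i) (hf i)⟩)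
          ⟨F.Pi g, mem_NN g hg⟩) ↔
        F.sc.AE fun z => Sat S.V φ (Fin.snoc (fun i => f i z) (g z))) := by
      intro g hg
      have hf' : ∀ i : _root_.Fin (n + 1), F.sc.FS F.ks
          ((Fin.snoc f g : _root_.Fin (n + 1) → Asg S → S.V) i) := by
        intro i
        refine Fin.lastCases ?_ (fun j => ?_) i
        · simpa using hg
        · simpa using hf j
      have h3 := ih (Fin.snoc f g : _root_.Fin (n + 1) → Asg S → S.V) hf'
      have h4 : (fun i : _root_.Fin (n + 1) => (⟨F.Pi ((Fin.snoc f g : _root_.Fin (n + 1) → Asg S → S.V) i),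
          mem_NN _ (hf' i)⟩ : F.NN)) =
          Fin.snoc (fun i => ⟨F.Pi (f i), mem_NN (f i) (hf i)⟩) ⟨F.Pi g, mem_NN g hg⟩ := by
        funext i
        apply Subtype.ext
        refine Fin.lastCases ?_ (fun j => ?_) i
        · simp
        · simp
      have h5 : (fun z => Sat S.V φ
          (fun i : _root_.Fin (n + 1) => (Fin.snoc f g : _root_.Fin (n + 1) → Asg S → S.V) i z)) =
          fun z => Sat S.V φ (Fin.snoc (fun i => f i z) (g z)) := by
        funext z
        congr 1
        funext i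
        refine Fin.lastCases ?_ (fun j => ?_) i
        · simp
        · simp
      rw [h4, h5] at h3
      exact h3
    rw [h1]
    simp only [h2]
    constructor
    · intro h
      have hP : Dbl S.V (fun z : (_root_.Fin n → S.V) × S.V =>
          ¬ Sat S.V φ (Fin.snoc z.1 z.2 : _root_.Fin (n + 1) → S.V)) :=
        Dbl.not (Dbl.comp (LOS_snoc (V := S.V) n) (LOS_sat (V := S.V) φ))
      obtain ⟨g, hg, hg2⟩ := FS_choice (F.LOS_FS f hf)
        (P := fun v y => ¬ Sat S.V φ (Fin.snoc v y : _root_.Fin (n + 1) → S.V)) hP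
      have h3 := (key g hg).1 (h ⟨F.Pi g, mem_NN g hg⟩)
      refine AE_mono ?_ h3 ?_
      · exact FS_fs (F.LOS_FSsat φ.all f hf)
      · intro z hz y
        by_contra hy
        exact hg2 z ⟨y, hy⟩ hz
    · rintro h ⟨x, g, hg, rfl⟩
      refine (key g hg).2 (AE_mono ?_ h fun z hz => hz (g z))
      have h3 := FS_comp (FS_pair (F.LOS_FS f hf) hg) (LOS_snoc (V := S.V) n)
      exact FS_fs (FS_comp h3 (LOS_sat (V := S.V) φ))

end FD

end Pool.Agent.SC
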