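import Pool.Agent.Lib_helper73.SCL.EFD_a
import Pool.Agent.Lib_helper73.SCL.IDX
import Pool.Agent.Lib_helper73.SCL.LMP
import Pool.Agent.Lib_helper73.SCL.STB

/-!
# Block KST: the measures of the iterate
-/

set_option linter.unusedSectionVars false

namespace Pool.Agent.SC

open FirstOrder Pool.Agent.Lib_helper27 Pool.Agent.Lib_helper27.ST

universe u v w

variable {S : MSys}

namespace FD

variable (F : FD S)

theorem KST_hY : ∀ θ, ∃ y ∈ YS S.V, θ < y := ys_unbounded S.V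

/-- stable cardinals above `nu` and below `ks` are cofinal in `ks` -/
theorem KST_pick {θ : Ordinal.{0}} (h : θ < F.ks) :
    ∃ α, θ < α ∧ F.nu < α ∧ α < F.ks ∧ triple F.m α F.bs ∈ Stab S.V := by
  obtain ⟨α, h1, h2, h3⟩ := F.lim (max θ F.nu) (max_lt h F.nu_lt)
  exact ⟨α, (le_max_left _ _).trans_lt h1, (le_max_right _ _).trans_lt h1, h2, h3⟩

theorem KST_lim : ∀ s < F.ks, s + 1 < F.ks := by
  intro s hs
  obtain ⟨α, h1, _, h2, _⟩ := KST_pick F hs
  exact (Order.add_one_le_of_lt h1).trans_lt h2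

theorem KST_pos : 0 < F.ks := (zero_le).trans_lt F.nu_lt

theorem lam_lt {i : Ordinal.{0}} (hi : i < F.ks) : F.lam i < F.ks := by
  obtain ⟨α, h1, h2, h3, h4⟩ := KST_pick F hi
  have h5 := (F.dp α h2 h4).1
  exact ((lt_blk_iff KST_hY).1 (h1.trans_le h5)).trans_lt h3

theorem top_g {α : Ordinal.{0}} (h1 : F.nu < α) (h2 : triple F.m α F.bs ∈ Stab S.V) :
    F.sc.AE fun z => F.sc.g α z = S.κ := by
  have h3 := F.dp α h1 h2
  have h4 : F.sc.rho α (F.sc.g α) = F.sc.rho α (Scr.kc (S := S)) := by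
    rw [F.good.2 α, h3.2]
    exact min_eq_right h3.1
  exact (rho_eq (FS_g F.sc α) (FS_const F.sc α S.κ)).1 h4

/-- at a stable stage the critical point is represented by `κ` -/
theorem KST_kap {α : Ordinal.{0}} (h1 : F.nu < α) (h2 : triple F.m α F.bs ∈ Stab S.V) :
    F.sc.AE fun z => S.kap (F.sc.g α z) = Scr.kc z := by
  refine AE_mono (FS_fs (FS_eqo (FS_kapg F.sc α) (FS_const F.sc α S.κ))) (top_g F h1 h2) ?_
  intro z hz
  show S.kap (F.sc.g α z) = S.κ
  rw [hz, S.kap_top]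

theorem KST_crit {α : Ordinal.{0}} (h1 : F.nu < α) (h2 : triple F.m α F.bs ∈ Stab S.V) :
    F.sc.crit α = α := by
  have h3 : F.sc.crit α = F.sc.rho α (Scr.kc (S := S)) :=
    (rho_eq (FS_kapg F.sc α) (FS_const F.sc α S.κ)).2 (KST_kap F h1 h2)
  rw [h3]
  exact (F.dp α h1 h2).2

theorem top_coord {α : Ordinal.{0}} (h1 : F.nu < α) (h2 : triple F.m α F.bs ∈ Stab S.V)
    (h3 : α < F.ks) : F.sc.rho F.ks (fun z => (z α).1) = α := by
  rw [rho_coord F.good h3]
  exact KST_crit F h1 h2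

theorem rho_ks : F.sc.rho F.ks (Scr.kc (S := S)) = F.ks := by
  apply le_antisymm
  · refine rho_le_of (FS_const F.sc F.ks S.κ) ?_
    intro b hb hlt
    obtain ⟨s, hs, hbs⟩ := FS_lim hb (KST_lim F) (KST_pos F)
    obtain ⟨α, h1, h2, h3, h4⟩ := KST_pick F hs
    have hbα : F.sc.FS α b := FS_mono hbs h1.le
    have h5 : F.sc.AE fun z => b z < S.kap (F.sc.g α z) := by
      have h6 := (AE_and (AE_fs hlt) (AE_fs (KST_kap F h2 h4))).2 ⟨hlt, KST_kap F h2 h4⟩
      refine AE_mono (FS_fs (FS_lt hbα (FS_kapg F.sc α))) h6 ?_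
      rintro z ⟨h7, h8⟩
      rw [h8]
      exact h7
    rw [rho_fix F.good h3.le hbα h5]
    have h7 : F.sc.rho α b < F.sc.rho α (Scr.kc (S := S)) :=
      (rho_lt hbα (FS_const F.sc α S.κ)).2 hlt
    rw [(F.dp α h2 h4).2] at h7
    exact h7.trans h3
  · by_contra hcon
    rw [not_le] at hcon
    obtain ⟨α, h1, h2, h3, h4⟩ := KST_pick F hcon
    have h5 : F.sc.rho F.ks (fun z => (z α).1) < F.sc.rho F.ks (Scr.kc (S := S)) :=
      (rho_lt (FS_coord F.sc h3) (FS_const F.sc F.ks S.κ)).2 (AE_all fun z => (z α).2)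
    rw [top_coord F h2 h4 h3] at h5
    exact lt_asymm h1 h5

theorem top_meas {h : Asg S → S.V} (hh : F.sc.FS F.ks h) :
    ∃ θ < F.ks, ∀ α, θ < α → α < F.ks → triple F.m α F.bs ∈ Stab S.V →
      ((F.sc.AE fun z => oo S.V (z α).1 ∈ h z) ↔ F.sc.AE fun z => S.InU S.κ (h z).1) := by
  obtain ⟨s, hs, hhs⟩ := FS_lim hh (KST_lim F) (KST_pos F)
  refine ⟨max s F.nu, max_lt hs F.nu_lt, ?_⟩
  intro α h1 h2 h3
  have hsα : s < α := (le_max_left _ _).trans_lt h1
  have hnα : F.nu < α := (le_max_right _ _).trans_lt h1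
  have hα : F.sc.FS α h := FS_mono hhs hsα.le
  rw [AE_coord hα]
  have hp : F.sc.Fs (fun z => (oo S.V (F.sc.g α z), h z)) :=
    FS_fs (FS_pair (FS_oo (FS_g F.sc α)) hα)
  have hG : ∀ G : S.V × S.V → Prop, F.sc.Fs (fun z => G (oo S.V (F.sc.g α z), h z)) := by
    intro G
    obtain ⟨c, hc, hs⟩ := hp
    exact ⟨c, hc, fun z z' hz => congrArg G (hs z z' hz)⟩
  have hg := top_g F hnα h3
  have f1 : F.sc.Fs (fun z => S.InU (F.sc.g α z) (h z).1) := by
    have := hG (fun p => S.InU (rk p.1) p.2.1)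
    simpa using this
  have f2 : F.sc.Fs (fun z => S.InU S.κ (h z).1) := hG (fun p => S.InU S.κ p.2.1)
  constructor
  · intro h4
    have h5 := (AE_and f1 (AE_fs hg)).2 ⟨h4, hg⟩
    refine AE_mono f2 h5 ?_
    rintro z ⟨h6, h7⟩
    rw [h7] at h6
    exact h6
  · intro h4
    have h5 := (AE_and f2 (AE_fs hg)).2 ⟨h4, hg⟩
    refine AE_mono f1 h5 ?_
    rintro z ⟨h6, h7⟩
    show S.InU (F.sc.g α z) (h z).1
    rw [h7]
    exact h6

end FD

end Pool.Agent.SC
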