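import Pool.Agent.Lib_helper73.SCL.AFI_a
import Pool.Agent.Lib_helper73.SCL.KST

/-! Block NPR: in an inner model closed under the stability predicate. -/

set_option linter.unusedSectionVars false

namespace Pool.Agent.SC

open FirstOrder Pool.Agent.Lib_helper27 Pool.Agent.Lib_helper27.ST

universe u v w

variable {S : MSys}

/-! ### definability in the context of finite sequences -/

@[reducible] def NPR_ctx (M : Type u) (n : ℕ) : Ctx M (Fin n → M) where
  idx := Fin n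
  fin := inferInstance
  coord := Equiv.refl _

attribute [local instance] NPR_ctx

theorem NPR_forall_fin {M : Type u} [SetStr M] {Γ : Type v} [Ctx M Γ] {n : ℕ}
    {p : Fin n → Γ → Prop} (h : ∀ i, Dbl M (p i)) : Dbl M (fun x => ∀ i, p i x) := by
  rw [dbl_prop_iff]
  have h1 : codes M (fun x => ∀ i, p i x) = ⋂ i, codes M (p i) := by
    ext v
    rw [Set.mem_iInter]
    rfl
  rw [h1]
  exact Set.definable_iInter_of_finite fun i => (dbl_prop_iff.1 (h i))

theorem NPR_coord {M : Type u} [SetStr M] {n : ℕ} (i : Fin n) :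
    Dbl M (fun v : Fin n → M => v i) := by
  rw [dbl_map_iff, dbl_prop_iff]
  exact definable_eq (Sum.inl i) (Sum.inr ())

theorem NPR_map {M : Type u} [SetStr M] {Γ : Type v} [Ctx M Γ] {n : ℕ} {f : Γ → (Fin n → M)}
    (h : ∀ i, Dbl M (fun x => f x i)) : Dbl M f := by
  rw [dbl_map_iff]
  have h1 : ∀ i, Dbl M (fun z : Γ × (Fin n → M) => f z.1 i = z.2 i) := fun i =>
    Dbl.eq (Dbl.comp Dbl.fst (h i)) (Dbl.comp Dbl.snd (NPR_coord i))
  exact (NPR_forall_fin h1).congr_prop fun z => funext_iff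

section npr

variable {N : Set ZFSet.{0}} [Inner N] {N₀ : Set ZFSet.{0}}

theorem NPR_rel (hN : N₀ ⊆ N) (hd : Dbl N (fun x : N => x.1 ∈ N₀)) {n : ℕ} (φ : Fm n) :
    Dbl N (fun v : Fin n → N => ∃ h : ∀ i, (v i).1 ∈ N₀, Sat N₀ φ (fun i => ⟨(v i).1, h i⟩)) := by
  have hall : ∀ m : ℕ, Dbl N (fun v : Fin m → N => ∀ i, (v i).1 ∈ N₀) := fun m =>
    NPR_forall_fin fun i => Dbl.comp (f := fun v : Fin m → N => v i)
      (g := fun x : N => x.1 ∈ N₀) (NPR_coord i) hd
  have hterm : ∀ (m : ℕ) (t : LSet.Term (Empty ⊕ Fin m)), ∃ i : Fin m,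
      t = Language.Term.var (Sum.inr i) := by
    intro m t
    cases t with
    | var x => cases x with
      | inl e => exact e.elim
      | inr i => exact ⟨i, rfl⟩
    | func f ts => exact Empty.elim f
  induction φ with
  | falsum =>
    refine (Dbl.const False).congr_prop fun v => ?_
    exact ⟨fun ⟨_, h⟩ => h, fun h => h.elim⟩
  | @equal m t s =>
    obtain ⟨i, rfl⟩ := hterm m t
    obtain ⟨j, rfl⟩ := hterm m s
    refine ((hall m).and (Dbl.eq (NPR_coord i) (NPR_coord j))).congr_prop fun v => ?_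
    constructor
    · rintro ⟨h1, h2⟩
      refine ⟨h1, ?_⟩
      have h3 : (⟨(v i).1, h1 i⟩ : N₀) = ⟨(v j).1, h1 j⟩ := h2
      have h4 := congrArg Subtype.val h3
      exact Subtype.ext h4
    · rintro ⟨h1, h2⟩
      refine ⟨h1, ?_⟩
      show (⟨(v i).1, h1 i⟩ : N₀) = ⟨(v j).1, h1 j⟩
      have h4 := congrArg Subtype.val h2
      exact Subtype.ext h4
  | @rel m l R ts =>
    cases R with
    | mem =>
      obtain ⟨i, hi⟩ := hterm m (ts 0)
      obtain ⟨j, hj⟩ := hterm m (ts 1)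
      refine ((hall m).and (Dbl.mem (NPR_coord i) (NPR_coord j))).congr_prop fun v => ?_
      have key : ∀ h1 : ∀ i, (v i).1 ∈ N₀, (Sat N₀ (Language.BoundedFormula.rel SetRel.mem ts)
          (fun i => ⟨(v i).1, h1 i⟩) ↔ v i ∈ v j) := by
        intro h1
        show ((ts 0).realize _ : N₀).1 ∈ ((ts 1).realize _ : N₀).1 ↔ _
        rw [hi, hj]
        rfl
      constructor
      · rintro ⟨h1, h2⟩
        exact ⟨h1, (key h1).1 h2⟩
      · rintro ⟨h1, h2⟩
        exact ⟨h1, (key h1).2 h2⟩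
  | @imp m φ ψ ihφ ihψ =>
    refine ((hall m).and (ihφ.imp ihψ)).congr_prop fun v => ?_
    constructor
    · rintro ⟨h1, h2⟩
      exact ⟨h1, fun ⟨_, h3⟩ => ⟨h1, h2 h3⟩⟩
    · rintro ⟨h1, h2⟩
      exact ⟨h1, fun h3 => (h2 ⟨h1, h3⟩).2⟩
  | @all m φ ih =>
    have hsn : Dbl N (fun z : (Fin m → N) × N => (Fin.snoc z.1 z.2 : Fin (m + 1) → N)) := by
      refine NPR_map fun i => ?_
      induction i using Fin.lastCases with
      | last => simp only [Fin.snoc_last]; exact Dbl.snd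
      | cast i => simp only [Fin.snoc_castSucc]; exact Dbl.comp Dbl.fst (NPR_coord i)
    have h0 := Dbl.comp hsn ih
    have h1 : Dbl N (fun z : (Fin m → N) × N => z.2.1 ∈ N₀) :=
      Dbl.comp (f := fun z : (Fin m → N) × N => z.2) (g := fun x : N => x.1 ∈ N₀) Dbl.snd hd
    have h00 := Dbl.all (p := fun (v : Fin m → N) (x : N) => x.1 ∈ N₀ →
      ∃ h : ∀ i, ((Fin.snoc v x : Fin (m + 1) → N) i).1 ∈ N₀,
        Sat N₀ φ (fun i => ⟨((Fin.snoc v x : Fin (m + 1) → N) i).1, h i⟩)) (h1.imp h0)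
    refine ((hall m).and h00).congr_prop fun v => ?_
    constructor
    · rintro ⟨h2, h3⟩
      refine ⟨h2, fun x hx => ?_⟩
      have h4 : Sat N₀ φ (Fin.snoc (fun i => ⟨(v i).1, h2 i⟩) (⟨x.1, hx⟩ : N₀) :
        Fin (m + 1) → N₀) := h3 ⟨x.1, hx⟩
      have h5 : ∀ i, ((Fin.snoc v x : Fin (m + 1) → N) i).1 ∈ N₀ := by
        intro i
        induction i using Fin.lastCases with
        | last => rw [Fin.snoc_last]; exact hx
        | cast i => rw [Fin.snoc_castSucc]; exact h2 i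
      refine ⟨h5, ?_⟩
      convert! h4 using 1
      funext i
      induction i using Fin.lastCases with
      | last => apply Subtype.ext; simp only [Fin.snoc_last]
      | cast i => apply Subtype.ext; simp only [Fin.snoc_castSucc]
    · rintro ⟨h2, h3⟩
      refine ⟨h2, fun x => ?_⟩
      obtain ⟨h4, h5⟩ := h3 ⟨x.1, hN x.2⟩ x.2
      show Sat N₀ φ (Fin.snoc (fun i => ⟨(v i).1, h2 i⟩) x : Fin (m + 1) → N₀)
      convert! h5 using 1
      funext i
      induction i using Fin.lastCases with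
      | last => apply Subtype.ext; simp only [Fin.snoc_last]
      | cast i => apply Subtype.ext; simp only [Fin.snoc_castSucc]

theorem NPR_triple (n : ℕ) (α β : Ordinal.{0}) :
    triple n α β = (opair (opair (oo N (n : Ordinal.{0})) (oo N α)) (oo N β)).1 := by
  rw [val_opair, val_opair]
  rfl

end npr

namespace FD

section npr

variable {N : Set ZFSet.{0}} [Inner N]

theorem rel_dbl {N₀ : Set ZFSet.{0}} (hN : N₀ ⊆ N) (hd : Dbl N (fun x : N => x.1 ∈ N₀)) {k : ℕ}
    (φ : Fm (k + 2)) (p : Fin k → N₀) : Dbl N (fun z : N × N =>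
      ∃ (h1 : z.1.1 ∈ N₀) (h2 : z.2.1 ∈ N₀),
        Sat N₀ φ (Fin.append p ![⟨z.1.1, h1⟩, ⟨z.2.1, h2⟩])) := by
  have hmap : Dbl N (fun z : N × N =>
      (Fin.append (fun i => (⟨(p i).1, hN (p i).2⟩ : N)) ![z.1, z.2] : Fin (k + 2) → N)) := by
    refine NPR_map fun i => ?_
    induction i using Fin.addCases with
    | left i => simp only [Fin.append_left]; exact Dbl.const _
    | right i =>
      simp only [Fin.append_right]
      fin_cases i
      · exact Dbl.fst
      · exact Dbl.snd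
  refine (Dbl.comp hmap (NPR_rel hN hd φ)).congr_prop fun z => ?_
  constructor
  · rintro ⟨h1, h2, h3⟩
    have h4 : ∀ i, ((Fin.append (fun i => (⟨(p i).1, hN (p i).2⟩ : N)) ![z.1, z.2] :
        Fin (k + 2) → N) i).1 ∈ N₀ := by
      intro i
      induction i using Fin.addCases with
      | left i => rw [Fin.append_left]; exact (p i).2
      | right i =>
        rw [Fin.append_right]
        fin_cases i
        · exact h1
        · exact h2
    refine ⟨h4, ?_⟩
    convert! h3 using 1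
    funext i
    apply Subtype.ext
    induction i using Fin.addCases with
    | left i => simp only [Fin.append_left]
    | right i =>
      simp only [Fin.append_right]
      fin_cases i
      · rfl
      · rfl
  · rintro ⟨h4, h5⟩
    have h1 : z.1.1 ∈ N₀ := by
      have := h4 (Fin.natAdd k 0)
      rw [Fin.append_right] at this
      exact this
    have h2 : z.2.1 ∈ N₀ := by
      have := h4 (Fin.natAdd k 1)
      rw [Fin.append_right] at this
      exact this
    refine ⟨h1, h2, ?_⟩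
    convert! h5 using 1
    funext i
    apply Subtype.ext
    induction i using Fin.addCases with
    | left i => simp only [Fin.append_left]
    | right i =>
      simp only [Fin.append_right]
      fin_cases i
      · rfl
      · rfl

/-- in `N` the stability predicate is definable with fixed first and last components -/
theorem stab_sec_dbl (ham : ∀ x ∈ N, ZFSet.sep (· ∈ Stab S.V) x ∈ N) (n : ℕ)
    (β : Ordinal.{0}) : Dbl N (fun x : N => triple n (rk x) β ∈ Stab S.V) := by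
  let D : N := ST.prod (ST.prod (oo N (Order.succ (n : Ordinal.{0}))) (oo N (Order.succ β)))
    (oo N (Order.succ β))
  let b : N := ⟨ZFSet.sep (· ∈ Stab S.V) D.1, ham _ D.2⟩
  have h1 : Dbl N (fun x : N => opair (opair (oo N (n : Ordinal.{0})) (oo N (rk x))) (oo N β) ∈ b) := by
    fun_prop
  refine h1.congr_prop fun x => ?_
  rw [NPR_triple (N := N)]
  constructor
  · intro h
    show _ ∈ ZFSet.sep (· ∈ Stab S.V) D.1
    rw [ZFSet.mem_sep]
    refine ⟨?_, h⟩
    show opair (opair (oo N (n : Ordinal.{0})) (oo N (rk x))) (oo N β) ∈ D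
    rw [← NPR_triple] at h
    have hle := stab_le h
    rw [opair_mem_prod, opair_mem_prod, oo_mem, oo_mem, oo_mem]
    exact ⟨⟨Order.lt_succ _, Order.lt_succ_iff.2 hle⟩, Order.lt_succ _⟩
  · intro h
    have h2 : _ ∈ ZFSet.sep (· ∈ Stab S.V) D.1 := h
    rw [ZFSet.mem_sep] at h2
    exact h2.2

theorem ysb_dbl (ham : ∀ x ∈ N, ZFSet.sep (· ∈ Stab S.V) x ∈ N) {β : Ordinal.{0}}
    (hβ : CInf S.V β) : Dbl N (fun x : N => rk x ∈ {y | y ∈ YS S.V ∧ y < β}) := by
  have h1 : Dbl N (fun x : N => rk x < β) := by fun_prop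
  refine ((stab_sec_dbl ham 1 β).and h1).congr_prop fun x => ?_
  constructor
  · rintro ⟨h2, h3⟩
    exact ⟨(ys_iff hβ h3).1 h2, h3⟩
  · rintro ⟨h2, h3⟩
    exact ⟨(ys_iff hβ h3).2 h2, h3⟩

theorem AF_dbl (ham : ∀ x ∈ N, ZFSet.sep (· ∈ Stab S.V) x ∈ N) (F : FD S) :
    Dbl N (fun x : N => x.1 ∈ F.AF) := by
  set Y : Set Ordinal.{0} := {y | y ∈ YS S.V ∧ y < F.bs} with hY
  have hYd : Dbl N (fun x : N => rk x ∈ Y) := ysb_dbl ham F.cinf
  have hSd := stab_sec_dbl (N := N) ham F.m F.bs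
  have hlamd : Dbl N (fun x : N => Lam Y S.κ (rk x)) := Lam_dbl hYd S.κ (dbl_rk Dbl.id)
  -- the two clauses
  have h1 : Dbl N (fun w : (N × N) × N =>
      ∀ y : N, (rk y ∈ Y) → rk w.2 < rk y → rk y < Lam Y S.κ (rk w.1.1) →
        oo N (rk y) ∈ w.1.2) := by
    have e1 : Dbl N (fun w : ((N × N) × N) × N => rk w.2 ∈ Y) :=
      Dbl.comp (f := fun w : ((N × N) × N) × N => w.2) (g := fun x : N => rk x ∈ Y) Dbl.snd hYd
    have e2 : Dbl N (fun w : ((N × N) × N) × N => Lam Y S.κ (rk w.1.1.1)) :=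
      Dbl.comp (f := fun w : ((N × N) × N) × N => w.1.1.1) (g := fun x : N => Lam Y S.κ (rk x))
        (by fun_prop) hlamd
    have e3 : Dbl N (fun w : ((N × N) × N) × N => rk w.2 < Lam Y S.κ (rk w.1.1.1)) :=
      dbl_lt (by fun_prop) e2
    have e4 : Dbl N (fun w : ((N × N) × N) × N => rk w.1.2 < rk w.2) := by fun_prop
    have e5 : Dbl N (fun w : ((N × N) × N) × N => oo N (rk w.2) ∈ w.1.1.2) := by fun_prop
    exact Dbl.all (e1.imp (e4.imp (e3.imp e5)))
  have h2 : Dbl N (fun w : N × N => rk w.1 < F.ks ∧ ∃ t : N, rk t < Lam Y S.κ (rk w.1) ∧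
      ∀ y : N, (rk y ∈ Y) → rk t < rk y → rk y < Lam Y S.κ (rk w.1) → oo N (rk y) ∈ w.2) := by
    have e1 : Dbl N (fun w : N × N => rk w.1 < F.ks) := by fun_prop
    have e2 : Dbl N (fun w : (N × N) × N => Lam Y S.κ (rk w.1.1)) :=
      Dbl.comp (f := fun w : (N × N) × N => w.1.1) (g := fun x : N => Lam Y S.κ (rk x))
        (by fun_prop) hlamd
    have e3 : Dbl N (fun w : (N × N) × N => rk w.2 < Lam Y S.κ (rk w.1.1)) :=
      dbl_lt (by fun_prop) e2
    exact e1.and (Dbl.exs (e3.and h1))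
  have h3 : Dbl N (fun w : N × N => rk w.1 = F.ks ∧ ∃ t : N, rk t < F.ks ∧
      ∀ y : N, rk t < rk y → rk y < F.ks → triple F.m (rk y) F.bs ∈ Stab S.V →
        oo N (rk y) ∈ w.2) := by
    have e1 : Dbl N (fun w : N × N => rk w.1 = F.ks) := by fun_prop
    have e2 : Dbl N (fun w : (N × N) × N => rk w.2 < F.ks) := by fun_prop
    have e3 : Dbl N (fun w : ((N × N) × N) × N => rk w.1.2 < rk w.2) := by fun_prop
    have e4 : Dbl N (fun w : ((N × N) × N) × N => rk w.2 < F.ks) := by fun_prop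
    have e5 : Dbl N (fun w : ((N × N) × N) × N => oo N (rk w.2) ∈ w.1.1.2) := by fun_prop
    have e6 : Dbl N (fun w : ((N × N) × N) × N => triple F.m (rk w.2) F.bs ∈ Stab S.V) :=
      Dbl.comp (f := fun w : ((N × N) × N) × N => w.2)
        (g := fun x : N => triple F.m (rk x) F.bs ∈ Stab S.V) Dbl.snd hSd
    exact e1.and (Dbl.exs (e2.and (Dbl.all (e3.imp (e4.imp (e6.imp e5))))))
  have h4 : Dbl N (fun w : N × N => ∀ v : N, v ∈ w.2 → v ∈ oo N F.ks) := by fun_prop
  have h5 := h4.and (h2.or h3)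
  have h6 : Dbl N (fun x : N => ∃ w : N × N, x = opair (oo N (rk w.1)) w.2 ∧
      ((∀ v : N, v ∈ w.2 → v ∈ oo N F.ks) ∧
        ((rk w.1 < F.ks ∧ ∃ t : N, rk t < Lam Y S.κ (rk w.1) ∧
          ∀ y : N, (rk y ∈ Y) → rk t < rk y → rk y < Lam Y S.κ (rk w.1) → oo N (rk y) ∈ w.2) ∨
        (rk w.1 = F.ks ∧ ∃ t : N, rk t < F.ks ∧
          ∀ y : N, rk t < rk y → rk y < F.ks → triple F.m (rk y) F.bs ∈ Stab S.V →
            oo N (rk y) ∈ w.2)))) := by
    refine Dbl.exs (Dbl.and (by fun_prop) ?_)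
    exact Dbl.comp (f := fun z : N × (N × N) => z.2) Dbl.snd h5
  refine h6.congr_prop fun x => ?_
  -- `Lam` is local
  have hloc : ∀ i < F.ks, Lam Y S.κ i = F.lam i := by
    intro i hi
    exact Lam_local (ys_unbounded S.V) ((lam_lt F hi).trans F.ks_lt)
  have hex : ∀ {P : Ordinal.{0} → Prop}, (∃ t : N, P (rk t)) ↔ ∃ θ, P θ := by
    intro P
    exact ⟨fun ⟨t, h⟩ => ⟨_, h⟩, fun ⟨θ, h⟩ => ⟨oo N θ, by rw [rk_oo]; exact h⟩⟩
  have hfa : ∀ {P : Ordinal.{0} → Prop}, (∀ t : N, P (rk t)) ↔ ∀ θ, P θ := by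
    intro P
    exact ⟨fun h θ => by have := h (oo N θ); rwa [rk_oo] at this, fun h t => h _⟩
  have hA : ∀ (i : Ordinal.{0}) (X : N), i < F.ks →
      ((∃ t : N, rk t < Lam Y S.κ i ∧
          ∀ y : N, (rk y ∈ Y) → rk t < rk y → rk y < Lam Y S.κ i → oo N (rk y) ∈ X) ↔
        ∃ θ < F.lam i, ∀ y ∈ YS S.V, θ < y → y < F.lam i → y.toZFSet ∈ X.1) := by
    intro i X hi
    rw [hloc i hi]
    rw [hex (P := fun θ => θ < F.lam i ∧
          ∀ y : N, (rk y ∈ Y) → θ < rk y → rk y < F.lam i → oo N (rk y) ∈ X)]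
    refine exists_congr fun θ => and_congr_right fun _ => ?_
    rw [hfa (P := fun y => y ∈ Y → θ < y → y < F.lam i → oo N y ∈ X)]
    constructor
    · intro h y hy h1 h2
      exact h y ⟨hy, h2.trans ((lam_lt F hi).trans F.ks_lt)⟩ h1 h2
    · intro h y hy h1 h2
      exact h y hy.1 h1 h2
  have hB : ∀ (X : N),
      ((∃ t : N, rk t < F.ks ∧
          ∀ y : N, rk t < rk y → rk y < F.ks → triple F.m (rk y) F.bs ∈ Stab S.V →
            oo N (rk y) ∈ X) ↔
        ∃ θ < F.ks, ∀ α, θ < α → α < F.ks → triple F.m α F.bs ∈ Stab S.V → α.toZFSet ∈ X.1) := by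
    intro X
    rw [hex (P := fun θ => θ < F.ks ∧
          ∀ y : N, θ < rk y → rk y < F.ks → triple F.m (rk y) F.bs ∈ Stab S.V →
            oo N (rk y) ∈ X)]
    refine exists_congr fun θ => and_congr_right fun _ => ?_
    rw [hfa (P := fun y => θ < y → y < F.ks → triple F.m y F.bs ∈ Stab S.V → oo N y ∈ X)]
    rfl
  constructor
  · rintro ⟨i, X, hx, hX, hc⟩
    have hm : ZFSet.pair i.toZFSet X ∈ N := hx ▸ x.2
    have hXN : X ∈ N := (pair_mem_iff.1 hm).2
    refine ⟨(oo N i, ⟨X, hXN⟩), ?_, fun v hv => hX hv, ?_⟩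
    · apply Subtype.ext
      rw [val_opair, hx]
      show ZFSet.pair i.toZFSet X = ZFSet.pair (rk (oo N i)).toZFSet X
      rw [rk_oo]
    · simp only [rk_oo]
      rcases hc with ⟨hi, hc⟩ | ⟨hi, hc⟩
      · exact Or.inl ⟨hi, (hA i ⟨X, hXN⟩ hi).2 hc⟩
      · exact Or.inr ⟨hi, (hB ⟨X, hXN⟩).2 hc⟩
  · rintro ⟨⟨w1, w2⟩, hx, hX, hc⟩
    have hx : x = opair (oo N (rk w1)) w2 := hx
    have hX : ∀ v : N, v ∈ w2 → v ∈ oo N F.ks := hX
    refine ⟨rk w1, w2.1, by rw [hx, val_opair]; rfl, fun v hv =>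
      hX ⟨v, Inner.trans _ w2.2 v hv⟩ hv, ?_⟩
    rcases hc with ⟨hi, hc⟩ | ⟨hi, hc⟩
    · exact Or.inl ⟨hi, (hA (rk w1) w2 hi).1 hc⟩
    · exact Or.inr ⟨hi, (hB w2).1 hc⟩

end npr

end FD

end Pool.Agent.SC
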