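import Pool.Agent.Lib_helper73.SCL.PIF_a

set_option linter.unusedSectionVars false

namespace Pool.Agent.SC

open FirstOrder Pool.Agent.Lib_helper27 Pool.Agent.Lib_helper27.ST

universe u v w

variable {S : MSys}

namespace FD

variable (F : FD S)

variable {F} {f h : Asg S → S.V} {a : Asg S → Ordinal.{0}}

/-- the class of all sets in the iterate -/
def NN (F : FD S) : Set ZFSet.{0} := {x | ∃ f, F.sc.FS F.ks f ∧ x = F.Pi f}

theorem mem_NN (f : Asg S → S.V) (hf : F.sc.FS F.ks f) : F.Pi f ∈ F.NN := ⟨f, hf, rfl⟩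

end FD

end Pool.Agent.SC
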