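import Pool.Agent.Lib_helper73.SCL.EFD_a
import Pool.Agent.Lib_helper73.SCL.RHO

/-!
# Block TDD: the iterate computes the enumeration of pairs correctly
-/

set_option linter.unusedSectionVars false

namespace Pool.Agent.SC

open FirstOrder Pool.Agent.Lib_helper27 Pool.Agent.Lib_helper27.ST

universe u v w

variable {S : MSys}

theorem tdd_max_dbl (S : MSys) :
    Dbl S.V (fun γ : S.V × S.V => max (rk γ.1) (rk γ.2)) := by
  apply dbl_of_graph_ord
  refine Dbl.congr_prop (p := fun z : (S.V × S.V) × S.V =>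
    (rk z.1.1 ≤ rk z.1.2 ∧ rk z.1.2 = rk z.2) ∨ (rk z.1.2 ≤ rk z.1.1 ∧ rk z.1.1 = rk z.2)) ?_ ?_
  · exact ((dbl_le (dbl_rk (by fun_prop)) (dbl_rk (by fun_prop))).and
      (dbl_eqo (dbl_rk (by fun_prop)) (dbl_rk (by fun_prop)))).or
      ((dbl_le (dbl_rk (by fun_prop)) (dbl_rk (by fun_prop))).and
      (dbl_eqo (dbl_rk (by fun_prop)) (dbl_rk (by fun_prop))))
  · intro z
    rcases le_total (rk z.1.1) (rk z.1.2) with h | h
    · rw [max_eq_right h]
      constructor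
      · intro h1
        exact Or.inl ⟨h, h1⟩
      · rintro (⟨_, h1⟩ | ⟨h1, h2⟩)
        · exact h1
        · rw [← h2]
          exact le_antisymm h1 h
    · rw [max_eq_left h]
      constructor
      · intro h1
        exact Or.inr ⟨h, h1⟩
      · rintro (⟨h1, h2⟩ | ⟨_, h1⟩)
        · rw [← h2]
          exact le_antisymm h1 h
        · exact h1

section gen

variable {sc : Scr S} {s : Ordinal.{0}} {a b c d : Asg S → Ordinal.{0}}

theorem tdd_FS_max (ha : sc.FS s a) (hb : sc.FS s b) : sc.FS s (fun z => max (a z) (b z)) := by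
  have h := FS_comp (FS_pair (FS_oo ha) (FS_oo hb)) (tdd_max_dbl S)
  simpa only [rk_oo] using h

theorem tdd_rho_max (ha : sc.FS s a) (hb : sc.FS s b) :
    sc.rho s (fun z => max (a z) (b z)) = max (sc.rho s a) (sc.rho s b) := by
  rcases le_total (sc.rho s a) (sc.rho s b) with h | h
  · rw [max_eq_right h, rho_eq (tdd_FS_max ha hb) hb]
    refine AE_mono (FS_fs (FS_eqo (tdd_FS_max ha hb) hb)) ((rho_le ha hb).1 h) fun z hz => ?_
    exact max_eq_right hz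
  · rw [max_eq_left h, rho_eq (tdd_FS_max ha hb) ha]
    refine AE_mono (FS_fs (FS_eqo (tdd_FS_max ha hb) ha)) ((rho_le hb ha).1 h) fun z hz => ?_
    exact max_eq_left hz

theorem tdd_plt (ha : sc.FS s a) (hb : sc.FS s b) (hc : sc.FS s c) (hd : sc.FS s d) :
    plt (sc.rho s a, sc.rho s b) (sc.rho s c, sc.rho s d) ↔
      sc.AE fun z => plt (a z, b z) (c z, d z) := by
  have hab := tdd_FS_max ha hb
  have hcd := tdd_FS_max hc hd
  unfold plt
  simp only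
  rw [← tdd_rho_max ha hb, ← tdd_rho_max hc hd, rho_lt hab hcd, rho_eq hab hcd, rho_lt ha hc,
    rho_eq ha hc, rho_lt hb hd]
  have f1 := FS_lt hab hcd
  have f2 := FS_eqo hab hcd
  have f3 := FS_lt ha hc
  have f4 := FS_eqo ha hc
  have f5 := FS_lt hb hd
  have f6 := FS_and f4 f5
  have f7 := FS_or f3 f6
  have f8 := FS_and f2 f7
  rw [AE_or (FS_fs f1) (FS_fs f8), AE_and (FS_fs f2) (FS_fs f7), AE_or (FS_fs f3) (FS_fs f6),
    AE_and (FS_fs f4) (FS_fs f5)]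

theorem tdd_FS_dd (ha : sc.FS s a) :
    sc.FS s (fun z => (dd (a z)).1) ∧ sc.FS s (fun z => (dd (a z)).2) :=
  ⟨FS_compo ha (F := fun α => (dd α).1) dd_dbl.1, FS_compo ha (F := fun α => (dd α).2) dd_dbl.2⟩

/-- choice of an index -/
theorem tdd_choice (ha : sc.FS s a) (hb : sc.FS s b) (hc : sc.FS s c)
    (h : sc.AE fun z => plt (b z, c z) (dd (a z))) :
    ∃ d, sc.FS s d ∧ sc.AE fun z => d z < a z ∧ (dd (d z)).1 = b z ∧ (dd (d z)).2 = c z := by
  have hf := FS_pair (FS_pair (FS_oo ha) (FS_oo hb)) (FS_oo hc)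
  obtain ⟨d, hd, hd'⟩ := FS_choice_ord hf
    (P := fun γ α => α < rk γ.1.1 ∧ (dd α).1 = rk γ.1.2 ∧ (dd α).2 = rk γ.2) (by
      refine Dbl.and (dbl_lt (dbl_rk (by fun_prop)) (dbl_rk (by fun_prop))) (Dbl.and ?_ ?_)
      · exact dbl_eqo (dbl_app' (F := fun α => (dd α).1) dd_dbl.1 (dbl_rk (by fun_prop)))
          (dbl_rk (by fun_prop))
      · exact dbl_eqo (dbl_app' (F := fun α => (dd α).2) dd_dbl.2 (dbl_rk (by fun_prop)))
          (dbl_rk (by fun_prop)))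
  simp only [rk_oo] at hd'
  refine ⟨d, hd, AE_mono (FS_fs (FS_and (FS_lt hd ha) (FS_and (FS_eqo (tdd_FS_dd hd).1 hb)
    (FS_eqo (tdd_FS_dd hd).2 hc)))) h fun z hz => hd' z ?_⟩
  obtain ⟨ξ, hξ, h1⟩ := (dd_spec (a z)).2 _ hz
  exact ⟨ξ, hξ, by rw [h1], by rw [h1]⟩

theorem tdd_rho_dd (sc : Scr S) (s : Ordinal.{0}) (o : Ordinal.{0}) : ∀ a, sc.FS s a →
    sc.rho s a = o → dd o = (sc.rho s (fun z => (dd (a z)).1), sc.rho s (fun z => (dd (a z)).2)) := by
  induction o using WellFoundedLT.induction with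
  | _ o ih =>
    intro a ha hao
    symm
    have hda := tdd_FS_dd ha
    apply dd_unique
    · intro ξ hξ h1
      rw [← hao] at hξ
      obtain ⟨b, hb, hbξ, hlt⟩ := rho_surj ha hξ
      have h2 := ih ξ (by rw [← hao]; exact hξ) b hb hbξ
      rw [h1] at h2
      have hdb := tdd_FS_dd hb
      have h3 := (rho_eq hda.1 hdb.1).1 (congrArg Prod.fst h2)
      have h4 := (rho_eq hda.2 hdb.2).1 (congrArg Prod.snd h2)
      have f1 := FS_eqo hda.1 hdb.1
      have f2 := FS_eqo hda.2 hdb.2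
      obtain ⟨z, hz1, hz2, hz3⟩ := AE_exists ((AE_and (FS_fs (FS_lt hb ha))
        (FS_fs (FS_and f1 f2))).2 ⟨hlt, (AE_and (FS_fs f1) (FS_fs f2)).2 ⟨h3, h4⟩⟩)
      exact (dd_spec (a z)).1 (b z) hz1 (Prod.ext hz2.symm hz3.symm)
    · rintro ⟨q1, q2⟩ hq
      obtain ⟨b, hb, rfl⟩ := rho_all sc s q1
      obtain ⟨c, hc, rfl⟩ := rho_all sc s q2
      rw [tdd_plt hb hc hda.1 hda.2] at hq
      obtain ⟨d, hd, hd'⟩ := tdd_choice ha hb hc hq
      have hdd := tdd_FS_dd hd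
      have f1 := FS_lt hd ha
      have f2 := FS_eqo hdd.1 hb
      have f3 := FS_eqo hdd.2 hc
      rw [AE_and (FS_fs f1) (FS_fs (FS_and f2 f3)), AE_and (FS_fs f2) (FS_fs f3),
        ← rho_lt hd ha, ← rho_eq hdd.1 hb, ← rho_eq hdd.2 hc, hao] at hd'
      refine ⟨sc.rho s d, hd'.1, ?_⟩
      rw [ih _ hd'.1 d hd rfl, hd'.2.1, hd'.2.2]

end gen

namespace FD

variable {F : FD S} {f h : Asg S → S.V} {a : Asg S → Ordinal.{0}}

theorem rho_dd (ha : F.sc.FS F.ks a) :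
    F.sc.rho F.ks (fun z => (dd (a z)).1) = (dd (F.sc.rho F.ks a)).1 ∧
    F.sc.rho F.ks (fun z => (dd (a z)).2) = (dd (F.sc.rho F.ks a)).2 := by
  rw [tdd_rho_dd F.sc F.ks _ a ha rfl]
  exact ⟨rfl, rfl⟩

theorem rho_codes (ha : F.sc.FS F.ks a) :
    F.sc.rho F.ks (fun z => kk (a z)) = kk (F.sc.rho F.ks a) ∧
    F.sc.rho F.ks (fun z => xx (a z)) = xx (F.sc.rho F.ks a) ∧
    F.sc.rho F.ks (fun z => yy (a z)) = yy (F.sc.rho F.ks a) := by
  have h1 := tdd_FS_dd ha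
  have h2 := rho_dd ha
  have h3 := rho_dd h1.1
  have h4 := rho_dd h1.2
  rw [h2.1] at h3
  rw [h2.2] at h4
  exact ⟨h3.1, h3.2, h4.1⟩

end FD

end Pool.Agent.SC
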