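import Pool.Agent.Lib_helper73.SCL.AFI
import Pool.Agent.Lib_helper73.SCL.LOS_a
import Pool.Agent.Lib_helper73.SCL.TDD

/-!
# Block TEN: the iterate is constructible from the decoded predicate
-/

set_option linter.unusedSectionVars false

namespace Pool.Agent.SC

open FirstOrder Pool.Agent.Lib_helper27 Pool.Agent.Lib_helper27.ST

universe u v w

variable {S : MSys}

theorem TEN_congr {A : Set ZFSet.{0}} {η : Ordinal.{0}} {f g : Ordinal.{0} → ZFSet.{0}}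
    (h : ∀ ξ < η, f ξ = g ξ) {z : ZFSet.{0}} (hf : CPred A η f z) : CPred A η g z := by
  obtain ⟨hx, hy, hf⟩ := hf
  have ex : f (xx η) = g (xx η) := h _ hx
  have ey : f (yy η) = g (yy η) := h _ hy
  have el : ∀ ι < xx η, f ι = g ι := fun ι hι => h ι (hι.trans hx)
  refine ⟨hx, hy, ?_⟩
  rw [ex, ey] at hf
  rcases hf with h0 | h1 | h2 | h3 | h4 | h5 | h6 | h7 | h8 | h9 | h10
  · obtain ⟨h0, ι, hι, hz⟩ := h0
    exact Or.inl ⟨h0, ι, hι, by rw [hz, el ι hι]⟩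
  · exact Or.inr (Or.inl h1)
  · exact Or.inr (Or.inr (Or.inl h2))
  · exact Or.inr (Or.inr (Or.inr (Or.inl h3)))
  · exact Or.inr (Or.inr (Or.inr (Or.inr (Or.inl h4))))
  · exact Or.inr (Or.inr (Or.inr (Or.inr (Or.inr (Or.inl h5)))))
  · exact Or.inr (Or.inr (Or.inr (Or.inr (Or.inr (Or.inr (Or.inl h6))))))
  · exact Or.inr (Or.inr (Or.inr (Or.inr (Or.inr (Or.inr (Or.inr (Or.inl h7)))))))
  · exact Or.inr (Or.inr (Or.inr (Or.inr (Or.inr (Or.inr (Or.inr (Or.inr (Or.inl h8))))))))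
  · obtain ⟨h9, ι, ι', h11, h12, h13, h14⟩ := h9
    refine Or.inr (Or.inr (Or.inr (Or.inr (Or.inr (Or.inr (Or.inr (Or.inr (Or.inr (Or.inl
      ⟨h9, ι, ι', h11, h12, ?_, ?_⟩)))))))))
    · intro j hj
      rw [← el j (hj.trans h12), ← el ι' h12]
      exact h13 j hj
    · rw [h14, el ι (h11.trans h12), el ι' h12]
  · exact Or.inr (Or.inr (Or.inr (Or.inr (Or.inr (Or.inr (Or.inr (Or.inr (Or.inr (Or.inr h10)))))))))

/-! ### Finite supports -/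

theorem TEN_fs2 {sc : Scr S} {X : Type u} {Y : Type v} {Z : Type w} {f : Asg S → X}
    {g : Asg S → Y} (hf : sc.Fs f) (hg : sc.Fs g) (G : X → Y → Z) :
    sc.Fs (fun z => G (f z) (g z)) := by
  obtain ⟨c, hc, h1⟩ := hf
  obtain ⟨c', hc', h2⟩ := hg
  classical
  refine ⟨c ∪ c', Cl_union hc hc', ?_⟩
  intro z z' h
  have e1 : f z = f z' := h1 z z' fun s hs => h s (Finset.mem_union_left _ hs)
  have e2 : g z = g z' := h2 z z' fun s hs => h s (Finset.mem_union_right _ hs)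
  show G (f z) (g z) = G (f z') (g z')
  rw [e1, e2]

theorem TEN_sub {α β : Ordinal.{0}} :
    (⟨en S.A α, Set.mem_range_self _⟩ : S.V) = ⟨en S.A β, Set.mem_range_self _⟩ ↔
      en S.A α = en S.A β := Subtype.ext_iff

theorem TEN_d {Γ : Type v} [Ctx S.V Γ] {c : Γ → Ordinal.{0}} (hc : Dbl S.V c) :
    Dbl S.V (fun z => (⟨en S.A (c z), Set.mem_range_self _⟩ : S.V)) := en_dblV S hc

namespace FD

variable (F : FD S)

/-- the almost everywhere statement `φ` is transferred to the statement `p` -/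
def TEN_T (φ : Asg S → Prop) (p : Prop) : Prop := F.sc.Fs φ ∧ (F.sc.AE φ ↔ p)

variable {F} {f g h : Asg S → S.V} {a b : Asg S → Ordinal.{0}} {φ ψ : Asg S → Prop} {p q : Prop}

theorem TEN_T.congr (h : F.TEN_T φ p) (h1 : ∀ z, ψ z ↔ φ z) (h2 : q ↔ p) : F.TEN_T ψ q := by
  have e1 : ψ = φ := funext fun z => propext (h1 z)
  have e2 : q = p := propext h2
  rw [e1, e2]
  exact h

theorem TEN_T.or (h1 : F.TEN_T φ p) (h2 : F.TEN_T ψ q) :
    F.TEN_T (fun z => φ z ∨ ψ z) (p ∨ q) :=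
  ⟨TEN_fs2 h1.1 h2.1 Or, by rw [AE_or h1.1 h2.1, h1.2, h2.2]⟩

theorem TEN_T.and (h1 : F.TEN_T φ p) (h2 : F.TEN_T ψ q) :
    F.TEN_T (fun z => φ z ∧ ψ z) (p ∧ q) :=
  ⟨TEN_fs2 h1.1 h2.1 And, by rw [AE_and h1.1 h2.1, h1.2, h2.2]⟩

theorem TEN_T.not (h1 : F.TEN_T φ p) : F.TEN_T (fun z => ¬ φ z) (¬ p) :=
  ⟨TEN_fs2 h1.1 h1.1 (fun x _ => ¬ x), by rw [AE_not h1.1, h1.2]⟩

theorem TEN_T.mem (hf : F.sc.FS F.ks f) (hg : F.sc.FS F.ks g) :
    F.TEN_T (fun z => f z ∈ g z) (F.Pi f ∈ F.Pi g) :=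
  ⟨FS_fs (FS_mem hf hg), (Pi_mem hf hg).symm⟩

theorem TEN_T.eq (hf : F.sc.FS F.ks f) (hg : F.sc.FS F.ks g) :
    F.TEN_T (fun z => f z = g z) (F.Pi f = F.Pi g) :=
  ⟨FS_fs (FS_eq hf hg), (Pi_eq hf hg).symm⟩

theorem TEN_T.lt (ha : F.sc.FS F.ks a) (hb : F.sc.FS F.ks b) :
    F.TEN_T (fun z => a z < b z) (F.sc.rho F.ks a < F.sc.rho F.ks b) :=
  ⟨FS_fs (FS_lt ha hb), (rho_lt ha hb).symm⟩

theorem TEN_T.eqo (ha : F.sc.FS F.ks a) (hb : F.sc.FS F.ks b) :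
    F.TEN_T (fun z => a z = b z) (F.sc.rho F.ks a = F.sc.rho F.ks b) :=
  ⟨FS_fs (FS_eqo ha hb), (rho_eq ha hb).symm⟩

theorem TEN_kk (ha : F.sc.FS F.ks a) : F.sc.FS F.ks (fun z => kk (a z)) :=
  FS_compo ha (F := kk) (codes_dbl (V := S.V)).1

theorem TEN_xx (ha : F.sc.FS F.ks a) : F.sc.FS F.ks (fun z => xx (a z)) :=
  FS_compo ha (F := xx) (codes_dbl (V := S.V)).2.1

theorem TEN_yy (ha : F.sc.FS F.ks a) : F.sc.FS F.ks (fun z => yy (a z)) :=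
  FS_compo ha (F := yy) (codes_dbl (V := S.V)).2.2

theorem TEN_en (ha : F.sc.FS F.ks a) :
    F.sc.FS F.ks (fun z => (⟨en S.A (a z), Set.mem_range_self _⟩ : S.V)) :=
  FS_compo ha (F := fun α => (⟨en S.A α, Set.mem_range_self _⟩ : S.V))
    (en_dblV S (a := fun x : S.V => rk x) (by fun_prop))

theorem TEN_T.kk (ha : F.sc.FS F.ks a) (n : ℕ) :
    F.TEN_T (fun z => SC.kk (a z) = (n : Ordinal.{0}))
      (SC.kk (F.sc.rho F.ks a) = (n : Ordinal.{0})) := by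
  have h := TEN_T.eqo (TEN_kk ha) (FS_const F.sc F.ks (n : Ordinal.{0}))
  rw [(rho_codes ha).1, rho_nat] at h
  exact h

theorem TEN_T.ex {Γ : Type v} [Ctx S.V Γ] {r : Asg S → Γ} (hr : F.sc.FS F.ks r)
    {P : Γ → S.V → Prop} (hP : Dbl S.V (fun z : Γ × S.V => P z.1 z.2)) {R : ZFSet.{0} → Prop}
    (hR : ∀ x, R x → x ∈ F.NN)
    (h : ∀ g, F.sc.FS F.ks g → F.TEN_T (fun z => P (r z) (g z)) (R (F.Pi g))) :
    F.TEN_T (fun z => ∃ v, P (r z) v) (∃ x, R x) := by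
  have hfs : F.sc.Fs (fun z => ∃ v, P (r z) v) :=
    TEN_fs2 (FS_fs hr) (FS_fs hr) (fun x _ => ∃ v, P x v)
  refine ⟨hfs, ?_⟩
  constructor
  · intro hae
    obtain ⟨g, hg, h1⟩ := FS_choice hr hP
    refine ⟨F.Pi g, (h g hg).2.1 ?_⟩
    exact AE_mono (h g hg).1 hae h1
  · rintro ⟨x, hx⟩
    obtain ⟨g, hg, rfl⟩ := hR x hx
    exact AE_mono hfs ((h g hg).2.2 hx) fun z hz => ⟨_, hz⟩

theorem TEN_T.exo {Γ : Type v} [Ctx S.V Γ] {r : Asg S → Γ} (hr : F.sc.FS F.ks r)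
    {P : Γ → Ordinal.{0} → Prop} (hP : Dbl S.V (fun z : Γ × S.V => P z.1 (rk z.2)))
    {R : Ordinal.{0} → Prop}
    (h : ∀ b, F.sc.FS F.ks b → F.TEN_T (fun z => P (r z) (b z)) (R (F.sc.rho F.ks b))) :
    F.TEN_T (fun z => ∃ α, P (r z) α) (∃ α, R α) := by
  have hfs : F.sc.Fs (fun z => ∃ v, P (r z) v) :=
    TEN_fs2 (FS_fs hr) (FS_fs hr) (fun x _ => ∃ v, P x v)
  refine ⟨hfs, ?_⟩
  constructor
  · intro hae
    obtain ⟨b, hb, h1⟩ := FS_choice_ord hr hP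
    refine ⟨F.sc.rho F.ks b, (h b hb).2.1 ?_⟩
    exact AE_mono (h b hb).1 hae h1
  · rintro ⟨α, hα⟩
    obtain ⟨b, hb, rfl⟩ := piO_rep F α
    exact AE_mono hfs ((h b hb).2.2 hα) fun z hz => ⟨_, hz⟩

/-! ### Transitivity of the iterate -/

theorem TEN_NN_mem {x y : ZFSet.{0}} (hy : y ∈ F.NN) (h : x ∈ y) : x ∈ F.NN := by
  obtain ⟨f, hf, rfl⟩ := hy
  obtain ⟨g, hg, h1, -⟩ := Pi_surj hf h
  exact ⟨g, hg, h1⟩

theorem TEN_NN_pair {x y : ZFSet.{0}} (h : ZFSet.pair x y ∈ F.NN) : x ∈ F.NN ∧ y ∈ F.NN := by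
  obtain ⟨f, hf, h1⟩ := h
  obtain ⟨g, g', hg, hg', h2, h3, -⟩ := Pi_opair_inv hf h1.symm
  exact ⟨⟨g, hg, h2⟩, ⟨g', hg', h3⟩⟩

theorem TEN_opair_FS (hf : F.sc.FS F.ks f) (hg : F.sc.FS F.ks g) :
    F.sc.FS F.ks (fun z => opair (f z) (g z)) :=
  FS_comp (FS_pair hf hg) (G := fun z : S.V × S.V => opair z.1 z.2) (by fun_prop)

theorem TEN_pair_val {x y : S.V} : ZFSet.pair x.1 y.1 = (opair x y).1 := (val_opair x y).symm

theorem TEN_V_mem {x y : ZFSet.{0}} (hy : y ∈ S.V) (h : x ∈ y) : x ∈ S.V := Inner.trans y hy x h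

/-! ### The cases -/

/-- `pair u z ∈ X` -/
theorem TEN_c4 (hf : F.sc.FS F.ks f) (hg : F.sc.FS F.ks g) :
    F.TEN_T (fun z => ∃ u, ZFSet.pair u (f z).1 ∈ (g z).1)
      (∃ u, ZFSet.pair u (F.Pi f) ∈ F.Pi g) := by
  refine (TEN_T.ex (FS_pair hf hg) (P := fun (x : S.V × S.V) v => opair v x.1 ∈ x.2)
    (R := fun u => ZFSet.pair u (F.Pi f) ∈ F.Pi g) (by fun_prop) ?_ ?_).congr ?_ Iff.rfl
  · intro x hx
    exact (TEN_NN_pair (TEN_NN_mem (mem_NN g hg) hx)).1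
  · intro u hu
    have h1 := TEN_T.mem (TEN_opair_FS hu hf) hg
    rw [Pi_opair hu hf] at h1
    exact h1
  · intro z
    constructor
    · rintro ⟨u, hu⟩
      have hu' : u ∈ S.V := (pair_mem_iff.1 (TEN_V_mem (g z).2 hu)).1
      refine ⟨⟨u, hu'⟩, ?_⟩
      rw [mem_def', val_opair]
      exact hu
    · rintro ⟨u, hu⟩
      rw [mem_def', val_opair] at hu
      exact ⟨u.1, hu⟩

/-- `pair z u ∈ X` -/
theorem TEN_c10 (hf : F.sc.FS F.ks f) (hg : F.sc.FS F.ks g) :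
    F.TEN_T (fun z => ∃ u, ZFSet.pair (f z).1 u ∈ (g z).1)
      (∃ u, ZFSet.pair (F.Pi f) u ∈ F.Pi g) := by
  refine (TEN_T.ex (FS_pair hf hg) (P := fun (x : S.V × S.V) v => opair x.1 v ∈ x.2)
    (R := fun u => ZFSet.pair (F.Pi f) u ∈ F.Pi g) (by fun_prop) ?_ ?_).congr ?_ Iff.rfl
  · intro x hx
    exact (TEN_NN_pair (TEN_NN_mem (mem_NN g hg) hx)).2
  · intro u hu
    have h1 := TEN_T.mem (TEN_opair_FS hf hu) hg
    rw [Pi_opair hf hu] at h1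
    exact h1
  · intro z
    constructor
    · rintro ⟨u, hu⟩
      have hu' : u ∈ S.V := (pair_mem_iff.1 (TEN_V_mem (g z).2 hu)).2
      refine ⟨⟨u, hu'⟩, ?_⟩
      rw [mem_def', val_opair]
      exact hu
    · rintro ⟨u, hu⟩
      rw [mem_def', val_opair] at hu
      exact ⟨u.1, hu⟩

/-- `∃ ι < xx, z = f ι` -/
theorem TEN_c0 (hf : F.sc.FS F.ks f) (ha : F.sc.FS F.ks a) :
    F.TEN_T (fun z => ∃ ι < a z, (f z).1 = en S.A ι)
      (∃ ι < F.sc.rho F.ks a, F.Pi f = F.piO ι) := by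
  refine (TEN_T.exo (FS_pair hf (FS_oo ha))
    (P := fun (x : S.V × S.V) α => α < rk x.2 ∧
      x.1 = (⟨en S.A α, Set.mem_range_self _⟩ : S.V))
    (R := fun ι => ι < F.sc.rho F.ks a ∧ F.Pi f = F.piO ι) ?_ ?_).congr ?_ Iff.rfl
  · have h1 : Dbl S.V (fun z : (S.V × S.V) × S.V =>
        (⟨en S.A (rk z.2), Set.mem_range_self _⟩ : S.V)) :=
      en_dblV S (a := fun z : (S.V × S.V) × S.V => rk z.2) (by fun_prop)
    exact Dbl.and (by fun_prop) (Dbl.eq (by fun_prop) h1)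
  · intro b hb
    have h1 := TEN_T.lt hb ha
    have h2 := TEN_T.eq hf (TEN_en hb)
    rw [Pi_en hb] at h2
    refine (h1.and h2).congr (fun z => ?_) Iff.rfl
    rw [rk_oo]
  · intro z
    constructor
    · rintro ⟨ι, h1, h2⟩
      exact ⟨ι, by rw [rk_oo]; exact h1, Subtype.ext h2⟩
    · rintro ⟨ι, h1, h2⟩
      rw [rk_oo] at h1
      exact ⟨ι, h1, congrArg Subtype.val h2⟩

/-- `∃ a ∈ X, ∃ b ∈ Y, z = pair a b` -/
theorem TEN_c3 (hf : F.sc.FS F.ks f) (hg : F.sc.FS F.ks g) (hh : F.sc.FS F.ks h) :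
    F.TEN_T (fun z => ∃ x ∈ (g z).1, ∃ y ∈ (h z).1, (f z).1 = ZFSet.pair x y)
      (∃ x ∈ F.Pi g, ∃ y ∈ F.Pi h, F.Pi f = ZFSet.pair x y) := by
  refine (TEN_T.ex (FS_pair hf (FS_pair hg hh)) (P := fun (w : S.V × S.V × S.V) x =>
      x ∈ w.2.1 ∧ ∃ y, y ∈ w.2.2 ∧ w.1 = opair x y)
    (R := fun x => x ∈ F.Pi g ∧ ∃ y, y ∈ F.Pi h ∧ F.Pi f = ZFSet.pair x y)
    (by fun_prop) ?_ ?_).congr ?_ Iff.rfl
  · intro x hx
    exact TEN_NN_mem (mem_NN g hg) hx.1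
  · intro x hx
    refine (TEN_T.mem hx hg).and ?_
    refine (TEN_T.ex (FS_pair (FS_pair hf (FS_pair hg hh)) hx)
      (P := fun (w : (S.V × S.V × S.V) × S.V) y => y ∈ w.1.2.2 ∧ w.1.1 = opair w.2 y)
      (R := fun y => y ∈ F.Pi h ∧ F.Pi f = ZFSet.pair (F.Pi x) y) (by fun_prop) ?_ ?_)
    · intro y hy
      exact TEN_NN_mem (mem_NN h hh) hy.1
    · intro y hy
      have h1 := TEN_T.eq hf (TEN_opair_FS hx hy)
      rw [Pi_opair hx hy] at h1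
      exact (TEN_T.mem hy hh).and h1
  · intro z
    constructor
    · rintro ⟨x, hx, y, hy, h1⟩
      have hx' : x ∈ S.V := TEN_V_mem (g z).2 hx
      have hy' : y ∈ S.V := TEN_V_mem (h z).2 hy
      refine ⟨⟨x, hx'⟩, hx, ⟨y, hy'⟩, hy, Subtype.ext ?_⟩
      rw [val_opair]
      exact h1
    · rintro ⟨x, hx, y, hy, h1⟩
      refine ⟨x.1, hx, y.1, hy, ?_⟩
      rw [← val_opair]
      exact congrArg Subtype.val h1

/-- `∃ a t, pair a t ∈ X ∧ z = pair a (pair a t)` -/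
theorem TEN_c5 (hf : F.sc.FS F.ks f) (hg : F.sc.FS F.ks g) :
    F.TEN_T (fun z => ∃ x t, ZFSet.pair x t ∈ (g z).1 ∧
        (f z).1 = ZFSet.pair x (ZFSet.pair x t))
      (∃ x t, ZFSet.pair x t ∈ F.Pi g ∧ F.Pi f = ZFSet.pair x (ZFSet.pair x t)) := by
  refine (TEN_T.ex (FS_pair hf hg) (P := fun (w : S.V × S.V) x =>
      ∃ t, opair x t ∈ w.2 ∧ w.1 = opair x (opair x t))
    (R := fun x => ∃ t, ZFSet.pair x t ∈ F.Pi g ∧ F.Pi f = ZFSet.pair x (ZFSet.pair x t))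
    (by fun_prop) ?_ ?_).congr ?_ Iff.rfl
  · rintro x ⟨t, h1, -⟩
    exact (TEN_NN_pair (TEN_NN_mem (mem_NN g hg) h1)).1
  · intro x hx
    refine (TEN_T.ex (FS_pair (FS_pair hf hg) hx)
      (P := fun (w : (S.V × S.V) × S.V) t => opair w.2 t ∈ w.1.2 ∧
        w.1.1 = opair w.2 (opair w.2 t))
      (R := fun t => ZFSet.pair (F.Pi x) t ∈ F.Pi g ∧
        F.Pi f = ZFSet.pair (F.Pi x) (ZFSet.pair (F.Pi x) t)) (by fun_prop) ?_ ?_)
    · rintro t ⟨h1, -⟩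
      exact (TEN_NN_pair (TEN_NN_mem (mem_NN g hg) h1)).2
    · intro t ht
      have h1 := TEN_T.mem (TEN_opair_FS hx ht) hg
      have h2 := TEN_T.eq hf (TEN_opair_FS hx (TEN_opair_FS hx ht))
      rw [Pi_opair hx ht] at h1
      rw [Pi_opair hx (TEN_opair_FS hx ht), Pi_opair hx ht] at h2
      exact h1.and h2
  · intro z
    constructor
    · rintro ⟨x, t, h1, h2⟩
      obtain ⟨hx, ht⟩ := pair_mem_iff.1 (TEN_V_mem (g z).2 h1)
      refine ⟨⟨x, hx⟩, ⟨t, ht⟩, ?_, Subtype.ext ?_⟩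
      · rw [mem_def', val_opair]
        exact h1
      · rw [val_opair, val_opair]
        exact h2
    · rintro ⟨x, t, h1, h2⟩
      refine ⟨x.1, t.1, ?_, ?_⟩
      · rw [mem_def', val_opair] at h1
        exact h1
      · have h3 := congrArg Subtype.val h2
        rw [val_opair, val_opair] at h3
        exact h3

/-- `∃ a t, ∃ b ∈ X, pair a t ∈ Y ∧ z = pair a (pair b t)` -/
theorem TEN_c6 (hf : F.sc.FS F.ks f) (hg : F.sc.FS F.ks g) (hh : F.sc.FS F.ks h) :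
    F.TEN_T (fun z => ∃ x t, ∃ y ∈ (g z).1, ZFSet.pair x t ∈ (h z).1 ∧
        (f z).1 = ZFSet.pair x (ZFSet.pair y t))
      (∃ x t, ∃ y ∈ F.Pi g, ZFSet.pair x t ∈ F.Pi h ∧
        F.Pi f = ZFSet.pair x (ZFSet.pair y t)) := by
  refine (TEN_T.ex (FS_pair hf (FS_pair hg hh)) (P := fun (w : S.V × S.V × S.V) x =>
      ∃ t, ∃ y, y ∈ w.2.1 ∧ opair x t ∈ w.2.2 ∧ w.1 = opair x (opair y t))
    (R := fun x => ∃ t, ∃ y, y ∈ F.Pi g ∧ ZFSet.pair x t ∈ F.Pi h ∧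
      F.Pi f = ZFSet.pair x (ZFSet.pair y t))
    (by fun_prop) ?_ ?_).congr ?_ Iff.rfl
  · rintro x ⟨t, y, -, h1, -⟩
    exact (TEN_NN_pair (TEN_NN_mem (mem_NN h hh) h1)).1
  · intro x hx
    refine (TEN_T.ex (FS_pair (FS_pair hf (FS_pair hg hh)) hx)
      (P := fun (w : (S.V × S.V × S.V) × S.V) t => ∃ y, y ∈ w.1.2.1 ∧ opair w.2 t ∈ w.1.2.2 ∧
        w.1.1 = opair w.2 (opair y t))
      (R := fun t => ∃ y, y ∈ F.Pi g ∧ ZFSet.pair (F.Pi x) t ∈ F.Pi h ∧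
        F.Pi f = ZFSet.pair (F.Pi x) (ZFSet.pair y t)) (by fun_prop) ?_ ?_)
    · rintro t ⟨y, -, h1, -⟩
      exact (TEN_NN_pair (TEN_NN_mem (mem_NN h hh) h1)).2
    · intro t ht
      refine (TEN_T.ex (FS_pair (FS_pair (FS_pair hf (FS_pair hg hh)) hx) ht)
        (P := fun (w : ((S.V × S.V × S.V) × S.V) × S.V) y => y ∈ w.1.1.2.1 ∧
          opair w.1.2 w.2 ∈ w.1.1.2.2 ∧ w.1.1.1 = opair w.1.2 (opair y w.2))
        (R := fun y => y ∈ F.Pi g ∧ ZFSet.pair (F.Pi x) (F.Pi t) ∈ F.Pi h ∧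
          F.Pi f = ZFSet.pair (F.Pi x) (ZFSet.pair y (F.Pi t))) (by fun_prop) ?_ ?_)
      · rintro y ⟨h1, -⟩
        exact TEN_NN_mem (mem_NN g hg) h1
      · intro y hy
        have h1 := TEN_T.mem (TEN_opair_FS hx ht) hh
        have h2 := TEN_T.eq hf (TEN_opair_FS hx (TEN_opair_FS hy ht))
        rw [Pi_opair hx ht] at h1
        rw [Pi_opair hx (TEN_opair_FS hy ht), Pi_opair hy ht] at h2
        exact (TEN_T.mem hy hg).and (h1.and h2)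
  · intro z
    constructor
    · rintro ⟨x, t, y, hy, h1, h2⟩
      obtain ⟨hx, ht⟩ := pair_mem_iff.1 (TEN_V_mem (h z).2 h1)
      refine ⟨⟨x, hx⟩, ⟨t, ht⟩, ⟨y, TEN_V_mem (g z).2 hy⟩, hy, ?_, Subtype.ext ?_⟩
      · rw [mem_def', val_opair]
        exact h1
      · rw [val_opair, val_opair]
        exact h2
    · rintro ⟨x, t, y, hy, h1, h2⟩
      refine ⟨x.1, t.1, y.1, hy, ?_, ?_⟩
      · rw [mem_def', val_opair] at h1
        exact h1
      · have h3 := congrArg Subtype.val h2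
        rw [val_opair, val_opair] at h3
        exact h3

/-- `∃ b t, ∃ a ∈ b, pair b t ∈ X ∧ z = pair b (pair a t)` -/
theorem TEN_c7 (hf : F.sc.FS F.ks f) (hg : F.sc.FS F.ks g) :
    F.TEN_T (fun z => ∃ x t, ∃ y ∈ x, ZFSet.pair x t ∈ (g z).1 ∧
        (f z).1 = ZFSet.pair x (ZFSet.pair y t))
      (∃ x t, ∃ y ∈ x, ZFSet.pair x t ∈ F.Pi g ∧
        F.Pi f = ZFSet.pair x (ZFSet.pair y t)) := by
  refine (TEN_T.ex (FS_pair hf hg) (P := fun (w : S.V × S.V) x =>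
      ∃ t, ∃ y, y ∈ x ∧ opair x t ∈ w.2 ∧ w.1 = opair x (opair y t))
    (R := fun x => ∃ t, ∃ y, y ∈ x ∧ ZFSet.pair x t ∈ F.Pi g ∧
      F.Pi f = ZFSet.pair x (ZFSet.pair y t))
    (by fun_prop) ?_ ?_).congr ?_ Iff.rfl
  · rintro x ⟨t, y, -, h1, -⟩
    exact (TEN_NN_pair (TEN_NN_mem (mem_NN g hg) h1)).1
  · intro x hx
    refine (TEN_T.ex (FS_pair (FS_pair hf hg) hx)
      (P := fun (w : (S.V × S.V) × S.V) t => ∃ y, y ∈ w.2 ∧ opair w.2 t ∈ w.1.2 ∧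
        w.1.1 = opair w.2 (opair y t))
      (R := fun t => ∃ y, y ∈ F.Pi x ∧ ZFSet.pair (F.Pi x) t ∈ F.Pi g ∧
        F.Pi f = ZFSet.pair (F.Pi x) (ZFSet.pair y t)) (by fun_prop) ?_ ?_)
    · rintro t ⟨y, -, h1, -⟩
      exact (TEN_NN_pair (TEN_NN_mem (mem_NN g hg) h1)).2
    · intro t ht
      refine (TEN_T.ex (FS_pair (FS_pair (FS_pair hf hg) hx) ht)
        (P := fun (w : ((S.V × S.V) × S.V) × S.V) y => y ∈ w.1.2 ∧
          opair w.1.2 w.2 ∈ w.1.1.2 ∧ w.1.1.1 = opair w.1.2 (opair y w.2))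
        (R := fun y => y ∈ F.Pi x ∧ ZFSet.pair (F.Pi x) (F.Pi t) ∈ F.Pi g ∧
          F.Pi f = ZFSet.pair (F.Pi x) (ZFSet.pair y (F.Pi t))) (by fun_prop) ?_ ?_)
      · rintro y ⟨h1, -⟩
        exact TEN_NN_mem (mem_NN x hx) h1
      · intro y hy
        have h1 := TEN_T.mem (TEN_opair_FS hx ht) hg
        have h2 := TEN_T.eq hf (TEN_opair_FS hx (TEN_opair_FS hy ht))
        rw [Pi_opair hx ht] at h1
        rw [Pi_opair hx (TEN_opair_FS hy ht), Pi_opair hy ht] at h2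
        exact (TEN_T.mem hy hx).and (h1.and h2)
  · intro z
    constructor
    · rintro ⟨x, t, y, hy, h1, h2⟩
      obtain ⟨hx, ht⟩ := pair_mem_iff.1 (TEN_V_mem (g z).2 h1)
      refine ⟨⟨x, hx⟩, ⟨t, ht⟩, ⟨y, TEN_V_mem hx hy⟩, hy, ?_, Subtype.ext ?_⟩
      · rw [mem_def', val_opair]
        exact h1
      · rw [val_opair, val_opair]
        exact h2
    · rintro ⟨x, t, y, hy, h1, h2⟩
      refine ⟨x.1, t.1, y.1, hy, ?_, ?_⟩
      · rw [mem_def', val_opair] at h1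
        exact h1
      · have h3 := congrArg Subtype.val h2
        rw [val_opair, val_opair] at h3
        exact h3

/-- `∀ j < b, en j ≠ en b` -/
theorem TEN_least (hb : F.sc.FS F.ks b) :
    F.TEN_T (fun z => ∀ j < b z, en S.A j ≠ en S.A (b z))
      (∀ j < F.sc.rho F.ks b, F.piO j ≠ F.piO (F.sc.rho F.ks b)) := by
  have h1 : F.TEN_T (fun z => ∃ j, j < b z ∧ en S.A j = en S.A (b z))
      (∃ j, j < F.sc.rho F.ks b ∧ F.piO j = F.piO (F.sc.rho F.ks b)) := by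
    refine (TEN_T.exo (FS_oo hb) (P := fun (x : S.V) α => α < rk x ∧
        (⟨en S.A α, Set.mem_range_self _⟩ : S.V) = ⟨en S.A (rk x), Set.mem_range_self _⟩)
      (R := fun j => j < F.sc.rho F.ks b ∧ F.piO j = F.piO (F.sc.rho F.ks b)) ?_ ?_).congr ?_
      Iff.rfl
    · have h1 : Dbl S.V (fun z : S.V × S.V =>
          (⟨en S.A (rk z.2), Set.mem_range_self _⟩ : S.V)) :=
        en_dblV S (a := fun z : S.V × S.V => rk z.2) (by fun_prop)
      have h2 : Dbl S.V (fun z : S.V × S.V =>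
          (⟨en S.A (rk z.1), Set.mem_range_self _⟩ : S.V)) :=
        en_dblV S (a := fun z : S.V × S.V => rk z.1) (by fun_prop)
      exact Dbl.and (by fun_prop) (Dbl.eq h1 h2)
    · intro c hc
      have h1 := TEN_T.lt hc hb
      have h2 := TEN_T.eq (TEN_en hc) (TEN_en hb)
      rw [Pi_en hc, Pi_en hb] at h2
      refine (h1.and h2).congr (fun z => ?_) Iff.rfl
      simp only [rk_oo]
    · intro z
      simp only [rk_oo]
      exact exists_congr fun α => and_congr Iff.rfl TEN_sub.symm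
  refine h1.not.congr (fun z => ?_) ?_
  · push Not
    rfl
  · push Not
    rfl

/-- `∃ ι ι', ι < ι' ∧ ι' < a ∧ (∀ j < ι', en j ≠ en ι') ∧ z = pair (en ι) (en ι')` -/
theorem TEN_c9 (hf : F.sc.FS F.ks f) (ha : F.sc.FS F.ks a) :
    F.TEN_T (fun z => ∃ ι ι', ι < ι' ∧ ι' < a z ∧ (∀ j < ι', en S.A j ≠ en S.A ι') ∧
        (f z).1 = ZFSet.pair (en S.A ι) (en S.A ι'))
      (∃ ι ι', ι < ι' ∧ ι' < F.sc.rho F.ks a ∧ (∀ j < ι', F.piO j ≠ F.piO ι') ∧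
        F.Pi f = ZFSet.pair (F.piO ι) (F.piO ι')) := by
  refine (TEN_T.exo (FS_pair hf (FS_oo ha)) (P := fun (x : S.V × S.V) ι => ∃ ι', ι < ι' ∧
      ι' < rk x.2 ∧ (∀ j, j < ι' → (⟨en S.A j, Set.mem_range_self _⟩ : S.V) ≠
        ⟨en S.A ι', Set.mem_range_self _⟩) ∧
      x.1 = opair ⟨en S.A ι, Set.mem_range_self _⟩ ⟨en S.A ι', Set.mem_range_self _⟩)
    (R := fun ι => ∃ ι', ι < ι' ∧ ι' < F.sc.rho F.ks a ∧ (∀ j < ι', F.piO j ≠ F.piO ι') ∧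
        F.Pi f = ZFSet.pair (F.piO ι) (F.piO ι')) ?_ ?_).congr ?_ Iff.rfl
  · refine dbl_exo ?_
    refine Dbl.and (by fun_prop) (Dbl.and (by fun_prop) (Dbl.and ?_ ?_))
    · refine dbl_allo (P := fun (z : ((S.V × S.V) × S.V) × S.V) j => j < rk z.2 →
        (⟨en S.A j, Set.mem_range_self _⟩ : S.V) ≠ ⟨en S.A (rk z.2), Set.mem_range_self _⟩) ?_
      refine Dbl.imp (by fun_prop) (Dbl.not (Dbl.eq (TEN_d ?_) (TEN_d ?_)))
      · fun_prop
      · fun_prop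
    · refine Dbl.eq (by fun_prop) (dbl_opair (TEN_d ?_) (TEN_d ?_))
      · fun_prop
      · fun_prop
  · intro b hb
    refine (TEN_T.exo (FS_pair (FS_pair hf (FS_oo ha)) (FS_oo hb))
      (P := fun (x : (S.V × S.V) × S.V) ι' => rk x.2 < ι' ∧
        ι' < rk x.1.2 ∧ (∀ j, j < ι' → (⟨en S.A j, Set.mem_range_self _⟩ : S.V) ≠
          ⟨en S.A ι', Set.mem_range_self _⟩) ∧
        x.1.1 = opair ⟨en S.A (rk x.2), Set.mem_range_self _⟩ ⟨en S.A ι', Set.mem_range_self _⟩)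
      (R := fun ι' => F.sc.rho F.ks b < ι' ∧ ι' < F.sc.rho F.ks a ∧
        (∀ j < ι', F.piO j ≠ F.piO ι') ∧
        F.Pi f = ZFSet.pair (F.piO (F.sc.rho F.ks b)) (F.piO ι')) ?_ ?_).congr ?_ Iff.rfl
    · refine Dbl.and (by fun_prop) (Dbl.and (by fun_prop) (Dbl.and ?_ ?_))
      · refine dbl_allo (P := fun (z : ((S.V × S.V) × S.V) × S.V) j => j < rk z.2 →
          (⟨en S.A j, Set.mem_range_self _⟩ : S.V) ≠ ⟨en S.A (rk z.2), Set.mem_range_self _⟩) ?_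
        refine Dbl.imp (by fun_prop) (Dbl.not (Dbl.eq (TEN_d ?_) (TEN_d ?_)))
        · fun_prop
        · fun_prop
      · refine Dbl.eq (by fun_prop) (dbl_opair (TEN_d ?_) (TEN_d ?_))
        · fun_prop
        · fun_prop
    · intro c hc
      have h1 := TEN_T.lt hb hc
      have h2 := TEN_T.lt hc ha
      have h3 := TEN_T.eq hf (TEN_opair_FS (TEN_en hb) (TEN_en hc))
      rw [Pi_opair (TEN_en hb) (TEN_en hc), Pi_en hb, Pi_en hc] at h3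
      refine (h1.and (h2.and ((TEN_least hc).and h3))).congr (fun z => ?_) Iff.rfl
      simp only [rk_oo]
      refine and_congr Iff.rfl (and_congr Iff.rfl (and_congr ?_ Iff.rfl))
      exact forall_congr' fun j => forall_congr' fun _ => not_congr TEN_sub
    · intro z
      simp only [rk_oo]
  · intro z
    simp only [rk_oo]
    refine exists_congr fun ι => exists_congr fun ι' => and_congr Iff.rfl (and_congr Iff.rfl
      (and_congr ?_ ?_))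
    · exact forall_congr' fun j => forall_congr' fun _ => not_congr TEN_sub.symm
    · rw [Subtype.ext_iff, val_opair]

theorem cpred_iff (ha : F.sc.FS F.ks a) (hf : F.sc.FS F.ks f) :
    (F.sc.AE fun z => CPred S.A (a z) (en S.A) (f z).1) ↔
      CPred F.AF (F.sc.rho F.ks a) F.piO (F.Pi f) := by
  have hx := TEN_xx ha
  have hy := TEN_yy ha
  have hX := TEN_en hx
  have hY := TEN_en hy
  have ex : F.sc.rho F.ks (fun z => xx (a z)) = xx (F.sc.rho F.ks a) := (rho_codes ha).2.1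
  have ey : F.sc.rho F.ks (fun z => yy (a z)) = yy (F.sc.rho F.ks a) := (rho_codes ha).2.2
  have eX : F.Pi (fun z => (⟨en S.A (xx (a z)), Set.mem_range_self _⟩ : S.V)) =
      F.piO (xx (F.sc.rho F.ks a)) := by rw [Pi_en hx, ex]
  have eY : F.Pi (fun z => (⟨en S.A (yy (a z)), Set.mem_range_self _⟩ : S.V)) =
      F.piO (yy (F.sc.rho F.ks a)) := by rw [Pi_en hy, ey]
  have k0 := TEN_T.kk ha 0
  have k1 := TEN_T.kk ha 1
  have k2 := TEN_T.kk ha 2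
  have k3 := TEN_T.kk ha 3
  have k4 := TEN_T.kk ha 4
  have k5 := TEN_T.kk ha 5
  have k6 := TEN_T.kk ha 6
  have k7 := TEN_T.kk ha 7
  have k8 := TEN_T.kk ha 8
  have k9 := TEN_T.kk ha 9
  have k10 := TEN_T.kk ha 10
  simp only [Nat.cast_zero] at k0
  simp only [Nat.cast_one] at k1
  simp only [Nat.cast_ofNat] at k2 k3 k4 k5 k6 k7 k8 k9 k10
  have c0 := TEN_c0 hf hx
  rw [ex] at c0
  have c1 := (TEN_T.eq hf hX).or (TEN_T.eq hf hY)
  have c2 := (TEN_T.mem hf hX).and (TEN_T.mem hf hY).not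
  have c3 := TEN_c3 hf hX hY
  have c4 := TEN_c4 hf hX
  have c5 := TEN_c5 hf hX
  have c6 := TEN_c6 hf hX hY
  have c7 := TEN_c7 hf hX
  have c8 : F.TEN_T (fun z => f z ∈ (⟨en S.A (xx (a z)), Set.mem_range_self _⟩ : S.V) ∧
      (f z).1 ∈ S.A) (F.Pi f ∈ F.Pi (fun z =>
        (⟨en S.A (xx (a z)), Set.mem_range_self _⟩ : S.V)) ∧ F.Pi f ∈ F.AF) :=
    (TEN_T.mem hf hX).and ⟨TEN_fs2 (FS_fs hf) (FS_fs hf) (fun x _ => x.1 ∈ S.A), (AF_iff hf).symm⟩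
  have c9 := TEN_c9 hf hx
  rw [ex] at c9
  have c10 := TEN_c10 hf hX
  have lx := TEN_T.lt hx ha
  have ly := TEN_T.lt hy ha
  rw [ex] at lx
  rw [ey] at ly
  rw [eX] at c1 c2 c3 c4 c5 c6 c7 c8 c10
  rw [eY] at c1 c2 c3 c6
  have key := lx.and (ly.and ((k0.and c0).or ((k1.and c1).or ((k2.and c2).or ((k3.and c3).or
    ((k4.and c4).or ((k5.and c5).or ((k6.and c6).or ((k7.and c7).or ((k8.and c8).or
    ((k9.and c9).or (k10.and c10))))))))))))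
  refine (key.congr (fun z => ?_) Iff.rfl).2
  unfold CPred
  simp only [Subtype.ext_iff]
  exact Iff.rfl

theorem piO_eq (F : FD S) (α : Ordinal.{0}) : F.piO α = en F.AF α := by
  induction α using WellFoundedLT.induction with
  | ind α ih =>
    obtain ⟨a, ha, rfl⟩ := piO_rep F α
    ext x
    rw [mem_piO, mem_en]
    have key : ∀ β < F.sc.rho F.ks a, (F.EN β (F.sc.rho F.ks a) ↔
        CPred F.AF (F.sc.rho F.ks a) (en F.AF) (F.piO β)) := by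
      intro β hβ
      obtain ⟨b, hb, rfl⟩ := piO_rep F β
      rw [EN_iff hb ha]
      have h1 := cpred_iff ha (TEN_en hb)
      rw [Pi_en hb] at h1
      have h2 : CPred F.AF (F.sc.rho F.ks a) F.piO (F.piO (F.sc.rho F.ks b)) ↔
          CPred F.AF (F.sc.rho F.ks a) (en F.AF) (F.piO (F.sc.rho F.ks b)) :=
        ⟨TEN_congr ih, TEN_congr fun ξ hξ => (ih ξ hξ).symm⟩
      rw [← h2, ← h1]
      have hlt := (rho_lt hb ha).1 hβ
      have hfs : F.sc.Fs (fun z => en S.A (b z) ∈ en S.A (a z)) :=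
        TEN_fs2 (FS_fs hb) (FS_fs ha) (fun x y => en S.A x ∈ en S.A y)
      have hfs2 : F.sc.Fs (fun z => CPred S.A (a z) (en S.A) (en S.A (b z))) :=
        TEN_fs2 (FS_fs hb) (FS_fs ha) (fun x y => CPred S.A y (en S.A) (en S.A x))
      have hfs3 : F.sc.Fs (fun z => b z < a z) := AE_fs hlt
      constructor
      · intro h
        exact AE_mono hfs2 h fun z hz => (mem_en.1 hz).2
      · intro h
        have h3 := (AE_and hfs3 hfs2).2 ⟨hlt, h⟩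
        exact AE_mono hfs h3 fun z hz => mem_en.2 ⟨⟨b z, hz.1, rfl⟩, hz.2⟩
    constructor
    · rintro ⟨β, hβ, h1, rfl⟩
      refine ⟨⟨β, hβ, (ih β hβ).symm⟩, (key β hβ).1 h1⟩
    · rintro ⟨⟨β, hβ, rfl⟩, h1⟩
      rw [← ih β hβ] at h1
      exact ⟨β, hβ, (key β hβ).2 h1, ih β hβ⟩

end FD

end Pool.Agent.SC
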