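import Pool.Agent.Lib_helper73.SCL.FXP
import Pool.Agent.Lib_helper73.SCL.LOS
import Pool.Agent.Lib_helper73.SCL.NPR
import Pool.Agent.Lib_helper73.SCL.SDB
import Pool.Agent.Lib_helper73.SCL.TEN

/-!
# Block FIN
-/

set_option linter.unusedSectionVars false

namespace Pool.Agent.SC

open FirstOrder Pool.Agent.Lib_helper27 Pool.Agent.Lib_helper27.ST

universe u v w

variable {S : MSys}

namespace FD

/-- the `α`-th set constructible in `S.V`, as an element of `S.V` -/
noncomputable def FIN_e (S : MSys) (α : Ordinal.{0}) : S.V := ⟨en S.A α, Set.mem_range_self _⟩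

theorem FIN_e_dbl (S : MSys) : Dbl S.V (fun x : S.V => FIN_e S (rk x)) :=
  en_dblV S (a := fun x : S.V => rk x) (dbl_rk Dbl.id)

theorem FIN_mem_NN {F : FD S} {x : ZFSet.{0}} : x ∈ F.NN ↔ ∃ α, x = en F.AF α := by
  constructor
  · rintro ⟨f, -, rfl⟩
    exact ⟨_, piO_eq F _⟩
  · rintro ⟨α, rfl⟩
    obtain ⟨a, ha, rfl⟩ := piO_rep F α
    refine ⟨fun z => FIN_e S (a z), FS_compo ha (FIN_e_dbl S), ?_⟩
    rw [← piO_eq]
    exact (Pi_en ha).symm

variable {N : Set ZFSet.{0}} [Inner N]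

theorem FIN_NN_sub (ham : ∀ x ∈ N, ZFSet.sep (· ∈ Stab S.V) x ∈ N) (F : FD S) : F.NN ⊆ N := by
  intro x hx
  obtain ⟨α, rfl⟩ := FIN_mem_NN.1 hx
  obtain ⟨h, -⟩ := en_dbl (V := N) (AF_dbl ham F)
  exact h α

theorem FIN_NN_dbl (ham : ∀ x ∈ N, ZFSet.sep (· ∈ Stab S.V) x ∈ N) (F : FD S) :
    Dbl N (fun x : N => x.1 ∈ F.NN) := by
  obtain ⟨h, hd⟩ := en_dbl (V := N) (AF_dbl ham F)
  have h1 : Dbl N (fun x : N => ∃ α, x = (⟨en F.AF α, h α⟩ : N)) := by
    refine dbl_exo (Γ := N) (P := fun x α => x = (⟨en F.AF α, h α⟩ : N)) ?_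
    refine Dbl.eq (f := fun z : N × N => z.1) (g := fun z => (⟨en F.AF (rk z.2), h _⟩ : N))
      Dbl.fst ?_
    exact Dbl.comp (f := fun z : N × N => z.2) (g := fun x : N => (⟨en F.AF (rk x), h _⟩ : N))
      Dbl.snd hd
  refine Dbl.congr_prop h1 fun x => ?_
  rw [FIN_mem_NN]
  constructor
  · rintro ⟨α, h2⟩
    exact ⟨α, Subtype.ext h2⟩
  · rintro ⟨α, h2⟩
    exact ⟨α, congrArg Subtype.val h2⟩

theorem emb_dbl (ham : ∀ x ∈ N, ZFSet.sep (· ∈ Stab S.V) x ∈ N) (F : FD S)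
    (θ : Ordinal.{0}) :
    ∃ i : Ordinal.{0} → Ordinal.{0}, (∀ ξ ≤ θ, i ξ = F.sc.rho F.ks (fun _ => ξ)) ∧
      Dbl N (fun x : N => i (rk x)) := by
  have hY := ys_unbounded S.V
  obtain ⟨β, hβ, hβc⟩ := cinf_unbounded S.V (Lam (YS S.V) F.ks θ)
  have hYd : Dbl N (fun x : N => rk x ∈ {y | y ∈ YS S.V ∧ y < β}) := ysb_dbl ham hβc
  -- the fixed points, computed in `N`
  let hfun : Ordinal.{0} → Ordinal.{0} := fun ξ => Lam {y | y ∈ YS S.V ∧ y < β} F.ks ξ
  have hfd : Dbl N (fun x : N => hfun (rk x)) :=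
    Lam_dbl hYd F.ks (Γ := N) (a := fun x : N => rk x) (dbl_rk Dbl.id)
  have hfe : ∀ ξ ≤ θ, hfun ξ = Lam (YS S.V) F.ks ξ := fun ξ hξ =>
    Lam_local hY (((Lam_strictMono (ν := F.ks) hY).monotone hξ).trans_lt hβ)
  -- the graph of the function `Lam`, over `S.V`
  let P : S.V → S.V → Prop := fun x l => rk l = Lam (YS S.V) F.ks (rk x)
  have hP : Dbl S.V (fun z : S.V × S.V => P z.1 z.2) := by
    refine dbl_eqo (a := fun z : S.V × S.V => rk z.2) (dbl_rk Dbl.snd) ?_
    exact Lam_dbl (ys_dbl S.V) F.ks (Γ := S.V × S.V) (a := fun z => rk z.1) (dbl_rk Dbl.fst)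
  obtain ⟨k, φ, p, hφ⟩ := dbl_fm2 hP
  let pc : _root_.Fin k → Asg S → S.V := fun m _ => p m
  have hpc : ∀ m, F.sc.FS F.ks (pc m) := fun m => FS_const F.sc F.ks (p m)
  let ph : _root_.Fin k → F.NN := fun m => ⟨F.Pi (pc m), mem_NN _ (hpc m)⟩
  let Q : N → N → Prop := fun x y =>
    ∃ (h1 : x.1 ∈ F.NN) (h2 : y.1 ∈ F.NN), Sat F.NN φ (Fin.append ph ![⟨x.1, h1⟩, ⟨y.1, h2⟩])
  have hQ : Dbl N (fun z : N × N => Q z.1 z.2) :=
    rel_dbl (FIN_NN_sub ham F) (FIN_NN_dbl ham F) φ ph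
  let i : Ordinal.{0} → Ordinal.{0} := fun ξ => sInf {α | Q (oo N α) (oo N (hfun ξ))}
  refine ⟨i, fun ξ hξ => ?_, ?_⟩
  · -- the value
    have hl : F.sc.rho F.ks (fun _ => hfun ξ) = hfun ξ := by
      rw [hfe ξ hξ]
      exact rho_const_lam F ξ
    have key : ∀ α, Q (oo N α) (oo N (hfun ξ)) ↔ α = F.sc.rho F.ks (fun _ => ξ) := by
      intro α
      obtain ⟨a, ha, rfl⟩ := piO_rep F α
      have e1 : F.Pi (fun z => oo S.V (a z)) = (F.sc.rho F.ks a).toZFSet := Pi_oo ha
      have hcl : F.sc.FS F.ks (fun _ : Asg S => hfun ξ) := FS_const F.sc F.ks _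
      have e2 : F.Pi (fun _ => oo S.V (hfun ξ)) = (hfun ξ).toZFSet := by
        have := Pi_oo (F := F) hcl
        rw [hl] at this
        exact this
      have hfa : F.sc.FS F.ks (fun z => oo S.V (a z)) := FS_oo ha
      have hfl : F.sc.FS F.ks (fun _ : Asg S => oo S.V (hfun ξ)) := FS_oo hcl
      let f2 : _root_.Fin 2 → Asg S → S.V := ![fun z => oo S.V (a z), fun _ => oo S.V (hfun ξ)]
      let f : _root_.Fin (k + 2) → Asg S → S.V := Fin.append pc f2
      have hf2 : ∀ m, F.sc.FS F.ks (f2 m) := by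
        intro m
        fin_cases m
        · exact hfa
        · exact hfl
      have hf : ∀ m, F.sc.FS F.ks (f m) := by
        intro m
        refine Fin.addCases (fun m => ?_) (fun m => ?_) m
        · show F.sc.FS F.ks (Fin.append pc f2 (Fin.castAdd 2 m))
          rw [Fin.append_left]
          exact hpc m
        · show F.sc.FS F.ks (Fin.append pc f2 (Fin.natAdd k m))
          rw [Fin.append_right]
          exact hf2 m
      have m1 : (oo N (F.sc.rho F.ks a)).1 ∈ F.NN := by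
        show (F.sc.rho F.ks a).toZFSet ∈ F.NN
        rw [← e1]
        exact mem_NN _ hfa
      have m2 : (oo N (hfun ξ)).1 ∈ F.NN := by
        show (hfun ξ).toZFSet ∈ F.NN
        rw [← e2]
        exact mem_NN _ hfl
      have hvec : (fun m => (⟨F.Pi (f m), mem_NN (f m) (hf m)⟩ : F.NN)) =
          Fin.append ph ![⟨(oo N (F.sc.rho F.ks a)).1, m1⟩, ⟨(oo N (hfun ξ)).1, m2⟩] := by
        funext m
        refine Fin.addCases (fun m => ?_) (fun m => ?_) m
        · rw [Fin.append_left]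
          apply Subtype.ext
          show F.Pi (Fin.append pc f2 (Fin.castAdd 2 m)) = F.Pi (pc m)
          rw [Fin.append_left]
        · rw [Fin.append_right]
          apply Subtype.ext
          show F.Pi (Fin.append pc f2 (Fin.natAdd k m)) = _
          rw [Fin.append_right]
          fin_cases m
          · exact e1
          · exact e2
      have hlos := los φ f hf
      rw [hvec] at hlos
      have hsat : ∀ z, Sat S.V φ (fun m => f m z) ↔ a z = ξ := by
        intro z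
        have hv : (fun m => f m z) = Fin.append p ![oo S.V (a z), oo S.V (hfun ξ)] := by
          funext m
          refine Fin.addCases (fun m => ?_) (fun m => ?_) m
          · show Fin.append pc f2 (Fin.castAdd 2 m) z = _
            rw [Fin.append_left, Fin.append_left]
          · show Fin.append pc f2 (Fin.natAdd k m) z = _
            rw [Fin.append_right, Fin.append_right]
            fin_cases m
            · rfl
            · rfl
        rw [hv, ← hφ]
        show rk (oo S.V (hfun ξ)) = Lam (YS S.V) F.ks (rk (oo S.V (a z))) ↔ _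
        rw [rk_oo, rk_oo, hfe ξ hξ]
        constructor
        · intro h
          exact ((Lam_strictMono (ν := F.ks) hY).injective h).symm
        · rintro h
          rw [h]
      have hQiff : Q (oo N (F.sc.rho F.ks a)) (oo N (hfun ξ)) ↔
          Sat F.NN φ (Fin.append ph
            ![⟨(oo N (F.sc.rho F.ks a)).1, m1⟩, ⟨(oo N (hfun ξ)).1, m2⟩]) :=
        ⟨fun ⟨_, _, h⟩ => h, fun h => ⟨m1, m2, h⟩⟩
      rw [hQiff, hlos, rho_eq ha (FS_const F.sc F.ks ξ)]
      have : (fun z => Sat S.V φ (fun m => f m z)) = fun z => a z = ξ :=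
        funext fun z => propext (hsat z)
      rw [this]
    have hset : {α | Q (oo N α) (oo N (hfun ξ))} = {F.sc.rho F.ks (fun _ => ξ)} := by
      ext α
      exact key α
    show sInf {α | Q (oo N α) (oo N (hfun ξ))} = _
    rw [hset, csInf_singleton]
  · -- definability
    refine dbl_sInf (Γ := N) (P := fun x α => Q (oo N α) (oo N (hfun (rk x)))) ?_
    refine Dbl.comp (f := fun z : N × N => (oo N (rk z.2), oo N (hfun (rk z.1))))
      (g := fun z : N × N => Q z.1 z.2) ?_ hQ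
    refine Dbl.mk (dbl_oo (dbl_rk Dbl.snd)) (dbl_oo ?_)
    exact Dbl.comp (f := fun z : N × N => z.1) (g := fun x : N => hfun (rk x)) Dbl.fst hfd

/-- the recursion computing `S.V` from the iterate and the embedding -/
noncomputable def FIN_G (B : Set ZFSet.{0}) (i : Ordinal.{0} → Ordinal.{0}) :
    Ordinal.{0} → ZFSet.{0} :=
  Ordinal.lt_wf.fix fun α f =>
    ZFSet.range fun β : {β : Set.Iio α // en B (i β.1) ∈ en B (i α)} => f β.1.1 β.1.2

theorem FIN_mem_G {B : Set ZFSet.{0}} {i : Ordinal.{0} → Ordinal.{0}} {α : Ordinal.{0}}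
    {y : ZFSet.{0}} :
    y ∈ FIN_G B i α ↔ ∃ β < α, en B (i β) ∈ en B (i α) ∧ y = FIN_G B i β := by
  rw [FIN_G, WellFounded.fix_eq, ZFSet.mem_range]
  constructor
  · rintro ⟨⟨⟨β, hβ⟩, h⟩, rfl⟩
    exact ⟨β, hβ, h, rfl⟩
  · rintro ⟨β, hβ, h, rfl⟩
    exact ⟨⟨⟨β, hβ⟩, h⟩, rfl⟩

theorem V_sub (ham : ∀ x ∈ N, ZFSet.sep (· ∈ Stab S.V) x ∈ N) (F : FD S) : S.V ⊆ N := by
  rintro x ⟨η, rfl⟩
  obtain ⟨i, hi, hid⟩ := emb_dbl ham F η
  obtain ⟨henN, hend⟩ := en_dbl (V := N) (AF_dbl ham F)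
  -- the recursion in `N`
  let E : N → N → Prop := fun w x =>
    (⟨en F.AF (i (rk w)), henN _⟩ : N) ∈ (⟨en F.AF (i (rk x)), henN _⟩ : N)
  have he : Dbl N (fun x : N => (⟨en F.AF (i (rk x)), henN _⟩ : N)) :=
    dbl_app' (F := fun α => (⟨en F.AF α, henN α⟩ : N)) hend hid
  have hE : Dbl N (fun z : N × N => E z.1 z.2) :=
    Dbl.mem (Dbl.comp (f := fun z : N × N => z.1)
      (g := fun x : N => (⟨en F.AF (i (rk x)), henN _⟩ : N)) Dbl.fst he)
      (Dbl.comp (f := fun z : N × N => z.2)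
      (g := fun x : N => (⟨en F.AF (i (rk x)), henN _⟩ : N)) Dbl.snd he)
  let D : N × N → N → Prop := fun z y => ∃ w, w ∈ z.1 ∧ E w z.1 ∧ y = fapp z.2 w
  have hD : Dbl N (fun z : (N × N) × N => D z.1 z.2) := by
    have h1 : Dbl N (fun z : ((N × N) × N) × N => E z.2 z.1.1.1) :=
      Dbl.comp (f := fun z : ((N × N) × N) × N => (z.2, z.1.1.1))
        (g := fun z : N × N => E z.1 z.2) (by fun_prop) hE
    show Dbl N (fun z : (N × N) × N => ∃ w, w ∈ z.1.1 ∧ E w z.1.1 ∧ z.2 = fapp z.1.2 w)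
    fun_prop
  have hsm : ∀ z : N × N, ST.Small (D z) := by
    intro z
    have h1 : Dbl N (fun y : N => D z y) :=
      Dbl.comp (f := fun y : N => (z, y)) (g := fun q : (N × N) × N => D q.1 q.2)
        (by fun_prop) hD
    have h2 : Dbl N (fun w : N => fapp z.2 w) := by fun_prop
    refine small_of_subset h1 (image (fun w => fapp z.2 w) z.1) fun y hy => ?_
    obtain ⟨w, hw, -, rfl⟩ := hy
    exact (mem_image h2).2 ⟨w, hw, rfl⟩
  have hH : Dbl N (fun z : N × N => ST.comp (D z)) := dbl_comp hsm hD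
  have hDO : DO N (FIN_G F.AF i) := by
    refine rec_ord (H := fun x g => ST.comp (D (x, g))) hH ?_
    intro α g _ hg
    ext y
    rw [FIN_mem_G]
    constructor
    · rintro ⟨β, hβ, h1, rfl⟩
      obtain ⟨h2, h3⟩ := hg β hβ
      have h4 : (⟨FIN_G F.AF i β, h2⟩ : N) ∈ ST.comp (D (oo N α, g)) := by
        rw [mem_comp (hsm _)]
        refine ⟨oo N β, oo_mem.2 hβ, ?_, h3.symm⟩
        show en F.AF (i (rk (oo N β))) ∈ en F.AF (i (rk (oo N α)))
        rw [rk_oo, rk_oo]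
        exact h1
      exact h4
    · intro hy
      have hyN : y ∈ N := Inner.trans _ (ST.comp (D (oo N α, g))).2 y hy
      have h4 : (⟨y, hyN⟩ : N) ∈ ST.comp (D (oo N α, g)) := hy
      rw [mem_comp (hsm _)] at h4
      obtain ⟨w, hw, h5, h6⟩ := h4
      have hw' : w.1 ∈ α.toZFSet := hw
      obtain ⟨β, hβ, h7⟩ := Ordinal.mem_toZFSet_iff.1 hw'
      have hwe : w = oo N β := Subtype.ext h7.symm
      subst hwe
      obtain ⟨h2, h3⟩ := hg β hβ
      refine ⟨β, hβ, ?_, ?_⟩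
      · have h8 : en F.AF (i (rk (oo N β))) ∈ en F.AF (i (rk (oo N α))) := h5
        rw [rk_oo, rk_oo] at h8
        exact h8
      · have h9 : (⟨y, hyN⟩ : N) = fapp g (oo N β) := h6
        rw [h3] at h9
        exact congrArg Subtype.val h9
  obtain ⟨hGN, -⟩ := hDO
  -- the recursion computes the sets constructible in `S.V`
  have key : ∀ α, α ≤ η → FIN_G F.AF i α = en S.A α := by
    intro α
    induction α using Ordinal.lt_wf.induction with
    | _ α ih =>
      intro hα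
      ext y
      rw [FIN_mem_G]
      have hmem : ∀ β < α, (en F.AF (i β) ∈ en F.AF (i α) ↔ en S.A β ∈ en S.A α) := by
        intro β hβ
        rw [hi β (hβ.le.trans hα), hi α hα, ← piO_eq, ← piO_eq,
          (piO_mem_iff (FS_const F.sc F.ks β) (FS_const F.sc F.ks α)).1]
        exact AE_const _
      constructor
      · rintro ⟨β, hβ, h1, rfl⟩
        rw [ih β hβ (hβ.le.trans hα)]
        exact (hmem β hβ).1 h1
      · intro hy
        obtain ⟨⟨β, hβ, rfl⟩, -⟩ := mem_en.1 hy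
        exact ⟨β, hβ, (hmem β hβ).2 hy, (ih β hβ (hβ.le.trans hα)).symm⟩
  rw [← key η le_rfl]
  exact hGN η

end FD

end Pool.Agent.SC
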