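import Pool.Agent.Lib_helper73.SCL.Defs

/-!
# Block FML: definable sets and formulas
-/

set_option linter.unusedSectionVars false

namespace Pool.Agent.SC

open FirstOrder Pool.Agent.Lib_helper27 Pool.Agent.Lib_helper27.ST

universe u v w

variable {V : Set ZFSet.{0}} [Inner V]

/-- Every set of `n`-tuples definable with parameters is given by a formula in the variables
`v_0, …, v_{k+n-1}`, the first `k` of which are parameters. -/
theorem definable_fm {M : Type u} [SetStr M] {n : ℕ} {D : Set (Fin n → M)}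
    (hD : (Set.univ : Set M).Definable LSet D) :
    ∃ (k : ℕ) (φ : Fm (k + n)) (p : Fin k → M),
      ∀ v : Fin n → M, v ∈ D ↔ φ.Realize Empty.elim (Fin.append p v) := by
  classical
  rw [Set.definable_iff_finitely_definable] at hD
  obtain ⟨A0, -, hA⟩ := hD
  rw [Set.definable_iff_exists_formula_sum] at hA
  obtain ⟨φ, hφ⟩ := hA
  let e : (↑(↑A0 : Set M)) ≃ Fin A0.card := A0.equivFin
  let g : (↑(↑A0 : Set M)) ⊕ Fin n → Empty ⊕ Fin (A0.card + n) := fun s =>
    s.elim (fun a => Sum.inr (Fin.castAdd n (e a))) (fun i => Sum.inr (Fin.natAdd _ i))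
  let q : Fin A0.card → M := fun i => (e.symm i).1
  refine ⟨A0.card, Language.BoundedFormula.relabel g φ, q, fun v => ?_⟩
  rw [hφ]
  show Language.Formula.Realize φ _ ↔ _
  unfold Language.Formula.Realize
  have h := Language.BoundedFormula.realize_relabel (L := LSet) (M := M) (φ := φ) (g := g)
    (v := Empty.elim) (xs := (Fin.append q v : Fin (A0.card + n) → M))
  refine Iff.trans ?_ h.symm
  have h1 : (Sum.elim Empty.elim ((Fin.append q v : Fin (A0.card + n) → M) ∘ Fin.castAdd 0) ∘ g) =
      Sum.elim (↑) v := by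
    funext s
    rcases s with a | i
    · show Fin.append q v (Fin.castAdd n (e a)) = _
      rw [Fin.append_left]
      simp [q]
    · show Fin.append q v (Fin.natAdd _ i) = _
      rw [Fin.append_right]
      simp
  rw [h1]
  have h2 : ((Fin.append q v : Fin (A0.card + n) → M) ∘ Fin.natAdd (A0.card + n) : _root_.Fin 0 → M) =
      default := Subsingleton.elim _ _
  rw [h2]

/-- Every definable binary predicate is given by a formula with parameters. -/
theorem dbl_fm2 {P : V → V → Prop} (hP : Dbl V (fun z : V × V => P z.1 z.2)) :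
    ∃ (k : ℕ) (φ : Fm (k + 2)) (p : Fin k → V),
      ∀ x y : V, P x y ↔ Sat V φ (Fin.append p ![x, y]) := by
  rw [dbl_prop_iff] at hP
  have h := Set.Definable.preimage_comp (α := Unit ⊕ Unit) (β := Fin 2)
    (fun s => s.elim (fun _ => 0) (fun _ => 1)) hP
  obtain ⟨k, φ, p, hφ⟩ := definable_fm h
  exact ⟨k, φ, p, fun x y => hφ ![x, y]⟩

/-- Every predicate given by a formula with parameters is definable. -/
theorem sat_dbl {k : ℕ} (φ : Fm (k + 1)) (p : Fin k → V) :
    Dbl V (fun x : V => Sat V φ (Fin.snoc p x)) := by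
  rw [dbl_prop_iff, Set.definable_iff_exists_formula_sum]
  let g : Empty ⊕ Fin (k + 1) → ↑(Set.univ : Set V) ⊕ Unit := fun s =>
    s.elim Empty.elim (fun i => Fin.lastCases (motive := fun _ => ↑(Set.univ : Set V) ⊕ Unit)
      (Sum.inr ()) (fun j => Sum.inl ⟨p j, trivial⟩) i)
  refine ⟨φ.toFormula.relabel g, ?_⟩
  ext v
  show Sat V φ (Fin.snoc p (v ())) ↔ Language.Formula.Realize _ _
  rw [Language.Formula.realize_relabel, Language.BoundedFormula.realize_toFormula]
  unfold Sat
  have h1 : ((Sum.elim (↑) v ∘ g) ∘ Sum.inl : Empty → V) = Empty.elim := Subsingleton.elim _ _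
  have h2 : ((Sum.elim (↑) v ∘ g) ∘ Sum.inr : Fin (k + 1) → V) = Fin.snoc p (v ()) := by
    funext i
    refine Fin.lastCases ?_ (fun j => ?_) i
    · simp [g]
    · simp [g]
  rw [h1, h2]

end Pool.Agent.SC
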