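import Pool.Agent.Lib_helper73.SCL.FFC

/-!
# Block FSC: closure properties of `FS`
-/

set_option linter.unusedSectionVars false

namespace Pool.Agent.SC

open FirstOrder Pool.Agent.Lib_helper27 Pool.Agent.Lib_helper27.ST

universe u v w

variable {S : MSys}

section FS

variable {sc : Scr S} {s t : Ordinal.{0}} {X : Type w} [Tgt S.V X] {Γ : Type u} {Δ : Type v}
  [Ctx S.V Γ] [Ctx S.V Δ]

theorem exists_cl (sc : Scr S) (c : Finset Ordinal.{0}) :
    ∃ c', c ⊆ c' ∧ sc.Cl c' ∧ ∀ s, (∀ t ∈ c, t < s) → ∀ t ∈ c', t < s := by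
  refine ⟨c ∪ c.biUnion sc.b, Finset.subset_union_left, ?_, ?_⟩
  · intro s hs t ht
    rw [Finset.mem_union] at hs ⊢
    right
    rw [Finset.mem_biUnion]
    rcases hs with hs | hs
    · exact ⟨s, hs, ht⟩
    · rw [Finset.mem_biUnion] at hs
      obtain ⟨u, hu, hsu⟩ := hs
      exact ⟨u, hu, sc.b_cl u s hsu ht⟩
  · intro s hs t ht
    rw [Finset.mem_union] at ht
    rcases ht with ht | ht
    · exact hs t ht
    · rw [Finset.mem_biUnion] at ht
      obtain ⟨u, hu, htu⟩ := ht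
      exact (sc.b_lt u t htu).trans (hs u hu)

theorem Cl_union {c c' : Finset Ordinal.{0}} (h : sc.Cl c) (h' : sc.Cl c') :
    sc.Cl (c ∪ c') := by
  intro s hs t ht
  rw [Finset.mem_union] at hs ⊢
  rcases hs with hs | hs
  · exact Or.inl (h s hs ht)
  · exact Or.inr (h' s hs ht)

theorem FS_mono {f : Asg S → X} (hf : sc.FS s f) (h : s ≤ t) : sc.FS t f := by
  obtain ⟨c, h1, h2, h3⟩ := hf
  exact ⟨c, h1, fun u hu => (h2 u hu).trans_le h, h3⟩

theorem FS_comp {f : Asg S → Γ} (hf : sc.FS s f) {G : Γ → X} (hG : Dbl S.V G) :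
    sc.FS s (fun z => G (f z)) := by
  obtain ⟨c, h1, h2, h3⟩ := hf
  exact ⟨c, h1, h2, h3.comp hG⟩

theorem FSC_join {c c' : Finset Ordinal.{0}} (h : ∀ t ∈ c, t < s) (h' : ∀ t ∈ c', t < s) :
    ∀ t ∈ c ∪ c', t < s := by
  intro t ht
  rcases Finset.mem_union.1 ht with ht | ht
  · exact h t ht
  · exact h' t ht

theorem FS_pair {f : Asg S → Γ} {g : Asg S → Δ} (hf : sc.FS s f) (hg : sc.FS s g) :
    sc.FS s (fun z => (f z, g z)) := by
  obtain ⟨c, h1, h2, h3⟩ := hf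
  obtain ⟨c', h1', h2', h3'⟩ := hg
  exact ⟨c ∪ c', Cl_union h1 h1', FSC_join h2 h2',
    (h3.mono Finset.subset_union_left).pair (h3'.mono Finset.subset_union_right)⟩

theorem FS_const (sc : Scr S) (s : Ordinal.{0}) (x : X) : sc.FS s (fun _ : Asg S => x) :=
  ⟨∅, fun t ht => (Finset.notMem_empty t ht).elim, fun t ht => (Finset.notMem_empty t ht).elim,
    FF.const x⟩

theorem FS_oo {a : Asg S → Ordinal.{0}} (ha : sc.FS s a) :
    sc.FS s (fun z => oo S.V (a z)) := by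
  obtain ⟨c, h1, h2, h3⟩ := ha
  exact ⟨c, h1, h2, h3.oo⟩

theorem FS_rk {f : Asg S → S.V} (hf : sc.FS s f) : sc.FS s (fun z => rk (f z)) := by
  obtain ⟨c, h1, h2, h3⟩ := hf
  exact ⟨c, h1, h2, h3.rk⟩

theorem FS_compo {a : Asg S → Ordinal.{0}} (ha : sc.FS s a) {F : Ordinal.{0} → X}
    (hF : Dbl S.V (fun x : S.V => F (rk x))) : sc.FS s (fun z => F (a z)) := by
  obtain ⟨c, h1, h2, h3⟩ := ha
  exact ⟨c, h1, h2, h3.compo hF⟩

theorem FS_coord (sc : Scr S) (h : s < t) : sc.FS t (fun z : Asg S => (z s).1) := by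
  obtain ⟨c, h1, h2, h3⟩ := exists_cl sc {s}
  refine ⟨c, h2, h3 t ?_, FF.coord (h1 (Finset.mem_singleton_self s))⟩
  intro u hu
  rw [Finset.mem_singleton] at hu
  rw [hu]
  exact h

theorem FS_g (sc : Scr S) (s : Ordinal.{0}) : sc.FS s (sc.g s) :=
  ⟨sc.b s, fun t ht => sc.b_cl s t ht, sc.b_lt s, sc.g_ff s⟩

theorem FSC_min : Dbl S.V (fun x : S.V => min (rk x) S.κ) := by
  apply dbl_of_graph_ord
  refine Dbl.congr_prop (p := fun z : S.V × S.V => (rk z.1 ≤ S.κ ∧ rk z.1 = rk z.2) ∨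
    (¬ rk z.1 ≤ S.κ ∧ S.κ = rk z.2)) (by fun_prop) ?_
  intro z
  by_cases h : rk z.1 ≤ S.κ
  · simp [h]
  · have h' : S.κ ≤ rk z.1 := (not_le.1 h).le
    simp [h, h']

theorem FS_kapg (sc : Scr S) (s : Ordinal.{0}) : sc.FS s (fun z => S.kap (sc.g s z)) := by
  have h1 : Dbl S.V (fun x : S.V => S.kap (min (rk x) S.κ)) :=
    kap_dbl FSC_min (fun x => min_le_right _ _)
  have h2 := FS_compo (F := fun i => S.kap (min i S.κ)) (FS_g sc s) h1
  have h3 : (fun z => S.kap (min (sc.g s z) S.κ)) = fun z => S.kap (sc.g s z) := by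
    funext z
    rw [min_eq_left (sc.g_le s z)]
  rwa [h3] at h2

theorem FS_not {φ : Asg S → Prop} (h : sc.FS s φ) : sc.FS s (fun z => ¬ φ z) := by
  obtain ⟨c, h1, h2, h3⟩ := h
  exact ⟨c, h1, h2, h3.not⟩

theorem FS_and {φ ψ : Asg S → Prop} (h : sc.FS s φ) (h' : sc.FS s ψ) :
    sc.FS s (fun z => φ z ∧ ψ z) := by
  obtain ⟨c, h1, h2, h3⟩ := h
  obtain ⟨c', h1', h2', h3'⟩ := h'
  exact ⟨c ∪ c', Cl_union h1 h1', FSC_join h2 h2',
    (h3.mono Finset.subset_union_left).and (h3'.mono Finset.subset_union_right)⟩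

theorem FS_or {φ ψ : Asg S → Prop} (h : sc.FS s φ) (h' : sc.FS s ψ) :
    sc.FS s (fun z => φ z ∨ ψ z) := by
  have h1 := FS_not (FS_and (FS_not h) (FS_not h'))
  have h2 : (fun z => ¬ (¬ φ z ∧ ¬ ψ z)) = fun z => φ z ∨ ψ z := by
    funext z
    exact propext (by tauto)
  rwa [h2] at h1

theorem FS_lt {a b : Asg S → Ordinal.{0}} (ha : sc.FS s a) (hb : sc.FS s b) :
    sc.FS s (fun z => a z < b z) := by
  have h1 := FS_comp (G := fun z : S.V × S.V => rk z.1 < rk z.2)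
    (FS_pair (FS_oo ha) (FS_oo hb)) (by fun_prop)
  simpa only [rk_oo] using h1

theorem FS_le {a b : Asg S → Ordinal.{0}} (ha : sc.FS s a) (hb : sc.FS s b) :
    sc.FS s (fun z => a z ≤ b z) := by
  have h1 := FS_comp (G := fun z : S.V × S.V => rk z.1 ≤ rk z.2)
    (FS_pair (FS_oo ha) (FS_oo hb)) (by fun_prop)
  simpa only [rk_oo] using h1

theorem FS_eqo {a b : Asg S → Ordinal.{0}} (ha : sc.FS s a) (hb : sc.FS s b) :
    sc.FS s (fun z => a z = b z) := by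
  have h1 := FS_comp (G := fun z : S.V × S.V => rk z.1 = rk z.2)
    (FS_pair (FS_oo ha) (FS_oo hb)) (by fun_prop)
  simpa only [rk_oo] using h1

theorem FS_mem {f g : Asg S → S.V} (hf : sc.FS s f) (hg : sc.FS s g) :
    sc.FS s (fun z => f z ∈ g z) :=
  FS_comp (G := fun z : S.V × S.V => z.1 ∈ z.2) (FS_pair hf hg) (by fun_prop)

theorem FS_eq {f g : Asg S → S.V} (hf : sc.FS s f) (hg : sc.FS s g) :
    sc.FS s (fun z => f z = g z) :=
  FS_comp (G := fun z : S.V × S.V => z.1 = z.2) (FS_pair hf hg) (by fun_prop)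

/-- a function of limit stage is a function of an earlier stage -/
theorem FS_lim {f : Asg S → X} (hf : sc.FS t f) (ht : ∀ s < t, s + 1 < t) (h0 : 0 < t) :
    ∃ s < t, sc.FS s f := by
  obtain ⟨c, h1, h2, h3⟩ := hf
  rcases c.eq_empty_or_nonempty with h | h
  · subst h
    exact ⟨0, h0, ∅, h1, fun u hu => (Finset.notMem_empty u hu).elim, h3⟩
  · refine ⟨c.max' h + 1, ht _ (h2 _ (Finset.max'_mem c h)), c, h1, fun u hu => ?_, h3⟩
    exact (Finset.le_max' c u hu).trans_lt (lt_add_one _)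

theorem FS_fs {f : Asg S → X} (hf : sc.FS s f) : sc.Fs f := by
  obtain ⟨c, h1, _, h3⟩ := hf
  exact ⟨c, h1, h3.supp⟩

theorem FSC_cod_inj {x y : S.V} (h : cod x = cod y) : x = y := by
  have h1 := (cod_spec x).1
  have h2 := (cod_spec y).1
  rw [h] at h1
  exact Subtype.ext (h1.symm.trans h2)

/-- pointwise choice -/
theorem FS_choice {f : Asg S → Γ} (hf : sc.FS s f) {P : Γ → S.V → Prop}
    (hP : Dbl S.V (fun z : Γ × S.V => P z.1 z.2)) :
    ∃ h : Asg S → S.V, sc.FS s h ∧ ∀ z, (∃ v, P (f z) v) → P (f z) (h z) := by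
  have hG : Dbl S.V (fun γ : Γ => iota (fun v => P γ v ∧ ∀ w, P γ w → cod v ≤ cod w)) := by
    apply dbl_iota
    have h1 : Dbl S.V (fun z : (Γ × S.V) × S.V => P z.1.1 z.2) :=
      Dbl.comp (f := fun z : (Γ × S.V) × S.V => (z.1.1, z.2)) (g := fun z : Γ × S.V => P z.1 z.2)
        (by fun_prop) hP
    fun_prop
  refine ⟨_, FS_comp hf hG, ?_⟩
  rintro z ⟨v, hv⟩
  let C : Set Ordinal.{0} := {α | ∃ w : S.V, P (f z) w ∧ cod w = α}
  have hC : C.Nonempty := ⟨cod v, v, hv, rfl⟩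
  obtain ⟨w, hw1, hw2⟩ := csInf_mem hC
  have hmin : ∀ w' : S.V, P (f z) w' → cod w ≤ cod w' := by
    intro w' hw'
    rw [hw2]
    exact csInf_le' ⟨w', hw', rfl⟩
  have huniq : ∃! v, P (f z) v ∧ ∀ w, P (f z) w → cod v ≤ cod w := by
    refine ⟨w, ⟨hw1, hmin⟩, ?_⟩
    rintro w' ⟨h1, h2⟩
    exact FSC_cod_inj (le_antisymm (h2 w hw1) (hmin w' h1))
  exact (iota_spec huniq).1

theorem FS_choice_ord {f : Asg S → Γ} (hf : sc.FS s f) {P : Γ → Ordinal.{0} → Prop}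
    (hP : Dbl S.V (fun z : Γ × S.V => P z.1 (rk z.2))) :
    ∃ a : Asg S → Ordinal.{0}, sc.FS s a ∧ ∀ z, (∃ α, P (f z) α) → P (f z) (a z) := by
  have hG : Dbl S.V (fun γ : Γ => sInf {α | P γ α}) := dbl_sInf hP
  refine ⟨_, FS_comp hf hG, ?_⟩
  rintro z ⟨α, hα⟩
  exact csInf_mem (s := {α | P (f z) α}) ⟨α, hα⟩

end FS

end Pool.Agent.SC
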