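import Pool.Agent.Lib_helper73.SCL.EFD_a
import Pool.Agent.Lib_helper73.SCL.LMP
import Pool.Agent.Lib_helper73.SCL.STB
import Pool.Agent.Lib_helper73.SCL.SZB

set_option linter.unusedSectionVars false

namespace Pool.Agent.SC

open FirstOrder Pool.Agent.Lib_helper27 Pool.Agent.Lib_helper27.ST

universe u v w

variable {S : MSys}

namespace FD

theorem fxp_unb (S : MSys) : ∀ θ, ∃ y ∈ YS S.V, θ < y := fun θ => ys_unbounded S.V θ

theorem rho_const_lam (F : FD S) (ξ : Ordinal.{0}) :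
    F.sc.rho F.ks (fun _ => Lam (YS S.V) F.ks ξ) = Lam (YS S.V) F.ks ξ := by
  apply le_antisymm _ (le_rho_const _ _ _)
  apply rho_le_of (FS_const _ _ _)
  intro b hb hlt
  obtain ⟨y, hmono, hyY, hyα, hyl, hcof⟩ :=
    lmp_seq (Y := YS S.V) (fxp_unb S) (max F.ks (Mu (YS S.V) F.ks ξ))
  rw [← Lam_eq] at hyl hcof
  have hfs : ∀ n, F.sc.Fs (fun z => b z < y n) := fun n =>
    FS_fs (FS_lt hb (FS_const _ _ _))
  have hex : ∃ n, F.sc.AE fun z => b z < y n := by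
    by_contra hn
    have hn' : ∀ n, F.sc.AE fun z => ¬ b z < y n := fun n =>
      (AE_not (hfs n)).2 fun h => hn ⟨n, h⟩
    obtain ⟨z, hz⟩ := AE_sigma (sc := F.sc)
      (φ := fun n z => b z < Lam (YS S.V) F.ks ξ ∧ ¬ b z < y n)
      (fun n => (AE_and (AE_fs hlt) (AE_fs (hn' n))).2 ⟨hlt, hn' n⟩)
    obtain ⟨n, h1⟩ := hcof (b z) (hz 0).1
    exact (hz n).2 h1
  obtain ⟨n, hn⟩ := hex
  have hks : F.ks < y n := lt_of_le_of_lt (le_max_left _ _) (hyα n)
  have hks' : F.ks < y (n + 1) := lt_of_le_of_lt (le_max_left _ _) (hyα (n + 1))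
  have h1 := size_bound F.isDef (ys_sl (hyY (n + 1)))
    ((F.κ_lt.trans F.nu_lt).trans hks') hks' (hmono (Nat.lt_succ_self n)) hb hn
  exact h1.trans (hyl _)

end FD

end Pool.Agent.SC
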