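import Pool.Agent.Lib_helper73.SCL.MKS_b

set_option linter.unusedSectionVars false

namespace Pool.Agent.SC

open FirstOrder Pool.Agent.Lib_helper27 Pool.Agent.Lib_helper27.ST

universe u v w

variable {S : MSys}

section loc

variable {G G' : Ordinal.{0} → S.V} {s : Ordinal.{0}}

end loc

/-- the codes `G t`, `t < s`, are valid codes of index functions -/
def GV (G : Ordinal.{0} → S.V) (s : Ordinal.{0}) : Prop :=
  ∀ t < s, (mkS G).VC t (G t) ∧ ∀ z, cfun (G t) z ≤ S.κ

end Pool.Agent.SC
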