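import Pool.Agent.Lib_helper73.SCL.AEB
import Pool.Agent.Lib_helper73.SCL.LOC_a

set_option linter.unusedSectionVars false

namespace Pool.Agent.SC

open FirstOrder Pool.Agent.Lib_helper27 Pool.Agent.Lib_helper27.ST

universe u v w

variable {S : MSys}

/-- removal of `m` -/
noncomputable def IAE_rem (c m : S.V) : S.V := comp fun t => t ∈ c ∧ t ≠ m

theorem IAE_mem_rem {c m t : S.V} : t ∈ IAE_rem c m ↔ t ∈ c ∧ t ≠ m :=
  mem_comp (small_sep (D := fun t => t ≠ m) (by fun_prop) c)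

@[fun_prop]
theorem IAE_rem_dbl {Γ : Type v} [Ctx S.V Γ] {f g : Γ → S.V} (hf : Dbl S.V f) (hg : Dbl S.V g) :
    Dbl S.V (fun γ => IAE_rem (f γ) (g γ)) :=
  dbl_comp (fun γ => small_sep (D := fun t => t ≠ g γ) (by fun_prop) (f γ)) (by fun_prop)

/-- the index -/
noncomputable def IAE_idx (g m w : S.V) : Ordinal.{0} :=
  min S.κ (rk (fapp (sndp (fapp g m)) (resf (fstp (fapp g m)) w)))

theorem IAE_min_dbl {Γ : Type v} [Ctx S.V Γ] {a : Γ → Ordinal.{0}} (ha : Dbl S.V a) :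
    Dbl S.V (fun γ => min S.κ (a γ)) := by
  classical
  rw [dbl_ord_iff]
  have h : (fun γ => oo S.V (min S.κ (a γ))) = fun γ =>
      if S.κ ≤ a γ then oo S.V S.κ else oo S.V (a γ) := by
    funext γ
    by_cases h : S.κ ≤ a γ
    · rw [if_pos h, min_eq_left h]
    · rw [if_neg h, min_eq_right (le_of_lt (not_le.1 h))]
  rw [h]
  have h1 : Dbl S.V (fun _ : Γ => S.κ) := Dbl.const _
  exact Dbl_ite (dbl_le h1 ha) (dbl_oo h1) (dbl_oo ha)

@[fun_prop]
theorem IAE_idx_dbl {Γ : Type v} [Ctx S.V Γ] {f g h : Γ → S.V} (hf : Dbl S.V f) (hg : Dbl S.V g)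
    (hh : Dbl S.V h) : Dbl S.V (fun γ => IAE_idx (f γ) (g γ) (h γ)) := by
  unfold IAE_idx
  exact IAE_min_dbl (by fun_prop)

/-- the extension of `w` -/
noncomputable def IAE_ext (w m : S.V) (ξ : Ordinal.{0}) : S.V :=
  union w (upair (opair m (oo S.V ξ)) (opair m (oo S.V ξ)))

/-- the predicate after integration -/
def IAE_pred (g m X w : S.V) : Prop :=
  ∀ᶠ ξ : Set.Iio S.κ in S.U (IAE_idx g m w), IAE_ext w m ξ.1 ∈ X

@[fun_prop]
theorem IAE_pred_dbl {Γ : Type v} [Ctx S.V Γ] {f g h k : Γ → S.V} (hf : Dbl S.V f)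
    (hg : Dbl S.V g) (hh : Dbl S.V h) (hk : Dbl S.V k) :
    Dbl S.V (fun γ => IAE_pred (f γ) (g γ) (h γ) (k γ)) := by
  unfold IAE_pred
  refine dbl_ev (i := fun γ => IAE_idx (f γ) (g γ) (k γ))
    (P := fun γ ξ => IAE_ext (k γ) (g γ) ξ ∈ h γ) (by fun_prop) (fun γ => min_le_left _ _) ?_
  unfold IAE_ext
  fun_prop

theorem IAE_small (g m c X : S.V) : Small (fun w : S.V =>
    w ∈ power (prod (IAE_rem c m) (oo S.V S.κ)) ∧ IAE_pred g m X w) :=
  small_sep (D := fun w => IAE_pred g m X w) (by fun_prop) _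

/-- one step of integration -/
noncomputable def IAE_stp (g m c X : S.V) : S.V := comp fun w =>
  w ∈ power (prod (IAE_rem c m) (oo S.V S.κ)) ∧ IAE_pred g m X w

@[fun_prop]
theorem IAE_stp_dbl {Γ : Type v} [Ctx S.V Γ] {f g h k : Γ → S.V} (hf : Dbl S.V f)
    (hg : Dbl S.V g) (hh : Dbl S.V h) (hk : Dbl S.V k) :
    Dbl S.V (fun γ => IAE_stp (f γ) (g γ) (h γ) (k γ)) := by
  unfold IAE_stp
  refine dbl_comp (fun γ => IAE_small _ _ _ _) ?_
  fun_prop

/-- the certificate `h` is closed -/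
def IAE_cert (g h : S.V) : Prop :=
  ∀ c X : S.V, opair c X ∈ h → ((c = empty ∧ empty ∈ X) ∨
    ∃ m, m ∈ c ∧ (∀ t, t ∈ c → t ≠ m → t ∈ m) ∧ opair (IAE_rem c m) (IAE_stp g m c X) ∈ h)

/-- the internal quantifier -/
def IAE_E (g y X : S.V) : Prop := ∃ h, opair y X ∈ h ∧ IAE_cert g h

theorem IAE_E_dbl : Dbl S.V (fun z : (S.V × S.V) × S.V => IAE_E z.1.1 z.1.2 z.2) := by
  unfold IAE_E IAE_cert
  fun_prop

theorem IAE_fc_empty : fc S ∅ = empty := by
  refine eq_empty_iff.2 fun y hy => ?_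
  obtain ⟨s, hs, -⟩ := mem_fc.1 hy
  exact absurd hs (Finset.notMem_empty s)

theorem IAE_enc_empty (z : Asg S) : enc ∅ z = empty := by
  refine eq_empty_iff.2 fun y hy => ?_
  obtain ⟨s, hs, -⟩ := mem_enc.1 hy
  exact absurd hs (Finset.notMem_empty s)

theorem IAE_rem_fc {c : Finset Ordinal.{0}} {m : Ordinal.{0}} (hm : m ∉ c) :
    IAE_rem (fc S (insert m c)) (oo S.V m) = fc S c := by
  refine ext fun t => ?_
  rw [IAE_mem_rem, mem_fc, mem_fc]
  constructor
  · rintro ⟨⟨s, hs, rfl⟩, hne⟩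
    rcases Finset.mem_insert.1 hs with rfl | hs
    · exact (hne rfl).elim
    · exact ⟨s, hs, rfl⟩
  · rintro ⟨s, hs, rfl⟩
    refine ⟨⟨s, Finset.mem_insert_of_mem hs, rfl⟩, fun h => ?_⟩
    rw [oo_inj.1 h] at hs
    exact hm hs

theorem IAE_mkg {G : Ordinal.{0} → S.V} {s : Ordinal.{0}} {g : S.V} (hG : GV G s)
    (hg : ∀ t < s, fapp g (oo S.V t) = G t) {m : Ordinal.{0}} (hm : m < s)
    {c : Finset Ordinal.{0}} (hb : (mkS G).b m ⊆ c) (z : Asg S) :
    IAE_idx g (oo S.V m) (enc c z) = (mkS G).g m z := by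
  obtain ⟨⟨⟨c0, F, hGm⟩, hcl, hlt⟩, -⟩ := hG m hm
  have hval : Val G m := fun t ht => ⟨hlt t ht, hcl t ht⟩
  have hb0 : (mkS G).b m = cdom (G m) := mkb_val hval
  have hc0 : cdom (G m) = c0 := by rw [hGm, cdom_code]
  show _ = mkg G m z
  unfold mkg IAE_idx
  rw [if_pos hval, hg m hm, hGm, sndp_opair, fstp_opair, resf_enc (by rw [← hc0, ← hb0]; exact hb),
    cfun_code]

theorem IAE_step {G : Ordinal.{0} → S.V} {s : Ordinal.{0}} {g : S.V} (hG : GV G s)
    (hg : ∀ t < s, fapp g (oo S.V t) = G t) {m : Ordinal.{0}} (hm : m < s)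
    {c : Finset Ordinal.{0}} (hc : (mkS G).Cl c) (hb : (mkS G).b m ⊆ c) (hlt : ∀ t ∈ c, t < m)
    (X : S.V) :
    (mkS G).AE (fun z => enc (insert m c) z ∈ X) ↔
      (mkS G).AE (fun z => enc c z ∈ IAE_stp g (oo S.V m) (fc S (insert m c)) X) := by
  have hmc : m ∉ c := fun h => lt_irrefl m (hlt m h)
  have hsupp : Supp (insert m c) (fun z : Asg S => enc (insert m c) z ∈ X) := by
    intro z z' h
    show (enc (insert m c) z ∈ X) = (enc (insert m c) z' ∈ X)
    rw [enc_congr h]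
  rw [AE_insert hc hb hlt hsupp]
  have h : (mkS G).It m (fun z => enc (insert m c) z ∈ X) =
      fun z => enc c z ∈ IAE_stp g (oo S.V m) (fc S (insert m c)) X := by
    funext z
    apply propext
    unfold IAE_stp
    rw [mem_comp (IAE_small _ _ _ _)]
    unfold Scr.It IAE_pred
    rw [IAE_mkg hG hg hm hb z]
    constructor
    · intro h
      refine ⟨mem_power.2 fun p hp => ?_, ?_⟩
      · obtain ⟨t, ht, rfl⟩ := mem_enc.1 hp
        rw [opair_mem_prod, IAE_rem_fc hmc]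
        exact ⟨mem_fc.2 ⟨t, ht, rfl⟩, oo_mem.2 (z t).2⟩
      · refine h.mono fun ξ hξ => ?_
        have hξ' : enc (insert m c) (Function.update z m ξ) ∈ X := hξ
        rw [enc_insert hmc] at hξ'
        exact hξ'
    · rintro ⟨-, h⟩
      refine h.mono fun ξ hξ => ?_
      show enc (insert m c) (Function.update z m ξ) ∈ X
      rw [enc_insert hmc]
      exact hξ
  rw [h]

theorem IAE_main {G : Ordinal.{0} → S.V} {s : Ordinal.{0}} {g : S.V} (hG : GV G s)
    (hg : ∀ t < s, fapp g (oo S.V t) = G t) (c : Finset Ordinal.{0}) :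
    (mkS G).Cl c → (∀ t ∈ c, t < s) → ∀ X : S.V,
      IAE_E g (fc S c) X ↔ (mkS G).AE (fun z => enc c z ∈ X) := by
  induction c using Finset.induction_on_max with
  | empty =>
    intro _ _ X
    have h1 : (fun z : Asg S => enc ∅ z ∈ X) = fun _ => (empty : S.V) ∈ X := by
      funext z
      rw [IAE_enc_empty]
    rw [h1, AE_const, IAE_fc_empty]
    constructor
    · rintro ⟨h, h2, h3⟩
      rcases h3 _ _ h2 with h4 | ⟨m, hm, -⟩
      · exact h4.2
      · exact (not_mem_empty m hm).elim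
    · intro h
      refine ⟨upair (opair empty X) (opair empty X), mem_upair.2 (Or.inl rfl), fun c Y hcY => ?_⟩
      have h2 : opair c Y = opair empty X := by simpa using hcY
      obtain ⟨rfl, rfl⟩ := opair_inj.1 h2
      exact Or.inl ⟨rfl, h⟩
  | insert m c hlt ih =>
    intro hc hs X
    have hmc : m ∉ c := fun h => lt_irrefl m (hlt m h)
    have hms : m < s := hs m (Finset.mem_insert_self m c)
    have hsub : ∀ t, t ∈ insert m c → (mkS G).b t ⊆ c := by
      intro t ht r hr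
      have h1 : r < t := (mkS G).b_lt t r hr
      have h2 : t ≤ m := by
        rcases Finset.mem_insert.1 ht with rfl | ht
        · exact le_rfl
        · exact (hlt t ht).le
      rcases Finset.mem_insert.1 (hc t ht hr) with rfl | h3
      · exact absurd (h1.trans_le h2) (lt_irrefl _)
      · exact h3
    have hcl : (mkS G).Cl c := fun t ht => hsub t (Finset.mem_insert_of_mem ht)
    have hb : (mkS G).b m ⊆ c := hsub m (Finset.mem_insert_self m c)
    have IH := ih hcl (fun t ht => hs t (Finset.mem_insert_of_mem ht))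
      (IAE_stp g (oo S.V m) (fc S (insert m c)) X)
    rw [IAE_step hG hg hms hcl hb hlt X, ← IH]
    have hmem : oo S.V m ∈ fc S (insert m c) := mem_fc.2 ⟨m, Finset.mem_insert_self m c, rfl⟩
    have hmax : ∀ t, t ∈ fc S (insert m c) → t ≠ oo S.V m → t ∈ oo S.V m := by
      intro t ht hne
      obtain ⟨r, hr, rfl⟩ := mem_fc.1 ht
      rcases Finset.mem_insert.1 hr with rfl | hr
      · exact (hne rfl).elim
      · exact oo_mem.2 (hlt r hr)
    constructor
    · rintro ⟨h, h1, h2⟩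
      refine ⟨h, ?_, h2⟩
      rcases h2 _ _ h1 with ⟨h3, -⟩ | ⟨m', hm', hmax', h3⟩
      · rw [h3] at hmem
        exact (not_mem_empty _ hmem).elim
      · have h4 : m' = oo S.V m := by
          by_contra hne
          exact mem_asymm (hmax m' hm' hne) (hmax' _ hmem fun h => hne h.symm)
        rw [h4, IAE_rem_fc hmc] at h3
        exact h3
    · rintro ⟨h, h1, h2⟩
      refine ⟨union h (upair (opair (fc S (insert m c)) X) (opair (fc S (insert m c)) X)),
        mem_union.2 (Or.inr (mem_upair.2 (Or.inl rfl))), fun c' X' hc' => ?_⟩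
      rcases mem_union.1 hc' with h3 | h3
      · rcases h2 _ _ h3 with h4 | ⟨m', hm', hmax', h4⟩
        · exact Or.inl h4
        · exact Or.inr ⟨m', hm', hmax', mem_union.2 (Or.inl h4)⟩
      · have h4 : opair c' X' = opair (fc S (insert m c)) X := by simpa using h3
        obtain ⟨rfl, rfl⟩ := opair_inj.1 h4
        refine Or.inr ⟨oo S.V m, hmem, hmax, mem_union.2 (Or.inl ?_)⟩
        rw [IAE_rem_fc hmc]
        exact h1

/-- the quantifier `AE` is definable from the script -/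
theorem internal_ae (S : MSys) : ∃ E : S.V → S.V → S.V → Prop,
    Dbl S.V (fun z : (S.V × S.V) × S.V => E z.1.1 z.1.2 z.2) ∧
    ∀ (G : Ordinal.{0} → S.V) (s : Ordinal.{0}) (g : S.V), GV G s →
      (∀ t < s, fapp g (oo S.V t) = G t) → ∀ c : Finset Ordinal.{0}, (mkS G).Cl c →
        (∀ t ∈ c, t < s) → ∀ X : S.V, E g (fc S c) X ↔ (mkS G).AE (fun z => enc c z ∈ X) :=
  ⟨IAE_E, IAE_E_dbl, fun _ _ _ hG hg c hc hs X => IAE_main hG hg c hc hs X⟩

end Pool.Agent.SC
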