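import Pool.Agent.Lib_helper73.SCL.Defs

/-!
# Gödel's enumeration of the sets constructible relative to a class `A`
-/

namespace Pool.Agent.SC

open FirstOrder Pool.Agent.Lib_helper27 Pool.Agent.Lib_helper27.ST

/-- Gödel's well-ordering of pairs of ordinals. -/
def plt (p q : Ordinal.{0} × Ordinal.{0}) : Prop :=
  max p.1 p.2 < max q.1 q.2 ∨ (max p.1 p.2 = max q.1 q.2 ∧ (p.1 < q.1 ∨ (p.1 = q.1 ∧ p.2 < q.2)))

theorem plt_wf : WellFounded plt := by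
  have h : WellFounded (Prod.Lex (· < ·) (Prod.Lex (· < ·) (· < ·)) :
      Ordinal.{0} × Ordinal.{0} × Ordinal.{0} → Ordinal.{0} × Ordinal.{0} × Ordinal.{0} → Prop) :=
    WellFounded.prod_lex Ordinal.lt_wf (WellFounded.prod_lex Ordinal.lt_wf Ordinal.lt_wf)
  refine Subrelation.wf ?_ (InvImage.wf (fun p : Ordinal.{0} × Ordinal.{0} =>
    (max p.1 p.2, p.1, p.2)) h)
  rintro p q (h | ⟨h1, h | ⟨h2, h3⟩⟩)
  · exact Prod.Lex.left _ _ h
  · show Prod.Lex _ _ (max p.1 p.2, p.1, p.2) (max q.1 q.2, q.1, q.2)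
    rw [h1]
    exact Prod.Lex.right _ (Prod.Lex.left _ _ h)
  · show Prod.Lex _ _ (max p.1 p.2, p.1, p.2) (max q.1 q.2, q.1, q.2)
    rw [h1, h2]
    exact Prod.Lex.right _ (Prod.Lex.right _ h3)

open Classical in
/-- `dd η` is the `η`-th pair of ordinals: the least pair which is not `dd ξ` for any `ξ < η`. -/
noncomputable def dd : Ordinal.{0} → Ordinal.{0} × Ordinal.{0} :=
  Ordinal.lt_wf.fix fun η f =>
    if h : {p : Ordinal.{0} × Ordinal.{0} | ∀ ξ (hξ : ξ < η), f ξ hξ ≠ p}.Nonempty then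
      plt_wf.min _ h else (0, 0)

/-- The operation code of `η`. -/
noncomputable def kk (η : Ordinal.{0}) : Ordinal.{0} := (dd (dd η).1).1

/-- The first argument of `η`. -/
noncomputable def xx (η : Ordinal.{0}) : Ordinal.{0} := (dd (dd η).1).2

/-- The second argument of `η`. -/
noncomputable def yy (η : Ordinal.{0}) : Ordinal.{0} := (dd (dd η).2).1

/-- The elements of the `η`-th constructible set, given the values `f ξ`, `ξ < η`. -/
def CPred (A : Set ZFSet.{0}) (η : Ordinal.{0}) (f : Ordinal.{0} → ZFSet.{0}) (z : ZFSet.{0}) :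
    Prop :=
  xx η < η ∧ yy η < η ∧
    ((kk η = 0 ∧ ∃ ι < xx η, z = f ι) ∨
    (kk η = 1 ∧ (z = f (xx η) ∨ z = f (yy η))) ∨
    (kk η = 2 ∧ z ∈ f (xx η) ∧ z ∉ f (yy η)) ∨
    (kk η = 3 ∧ ∃ a ∈ f (xx η), ∃ b ∈ f (yy η), z = ZFSet.pair a b) ∨
    (kk η = 4 ∧ ∃ u, ZFSet.pair u z ∈ f (xx η)) ∨
    (kk η = 5 ∧ ∃ a t, ZFSet.pair a t ∈ f (xx η) ∧ z = ZFSet.pair a (ZFSet.pair a t)) ∨
    (kk η = 6 ∧ ∃ a t, ∃ b ∈ f (xx η), ZFSet.pair a t ∈ f (yy η) ∧
      z = ZFSet.pair a (ZFSet.pair b t)) ∨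
    (kk η = 7 ∧ ∃ b t, ∃ a ∈ b, ZFSet.pair b t ∈ f (xx η) ∧ z = ZFSet.pair b (ZFSet.pair a t)) ∨
    (kk η = 8 ∧ z ∈ f (xx η) ∧ z ∈ A) ∨
    (kk η = 9 ∧ ∃ ι ι', ι < ι' ∧ ι' < xx η ∧ (∀ j < ι', f j ≠ f ι') ∧
      z = ZFSet.pair (f ι) (f ι')) ∨
    (kk η = 10 ∧ ∃ u, ZFSet.pair z u ∈ f (xx η)))

open Classical in
/-- The `η`-th set constructible from the class `A`. -/
noncomputable def en (A : Set ZFSet.{0}) : Ordinal.{0} → ZFSet.{0} :=
  Ordinal.lt_wf.fix fun η f =>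
    ZFSet.sep (CPred A η fun ξ => if h : ξ < η then f ξ h else ∅)
      (ZFSet.range fun ξ : Set.Iio η => f ξ.1 ξ.2)

/-- The set of the first `δ` constructible sets. -/
noncomputable def layer (A : Set ZFSet.{0}) (δ : Ordinal.{0}) : ZFSet.{0} :=
  ZFSet.range fun ξ : Set.Iio δ => en A ξ.1

/-- The class `L[A]` of all sets constructible from `A`. -/
def LA (A : Set ZFSet.{0}) : Set ZFSet.{0} := Set.range (en A)

end Pool.Agent.SC
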