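import Pool.Agent.Lib_helper73.SCL.Base
import Pool.Agent.Lib_helper73.SCL.LDefs

/-!
# Definitions: systems of measures, finite support functions, iterated quantifiers, ranks
-/

namespace Pool.Agent.SC

open FirstOrder Pool.Agent.Lib_helper27 Pool.Agent.Lib_helper27.ST

universe u v w

/-- A sequence of normal measures `U i` on `kap i`, `i ≤ κ`, where `kap κ = κ`; all measures are
considered as ultrafilters on `κ`. -/
structure MSys where
  κ : Ordinal.{0}
  kap : Ordinal.{0} → Ordinal.{0}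
  U : Ordinal.{0} → Ultrafilter (Set.Iio κ)
  kap_top : kap κ = κ
  kap_lt : ∀ i j, i < j → j ≤ κ → kap i < kap j
  lt_kap : ∀ i < κ, i < kap i
  kap_card : ∀ i ≤ κ, (kap i).card.ord = kap i
  unc : ∀ i ≤ κ, Cardinal.aleph0 < (kap i).card
  slim : ∀ i j, i < j → j ≤ κ → 2 ^ (kap i).card < (kap j).card
  conc : ∀ i ≤ κ, {ξ : Set.Iio κ | ξ.1 < kap i} ∈ U i
  tail : ∀ i ≤ κ, ∀ v < kap i, {ξ : Set.Iio κ | v < ξ.1} ∈ U i
  compl : ∀ i ≤ κ, ∀ (ι : Type) (B : ι → Set (Set.Iio κ)), Cardinal.mk ι < (kap i).card →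
    (∀ j, B j ∈ U i) → (⋂ j, B j) ∈ U i
  normal : ∀ i ≤ κ, ∀ f : Set.Iio κ → Ordinal.{0}, {ξ : Set.Iio κ | f ξ < ξ.1} ∈ U i →
    ∃ v, {ξ : Set.Iio κ | f ξ = v} ∈ U i

namespace MSys

variable (S : MSys)

/-- `X ∈ U i` -/
def InU (i : Ordinal.{0}) (X : ZFSet.{0}) : Prop := {ξ : Set.Iio S.κ | ξ.1.toZFSet ∈ X} ∈ S.U i

/-- The class of all pairs `(i, X)` with `i ≤ κ`, `X ⊆ κ` and `X ∈ U i`. -/
def A : Set ZFSet.{0} :=
  {t | ∃ i X, i ≤ S.κ ∧ t = ZFSet.pair i.toZFSet X ∧ X ⊆ S.κ.toZFSet ∧ S.InU i X}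

/-- The inner model `L[A]`. -/
def V : Set ZFSet.{0} := LA S.A

end MSys

/-- Assignments: functions from the ordinals to `κ`. -/
abbrev Asg (S : MSys) : Type 1 := Ordinal.{0} → Set.Iio S.κ

/-- The restriction of the assignment `z` to the finite set `c`, as a set. -/
noncomputable def encZ {S : MSys} (c : Finset Ordinal.{0}) (z : Asg S) : ZFSet.{0} :=
  ZFSet.range fun s : {s : Ordinal.{0} // s ∈ c} => ZFSet.pair s.1.toZFSet (z s.1).1.toZFSet

/-- The finite set `c`, as a set. -/
noncomputable def fcZ (c : Finset Ordinal.{0}) : ZFSet.{0} :=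
  ZFSet.range fun s : {s : Ordinal.{0} // s ∈ c} => s.1.toZFSet

section

variable {S : MSys} [Inner S.V]

open Classical in
/-- The restriction of the assignment `z` to the finite set `c`, as an element of the model. -/
noncomputable def enc (c : Finset Ordinal.{0}) (z : Asg S) : S.V :=
  if h : encZ c z ∈ S.V then ⟨encZ c z, h⟩ else oo S.V 0

variable (S) in
open Classical in
/-- The finite set `c`, as an element of the model. -/
noncomputable def fc (c : Finset Ordinal.{0}) : S.V :=
  if h : fcZ c ∈ S.V then ⟨fcZ c, h⟩ else oo S.V 0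

/-- `f` is a function (of assignments) with finite support `c`, definable in the model. -/
def FF (c : Finset Ordinal.{0}) {X : Type w} [Tgt S.V X] (f : Asg S → X) : Prop :=
  ∃ H : S.V → X, Dbl S.V H ∧ ∀ z, f z = H (enc c z)

/-- `f` only depends on the coordinates in `c`. -/
def Supp {X : Type w} (c : Finset Ordinal.{0}) (f : Asg S → X) : Prop :=
  ∀ z z' : Asg S, (∀ s ∈ c, z s = z' s) → f z = f z'

variable (S) in
/-- A script: at step `s` the measure with index `g s` is used, where `g s` is a function with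
support `b s ⊆ s`. -/
structure Scr where
  b : Ordinal.{0} → Finset Ordinal.{0}
  g : Ordinal.{0} → Asg S → Ordinal.{0}
  b_lt : ∀ s, ∀ t ∈ b s, t < s
  b_cl : ∀ s, ∀ t ∈ b s, b t ⊆ b s
  g_le : ∀ s z, g s z ≤ S.κ
  g_ff : ∀ s, FF (b s) (g s)

namespace Scr

variable (sc : Scr S)

/-- `c` is closed under supports. -/
def Cl (c : Finset Ordinal.{0}) : Prop := ∀ s ∈ c, sc.b s ⊆ c

/-- Integration of coordinate `m`: `φ` holds for almost all values of coordinate `m`. -/
def It (m : Ordinal.{0}) (φ : Asg S → Prop) (z : Asg S) : Prop :=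
  ∀ᶠ ξ in S.U (sc.g m z), φ (Function.update z m ξ)

open Classical in
/-- The iterated quantifier over the coordinates in `c` (the largest coordinate is innermost). -/
noncomputable def QQ (c : Finset Ordinal.{0}) (φ : Asg S → Prop) : Asg S → Prop :=
  if h : c.Nonempty then QQ (c.erase (c.max' h)) (sc.It (c.max' h) φ) else φ
termination_by c.card
decreasing_by exact Finset.card_erase_lt_of_mem (Finset.max'_mem c h)

/-- `φ` has finite support. -/
def Fs {X : Type w} (φ : Asg S → X) : Prop := ∃ c, sc.Cl c ∧ Supp c φ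

/-- `φ` holds almost everywhere. -/
def AE (φ : Asg S → Prop) : Prop := ∃ c, sc.Cl c ∧ Supp c φ ∧ ∀ z, sc.QQ c φ z

/-- `f` is a definable function with finite (closed) support included in `s`. -/
def FS (s : Ordinal.{0}) {X : Type w} [Tgt S.V X] (f : Asg S → X) : Prop :=
  ∃ c, sc.Cl c ∧ (∀ t ∈ c, t < s) ∧ FF c f

/-- the ordering of ordinal-valued functions of stage `s` -/
def rlt (s : Ordinal.{0}) (a b : Asg S → Ordinal.{0}) : Prop :=
  sc.FS s a ∧ sc.FS s b ∧ sc.AE fun z => a z < b z

open Classical in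
/-- The ordinal represented by the function `a` in the model `M_s`. -/
noncomputable def rho (s : Ordinal.{0}) : (Asg S → Ordinal.{0}) → Ordinal.{0} :=
  if h : WellFounded (sc.rlt s) then
    h.fix fun a f => sInf {o | ∀ b (hb : sc.rlt s b a), f b hb < o}
  else fun _ => 0

/-- the function with constant value `κ` -/
def kc : Asg S → Ordinal.{0} := fun _ => S.κ

/-- The script follows the rule: at step `s` use the measure with index `min (bl s) κ^(s)`. -/
def Good (bl : Ordinal.{0} → Ordinal.{0}) : Prop :=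
  Monotone bl ∧ ∀ s, sc.rho s (sc.g s) = min (bl s) (sc.rho s (kc (S := S)))

/-- The domain of a code. -/
noncomputable def _root_.Pool.Agent.SC.cdom (x : S.V) : Finset Ordinal.{0} :=
  open Classical in if h : ∃ c, fstp x = fc S c then h.choose else ∅

/-- The ordinal-valued function with code `x`. -/
noncomputable def _root_.Pool.Agent.SC.cfun (x : S.V) (z : Asg S) : Ordinal.{0} :=
  rk (fapp (sndp x) (enc (cdom x) z))

/-- `x` is a valid code for stage `s`. -/
def VC (s : Ordinal.{0}) (x : S.V) : Prop :=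
  (∃ c F, x = opair (fc S c) F) ∧ sc.Cl (cdom x) ∧ ∀ t ∈ cdom x, t < s

/-- The script is definable: valid codes and ranks are definable. -/
def IsDef : Prop :=
  Dbl S.V (fun z : S.V × S.V => sc.VC (rk z.1) z.2) ∧
  Dbl S.V (fun z : (S.V × S.V) × S.V =>
    sc.VC (rk z.1.1) z.1.2 ∧ sc.rho (rk z.1.1) (cfun z.1.2) = rk z.2)

end Scr

end

end Pool.Agent.SC
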