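import Pool.Agent.Lib_helper73.SCL.Defs

/-!
# Block WFR
-/

set_option autoImplicit false
set_option linter.unusedSectionVars false

namespace Pool.Agent.SC

open FirstOrder Pool.Agent.Lib_helper27 Pool.Agent.Lib_helper27.ST

universe u v w

variable {V : Set ZFSet.{0}} [Inner V]

/-- Recursion along a definable set-like well-founded relation. -/
theorem rec_wf {R : V → V → Prop} (wf : WellFounded R) (hR : Dbl V (fun z : V × V => R z.1 z.2))
    (hs : ∀ x, ST.Small (fun y => R y x)) {H : V → V → V}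
    (hH : Dbl V (fun z : V × V => H z.1 z.2)) :
    ∃ F : V → V, Dbl V F ∧ ∀ x, ∃ g : V, (∀ z : V, z ∈ g ↔ ∃ y, R y x ∧ z = ST.opair y (F y)) ∧
      (∀ y, R y x → ST.fapp g y = F y) ∧ F x = H x g := by
  have hD : RecData R H := ⟨hR, hs, fun Φ _ h x => wf.induction x (fun x ih => h x ih), hH⟩
  refine ⟨recF R H, hD.dbl_recF, fun x =>
    ⟨graph (recF R H) (preds R x), ?_, ?_, hD.recF_spec x⟩⟩
  · intro z
    rw [mem_graph hD.dbl_recF]
    simp only [hD.mem_preds]
  · intro y hy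
    exact fapp_graph hD.dbl_recF (hD.mem_preds.2 hy)

/-- `∈`-recursion. -/
theorem rec_mem {H : V → V → V} (hH : Dbl V (fun z : V × V => H z.1 z.2)) :
    ∃ F : V → V, Dbl V F ∧ ∀ x, ∃ g : V, (∀ z : V, z ∈ g ↔ ∃ y, y ∈ x ∧ z = ST.opair y (F y)) ∧
      (∀ y, y ∈ x → ST.fapp g y = F y) ∧ F x = H x g := by
  have wf : WellFounded (fun y x : V => y ∈ x) := InvImage.wf Subtype.val ZFSet.mem_wf
  exact rec_wf wf (by fun_prop) (fun x => ⟨x, fun y => Iff.rfl⟩) hH

end Pool.Agent.SC
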