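import Pool.Agent.Lib_helper73.SCL.Base
import Pool.Agent.Lib_helper73.SCL.WFR

set_option linter.unusedSectionVars false

namespace Pool.Agent.SC

open FirstOrder Pool.Agent.Lib_helper27 Pool.Agent.Lib_helper27.ST

universe u v w

variable {V : Set ZFSet.{0}} [Inner V]

theorem RNK_aux : ∃ F : V → V, Dbl V F ∧ ∀ x, F x = oo V (rk x) := by
  obtain ⟨F, hF, hF'⟩ := rec_mem (V := V)
    (H := fun x g => sUnion (image (fun y => succ (fapp g y)) x)) (by fun_prop)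
  refine ⟨F, hF, ?_⟩
  have key : ∀ x : ZFSet.{0}, ∀ hx : x ∈ V, F ⟨x, hx⟩ = oo V (rk (⟨x, hx⟩ : V)) := by
    intro x
    refine ZFSet.inductionOn x ?_
    intro x ih hx
    obtain ⟨g, -, hg, h⟩ := hF' ⟨x, hx⟩
    rw [h]
    refine ext fun z => ?_
    rw [mem_sUnion]
    have hmem : ∀ w : V, w ∈ oo V (rk (⟨x, hx⟩ : V)) ↔ ∃ α < rk (⟨x, hx⟩ : V), oo V α = w := by
      intro w
      show w.1 ∈ (rk (⟨x, hx⟩ : V)).toZFSet ↔ _
      rw [Ordinal.mem_toZFSet_iff]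
      constructor
      · rintro ⟨a, ha, h⟩
        exact ⟨a, ha, Subtype.ext h⟩
      · rintro ⟨a, ha, h⟩
        exact ⟨a, ha, congrArg Subtype.val h⟩
    rw [hmem]
    constructor
    · rintro ⟨y, hy, hz⟩
      rw [mem_image (by fun_prop)] at hy
      obtain ⟨y', hy', rfl⟩ := hy
      have hy'' : y'.1 ∈ x := hy'
      rw [hg y' hy', ih y'.1 hy'' y'.2] at hz
      have hlt : rk y' < rk (⟨x, hx⟩ : V) := ZFSet.rank_lt_of_mem hy''
      rcases mem_succ.1 hz with hz | hz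
      · have hz' : z.1 ∈ (rk y').toZFSet := hz
        rw [Ordinal.mem_toZFSet_iff] at hz'
        obtain ⟨a, ha, ha'⟩ := hz'
        exact ⟨a, ha.trans hlt, Subtype.ext ha'⟩
      · exact ⟨rk y', hlt, hz.symm⟩
    · rintro ⟨a, ha, rfl⟩
      have ha' : a < ZFSet.rank x := ha
      rw [ZFSet.lt_rank_iff] at ha'
      obtain ⟨y, hy, hay⟩ := ha'
      have hyV : y ∈ V := Inner.trans x hx y hy
      refine ⟨succ (fapp g ⟨y, hyV⟩), ?_, ?_⟩
      · rw [mem_image (by fun_prop)]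
        exact ⟨⟨y, hyV⟩, hy, rfl⟩
      · rw [hg ⟨y, hyV⟩ hy, ih y hy hyV, mem_succ]
        rcases hay.lt_or_eq with h | h
        · exact Or.inl (oo_mem.2 h)
        · exact Or.inr (by rw [h]; rfl)
  exact fun x => key x.1 x.2

@[fun_prop] theorem dbl_rk {Γ : Type v} [Ctx V Γ] {f : Γ → V} (hf : Dbl V f) :
    Dbl V (fun γ => rk (f γ)) := by
  obtain ⟨F, hF, hF'⟩ := RNK_aux (V := V)
  rw [dbl_ord_iff]
  have h : (fun γ => oo V (rk (f γ))) = fun γ => F (f γ) := funext fun γ => (hF' (f γ)).symm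
  rw [h]
  exact Dbl.comp hf hF

end Pool.Agent.SC
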