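import Pool.Agent.Lib_helper73.SCL.DIC
import Pool.Agent.Lib_helper73.SCL.RNK

/-!
# BLOCK ORD: definability of ordinal-valued maps
-/

set_option linter.unusedSectionVars false

namespace Pool.Agent.SC

open FirstOrder Pool.Agent.Lib_helper27 Pool.Agent.Lib_helper27.ST

universe u v w

variable {V : Set ZFSet.{0}} [Inner V]

section ord

variable {Γ : Type v} [Ctx V Γ] {a b : Γ → Ordinal.{0}}

@[fun_prop] theorem dbl_oo (ha : Dbl V a) : Dbl V (fun γ => oo V (a γ)) := dbl_ord_iff.1 ha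

@[fun_prop] theorem dbl_lt (ha : Dbl V a) (hb : Dbl V b) : Dbl V (fun γ => a γ < b γ) := by
  have h1 := dbl_oo ha
  have h2 := dbl_oo hb
  exact (Dbl.mem h1 h2).congr_prop fun γ => oo_mem.symm

@[fun_prop] theorem dbl_eqo (ha : Dbl V a) (hb : Dbl V b) : Dbl V (fun γ => a γ = b γ) := by
  have h1 := dbl_oo ha
  have h2 := dbl_oo hb
  exact (Dbl.eq h1 h2).congr_prop fun γ => oo_inj.symm

@[fun_prop] theorem dbl_le (ha : Dbl V a) (hb : Dbl V b) : Dbl V (fun γ => a γ ≤ b γ) :=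
  ((dbl_lt ha hb).or (dbl_eqo ha hb)).congr_prop fun _ => le_iff_lt_or_eq

theorem dbl_exo {P : Γ → Ordinal.{0} → Prop} (h : Dbl V (fun z : Γ × V => P z.1 (rk z.2))) :
    Dbl V (fun γ => ∃ α, P γ α) := by
  refine (Dbl.exs (p := fun γ (x : V) => P γ (rk x)) h).congr_prop fun γ => ?_
  constructor
  · rintro ⟨α, hα⟩
    exact ⟨oo V α, by rw [rk_oo]; exact hα⟩
  · rintro ⟨x, hx⟩
    exact ⟨rk x, hx⟩

theorem dbl_allo {P : Γ → Ordinal.{0} → Prop} (h : Dbl V (fun z : Γ × V => P z.1 (rk z.2))) :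
    Dbl V (fun γ => ∀ α, P γ α) := by
  refine (Dbl.all (p := fun γ (x : V) => P γ (rk x)) h).congr_prop fun γ => ?_
  constructor
  · intro hα x
    exact hα _
  · intro hx α
    have := hx (oo V α)
    rwa [rk_oo] at this

theorem dbl_app {X : Type w} [Tgt V X] {F : Γ → Ordinal.{0} → X}
    (hF : Dbl V (fun z : Γ × V => F z.1 (rk z.2))) (ha : Dbl V a) :
    Dbl V (fun γ => F γ (a γ)) := by
  have h1 : Dbl V (fun γ => (γ, oo V (a γ))) := Dbl.mk Dbl.id (dbl_oo ha)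
  have h2 := Dbl.comp h1 hF
  simp only [rk_oo] at h2
  exact h2

theorem dbl_app' {X : Type w} [Tgt V X] {F : Ordinal.{0} → X}
    (hF : Dbl V (fun x : V => F (rk x))) (ha : Dbl V a) :
    Dbl V (fun γ => F (a γ)) := by
  have h2 := Dbl.comp (dbl_oo ha) hF
  simp only [rk_oo] at h2
  exact h2

theorem dbl_of_graph_ord (h : Dbl V (fun z : Γ × V => a z.1 = rk z.2)) : Dbl V a := by
  rw [dbl_ord_iff]
  apply dbl_of_graph
  have h1 : Dbl V (fun z : Γ × V => IsOrd z.2) := by fun_prop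
  refine (h1.and h).congr_prop fun z => ?_
  constructor
  · intro h2
    rw [← h2, rk_oo]
    exact ⟨isOrd_iff.2 ⟨_, rfl⟩, rfl⟩
  · rintro ⟨h2, h3⟩
    obtain ⟨α, hα⟩ := isOrd_iff.1 h2
    rw [h3, hα, rk_oo]

theorem dbl_sInf {P : Γ → Ordinal.{0} → Prop} (h : Dbl V (fun z : Γ × V => P z.1 (rk z.2))) :
    Dbl V (fun γ => sInf {α | P γ α}) := by
  apply dbl_of_graph_ord
  have hr : Dbl V (fun x : V => rk x) := dbl_rk Dbl.id
  have hr2 : Dbl V (fun z : Γ × V => rk z.2) := Dbl.comp (f := fun z : Γ × V => z.2) Dbl.snd hr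
  -- no smaller element
  have h1 : Dbl V (fun z : Γ × V => ∀ β, β < rk z.2 → ¬ P z.1 β) := by
    apply dbl_allo (P := fun (z : Γ × V) β => β < rk z.2 → ¬ P z.1 β)
    have h2 : Dbl V (fun w : (Γ × V) × V => rk w.2) :=
      Dbl.comp (f := fun w : (Γ × V) × V => w.2) Dbl.snd hr
    have h3 : Dbl V (fun w : (Γ × V) × V => rk w.1.2) :=
      Dbl.comp (f := fun w : (Γ × V) × V => w.1.2)
        (Dbl.comp (f := fun w : (Γ × V) × V => w.1) Dbl.fst Dbl.snd) hr
    have h4 : Dbl V (fun w : (Γ × V) × V => P w.1.1 (rk w.2)) :=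
      Dbl.comp (f := fun w : (Γ × V) × V => (w.1.1, w.2))
        (Dbl.mk (Dbl.comp (f := fun w : (Γ × V) × V => w.1) Dbl.fst Dbl.fst) Dbl.snd) h
    exact (dbl_lt h2 h3).imp h4.not
  have h5 : Dbl V (fun z : Γ × V => ∃ β, P z.1 β) :=
    Dbl.comp (f := fun z : Γ × V => z.1) Dbl.fst (dbl_exo h)
  have h6 : Dbl V (fun z : Γ × V => rk z.2 = 0) :=
    dbl_eqo hr2 (Dbl.const 0)
  refine (((h.and h1)).or (h5.not.and h6)).congr_prop fun z => ?_
  constructor
  · intro h7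
    by_cases h8 : ∃ β, P z.1 β
    · left
      have h9 : sInf {α | P z.1 α} ∈ {α | P z.1 α} := csInf_mem h8
      rw [h7] at h9
      refine ⟨h9, fun β hβ hP => ?_⟩
      have h10 : sInf {α | P z.1 α} ≤ β := csInf_le' hP
      rw [h7] at h10
      exact absurd hβ (not_lt.2 h10)
    · right
      refine ⟨h8, ?_⟩
      rw [← h7]
      have h9 : {α | P z.1 α} = ∅ := by
        ext β
        simp only [Set.mem_ofPred_eq, Set.mem_empty_iff_false, iff_false]
        exact fun hP => h8 ⟨β, hP⟩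
      rw [h9]
      exact Ordinal.sInf_empty
  · rintro (⟨h7, h8⟩ | ⟨h7, h8⟩)
    · apply le_antisymm
      · exact csInf_le' h7
      · apply le_csInf ⟨_, h7⟩
        intro β hβ
        by_contra h9
        exact h8 β (not_le.1 h9) hβ
    · rw [h8]
      have h9 : {α | P z.1 α} = ∅ := by
        ext β
        simp only [Set.mem_ofPred_eq, Set.mem_empty_iff_false, iff_false]
        exact fun hP => h7 ⟨β, hP⟩
      rw [h9]
      exact Ordinal.sInf_empty

/-- suprema -/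
theorem dbl_sup {F : Γ → Ordinal.{0} → Ordinal.{0}}
    (hF : Dbl V (fun z : Γ × V => F z.1 (rk z.2))) (ha : Dbl V a) :
    Dbl V (fun γ => ⨆ i : Set.Iio (a γ), F γ i) := by
  have hr : Dbl V (fun x : V => rk x) := dbl_rk Dbl.id
  have h1 : ∀ γ, (⨆ i : Set.Iio (a γ), F γ i) = sInf {α | ∀ β, β < a γ → F γ β ≤ α} := by
    intro γ
    have hb : BddAbove (Set.range fun i : Set.Iio (a γ) => F γ i) :=
      Ordinal.bddAbove_of_small
    apply le_antisymm
    · apply le_csInf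
      · exact ⟨⨆ i : Set.Iio (a γ), F γ i, fun β hβ => le_ciSup hb ⟨β, hβ⟩⟩
      · intro α hα
        apply Ordinal.iSup_le
        intro i
        exact hα i.1 i.2
    · apply csInf_le'
      intro β hβ
      exact le_ciSup hb ⟨β, hβ⟩
  simp only [h1]
  apply dbl_sInf (P := fun γ α => ∀ β, β < a γ → F γ β ≤ α)
  apply dbl_allo (P := fun (z : Γ × V) β => β < a z.1 → F z.1 β ≤ rk z.2)
  have h2 : Dbl V (fun w : (Γ × V) × V => rk w.2) :=
    Dbl.comp (f := fun w : (Γ × V) × V => w.2) Dbl.snd hr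
  have h3 : Dbl V (fun w : (Γ × V) × V => rk w.1.2) :=
    Dbl.comp (f := fun w : (Γ × V) × V => w.1.2)
      (Dbl.comp (f := fun w : (Γ × V) × V => w.1) Dbl.fst Dbl.snd) hr
  have h4 : Dbl V (fun w : (Γ × V) × V => a w.1.1) :=
    Dbl.comp (f := fun w : (Γ × V) × V => w.1.1)
      (Dbl.comp (f := fun w : (Γ × V) × V => w.1) Dbl.fst Dbl.fst) ha
  have h5 : Dbl V (fun w : (Γ × V) × V => F w.1.1 (rk w.2)) :=
    Dbl.comp (f := fun w : (Γ × V) × V => (w.1.1, w.2))
      (Dbl.mk (Dbl.comp (f := fun w : (Γ × V) × V => w.1) Dbl.fst Dbl.fst) Dbl.snd) hF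
  exact (dbl_lt h2 h4).imp (dbl_le h5 h3)

end ord

end Pool.Agent.SC
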