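import Pool.Agent.Lib_helper73.SCL.ENC
import Pool.Agent.Lib_helper73.SCL.ORD

/-!
# Block IFN: finite sets and functions on them, internally
-/

set_option linter.unusedSectionVars false

namespace Pool.Agent.SC

open FirstOrder Pool.Agent.Lib_helper27 Pool.Agent.Lib_helper27.ST

universe u v w

variable {S : MSys}

theorem ifn_mem_oo {α : Ordinal.{0}} {x : S.V} : x ∈ oo S.V α ↔ ∃ β < α, x = oo S.V β := by
  constructor
  · intro h
    obtain ⟨β, hβ, h1⟩ := Ordinal.mem_toZFSet_iff.1 (show x.1 ∈ α.toZFSet from h)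
    exact ⟨β, hβ, Subtype.ext h1.symm⟩
  · rintro ⟨β, hβ, rfl⟩
    exact oo_mem.2 hβ

theorem ifn_fin_fc (c : Finset Ordinal.{0}) : ST.Fin (fc S c) := by
  classical
  induction c using Finset.induction_on with
  | empty =>
    have : fc S ∅ = ST.empty := eq_empty_iff.2 fun y hy => by
      obtain ⟨s, hs, _⟩ := mem_fc.1 hy
      exact absurd hs (Finset.notMem_empty s)
    rw [this]
    exact fin_empty
  | insert a c ha ih =>
    have : fc S (insert a c) = ST.union (fc S c) (upair (oo S.V a) (oo S.V a)) := by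
      refine ST.ext fun y => ?_
      rw [mem_union, mem_upair, mem_fc, mem_fc]
      constructor
      · rintro ⟨s, hs, rfl⟩
        rcases Finset.mem_insert.1 hs with rfl | hs
        · exact Or.inr (Or.inl rfl)
        · exact Or.inl ⟨s, hs, rfl⟩
      · rintro (⟨s, hs, rfl⟩ | h)
        · exact ⟨s, Finset.mem_insert_of_mem hs, rfl⟩
        · exact ⟨a, Finset.mem_insert_self a c, by rcases h with h | h <;> exact h⟩
    rw [this]
    exact ih.insert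

/-- internally finite sets are finite -/
theorem ifn_finite {x : S.V} (hx : ST.Fin x) : {y : S.V | y ∈ x}.Finite := by
  obtain ⟨n, hn, hinj⟩ := hx
  rw [val_omega, ifn_mem_oo] at hn
  obtain ⟨β, hβ, rfl⟩ := hn
  obtain ⟨k, rfl⟩ := Ordinal.lt_omega0.1 hβ
  obtain ⟨φ, _, h1, h2⟩ := hinj.exists_fun
  have hfin : {y : S.V | y ∈ oo S.V (k : Ordinal.{0})}.Finite := by
    refine ((Finset.range k).finite_toSet.image (fun m : ℕ => oo S.V (m : Ordinal.{0}))).subset ?_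
    intro y hy
    obtain ⟨γ, hγ, rfl⟩ := ifn_mem_oo.1 (show y ∈ oo S.V (k : Ordinal.{0}) from hy)
    obtain ⟨m, rfl⟩ := Ordinal.lt_omega0.1 (hγ.trans (Ordinal.natCast_lt_omega0 k))
    exact ⟨m, by simpa using hγ, rfl⟩
  refine Set.Finite.of_finite_image (f := φ) (hfin.subset ?_) ?_
  · rintro _ ⟨y, hy, rfl⟩
    exact h1 y hy
  · intro y hy y' hy' h
    exact h2 y hy y' hy' h

theorem ifn_isFc {x : S.V} : (∃ c, x = fc S c) ↔ ST.Fin x ∧ ∀ y, y ∈ x → ST.IsOrd y := by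
  classical
  constructor
  · rintro ⟨c, rfl⟩
    refine ⟨ifn_fin_fc c, fun y hy => ?_⟩
    obtain ⟨s, _, rfl⟩ := mem_fc.1 hy
    exact isOrd_iff.2 ⟨s, rfl⟩
  · rintro ⟨hx, ho⟩
    have hfin := (ifn_finite hx).image rk
    refine ⟨hfin.toFinset, ST.ext fun y => ?_⟩
    rw [mem_fc]
    constructor
    · intro hy
      obtain ⟨α, rfl⟩ := isOrd_iff.1 (ho y hy)
      exact ⟨α, hfin.mem_toFinset.2 ⟨oo S.V α, hy, rk_oo α⟩, rfl⟩
    · rintro ⟨s, hs, rfl⟩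
      obtain ⟨y, hy, rfl⟩ := hfin.mem_toFinset.1 hs
      obtain ⟨α, rfl⟩ := isOrd_iff.1 (ho y hy)
      rw [rk_oo]
      exact hy

theorem isFc_dbl (S : MSys) : Dbl S.V (fun x : S.V => ∃ c, x = fc S c) := by
  refine Dbl.congr_prop (p := fun x : S.V => ST.Fin x ∧ ∀ y, y ∈ x → ST.IsOrd y) ?_
    fun x => ifn_isFc
  fun_prop

theorem ifn_κ_pos (S : MSys) : 0 < S.κ := by
  have h := S.unc S.κ le_rfl
  rw [S.kap_top] at h
  rcases eq_or_ne S.κ 0 with h0 | h0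
  · rw [h0, Ordinal.card_zero] at h
    exact absurd h not_lt_zero
  · exact pos_iff_ne_zero.2 h0

/-- being the restriction of an assignment to the finite set `c` is definable -/
theorem internal_fn (S : MSys) : ∃ P : S.V → S.V → Prop,
    Dbl S.V (fun z : S.V × S.V => P z.1 z.2) ∧
    ∀ (c : Finset Ordinal.{0}) (w : S.V), P (fc S c) w ↔ ∃ z : Asg S, w = enc c z := by
  classical
  refine ⟨fun c w => (∀ z, z ∈ w → ∃ s, s ∈ c ∧ ∃ ξ, ξ ∈ oo S.V S.κ ∧ z = opair s ξ) ∧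
    (∀ s, s ∈ c → ∃ ξ, opair s ξ ∈ w) ∧
    (∀ s ξ ξ', opair s ξ ∈ w → opair s ξ' ∈ w → ξ = ξ'), by fun_prop, fun c w => ?_⟩
  constructor
  · rintro ⟨h1, h2, h3⟩
    have h4 : ∀ s ∈ c, ∃ ξ : Set.Iio S.κ, opair (oo S.V s) (oo S.V ξ.1) ∈ w := by
      intro s hs
      obtain ⟨ξ, hξ⟩ := h2 (oo S.V s) (mem_fc.2 ⟨s, hs, rfl⟩)
      obtain ⟨s', _, ξ', hξ', h5⟩ := h1 _ hξ
      obtain ⟨_, rfl⟩ := opair_inj.1 h5
      obtain ⟨β, hβ, rfl⟩ := ifn_mem_oo.1 hξ'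
      exact ⟨⟨β, hβ⟩, hξ⟩
    refine ⟨fun s => if hs : s ∈ c then (h4 s hs).choose else ⟨0, ifn_κ_pos S⟩, ?_⟩
    refine ST.ext fun x => ?_
    rw [mem_enc]
    constructor
    · intro hx
      obtain ⟨s', hs', ξ', hξ', rfl⟩ := h1 _ hx
      obtain ⟨s, hs, rfl⟩ := mem_fc.1 hs'
      refine ⟨s, hs, ?_⟩
      simp only [dif_pos hs]
      exact opair_inj.2 ⟨rfl, h3 _ _ _ hx (h4 s hs).choose_spec⟩
    · rintro ⟨s, hs, rfl⟩
      simp only [dif_pos hs]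
      exact (h4 s hs).choose_spec
  · rintro ⟨z, rfl⟩
    refine ⟨fun x hx => ?_, fun s hs => ?_, fun s ξ ξ' hξ hξ' => ?_⟩
    · obtain ⟨s, hs, rfl⟩ := mem_enc.1 hx
      exact ⟨_, mem_fc.2 ⟨s, hs, rfl⟩, _, oo_mem.2 (z s).2, rfl⟩
    · obtain ⟨s, hs', rfl⟩ := mem_fc.1 hs
      exact ⟨_, mem_enc.2 ⟨s, hs', rfl⟩⟩
    · obtain ⟨s1, _, h1⟩ := mem_enc.1 hξ
      obtain ⟨s2, _, h2⟩ := mem_enc.1 hξ'
      obtain ⟨rfl, rfl⟩ := opair_inj.1 h1
      obtain ⟨h3, rfl⟩ := opair_inj.1 h2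
      rw [oo_inj.1 h3]

theorem fc_union (c c' : Finset Ordinal.{0}) : fc S (c ∪ c') = union (fc S c) (fc S c') := by
  refine ST.ext fun y => ?_
  rw [mem_union, mem_fc, mem_fc, mem_fc]
  constructor
  · rintro ⟨s, hs, rfl⟩
    rcases Finset.mem_union.1 hs with h | h
    · exact Or.inl ⟨s, h, rfl⟩
    · exact Or.inr ⟨s, h, rfl⟩
  · rintro (⟨s, hs, rfl⟩ | ⟨s, hs, rfl⟩)
    · exact ⟨s, Finset.mem_union_left _ hs, rfl⟩
    · exact ⟨s, Finset.mem_union_right _ hs, rfl⟩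

theorem fc_erase {c : Finset Ordinal.{0}} {m : Ordinal.{0}} :
    fc S (c.erase m) = comp (fun x => x ∈ fc S c ∧ x ≠ oo S.V m) := by
  refine ST.ext fun y => ?_
  rw [mem_comp (small_sep (D := fun x => x ≠ oo S.V m) (by fun_prop) (fc S c)), mem_fc, mem_fc]
  constructor
  · rintro ⟨s, hs, rfl⟩
    obtain ⟨h1, h2⟩ := Finset.mem_erase.1 hs
    exact ⟨⟨s, h2, rfl⟩, fun h => h1 (oo_inj.1 h)⟩
  · rintro ⟨⟨s, hs, rfl⟩, h⟩
    exact ⟨s, Finset.mem_erase.2 ⟨fun h1 => h (by rw [h1]), hs⟩, rfl⟩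

end Pool.Agent.SC
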