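import Pool.Agent.Lib_helper73.SCL.IFN
import Pool.Agent.Lib_helper73.SCL.LOC_a

set_option linter.unusedSectionVars false

namespace Pool.Agent.SC

open FirstOrder Pool.Agent.Lib_helper27 Pool.Agent.Lib_helper27.ST

universe u v w

variable {S : MSys}

theorem IVC_mem {c : Finset Ordinal.{0}} {t : Ordinal.{0}} : oo S.V t ∈ fc S c ↔ t ∈ c := by
  rw [mem_fc]
  constructor
  · rintro ⟨s, hs, h⟩
    rwa [oo_inj.1 h]
  · intro h
    exact ⟨t, h, rfl⟩

theorem IVC_val {G : Ordinal.{0} → S.V} {s : Ordinal.{0}} (hG : GV G s) {t : Ordinal.{0}}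
    (ht : t < s) : mkb G t = cdom (G t) ∧ fstp (G t) = fc S (cdom (G t)) := by
  obtain ⟨⟨c, F, hc⟩, hcl, hlt⟩ := (hG t ht).1
  refine ⟨mkb_val (fun r hr => ⟨hlt r hr, hcl r hr⟩), ?_⟩
  rw [hc, cdom_code, fstp_opair]

/-- validity of codes is definable from the script -/
theorem internal_vc (S : MSys) : ∃ W : S.V → S.V → S.V → Prop,
    Dbl S.V (fun z : (S.V × S.V) × S.V => W z.1.1 z.1.2 z.2) ∧
    ∀ (G : Ordinal.{0} → S.V) (s : Ordinal.{0}) (g : S.V), GV G s →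
      (∀ t < s, fapp g (oo S.V t) = G t) → ∀ x, W g (oo S.V s) x ↔ (mkS G).VC s x := by
  have hfc := isFc_dbl S
  refine ⟨fun g x y => ∃ c F : S.V, y = opair c F ∧ (∃ c0, c = fc S c0) ∧
    ∀ t : S.V, t ∈ c → t ∈ x ∧ ∀ r : S.V, r ∈ fstp (fapp g t) → r ∈ c, ?_, ?_⟩
  · have h1 : Dbl S.V (fun z : (((S.V × S.V) × S.V) × S.V) × S.V => ∃ c0, z.1.2 = fc S c0) :=
      Dbl.comp (f := fun z : (((S.V × S.V) × S.V) × S.V) × S.V => z.1.2)
        (g := fun c : S.V => ∃ c0, c = fc S c0) (by fun_prop) hfc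
    fun_prop
  · intro G s g hG hg x
    constructor
    · rintro ⟨c, F, rfl, ⟨c0, rfl⟩, h⟩
      have h1 : ∀ t ∈ c0, t < s := by
        intro t ht
        exact oo_mem.1 (h _ (IVC_mem.2 ht)).1
      refine ⟨⟨c0, F, rfl⟩, ?_, ?_⟩
      · rw [cdom_code]
        intro t ht r hr
        obtain ⟨h2, h3⟩ := IVC_val hG (h1 t ht)
        have hr' : r ∈ cdom (G t) := by rw [← h2]; exact hr
        have h4 := (h _ (IVC_mem.2 ht)).2 (oo S.V r) (by
          rw [hg t (h1 t ht), h3]; exact IVC_mem.2 hr')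
        exact IVC_mem.1 h4
      · rw [cdom_code]
        exact h1
    · rintro ⟨⟨c0, F, rfl⟩, hcl, hlt⟩
      rw [cdom_code] at hcl hlt
      refine ⟨fc S c0, F, rfl, ⟨c0, rfl⟩, ?_⟩
      intro t ht
      obtain ⟨t', ht', rfl⟩ := mem_fc.1 ht
      refine ⟨oo_mem.2 (hlt t' ht'), ?_⟩
      intro r hr
      obtain ⟨h2, h3⟩ := IVC_val hG (hlt t' ht')
      rw [hg t' (hlt t' ht'), h3] at hr
      obtain ⟨r', hr', rfl⟩ := mem_fc.1 hr
      rw [← h2] at hr'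
      exact IVC_mem.2 (hcl t' ht' hr')

end Pool.Agent.SC
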