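import Pool.Agent.Lib_helper73.SCL.COD
import Pool.Agent.Lib_helper73.SCL.IAE
import Pool.Agent.Lib_helper73.SCL.IVC
import Pool.Agent.Lib_helper73.SCL.RHO
import Pool.Agent.Lib_helper73.SCL.SDB

/-!
# SC, BLOCK IRH: the ordering and the rank function are definable from the script
-/

set_option linter.unusedSectionVars false

namespace Pool.Agent.SC

open FirstOrder Pool.Agent.Lib_helper27 Pool.Agent.Lib_helper27.ST

universe u v w

variable {S : MSys}

theorem irh_comp2 {P : S.V → S.V → Prop} (hP : Dbl S.V (fun z : S.V × S.V => P z.1 z.2))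
    {Γ : Type v} [Ctx S.V Γ] {a b : Γ → S.V} (ha : Dbl S.V a) (hb : Dbl S.V b) :
    Dbl S.V (fun γ => P (a γ) (b γ)) :=
  Dbl.comp (f := fun γ => (a γ, b γ)) (g := fun z : S.V × S.V => P z.1 z.2) (by fun_prop) hP

theorem irh_comp3 {P : S.V → S.V → S.V → Prop}
    (hP : Dbl S.V (fun z : (S.V × S.V) × S.V => P z.1.1 z.1.2 z.2))
    {Γ : Type v} [Ctx S.V Γ] {a b c : Γ → S.V} (ha : Dbl S.V a) (hb : Dbl S.V b)
    (hc : Dbl S.V c) :
    Dbl S.V (fun γ => P (a γ) (b γ) (c γ)) :=
  Dbl.comp (f := fun γ => ((a γ, b γ), c γ))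
    (g := fun z : (S.V × S.V) × S.V => P z.1.1 z.1.2 z.2) (by fun_prop) hP

/-- BLOCK IRH: the ordering of functions is definable from the script -/
theorem internal_lt (S : MSys) : ∃ L : S.V → S.V → S.V → Prop,
    Dbl S.V (fun z : (S.V × S.V) × S.V => L z.1.1 z.1.2 z.2) ∧
    ∀ (G : Ordinal.{0} → S.V) (s : Ordinal.{0}) (g : S.V), GV G s →
      (∀ t < s, fapp g (oo S.V t) = G t) → ∀ x y : S.V, (mkS G).VC s x → (mkS G).VC s y →
        (L g x y ↔ (mkS G).AE (fun z => cfun x z < cfun y z)) := by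
  obtain ⟨E, hE, hE'⟩ := internal_ae S
  obtain ⟨P, hP, hP'⟩ := internal_fn S
  refine ⟨fun g x y => ∃ X : S.V, (∀ w : S.V, w ∈ X ↔ P (union (fstp x) (fstp y)) w ∧
    rk (fapp (sndp x) (resf (fstp x) w)) < rk (fapp (sndp y) (resf (fstp y) w))) ∧
    E g (union (fstp x) (fstp y)) X, ?_, ?_⟩
  · refine Dbl.exs (Dbl.and (Dbl.all (Dbl.iff (by fun_prop) (Dbl.and
      (irh_comp2 hP (by fun_prop) (by fun_prop)) (dbl_lt (dbl_rk (by fun_prop))
        (dbl_rk (by fun_prop)))))) (irh_comp3 hE (by fun_prop) (by fun_prop) (by fun_prop)))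
  · intro G s g hG hg x y hx hy
    obtain ⟨⟨c, F, rfl⟩, hxc, hxs⟩ := hx
    obtain ⟨⟨c', F', rfl⟩, hyc, hys⟩ := hy
    rw [cdom_code] at hxc hxs hyc hys
    simp only [fstp_opair, sndp_opair]
    rw [← fc_union]
    have hcl : (mkS G).Cl (c ∪ c') := Cl_union hxc hyc
    have hlt : ∀ t ∈ c ∪ c', t < s := by
      intro t ht
      rcases Finset.mem_union.1 ht with h | h
      · exact hxs t h
      · exact hys t h
    have key : ∀ X : S.V, (∀ w : S.V, w ∈ X ↔ P (fc S (c ∪ c')) w ∧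
        rk (fapp F (resf (fc S c) w)) < rk (fapp F' (resf (fc S c') w))) →
        (fun z : Asg S => enc (c ∪ c') z ∈ X) =
          (fun z => cfun (opair (fc S c) F) z < cfun (opair (fc S c') F') z) := by
      intro X hX
      funext z
      rw [cfun_code, cfun_code, hX]
      apply propext
      rw [resf_enc Finset.subset_union_left, resf_enc Finset.subset_union_right]
      constructor
      · exact fun h => h.2
      · exact fun h => ⟨(hP' _ _).2 ⟨z, rfl⟩, h⟩
    constructor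
    · rintro ⟨X, hX, h⟩
      rw [hE' G s g hG hg _ hcl hlt, key X hX] at h
      exact h
    · intro h
      obtain ⟨D, hD⟩ := exists_Fn (S := S) (c ∪ c')
      have hd : Dbl S.V (fun w : S.V => P (fc S (c ∪ c')) w ∧
          rk (fapp F (resf (fc S c) w)) < rk (fapp F' (resf (fc S c') w))) := by
        have h1 : Dbl S.V (fun w : S.V => P (fc S (c ∪ c')) w) :=
          irh_comp2 hP (by fun_prop) (by fun_prop)
        have h3 : Dbl S.V (fun w : S.V =>
            rk (fapp F (resf (fc S c) w)) < rk (fapp F' (resf (fc S c') w))) :=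
          dbl_lt (dbl_rk (by fun_prop)) (dbl_rk (by fun_prop))
        fun_prop
      obtain ⟨X, hX⟩ := small_of_subset hd D (fun w hw => (hD w).2 ((hP' _ _).1 hw.1))
      refine ⟨X, hX, ?_⟩
      rw [hE' G s g hG hg _ hcl hlt, key X hX]
      exact h

/-- the codes used for the computation of the ranks -/
def irhQ (W : S.V → S.V → S.V → Prop) (P : S.V → S.V → Prop) (g s c y : S.V) : Prop :=
  y ∈ bigp (oo S.V (rk c)) ∧ W g s y ∧ ∀ w, P (fstp y) w → rk (fapp (sndp y) w) < rk c

theorem irh_bigp {Γ : Type v} [Ctx S.V Γ] {a : Γ → S.V} (ha : Dbl S.V a) :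
    Dbl S.V (fun γ => bigp (a γ)) := by
  unfold bigp
  fun_prop

theorem irhQ_dbl {W : S.V → S.V → S.V → Prop} {P : S.V → S.V → Prop}
    (hW : Dbl S.V (fun z : (S.V × S.V) × S.V => W z.1.1 z.1.2 z.2))
    (hP : Dbl S.V (fun z : S.V × S.V => P z.1 z.2))
    {Γ : Type v} [Ctx S.V Γ] {g s c y : Γ → S.V} (hg : Dbl S.V g) (hs : Dbl S.V s)
    (hc : Dbl S.V c) (hy : Dbl S.V y) :
    Dbl S.V (fun γ => irhQ W P (g γ) (s γ) (c γ) (y γ)) := by
  unfold irhQ
  exact Dbl.and (Dbl.mem hy (irh_bigp (dbl_oo (dbl_rk hc)))) (Dbl.and (irh_comp3 hW hg hs hy)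
    (Dbl.all (Dbl.imp (irh_comp2 hP (by fun_prop) (by fun_prop))
      (dbl_lt (dbl_rk (by fun_prop)) (dbl_rk (by fun_prop))))))

/-- the minimum of two functions of stage `s` is of stage `s` -/
theorem irh_min {sc : Scr S} {s : Ordinal.{0}} {a b : Asg S → Ordinal.{0}} (ha : sc.FS s a)
    (hb : sc.FS s b) : sc.FS s (fun z => min (a z) (b z)) := by
  have h1 := FS_comp (FS_pair (FS_oo ha) (FS_oo hb))
    (G := fun p : S.V × S.V =>
      @ite S.V (rk p.1 < rk p.2) (Classical.propDecidable _) p.1 p.2)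
    (Dbl_ite (M := S.V) (p := fun p : S.V × S.V => rk p.1 < rk p.2)
      (f := fun p : S.V × S.V => p.1) (g := fun p : S.V × S.V => p.2)
      (dbl_lt (dbl_rk (by fun_prop)) (dbl_rk (by fun_prop))) (by fun_prop) (by fun_prop))
  have h2 := FS_rk h1
  convert h2 using 1
  funext z
  classical
  by_cases h : a z < b z
  · rw [if_pos (by simpa using h), rk_oo, min_eq_left h.le]
  · rw [if_neg (by simpa using h), rk_oo, min_eq_right (not_lt.1 h)]

/-- the values of a code are bounded -/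
theorem irh_bdd (x : S.V) (c : Finset Ordinal.{0}) : ∃ γ : Ordinal.{0}, ∀ z : Asg S,
    rk (fapp x (enc c z)) < γ := by
  obtain ⟨D, hD⟩ := exists_Fn (S := S) c
  have himg : Dbl S.V (fun w : S.V => fapp x w) := by fun_prop
  refine ⟨(image (fun w : S.V => fapp x w) D).1.rank, fun z => ?_⟩
  refine ZFSet.rank_lt_of_mem ?_
  show fapp x (enc c z) ∈ image (fun w : S.V => fapp x w) D
  rw [mem_image himg]
  exact ⟨_, (hD _).2 ⟨z, rfl⟩, rfl⟩

/-- BLOCK IRH: the rank function is definable from the script -/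
theorem internal_rho (S : MSys) : ∃ R : S.V → S.V → S.V → S.V → Prop,
    Dbl S.V (fun z : ((S.V × S.V) × S.V) × S.V => R z.1.1.1 z.1.1.2 z.1.2 z.2) ∧
    ∀ (G : Ordinal.{0} → S.V) (s : Ordinal.{0}) (g : S.V), GV G s →
      (∀ t < s, fapp g (oo S.V t) = G t) → ∀ (x : S.V) (α : Ordinal.{0}), (mkS G).VC s x →
        (R g (oo S.V s) x (oo S.V α) ↔ (mkS G).rho s (cfun x) = α) := by
  obtain ⟨L, hL, hL'⟩ := internal_lt S
  obtain ⟨W, hW, hW'⟩ := internal_vc S
  obtain ⟨P, hP, hP'⟩ := internal_fn S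
  refine ⟨fun g s x a => ∃ c r : S.V, (rk s ≤ rk c ∧ S.κ ≤ rk c ∧
    ∀ y, irhQ W P g s c y → ∀ v, v ∈ fapp r y ↔ ∃ y', irhQ W P g s c y' ∧ L g y' y ∧
      v = fapp r y') ∧ ∃ x', irhQ W P g s c x' ∧ ¬ L g x' x ∧ ¬ L g x x' ∧ fapp r x' = a, ?_, ?_⟩
  · -- definability
    refine Dbl.exs (Dbl.exs (Dbl.and (Dbl.and (dbl_le (dbl_rk (by fun_prop)) (dbl_rk (by fun_prop)))
      (Dbl.and (dbl_le (Dbl.const _) (dbl_rk (by fun_prop)))
        (Dbl.all (Dbl.imp (irhQ_dbl hW hP (by fun_prop) (by fun_prop) (by fun_prop) (by fun_prop))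
          (Dbl.all (Dbl.iff (by fun_prop) (Dbl.exs (Dbl.and
            (irhQ_dbl hW hP (by fun_prop) (by fun_prop) (by fun_prop) (by fun_prop))
            (Dbl.and (irh_comp3 hL (by fun_prop) (by fun_prop) (by fun_prop))
              (by fun_prop)))))))))) ?_))
    refine Dbl.exs (Dbl.and
      (irhQ_dbl hW hP (by fun_prop) (by fun_prop) (by fun_prop) (by fun_prop)) (Dbl.and
        (irh_comp3 hL (by fun_prop) (by fun_prop) (by fun_prop)).not (Dbl.and
          (irh_comp3 hL (by fun_prop) (by fun_prop) (by fun_prop)).not (by fun_prop))))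
  · intro G s g hG hg x α hx
    have hWs : ∀ x, W g (oo S.V s) x ↔ (mkS G).VC s x := hW' G s g hG hg
    have hLs : ∀ x y, (mkS G).VC s x → (mkS G).VC s y →
        (L g x y ↔ (mkS G).AE (fun z => cfun x z < cfun y z)) := hL' G s g hG hg
    -- the values of the codes with the property `Q`
    have hQ : ∀ c y, irhQ W P g (oo S.V s) c y ↔ (y ∈ bigp (oo S.V (rk c)) ∧ (mkS G).VC s y ∧
        ∀ z, cfun y z < rk c) := by
      intro c y
      unfold irhQ
      rw [hWs]
      refine and_congr_right fun _ => and_congr_right fun hy => ?_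
      obtain ⟨⟨d, F, rfl⟩, _, _⟩ := hy
      simp only [fstp_opair, sndp_opair, cfun_code]
      constructor
      · intro h z
        exact h _ ((hP' _ _).2 ⟨z, rfl⟩)
      · intro h w hw
        obtain ⟨z, rfl⟩ := (hP' _ _).1 hw
        exact h z
    -- the set computed at one step
    have hstep : ∀ (c : S.V), s ≤ rk c → S.κ ≤ rk c → ∀ y, irhQ W P g (oo S.V s) c y →
        ∀ β < (mkS G).rho s (cfun y), ∃ y', irhQ W P g (oo S.V s) c y' ∧ L g y' y ∧
          (mkS G).rho s (cfun y') = β := by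
      intro c hsc hκ y hy β hβ
      obtain ⟨hy1, hy2, hy3⟩ := (hQ c y).1 hy
      have hyF : (mkS G).FS s (cfun y) := VC_cfun hy2
      obtain ⟨b, hb, hbβ, hba⟩ := rho_surj hyF hβ
      have hmF : (mkS G).FS s (fun z => min (b z) (cfun y z)) := irh_min hb hyF
      obtain ⟨y', hy'1, hy'2, hy'3⟩ := vc_big (mkS G) hsc hκ hmF
        (fun z => (min_le_right _ _).trans_lt (hy3 z))
      have hbm : (mkS G).rho s (fun z => min (b z) (cfun y z)) = β := by
        rw [← hbβ]
        refine (rho_eq hmF hb).2 ?_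
        refine AE_mono (FS_fs (FS_eqo hmF hb)) hba ?_
        intro z hz
        exact min_eq_left hz.le
      refine ⟨y', (hQ c y').2 ⟨hy'1, hy'2, ?_⟩, ?_, ?_⟩
      · intro z
        rw [hy'3]
        exact (min_le_right _ _).trans_lt (hy3 z)
      · rw [hLs y' y hy'2 hy2, hy'3]
        refine AE_mono (FS_fs (FS_lt hmF hyF)) hba ?_
        intro z hz
        exact (min_le_left _ _).trans_lt hz
      · rw [hy'3, hbm]
    -- uniqueness
    have huniq : ∀ (c r : S.V), s ≤ rk c → S.κ ≤ rk c →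
        (∀ y, irhQ W P g (oo S.V s) c y → ∀ v, v ∈ fapp r y ↔
          ∃ y', irhQ W P g (oo S.V s) c y' ∧ L g y' y ∧ v = fapp r y') →
        ∀ (a : Asg S → Ordinal.{0}) (y : S.V), irhQ W P g (oo S.V s) c y → cfun y = a →
          fapp r y = oo S.V ((mkS G).rho s a) := by
      intro c r hsc hκ hr a
      induction a using (rlt_wf (mkS G) s).induction with
      | _ a ih =>
        rintro y hy rfl
        have hy2 := ((hQ c y).1 hy).2.1
        have hyF : (mkS G).FS s (cfun y) := VC_cfun hy2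
        refine ST.ext fun v => ?_
        rw [hr y hy]
        constructor
        · rintro ⟨y', hy', hL1, rfl⟩
          have hy'2 := ((hQ c y').1 hy').2.1
          have hy'F : (mkS G).FS s (cfun y') := VC_cfun hy'2
          rw [hLs y' y hy'2 hy2] at hL1
          rw [ih (cfun y') ⟨hy'F, hyF, hL1⟩ y' hy' rfl, oo_mem]
          exact (rho_lt hy'F hyF).2 hL1
        · intro hv
          have hv' : v.1 ∈ ((mkS G).rho s (cfun y)).toZFSet := hv
          rw [Ordinal.mem_toZFSet_iff] at hv'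
          obtain ⟨β, hβ, hv'⟩ := hv'
          obtain ⟨y', hy', hL1, hβ'⟩ := hstep c hsc hκ y hy β hβ
          refine ⟨y', hy', hL1, ?_⟩
          have hy'2 := ((hQ c y').1 hy').2.1
          have hy'F : (mkS G).FS s (cfun y') := VC_cfun hy'2
          have hL2 := (hLs y' y hy'2 hy2).1 hL1
          rw [ih (cfun y') ⟨hy'F, hyF, hL2⟩ y' hy' rfl, hβ']
          exact Subtype.ext hv'.symm
    have hxF : (mkS G).FS s (cfun x) := VC_cfun hx
    constructor
    · rintro ⟨c, r, ⟨hsc, hκ, hr⟩, x', hx', hn1, hn2, he⟩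
      rw [rk_oo] at hsc
      have h1 := huniq c r hsc hκ hr _ x' hx' rfl
      have hx'2 := ((hQ c x').1 hx').2.1
      have hx'F : (mkS G).FS s (cfun x') := VC_cfun hx'2
      rw [he, oo_inj] at h1
      rw [hLs x' x hx'2 hx, ← rho_lt hx'F hxF] at hn1
      rw [hLs x x' hx hx'2, ← rho_lt hxF hx'F] at hn2
      rw [h1]
      exact le_antisymm (not_lt.1 hn1) (not_lt.1 hn2)
    · intro hα
      obtain ⟨γ0, hγ0⟩ : ∃ γ : Ordinal.{0}, ∀ z : Asg S, cfun x z < γ := by
        obtain ⟨⟨d, F, rfl⟩, _, _⟩ := hx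
        simp only [cfun_code]
        exact irh_bdd F d
      set γ : Ordinal.{0} := max (max s S.κ) γ0 with hγ
      have hsγ : s ≤ γ := (le_max_left _ _).trans (le_max_left _ _)
      have hκγ : S.κ ≤ γ := (le_max_right _ _).trans (le_max_left _ _)
      have hxγ : ∀ z, cfun x z < γ := fun z => (hγ0 z).trans_le (le_max_right _ _)
      have hdQ : Dbl S.V (fun y : S.V => irhQ W P g (oo S.V s) (oo S.V γ) y) :=
        irhQ_dbl hW hP (by fun_prop) (by fun_prop) (by fun_prop) (by fun_prop)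
      obtain ⟨X, hX⟩ := small_of_subset hdQ (bigp (oo S.V (rk (oo S.V γ)))) (fun y hy => hy.1)
      have hlt : WF X (L g) := by
        refine ⟨irh_comp3 hL (by fun_prop) (by fun_prop) (by fun_prop), ?_, ?_⟩
        · intro a b c ha hb hc h1 h2
          have ha2 := ((hQ _ a).1 ((hX a).1 ha)).2.1
          have hb2 := ((hQ _ b).1 ((hX b).1 hb)).2.1
          have hc2 := ((hQ _ c).1 ((hX c).1 hc)).2.1
          rw [hLs _ _ ha2 hb2] at h1
          rw [hLs _ _ hb2 hc2] at h2
          rw [hLs _ _ ha2 hc2]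
          rw [← rho_lt (VC_cfun ha2) (VC_cfun hb2)] at h1
          rw [← rho_lt (VC_cfun hb2) (VC_cfun hc2)] at h2
          rw [← rho_lt (VC_cfun ha2) (VC_cfun hc2)]
          exact h1.trans h2
        · intro T hT hne
          obtain ⟨x0, hx0⟩ := hne
          obtain ⟨y, hy, hmin⟩ := (InvImage.wf (fun y : S.V => cfun y)
            (rlt_wf (mkS G) s)).has_min {y | y ∈ T} ⟨x0, hx0⟩
          refine ⟨y, hy, fun y' hy' h => ?_⟩
          have h2 := ((hQ _ y).1 ((hX y).1 (hT y hy))).2.1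
          have h2' := ((hQ _ y').1 ((hX y').1 (hT y' hy'))).2.1
          rw [hLs _ _ h2' h2] at h
          exact hmin y' hy' ⟨VC_cfun h2', VC_cfun h2, h⟩
      have hcol := hlt.dbl_collapse
      have hr : ∀ y, irhQ W P g (oo S.V s) (oo S.V γ) y →
          ∀ v, v ∈ fapp (graph (collapse X (L g)) X) y ↔
            ∃ y', irhQ W P g (oo S.V s) (oo S.V γ) y' ∧ L g y' y ∧
              v = fapp (graph (collapse X (L g)) X) y' := by
        intro y hy v
        rw [fapp_graph hcol ((hX y).2 hy), hlt.mem_collapse ((hX y).2 hy)]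
        constructor
        · rintro ⟨y', hy', h1, rfl⟩
          exact ⟨y', (hX y').1 hy', h1, by rw [fapp_graph hcol hy']⟩
        · rintro ⟨y', hy', h1, rfl⟩
          exact ⟨y', (hX y').2 hy', h1, by rw [fapp_graph hcol ((hX y').2 hy')]⟩
      obtain ⟨x', hx'1, hx'2, hx'3⟩ := vc_big (mkS G) hsγ hκγ hxF hxγ
      have hx'Q : irhQ W P g (oo S.V s) (oo S.V γ) x' := by
        rw [hQ, rk_oo]
        exact ⟨hx'1, hx'2, by rw [hx'3]; exact hxγ⟩
      have hirr : ¬ (mkS G).AE (fun z => cfun x z < cfun x z) := by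
        intro h
        obtain ⟨z, hz⟩ := AE_exists h
        exact lt_irrefl _ hz
      refine ⟨oo S.V γ, graph (collapse X (L g)) X, ⟨by simpa using hsγ, by simpa using hκγ, hr⟩,
        x', hx'Q, ?_, ?_, ?_⟩
      · rw [hLs _ _ hx'2 hx, hx'3]
        exact hirr
      · rw [hLs _ _ hx hx'2, hx'3]
        exact hirr
      · rw [huniq (oo S.V γ) _ (by simpa using hsγ) (by simpa using hκγ) hr (cfun x) x' hx'Q hx'3,
          hα]

end Pool.Agent.SC
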