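import Pool.Agent.Lib_helper73.SCL.MKS

set_option linter.unusedSectionVars false

namespace Pool.Agent.SC

open FirstOrder Pool.Agent.Lib_helper27 Pool.Agent.Lib_helper27.ST

universe u v w

variable {S : MSys}

/-- The script given by the sequence of codes `G`. -/
noncomputable def mkS (G : Ordinal.{0} → S.V) : Scr S where
  b := mkb G
  g := mkg G
  b_lt := mkb_lt G
  b_cl := mkb_cl G
  g_le := mkg_le G
  g_ff := mkg_ff G

end Pool.Agent.SC
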