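import Pool.Agent.Lib_helper73.SCL.AEB
import Pool.Agent.Lib_helper73.SCL.MKS_b

set_option linter.unusedSectionVars false

namespace Pool.Agent.SC

open FirstOrder Pool.Agent.Lib_helper27 Pool.Agent.Lib_helper27.ST

universe u v w

variable {S : MSys}

section loc

variable {G G' : Ordinal.{0} → S.V} {s : Ordinal.{0}}

theorem LOC_val {t : Ordinal.{0}} (h : G t = G' t) (hb : ∀ r < t, mkb G r = mkb G' r) :
    Val G t ↔ Val G' t := by
  unfold Val
  rw [h]
  constructor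
  · intro H r hr
    obtain ⟨h1, h2⟩ := H r hr
    exact ⟨h1, by rwa [← hb r h1]⟩
  · intro H r hr
    obtain ⟨h1, h2⟩ := H r hr
    exact ⟨h1, by rwa [hb r h1]⟩

theorem LOC_b (h : ∀ t < s, G t = G' t) : ∀ t < s, mkb G t = mkb G' t := by
  intro t
  induction t using WellFoundedLT.induction with
  | ind t ih =>
    intro ht
    have hv := LOC_val (h t ht) (fun r hr => ih r hr (hr.trans ht))
    by_cases hV : Val G t
    · rw [mkb_val hV, mkb_val (hv.1 hV), h t ht]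
    · rw [mkb_not_val hV, mkb_not_val (fun h' => hV (hv.2 h'))]

theorem loc_bg (h : ∀ t < s, G t = G' t) : (∀ t < s, mkb G t = mkb G' t) ∧
    ∀ t < s, mkg G t = mkg G' t := by
  refine ⟨LOC_b h, fun t ht => ?_⟩
  have hv := LOC_val (h t ht) (fun r hr => LOC_b h r (hr.trans ht))
  funext z
  unfold mkg
  by_cases hV : Val G t
  · rw [if_pos hV, if_pos (hv.1 hV), h t ht]
  · rw [if_neg hV, if_neg (fun h' => hV (hv.2 h'))]

theorem loc_cl (h : ∀ t < s, G t = G' t) {c : Finset Ordinal.{0}} (hc : ∀ t ∈ c, t < s) :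
    (mkS G).Cl c ↔ (mkS G').Cl c := by
  have hb : ∀ t ∈ c, mkb G t = mkb G' t := fun t ht => LOC_b h t (hc t ht)
  show (∀ t ∈ c, mkb G t ⊆ c) ↔ ∀ t ∈ c, mkb G' t ⊆ c
  constructor
  · intro H t ht
    rw [← hb t ht]
    exact H t ht
  · intro H t ht
    rw [hb t ht]
    exact H t ht

theorem loc_fs (h : ∀ t < s, G t = G' t) {X : Type w} [Tgt S.V X] {f : Asg S → X} :
    (mkS G).FS s f ↔ (mkS G').FS s f := by
  constructor
  · rintro ⟨c, h1, h2, h3⟩
    exact ⟨c, (loc_cl h h2).1 h1, h2, h3⟩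
  · rintro ⟨c, h1, h2, h3⟩
    exact ⟨c, (loc_cl h h2).2 h1, h2, h3⟩

theorem LOC_qq (h : ∀ t < s, G t = G' t) (c : Finset Ordinal.{0}) : (∀ t ∈ c, t < s) →
    ∀ φ : Asg S → Prop, (mkS G).QQ c φ = (mkS G').QQ c φ := by
  induction c using Finset.induction_on_max with
  | empty =>
    intro _ φ
    rw [QQ_empty, QQ_empty]
  | insert m c hm ih =>
    intro hc φ
    rw [QQ_insert hm, QQ_insert hm, ih (fun t ht => hc t (Finset.mem_insert_of_mem ht))]
    congr 1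
    funext z
    show (∀ᶠ ξ in S.U (mkg G m z), φ (Function.update z m ξ)) =
      (∀ᶠ ξ in S.U (mkg G' m z), φ (Function.update z m ξ))
    rw [(loc_bg h).2 m (hc m (Finset.mem_insert_self m c))]

theorem loc_ae (h : ∀ t < s, G t = G' t) {φ : Asg S → Prop} (hφ : (mkS G).FS s φ) :
    (mkS G).AE φ ↔ (mkS G').AE φ := by
  obtain ⟨c, h1, h2, h3⟩ := hφ
  by_cases hne : Nonempty (Asg S)
  · obtain ⟨z⟩ := hne
    rw [AE_iff h1 h3.supp z, AE_iff ((loc_cl h h2).1 h1) h3.supp z, LOC_qq h c h2]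
  · constructor
    · intro _
      exact ⟨c, (loc_cl h h2).1 h1, h3.supp, fun z => (hne ⟨z⟩).elim⟩
    · intro _
      exact ⟨c, h1, h3.supp, fun z => (hne ⟨z⟩).elim⟩

theorem LOC_rlt (h : ∀ t < s, G t = G' t) : (mkS G).rlt s = (mkS G').rlt s := by
  funext a b
  refine propext ⟨?_, ?_⟩
  · rintro ⟨h1, h2, h3⟩
    exact ⟨(loc_fs h).1 h1, (loc_fs h).1 h2, (loc_ae h (FS_lt h1 h2)).1 h3⟩
  · rintro ⟨h1, h2, h3⟩
    have h1' := (loc_fs h).2 h1
    have h2' := (loc_fs h).2 h2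
    exact ⟨h1', h2', (loc_ae h (FS_lt h1' h2')).2 h3⟩

theorem loc_rho (h : ∀ t < s, G t = G' t) (a : Asg S → Ordinal.{0}) :
    (mkS G).rho s a = (mkS G').rho s a := by
  unfold Scr.rho
  rw [LOC_rlt h]

theorem loc_vc (h : ∀ t < s, G t = G' t) (x : S.V) : (mkS G).VC s x ↔ (mkS G').VC s x := by
  constructor
  · rintro ⟨h1, h2, h3⟩
    exact ⟨h1, (loc_cl h h3).1 h2, h3⟩
  · rintro ⟨h1, h2, h3⟩
    exact ⟨h1, (loc_cl h h3).2 h2, h3⟩

end loc

end Pool.Agent.SC
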