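import Pool.Agent.Lib_helper73.SCL.ENB

/-!
# LOP: closure of the constructible sets under the basic operations
-/

set_option linter.unusedSectionVars false

namespace Pool.Agent.SC

open FirstOrder Pool.Agent.Lib_helper27 Pool.Agent.Lib_helper27.ST

universe u v w

variable {A : Set ZFSet.{0}}

theorem LOP_c0 {η : Ordinal.{0}} {f : Ordinal.{0} → ZFSet.{0}} {z : ZFSet.{0}} (hk : kk η = 0)
    (hx : xx η < η) (hy : yy η < η) : CPred A η f z ↔ ∃ ι < xx η, z = f ι := by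
  unfold CPred
  rw [hk]
  simp [hx, hy]

theorem LOP_c1 {η : Ordinal.{0}} {f : Ordinal.{0} → ZFSet.{0}} {z : ZFSet.{0}} (hk : kk η = 1)
    (hx : xx η < η) (hy : yy η < η) : CPred A η f z ↔ (z = f (xx η) ∨ z = f (yy η)) := by
  unfold CPred
  rw [hk]
  simp [hx, hy]

theorem LOP_c2 {η : Ordinal.{0}} {f : Ordinal.{0} → ZFSet.{0}} {z : ZFSet.{0}} (hk : kk η = 2)
    (hx : xx η < η) (hy : yy η < η) : CPred A η f z ↔ (z ∈ f (xx η) ∧ z ∉ f (yy η)) := by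
  unfold CPred
  rw [hk]
  simp [hx, hy]

theorem LOP_c3 {η : Ordinal.{0}} {f : Ordinal.{0} → ZFSet.{0}} {z : ZFSet.{0}} (hk : kk η = 3)
    (hx : xx η < η) (hy : yy η < η) : CPred A η f z ↔
      (∃ a ∈ f (xx η), ∃ b ∈ f (yy η), z = ZFSet.pair a b) := by
  unfold CPred
  rw [hk]
  simp [hx, hy]

theorem LOP_c4 {η : Ordinal.{0}} {f : Ordinal.{0} → ZFSet.{0}} {z : ZFSet.{0}} (hk : kk η = 4)
    (hx : xx η < η) (hy : yy η < η) : CPred A η f z ↔ (∃ u, ZFSet.pair u z ∈ f (xx η)) := by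
  unfold CPred
  rw [hk]
  simp [hx, hy]

theorem LOP_c5 {η : Ordinal.{0}} {f : Ordinal.{0} → ZFSet.{0}} {z : ZFSet.{0}} (hk : kk η = 5)
    (hx : xx η < η) (hy : yy η < η) : CPred A η f z ↔
      (∃ a t, ZFSet.pair a t ∈ f (xx η) ∧ z = ZFSet.pair a (ZFSet.pair a t)) := by
  unfold CPred
  rw [hk]
  simp [hx, hy]

theorem LOP_c6 {η : Ordinal.{0}} {f : Ordinal.{0} → ZFSet.{0}} {z : ZFSet.{0}} (hk : kk η = 6)
    (hx : xx η < η) (hy : yy η < η) : CPred A η f z ↔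
      (∃ a t, ∃ b ∈ f (xx η), ZFSet.pair a t ∈ f (yy η) ∧
      z = ZFSet.pair a (ZFSet.pair b t)) := by
  unfold CPred
  rw [hk]
  simp [hx, hy]

theorem LOP_c7 {η : Ordinal.{0}} {f : Ordinal.{0} → ZFSet.{0}} {z : ZFSet.{0}} (hk : kk η = 7)
    (hx : xx η < η) (hy : yy η < η) : CPred A η f z ↔
      (∃ b t, ∃ a ∈ b, ZFSet.pair b t ∈ f (xx η) ∧ z = ZFSet.pair b (ZFSet.pair a t)) := by
  unfold CPred
  rw [hk]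
  simp [hx, hy]

theorem LOP_c8 {η : Ordinal.{0}} {f : Ordinal.{0} → ZFSet.{0}} {z : ZFSet.{0}} (hk : kk η = 8)
    (hx : xx η < η) (hy : yy η < η) : CPred A η f z ↔ (z ∈ f (xx η) ∧ z ∈ A) := by
  unfold CPred
  rw [hk]
  simp [hx, hy]

theorem LOP_c9 {η : Ordinal.{0}} {f : Ordinal.{0} → ZFSet.{0}} {z : ZFSet.{0}} (hk : kk η = 9)
    (hx : xx η < η) (hy : yy η < η) : CPred A η f z ↔
      (∃ ι ι', ι < ι' ∧ ι' < xx η ∧ (∀ j < ι', f j ≠ f ι') ∧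
      z = ZFSet.pair (f ι) (f ι')) := by
  unfold CPred
  rw [hk]
  simp [hx, hy]

theorem LOP_c10 {η : Ordinal.{0}} {f : Ordinal.{0} → ZFSet.{0}} {z : ZFSet.{0}} (hk : kk η = 10)
    (hx : xx η < η) (hy : yy η < η) : CPred A η f z ↔ (∃ u, ZFSet.pair z u ∈ f (xx η)) := by
  unfold CPred
  rw [hk]
  simp [hx, hy]

theorem LA_layer (δ : Ordinal.{0}) : layer A δ ∈ LA A := by
  refine LA_of_code 0 δ 0 _ ?_ ?_
  · intro z hz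
    obtain ⟨ξ, -, rfl⟩ := mem_layer.mp hz
    exact ⟨ξ, rfl⟩
  · intro η hk hx hy h1 h2 z _
    rw [LOP_c0 hk (hx ▸ h1) (hy ▸ h2), mem_layer, hx]
    exact ⟨fun ⟨ι, h, e⟩ => ⟨ι, h, e.symm⟩, fun ⟨ι, h, e⟩ => ⟨ι, h, e.symm⟩⟩

theorem LA_pair {x y : ZFSet.{0}} (hx : x ∈ LA A) (hy : y ∈ LA A) :
    ({x, y} : ZFSet.{0}) ∈ LA A := by
  have hx0 := hx
  have hy0 := hy
  obtain ⟨ξ, rfl⟩ := hx
  obtain ⟨ζ, rfl⟩ := hy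
  refine LA_of_code 1 ξ ζ _ ?_ ?_
  · intro z hz
    rw [ZFSet.mem_pair] at hz
    rcases hz with rfl | rfl
    · exact hx0
    · exact hy0
  · intro η hk hx hy h1 h2 z _
    rw [LOP_c1 hk (hx ▸ h1) (hy ▸ h2), ZFSet.mem_pair, hx, hy]

theorem LOP_single {x : ZFSet.{0}} (hx : x ∈ LA A) : ({x} : ZFSet.{0}) ∈ LA A := by
  have h := LA_pair hx hx
  rwa [ZFSet.pair_eq_singleton] at h

theorem LA_opair {x y : ZFSet.{0}} (hx : x ∈ LA A) (hy : y ∈ LA A) :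
    ZFSet.pair x y ∈ LA A := LA_pair (LOP_single hx) (LA_pair hx hy)

theorem LOP_fst {x y : ZFSet.{0}} (h : ZFSet.pair x y ∈ LA A) : x ∈ LA A := by
  have h1 : ({x} : ZFSet.{0}) ∈ ZFSet.pair x y := by
    unfold ZFSet.pair
    rw [ZFSet.mem_pair]
    exact Or.inl rfl
  exact LA_trans (LA_trans h h1) (ZFSet.mem_singleton.mpr rfl)

theorem LOP_snd {x y : ZFSet.{0}} (h : ZFSet.pair x y ∈ LA A) : y ∈ LA A := by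
  have h1 : ({x, y} : ZFSet.{0}) ∈ ZFSet.pair x y := by
    unfold ZFSet.pair
    rw [ZFSet.mem_pair]
    exact Or.inr rfl
  exact LA_trans (LA_trans h h1) (ZFSet.mem_pair.mpr (Or.inr rfl))

/-- the elements of the pairs in `x` -/
noncomputable def LOP_U (x : ZFSet.{0}) : ZFSet.{0} := ZFSet.sUnion (ZFSet.sUnion x)

theorem LOP_U_fst {x a b : ZFSet.{0}} (h : ZFSet.pair a b ∈ x) : a ∈ LOP_U x := by
  have h1 : ({a} : ZFSet.{0}) ∈ ZFSet.pair a b := by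
    unfold ZFSet.pair
    rw [ZFSet.mem_pair]
    exact Or.inl rfl
  exact ZFSet.mem_sUnion.mpr ⟨_, ZFSet.mem_sUnion.mpr ⟨_, h, h1⟩, ZFSet.mem_singleton.mpr rfl⟩

theorem LOP_U_snd {x a b : ZFSet.{0}} (h : ZFSet.pair a b ∈ x) : b ∈ LOP_U x := by
  have h1 : ({a, b} : ZFSet.{0}) ∈ ZFSet.pair a b := by
    unfold ZFSet.pair
    rw [ZFSet.mem_pair]
    exact Or.inr rfl
  exact ZFSet.mem_sUnion.mpr ⟨_, ZFSet.mem_sUnion.mpr ⟨_, h, h1⟩, ZFSet.mem_pair.mpr (Or.inr rfl)⟩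

theorem LA_diff {x y : ZFSet.{0}} (hx : x ∈ LA A) (hy : y ∈ LA A) : x \ y ∈ LA A := by
  have hx0 := hx
  obtain ⟨ξ, rfl⟩ := hx
  obtain ⟨ζ, rfl⟩ := hy
  refine LA_of_code 2 ξ ζ _ ?_ ?_
  · intro z hz
    rw [ZFSet.mem_sdiff] at hz
    exact LA_trans hx0 hz.1
  · intro η hk hx hy h1 h2 z _
    rw [LOP_c2 hk (hx ▸ h1) (hy ▸ h2), ZFSet.mem_sdiff, hx, hy]

theorem LA_inter {x y : ZFSet.{0}} (hx : x ∈ LA A) (hy : y ∈ LA A) : x ∩ y ∈ LA A := by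
  have h : x ∩ y = x \ (x \ y) := by
    ext z
    rw [ZFSet.mem_inter, ZFSet.mem_sdiff, ZFSet.mem_sdiff]
    tauto
  rw [h]
  exact LA_diff hx (LA_diff hx hy)

theorem LA_prod {x y : ZFSet.{0}} (hx : x ∈ LA A) (hy : y ∈ LA A) :
    ZFSet.prod x y ∈ LA A := by
  have hx0 := hx
  have hy0 := hy
  obtain ⟨ξ, rfl⟩ := hx
  obtain ⟨ζ, rfl⟩ := hy
  refine LA_of_code 3 ξ ζ _ ?_ ?_
  · intro z hz
    rw [ZFSet.mem_prod] at hz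
    obtain ⟨a, ha, b, hb, rfl⟩ := hz
    exact LA_opair (LA_trans hx0 ha) (LA_trans hy0 hb)
  · intro η hk hx hy h1 h2 z _
    rw [LOP_c3 hk (hx ▸ h1) (hy ▸ h2), ZFSet.mem_prod, hx, hy]

theorem LA_ran {x : ZFSet.{0}} (hx : x ∈ LA A) :
    ∃ r ∈ LA A, ∀ z, z ∈ r ↔ ∃ u, ZFSet.pair u z ∈ x := by
  have hx0 := hx
  obtain ⟨ξ, rfl⟩ := hx
  have hmem : ∀ z, z ∈ ZFSet.sep (fun z => ∃ u, ZFSet.pair u z ∈ en A ξ) (LOP_U (en A ξ)) ↔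
      ∃ u, ZFSet.pair u z ∈ en A ξ := by
    intro z
    rw [ZFSet.mem_sep]
    exact ⟨fun h => h.2, fun ⟨u, h⟩ => ⟨LOP_U_snd h, u, h⟩⟩
  refine ⟨_, LA_of_code 4 ξ 0 _ ?_ ?_, hmem⟩
  · intro z hz
    obtain ⟨u, h⟩ := (hmem z).mp hz
    exact LOP_snd (LA_trans hx0 h)
  · intro η hk hx hy h1 h2 z _
    rw [LOP_c4 hk (hx ▸ h1) (hy ▸ h2), hmem, hx]

theorem LA_dom {x : ZFSet.{0}} (hx : x ∈ LA A) :
    ∃ r ∈ LA A, ∀ z, z ∈ r ↔ ∃ u, ZFSet.pair z u ∈ x := by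
  have hx0 := hx
  obtain ⟨ξ, rfl⟩ := hx
  have hmem : ∀ z, z ∈ ZFSet.sep (fun z => ∃ u, ZFSet.pair z u ∈ en A ξ) (LOP_U (en A ξ)) ↔
      ∃ u, ZFSet.pair z u ∈ en A ξ := by
    intro z
    rw [ZFSet.mem_sep]
    exact ⟨fun h => h.2, fun ⟨u, h⟩ => ⟨LOP_U_fst h, u, h⟩⟩
  refine ⟨_, LA_of_code 10 ξ 0 _ ?_ ?_, hmem⟩
  · intro z hz
    obtain ⟨u, h⟩ := (hmem z).mp hz
    exact LOP_fst (LA_trans hx0 h)
  · intro η hk hx hy h1 h2 z _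
    rw [LOP_c10 hk (hx ▸ h1) (hy ▸ h2), hmem, hx]

theorem LA_dup {x : ZFSet.{0}} (hx : x ∈ LA A) : ∃ r ∈ LA A, ∀ z, z ∈ r ↔
    ∃ a t, ZFSet.pair a t ∈ x ∧ z = ZFSet.pair a (ZFSet.pair a t) := by
  have hx0 := hx
  obtain ⟨ξ, rfl⟩ := hx
  set U := LOP_U (en A ξ) with hU
  have hmem : ∀ z, z ∈ ZFSet.sep (fun z => ∃ a t, ZFSet.pair a t ∈ en A ξ ∧
      z = ZFSet.pair a (ZFSet.pair a t)) (ZFSet.prod U (ZFSet.prod U U)) ↔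
      ∃ a t, ZFSet.pair a t ∈ en A ξ ∧ z = ZFSet.pair a (ZFSet.pair a t) := by
    intro z
    rw [ZFSet.mem_sep]
    refine ⟨fun h => h.2, fun h => ⟨?_, h⟩⟩
    obtain ⟨a, t, h, rfl⟩ := h
    exact ZFSet.pair_mem_prod.mpr ⟨LOP_U_fst h, ZFSet.pair_mem_prod.mpr
      ⟨LOP_U_fst h, LOP_U_snd h⟩⟩
  refine ⟨_, LA_of_code 5 ξ 0 _ ?_ ?_, hmem⟩
  · intro z hz
    obtain ⟨a, t, h, rfl⟩ := (hmem z).mp hz
    have h' := LA_trans hx0 h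
    exact LA_opair (LOP_fst h') h'
  · intro η hk hx hy h1 h2 z _
    rw [LOP_c5 hk (hx ▸ h1) (hy ▸ h2), hmem, hx]

theorem LA_ins {x y : ZFSet.{0}} (hx : x ∈ LA A) (hy : y ∈ LA A) : ∃ r ∈ LA A, ∀ z, z ∈ r ↔
    ∃ a t, ∃ b ∈ x, ZFSet.pair a t ∈ y ∧ z = ZFSet.pair a (ZFSet.pair b t) := by
  have hx0 := hx
  have hy0 := hy
  obtain ⟨ξ, rfl⟩ := hx
  obtain ⟨ζ, rfl⟩ := hy
  set U := LOP_U (en A ζ) with hU
  have hmem : ∀ z, z ∈ ZFSet.sep (fun z => ∃ a t, ∃ b ∈ en A ξ, ZFSet.pair a t ∈ en A ζ ∧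
      z = ZFSet.pair a (ZFSet.pair b t)) (ZFSet.prod U (ZFSet.prod (en A ξ) U)) ↔
      ∃ a t, ∃ b ∈ en A ξ, ZFSet.pair a t ∈ en A ζ ∧ z = ZFSet.pair a (ZFSet.pair b t) := by
    intro z
    rw [ZFSet.mem_sep]
    refine ⟨fun h => h.2, fun h => ⟨?_, h⟩⟩
    obtain ⟨a, t, b, hb, h, rfl⟩ := h
    exact ZFSet.pair_mem_prod.mpr ⟨LOP_U_fst h, ZFSet.pair_mem_prod.mpr ⟨hb, LOP_U_snd h⟩⟩
  refine ⟨_, LA_of_code 6 ξ ζ _ ?_ ?_, hmem⟩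
  · intro z hz
    obtain ⟨a, t, b, hb, h, rfl⟩ := (hmem z).mp hz
    have h' := LA_trans hy0 h
    exact LA_opair (LOP_fst h') (LA_opair (LA_trans hx0 hb) (LOP_snd h'))
  · intro η hk hx hy h1 h2 z _
    rw [LOP_c6 hk (hx ▸ h1) (hy ▸ h2), hmem, hx, hy]

theorem LA_insmem {x : ZFSet.{0}} (hx : x ∈ LA A) : ∃ r ∈ LA A, ∀ z, z ∈ r ↔
    ∃ b t, ∃ a ∈ b, ZFSet.pair b t ∈ x ∧ z = ZFSet.pair b (ZFSet.pair a t) := by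
  have hx0 := hx
  obtain ⟨ξ, rfl⟩ := hx
  set U := LOP_U (en A ξ) with hU
  have hmem : ∀ z, z ∈ ZFSet.sep (fun z => ∃ b t, ∃ a ∈ b, ZFSet.pair b t ∈ en A ξ ∧
      z = ZFSet.pair b (ZFSet.pair a t)) (ZFSet.prod U (ZFSet.prod (ZFSet.sUnion U) U)) ↔
      ∃ b t, ∃ a ∈ b, ZFSet.pair b t ∈ en A ξ ∧ z = ZFSet.pair b (ZFSet.pair a t) := by
    intro z
    rw [ZFSet.mem_sep]
    refine ⟨fun h => h.2, fun h => ⟨?_, h⟩⟩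
    obtain ⟨b, t, a, ha, h, rfl⟩ := h
    exact ZFSet.pair_mem_prod.mpr ⟨LOP_U_fst h, ZFSet.pair_mem_prod.mpr
      ⟨ZFSet.mem_sUnion.mpr ⟨b, LOP_U_fst h, ha⟩, LOP_U_snd h⟩⟩
  refine ⟨_, LA_of_code 7 ξ 0 _ ?_ ?_, hmem⟩
  · intro z hz
    obtain ⟨b, t, a, ha, h, rfl⟩ := (hmem z).mp hz
    have h' := LA_trans hx0 h
    exact LA_opair (LOP_fst h') (LA_opair (LA_trans (LOP_fst h') ha) (LOP_snd h'))
  · intro η hk hx hy h1 h2 z _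
    rw [LOP_c7 hk (hx ▸ h1) (hy ▸ h2), hmem, hx]

theorem LA_sepA {x : ZFSet.{0}} (hx : x ∈ LA A) : ZFSet.sep (· ∈ A) x ∈ LA A := by
  have hx0 := hx
  obtain ⟨ξ, rfl⟩ := hx
  refine LA_of_code 8 ξ 0 _ ?_ ?_
  · intro z hz
    exact LA_trans hx0 (ZFSet.mem_sep.mp hz).1
  · intro η hk hx hy h1 h2 z _
    rw [LOP_c8 hk (hx ▸ h1) (hy ▸ h2), ZFSet.mem_sep, hx]

/-- the canonical well-ordering of a layer -/
theorem LA_wo (δ : Ordinal.{0}) : ∃ r ∈ LA A, ∀ z, z ∈ r ↔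
    ∃ ι ι', ι < ι' ∧ ι' < δ ∧ (∀ j < ι', en A j ≠ en A ι') ∧
      z = ZFSet.pair (en A ι) (en A ι') := by
  have hmem : ∀ z, z ∈ ZFSet.sep (fun z => ∃ ι ι', ι < ι' ∧ ι' < δ ∧
      (∀ j < ι', en A j ≠ en A ι') ∧ z = ZFSet.pair (en A ι) (en A ι'))
        (ZFSet.prod (layer A δ) (layer A δ)) ↔
      ∃ ι ι', ι < ι' ∧ ι' < δ ∧ (∀ j < ι', en A j ≠ en A ι') ∧
        z = ZFSet.pair (en A ι) (en A ι') := by
    intro z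
    rw [ZFSet.mem_sep]
    refine ⟨fun h => h.2, fun h => ⟨?_, h⟩⟩
    obtain ⟨ι, ι', h1, h2, -, rfl⟩ := h
    exact ZFSet.pair_mem_prod.mpr ⟨mem_layer.mpr ⟨ι, h1.trans h2, rfl⟩,
      mem_layer.mpr ⟨ι', h2, rfl⟩⟩
  refine ⟨_, LA_of_code 9 δ 0 _ ?_ ?_, hmem⟩
  · intro z hz
    obtain ⟨ι, ι', -, -, -, rfl⟩ := (hmem z).mp hz
    exact LA_opair ⟨ι, rfl⟩ ⟨ι', rfl⟩
  · intro η hk hx hy h1 h2 z _
    rw [LOP_c9 hk (hx ▸ h1) (hy ▸ h2), hmem, hx]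

end Pool.Agent.SC
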