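import Pool.Agent.Lib_helper73.SCL.ADB

set_option linter.unusedSectionVars false

namespace Pool.Agent.SC

open FirstOrder Pool.Agent.Lib_helper27 Pool.Agent.Lib_helper27.ST

universe u v w

/-! ## BLOCK MIN: measurable cardinals of `L[A]` -/

theorem MIN_kap_le (S : MSys) {i : Ordinal.{0}} (hi : i ≤ S.κ) : S.kap i ≤ S.κ := by
  rcases hi.lt_or_eq with h | h
  · exact (S.kap_top ▸ S.kap_lt i S.κ h le_rfl).le
  · rw [h, S.kap_top]

theorem MIN_sub {α β : Ordinal.{0}} (h : α ≤ β) {X : ZFSet.{0}} (hX : X ⊆ α.toZFSet) :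
    X ⊆ β.toZFSet := fun _ hz => Ordinal.toZFSet_monotone h (hX hz)

theorem MIN_A {S : MSys} {i : Ordinal.{0}} (hi : i ≤ S.κ) {X : ZFSet.{0}}
    (hX : X ⊆ (S.kap i).toZFSet) :
    ZFSet.pair i.toZFSet X ∈ S.A ↔ S.InU i X := by
  constructor
  · rintro ⟨j, Y, hj, h, hY, hU⟩
    obtain ⟨h1, rfl⟩ := ZFSet.pair_inj.1 h
    rw [Ordinal.toZFSet_injective h1]
    exact hU
  · intro h
    exact ⟨i, X, hi, rfl, MIN_sub (MIN_kap_le S hi) hX, h⟩

/-- measurable cardinals of `L[A]` -/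
theorem measIn_kap (S : MSys) {i : Ordinal.{0}} (hi : i ≤ S.κ) : MeasIn S.V (S.kap i) := by
  have hA := A_dbl S
  have hD : Dbl S.V (fun X : S.V => (∀ z, z ∈ X → z ∈ oo S.V (S.kap i)) ∧
      (opair (oo S.V i) X).1 ∈ S.A) := by
    have h1 : Dbl S.V (fun X : S.V => (opair (oo S.V i) X).1 ∈ S.A) :=
      Dbl.comp (f := fun X : S.V => opair (oo S.V i) X) (g := fun x : S.V => x.1 ∈ S.A)
        (by fun_prop) hA
    fun_prop
  obtain ⟨U, hU⟩ := small_of_subset hD (power (oo S.V (S.kap i))) fun X hX => mem_power.2 hX.1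
  have hmem : ∀ X : ZFSet.{0}, X ∈ U.1 ↔
      X ∈ S.V ∧ X ⊆ (S.kap i).toZFSet ∧ S.InU i X := by
    intro X
    constructor
    · intro h
      have hXV : X ∈ S.V := Inner.trans U.1 U.2 X h
      obtain ⟨h1, h2⟩ := (hU ⟨X, hXV⟩).1 h
      have h3 : X ⊆ (S.kap i).toZFSet := fun z hz => h1 ⟨z, Inner.trans X hXV z hz⟩ hz
      rw [val_opair] at h2
      exact ⟨hXV, h3, (MIN_A hi h3).1 h2⟩
    · rintro ⟨hXV, h3, h4⟩
      refine (hU ⟨X, hXV⟩).2 ⟨fun z hz => h3 hz, ?_⟩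
      rw [val_opair]
      exact (MIN_A hi h3).2 h4
  have hIn : ∀ X : ZFSet.{0}, S.InU i X ↔ {ξ : Set.Iio S.κ | ξ.1.toZFSet ∈ X} ∈ S.U i :=
    fun X => Iff.rfl
  have hconc := S.conc i hi
  refine ⟨?_, U.1, U.2, fun X hX => ((hmem X).1 hX).2.1, ?_, ?_, ?_, ?_, ?_⟩
  · rw [← S.kap_card i hi, Cardinal.omega0_lt_ord]
    exact S.unc i hi
  · refine (hmem _).2 ⟨Inner.ord _, fun _ h => h, ?_⟩
    rw [hIn]
    refine Filter.mem_of_superset hconc fun ξ hξ => ?_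
    exact Ordinal.toZFSet_mem_toZFSet_iff.2 hξ
  · intro X hX Y hY hXY hYk
    refine (hmem Y).2 ⟨hY, hYk, ?_⟩
    refine Filter.mem_of_superset ((hmem X).1 hX).2.2 fun ξ hξ => ?_
    have hξ1 : ξ.1.toZFSet ∈ X := hξ
    exact hXY hξ1
  · intro X hXV hXk
    obtain ⟨Y, hY⟩ := sep_exists (D := fun z : S.V => ¬ z ∈ (⟨X, hXV⟩ : S.V)) (by fun_prop)
      (oo S.V (S.kap i))
    have hY1 : Y.1 = (S.kap i).toZFSet \ X := by
      refine ZFSet.ext fun z => ?_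
      rw [ZFSet.mem_sdiff]
      constructor
      · intro hz
        exact (hY ⟨z, Inner.trans Y.1 Y.2 z hz⟩).1 hz
      · rintro ⟨hz, hz'⟩
        exact (hY ⟨z, Inner.trans _ (Inner.ord (V := S.V) (S.kap i)) z hz⟩).2 ⟨hz, hz'⟩
    have h1 : (S.kap i).toZFSet \ X ∈ U.1 ↔ S.InU i ((S.kap i).toZFSet \ X) := by
      rw [hmem]
      refine ⟨fun h => h.2.2, fun h => ⟨hY1 ▸ Y.2, fun z hz => ?_, h⟩⟩
      exact (ZFSet.mem_sdiff.1 hz).1
    have h2 : X ∈ U.1 ↔ S.InU i X := by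
      rw [hmem]
      exact ⟨fun h => h.2.2, fun h => ⟨hXV, hXk, h⟩⟩
    rw [h1, h2, hIn, hIn, ← Ultrafilter.compl_mem_iff_notMem]
    constructor
    · intro h
      refine Filter.mem_of_superset h fun ξ hξ hξ' => ?_
      have hξ1 : ξ.1.toZFSet ∈ X := hξ
      have hξ2 : ξ.1.toZFSet ∈ (S.kap i).toZFSet \ X := hξ'
      exact (ZFSet.mem_sdiff.1 hξ2).2 hξ1
    · intro h
      refine Filter.mem_of_superset (Filter.inter_mem h hconc) fun ξ hξ => ?_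
      by_contra hX
      exact hξ.1 (ZFSet.mem_sdiff.2 ⟨Ordinal.toZFSet_mem_toZFSet_iff.2 hξ.2, hX⟩)
  · intro ξ hξ h
    have h1 := ((hmem _).1 h).2.2
    have h2 := S.tail i hi ξ hξ
    have h3 := Filter.inter_mem ((hIn _).1 h1) h2
    have h4 : {ζ : Set.Iio S.κ | ζ.1.toZFSet ∈ ({ξ.toZFSet} : ZFSet.{0})} ∩
        {ζ : Set.Iio S.κ | ξ < ζ.1} = ∅ := by
      refine Set.eq_empty_of_forall_notMem fun ζ hζ => ?_
      have h5 : ζ.1.toZFSet = ξ.toZFSet := ZFSet.mem_singleton.1 hζ.1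
      have h6 : ξ < ζ.1 := hζ.2
      rw [Ordinal.toZFSet_injective h5] at h6
      exact lt_irrefl _ h6
    rw [h4] at h3
    exact (S.U i).neBot.ne (Filter.empty_mem_iff_bot.1 h3)
  · intro γ hγ f hfV hf
    obtain ⟨Y, hY⟩ := sep_exists (D := fun z : S.V => ∀ δ X : S.V,
      opair δ X ∈ (⟨f, hfV⟩ : S.V) → z ∈ X) (by fun_prop) (oo S.V (S.kap i))
    have hY1 : Y.1 = ZFSet.sep (fun ξ => ∀ δ X, ZFSet.pair δ X ∈ f → ξ ∈ X)
        (S.kap i).toZFSet := by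
      refine ZFSet.ext fun z => ?_
      rw [ZFSet.mem_sep]
      constructor
      · intro hz
        have hz1 := (hY ⟨z, Inner.trans Y.1 Y.2 z hz⟩).1 hz
        refine ⟨hz1.1, fun δ X hδ => ?_⟩
        have h2 := pair_mem_iff.1 (Inner.trans f hfV _ hδ)
        refine hz1.2 ⟨δ, h2.1⟩ ⟨X, h2.2⟩ ?_
        rw [mem_def', val_opair]
        exact hδ
      · rintro ⟨hz, hz'⟩
        refine (hY ⟨z, Inner.trans _ (Inner.ord (V := S.V) (S.kap i)) z hz⟩).2 ⟨hz, ?_⟩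
        intro δ X hδ
        rw [mem_def', val_opair] at hδ
        exact hz' _ _ hδ
    rw [← hY1, hmem]
    refine ⟨Y.2, fun z hz => ?_, ?_⟩
    · rw [hY1] at hz
      exact (ZFSet.mem_sep.1 hz).1
    · rw [hIn]
      have hcard : Cardinal.mk γ.ToType < (S.kap i).card := by
        rw [Cardinal.mk_toType, ← Cardinal.lt_ord, S.kap_card i hi]
        exact hγ
      have hB := S.compl i hi γ.ToType
        (fun j => {ξ : Set.Iio S.κ | ∀ X, ZFSet.pair (Ordinal.ToType.mk.symm j).1.toZFSet X ∈ f →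
          ξ.1.toZFSet ∈ X}) hcard (fun j => by
          obtain ⟨X, hX, hX'⟩ := hf.2 (Ordinal.ToType.mk.symm j).1.toZFSet
            (Ordinal.toZFSet_mem_toZFSet_iff.2 (Ordinal.ToType.mk.symm j).2)
          have hXU : X ∈ U.1 := (ZFSet.pair_mem_prod.1 (hf.1 hX)).2
          refine Filter.mem_of_superset ((hIn _).1 ((hmem X).1 hXU).2.2) fun ξ hξ Y hY => ?_
          rw [hX' Y hY]
          exact hξ)
      refine Filter.mem_of_superset (Filter.inter_mem hB hconc) fun ξ hξ => ?_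
      show ξ.1.toZFSet ∈ Y.1
      rw [hY1, ZFSet.mem_sep]
      refine ⟨Ordinal.toZFSet_mem_toZFSet_iff.2 hξ.2, fun δ X hδ => ?_⟩
      obtain ⟨α, hα, rfl⟩ := Ordinal.mem_toZFSet_iff.1 (ZFSet.pair_mem_prod.1 (hf.1 hδ)).1
      have h5 := Set.mem_iInter.1 hξ.1 (Ordinal.ToType.mk ⟨α, hα⟩) X
      refine h5 ?_
      rw [OrderIso.symm_apply_apply]
      exact hδ

end Pool.Agent.SC
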