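import Pool.Agent.Lib_helper73.SCL.MKS_a
import Pool.Agent.Lib_helper73.SCL.ORD

set_option linter.unusedSectionVars false

namespace Pool.Agent.SC

open FirstOrder Pool.Agent.Lib_helper27 Pool.Agent.Lib_helper27.ST

universe u v w

variable {S : MSys}

open Classical in
theorem mks_eq (G : Ordinal.{0} → S.V) (s : Ordinal.{0}) : mkb G s =
    if ∀ t ∈ cdom (G s), ∃ _ : t < s, mkb G t ⊆ cdom (G s) then cdom (G s) else ∅ := by
  unfold mkb
  rw [WellFounded.fix_eq]

theorem mks_val_iff (G : Ordinal.{0} → S.V) (s : Ordinal.{0}) :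
    (∀ t ∈ cdom (G s), ∃ _ : t < s, mkb G t ⊆ cdom (G s)) ↔ Val G s := by
  unfold Val
  constructor
  · intro h t ht
    obtain ⟨h1, h2⟩ := h t ht
    exact ⟨h1, h2⟩
  · intro h t ht
    exact ⟨(h t ht).1, (h t ht).2⟩

theorem mkb_val {G : Ordinal.{0} → S.V} {s : Ordinal.{0}} (h : Val G s) :
    mkb G s = cdom (G s) := by
  rw [mks_eq, if_pos ((mks_val_iff G s).2 h)]

theorem mkb_not_val {G : Ordinal.{0} → S.V} {s : Ordinal.{0}} (h : ¬ Val G s) :
    mkb G s = ∅ := by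
  rw [mks_eq, if_neg fun h' => h ((mks_val_iff G s).1 h')]

theorem mkb_lt (G : Ordinal.{0} → S.V) : ∀ s, ∀ t ∈ mkb G s, t < s := by
  intro s t ht
  by_cases h : Val G s
  · rw [mkb_val h] at ht
    exact (h t ht).1
  · rw [mkb_not_val h] at ht
    exact absurd ht (Finset.notMem_empty t)

theorem mkb_cl (G : Ordinal.{0} → S.V) : ∀ s, ∀ t ∈ mkb G s, mkb G t ⊆ mkb G s := by
  intro s t ht
  by_cases h : Val G s
  · rw [mkb_val h] at ht ⊢
    exact (h t ht).2
  · rw [mkb_not_val h] at ht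
    exact absurd ht (Finset.notMem_empty t)

theorem mkg_le (G : Ordinal.{0} → S.V) : ∀ s z, mkg G s z ≤ S.κ := by
  intro s z
  unfold mkg
  split_ifs
  · exact min_le_left _ _
  · exact zero_le

theorem mks_min_dbl {Γ : Type v} [Ctx S.V Γ] (κ : Ordinal.{0}) {a : Γ → Ordinal.{0}}
    (ha : Dbl S.V a) : Dbl S.V (fun γ => min κ (a γ)) := by
  apply dbl_of_graph_ord
  have h1 : Dbl S.V (fun z : Γ × S.V => a z.1) := by fun_prop
  have h2 : Dbl S.V (fun z : Γ × S.V => rk z.2) := dbl_rk Dbl.snd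
  have h3 : Dbl S.V (fun _ : Γ × S.V => κ) := Dbl.const κ
  refine Dbl.congr_prop ((Dbl.and (dbl_le h3 h1) (dbl_eqo h3 h2)).or
    (Dbl.and (dbl_lt h1 h3) (dbl_eqo h1 h2))) ?_
  intro z
  rcases le_or_gt κ (a z.1) with h | h
  · simp [min_eq_left h, h, not_lt.2 h]
  · simp [min_eq_right h.le, h, not_le.2 h]

theorem mkg_ff (G : Ordinal.{0} → S.V) : ∀ s, FF (mkb G s) (mkg G s) := by
  intro s
  by_cases h : Val G s
  · rw [mkb_val h]
    refine ⟨fun w => min S.κ (rk (fapp (sndp (G s)) w)), ?_, fun z => ?_⟩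
    · apply mks_min_dbl
      apply dbl_rk
      fun_prop
    · unfold mkg
      rw [if_pos h]
      rfl
  · refine ⟨fun _ => 0, Dbl.const _, fun z => ?_⟩
    unfold mkg
    rw [if_neg h]

end Pool.Agent.SC
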