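import Pool.Agent.Lib_helper73.SCL.ADB_a

set_option linter.unusedSectionVars false

namespace Pool.Agent.SC

open FirstOrder Pool.Agent.Lib_helper27 Pool.Agent.Lib_helper27.ST

universe u v w

variable {S : MSys}

open Classical in
/-- the supports of the script given by the codes `G` -/
noncomputable def mkb (G : Ordinal.{0} → S.V) : Ordinal.{0} → Finset Ordinal.{0} :=
  Ordinal.lt_wf.fix fun s f =>
    if ∀ t ∈ cdom (G s), ∃ h : t < s, f t h ⊆ cdom (G s) then cdom (G s) else ∅

/-- `G s` is a code with a closed domain included in `s` -/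
def Val (G : Ordinal.{0} → S.V) (s : Ordinal.{0}) : Prop :=
  ∀ t ∈ cdom (G s), t < s ∧ mkb G t ⊆ cdom (G s)

open Classical in
/-- the index functions of the script given by the codes `G` -/
noncomputable def mkg (G : Ordinal.{0} → S.V) (s : Ordinal.{0}) (z : Asg S) : Ordinal.{0} :=
  if Val G s then min S.κ (cfun (G s) z) else 0

end Pool.Agent.SC
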