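import Pool.Agent.Lib_helper73.SCL.Defs

/-! MP_80bdc1_lc, block NRM: normal measures. -/

set_option linter.unusedSectionVars false

namespace Pool.Agent.SC

open FirstOrder Pool.Agent.Lib_helper27 Pool.Agent.Lib_helper27.ST

universe u v w

theorem nrm_bd {κ : Cardinal.{0}} (hκ : Cardinal.aleph0 ≤ κ) {X : Type u} {W : Ultrafilter X}
    (hW : ∀ (ι : Type) (B : ι → Set X), Cardinal.mk ι < κ → (∀ i, B i ∈ W) → (⋂ i, B i) ∈ W)
    {f : X → Ordinal.{0}} (hf : ∀ u, {x | f x = u} ∉ W) {v : Ordinal.{0}} (hv : v < κ.ord) :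
    {x | v < f x} ∈ W := by
  have h1 : Order.succ v < κ.ord := (Cardinal.isSuccLimit_ord hκ).succ_lt hv
  have h2 : Cardinal.mk (Order.succ v).ToType < κ := by
    rw [Cardinal.mk_toType]
    exact Cardinal.lt_ord.1 h1
  have h3 := hW (Order.succ v).ToType (fun j => {x | f x = (Ordinal.ToType.mk.symm j).1}ᶜ) h2
    fun j => Ultrafilter.compl_mem_iff_notMem.2 (hf _)
  refine Filter.mem_of_superset h3 ?_
  intro x hx
  by_contra hcon
  have h4 : f x < Order.succ v := Order.lt_succ_iff.2 (not_lt.1 hcon)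
  have h5 := Set.mem_iInter.1 hx (Ordinal.ToType.mk ⟨f x, h4⟩)
  apply h5
  show f x = (Ordinal.ToType.mk.symm (Ordinal.ToType.mk ⟨f x, h4⟩)).1
  rw [OrderIso.symm_apply_apply]

/-- Every measurable cardinal carries a normal measure. -/
theorem exists_normal {κ : Cardinal.{0}} (h : Meas κ) :
    ∃ U : Ultrafilter (Set.Iio κ.ord),
      (∀ v < κ.ord, {ξ : Set.Iio κ.ord | v < ξ.1} ∈ U) ∧
      (∀ (ι : Type) (B : ι → Set (Set.Iio κ.ord)), Cardinal.mk ι < κ → (∀ j, B j ∈ U) →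
        (⋂ j, B j) ∈ U) ∧
      ∀ f : Set.Iio κ.ord → Ordinal.{0}, {ξ : Set.Iio κ.ord | f ξ < ξ.1} ∈ U →
        ∃ v, {ξ : Set.Iio κ.ord | f ξ = v} ∈ U := by
  obtain ⟨hκ, U, hU1, hU2⟩ := h
  obtain ⟨W, hWdef⟩ : ∃ W : Ultrafilter (Set.Iio κ.ord), W = U.map Ordinal.ToType.mk.symm :=
    ⟨_, rfl⟩
  have hmem : ∀ s : Set (Set.Iio κ.ord), s ∈ W ↔
      {x : κ.ord.ToType | Ordinal.ToType.mk.symm x ∈ s} ∈ U := by
    intro s
    rw [hWdef]
    exact Ultrafilter.mem_map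
  have hW2 : ∀ (ι : Type) (B : ι → Set (Set.Iio κ.ord)), Cardinal.mk ι < κ → (∀ j, B j ∈ W) →
        (⋂ j, B j) ∈ W := by
    intro ι B hι hB
    rw [hmem]
    have := hU2 ι (fun j => {x | Ordinal.ToType.mk.symm x ∈ B j}) hι fun j => (hmem _).1 (hB j)
    refine Filter.mem_of_superset this fun x hx => ?_
    exact Set.mem_iInter.2 fun j => Set.mem_iInter.1 hx j
  have hid : ∀ u, {x : Set.Iio κ.ord | x.1 = u} ∉ W := by
    intro u hu
    rw [hmem] at hu
    by_cases huκ : u < κ.ord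
    · have h1 := hU1 (Ordinal.ToType.mk ⟨u, huκ⟩)
      refine Ultrafilter.compl_mem_iff_notMem.1 h1 (Filter.mem_of_superset hu fun x hx => ?_)
      have h2 : (Ordinal.ToType.mk.symm x).1 = u := hx
      show x = Ordinal.ToType.mk ⟨u, huκ⟩
      rw [← Ordinal.ToType.mk.symm_apply_eq]
      exact Subtype.ext h2
    · refine U.empty_notMem (Filter.mem_of_superset hu fun x hx => ?_)
      have h2 : (Ordinal.ToType.mk.symm x).1 = u := hx
      exact huκ (h2 ▸ (Ordinal.ToType.mk.symm x).2)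
  have hwf : WellFounded fun f g : Set.Iio κ.ord → Ordinal.{0} => {x | f x < g x} ∈ W := by
    rw [wellFounded_iff_isEmpty_descending_chain]
    refine ⟨fun F => ?_⟩
    obtain ⟨F, hF⟩ := F
    have h1 := hW2 ℕ (fun n => {x | F (n + 1) x < F n x}) (by rw [Cardinal.mk_nat]; exact hκ) hF
    obtain ⟨x, hx⟩ := W.nonempty_of_mem h1
    have h2 : WellFounded fun a b : Ordinal.{0} => a < b := Ordinal.lt_wf
    rw [wellFounded_iff_isEmpty_descending_chain] at h2
    exact h2.false ⟨fun n => F n x, fun n => Set.mem_iInter.1 hx n⟩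
  obtain ⟨f, hf, hmin⟩ : ∃ f : Set.Iio κ.ord → Ordinal.{0}, (∀ u, {x | f x = u} ∉ W) ∧
      ∀ g : Set.Iio κ.ord → Ordinal.{0}, {x | g x < f x} ∈ W → ∃ u, {x | g x = u} ∈ W := by
    have hne : {f : Set.Iio κ.ord → Ordinal.{0} | ∀ u, {x | f x = u} ∉ W}.Nonempty :=
      ⟨fun x => x.1, hid⟩
    refine ⟨hwf.min _ hne, hwf.min_mem _ hne, fun g hg => ?_⟩
    by_contra hcon
    push Not at hcon
    have hcon' : g ∈ {f : Set.Iio κ.ord → Ordinal.{0} | ∀ u, {x | f x = u} ∉ W} := hcon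
    exact hwf.not_lt_min _ hcon' hg
  let p : Set.Iio κ.ord → Set.Iio κ.ord := fun x =>
    ⟨min (f x) x.1, Set.mem_Iio.2 (lt_of_le_of_lt (min_le_right _ _) x.2)⟩
  refine ⟨W.map p, ?_, ?_, ?_⟩
  · intro v hv
    rw [Ultrafilter.mem_map]
    refine Filter.mem_of_superset (Filter.inter_mem (nrm_bd hκ.le hW2 hf hv)
      (nrm_bd hκ.le hW2 hid hv)) fun x hx => ?_
    have h1 : v < f x := hx.1
    have h2 : v < x.1 := hx.2
    show v < min (f x) x.1
    exact lt_min h1 h2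
  · intro ι B hι hB
    rw [Ultrafilter.mem_map]
    have := hW2 ι (fun j => p ⁻¹' B j) hι fun j => Ultrafilter.mem_map.1 (hB j)
    rwa [Set.preimage_iInter]
  · intro g hg
    rw [Ultrafilter.mem_map] at hg
    obtain ⟨u, hu⟩ := hmin (fun x => g (p x)) (Filter.mem_of_superset hg fun x hx =>
      lt_of_lt_of_le (show g (p x) < (p x).1 from hx) (min_le_left _ _))
    exact ⟨u, Ultrafilter.mem_map.2 hu⟩

/-- Measurable cardinals are strong limit cardinals. -/
theorem meas_strongLimit {κ : Cardinal.{0}} (h : Meas κ) {μ : Cardinal.{0}} (hμ : μ < κ) :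
    2 ^ μ < κ := by
  obtain ⟨hκ, U, hU1, hU2⟩ := h
  by_contra hcon
  rw [not_lt] at hcon
  have h1 : Cardinal.mk κ.ord.ToType ≤ Cardinal.mk (Set μ.out) := by
    rw [Cardinal.mk_ord_toType, Cardinal.mk_set, Cardinal.mk_out]
    exact hcon
  obtain ⟨e⟩ := (Cardinal.le_def _ _).1 h1
  have h2 := hU2 μ.out (fun i => {x | i ∈ e x ↔ {y | i ∈ e y} ∈ U}) (by rwa [Cardinal.mk_out])
    (by
      intro i
      by_cases hi : {y | i ∈ e y} ∈ U
      · refine Filter.mem_of_superset hi fun x hx => ?_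
        exact ⟨fun _ => hi, fun _ => hx⟩
      · refine Filter.mem_of_superset (Ultrafilter.compl_mem_iff_notMem.2 hi) fun x hx => ?_
        exact ⟨fun h => (hx h).elim, fun h => (hi h).elim⟩)
  obtain ⟨x, hx⟩ := U.nonempty_of_mem h2
  have h3 := Filter.inter_mem h2 (hU1 x)
  obtain ⟨y, hy, hyx⟩ := U.nonempty_of_mem h3
  apply hyx
  apply e.injective
  ext i
  exact (Set.mem_iInter.1 hy i).trans (Set.mem_iInter.1 hx i).symm

/-- Measurable cardinals are regular. -/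
theorem meas_regular {κ : Cardinal.{0}} (h : Meas κ) : κ.IsRegular := by
  obtain ⟨hκ, U, hU1, hU2⟩ := h
  rw [Cardinal.isRegular_iff]
  refine ⟨hκ.le, ?_⟩
  by_contra hcon
  rw [not_le, ← Ordinal.cof_toType] at hcon
  obtain ⟨s, hs, hs2⟩ := Order.exists_cof_eq κ.ord.ToType
  have hf : ∀ u, {x : κ.ord.ToType | (Ordinal.ToType.mk.symm x).1 = u} ∉ U := by
    intro u hu
    by_cases huκ : u < κ.ord
    · have h1 := hU1 (Ordinal.ToType.mk ⟨u, huκ⟩)
      refine Ultrafilter.compl_mem_iff_notMem.1 h1 (Filter.mem_of_superset hu fun x hx => ?_)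
      have h2 : (Ordinal.ToType.mk.symm x).1 = u := hx
      show x = Ordinal.ToType.mk ⟨u, huκ⟩
      rw [← Ordinal.ToType.mk.symm_apply_eq]
      exact Subtype.ext h2
    · refine U.empty_notMem (Filter.mem_of_superset hu fun x hx => ?_)
      have h2 : (Ordinal.ToType.mk.symm x).1 = u := hx
      exact huκ (h2 ▸ (Ordinal.ToType.mk.symm x).2)
  have h1 := hU2 s (fun y => {x | (Ordinal.ToType.mk.symm y.1).1 < (Ordinal.ToType.mk.symm x).1})
    (by rw [hs2]; exact hcon) fun y => nrm_bd hκ.le hU2 hf (Ordinal.ToType.mk.symm y.1).2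
  obtain ⟨x, hx⟩ := U.nonempty_of_mem h1
  obtain ⟨y, hy, hxy⟩ := hs x
  have h2 : (Ordinal.ToType.mk.symm y).1 < (Ordinal.ToType.mk.symm x).1 :=
    Set.mem_iInter.1 hx ⟨y, hy⟩
  have h3 : Ordinal.ToType.mk.symm x ≤ Ordinal.ToType.mk.symm y :=
    Ordinal.ToType.mk.symm.monotone hxy
  exact absurd (lt_of_lt_of_le h2 (Subtype.coe_le_coe.2 h3)) (lt_irrefl _)

end Pool.Agent.SC
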