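import Pool.Agent.Lib_helper73.SCL.IDefs
import Pool.Agent.Lib_helper73.SCL.NRM

/-! Block MSY: the system of measures. -/

set_option linter.unusedSectionVars false

namespace Pool.Agent.SC

open FirstOrder Pool.Agent.Lib_helper27 Pool.Agent.Lib_helper27.ST

universe u v w

/-- the `i`-th measurable cardinal above `i` and above the previous ones -/
noncomputable def MSYf : Ordinal.{0} → Cardinal.{0} :=
  Ordinal.lt_wf.fix fun i f =>
    sInf {ν : Cardinal.{0} | Meas ν ∧ i.card < ν ∧ ∀ j (hj : j < i), f j hj < ν}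

theorem MSYf_eq (i : Ordinal.{0}) :
    MSYf i = sInf {ν : Cardinal.{0} | Meas ν ∧ i.card < ν ∧ ∀ j, j < i → MSYf j < ν} := by
  unfold MSYf
  rw [WellFounded.fix_eq]

theorem MSYf_spec {κ : Cardinal.{0}} (hκ : Meas κ)
    (hlim : ∀ μ < κ, ∃ ν < κ, μ < ν ∧ Meas ν) (i : Ordinal.{0}) (hi : i < κ.ord) :
    MSYf i < κ ∧ Meas (MSYf i) ∧ i.card < MSYf i ∧ ∀ j, j < i → MSYf j < MSYf i := by
  induction i using Ordinal.lt_wf.induction with
  | _ i ih =>
    have hreg : κ.IsRegular := meas_regular hκ
    have hic : i.card < κ := Cardinal.lt_ord.1 hi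
    have hsup : (⨆ j : i.ToType, MSYf ((Ordinal.ToType.mk).symm j).1) < κ := by
      apply Cardinal.iSup_lt_of_isRegular hreg
      · rw [Cardinal.mk_toType]
        exact hic
      · intro j
        have hj : ((Ordinal.ToType.mk).symm j).1 < i := ((Ordinal.ToType.mk).symm j).2
        exact (ih _ hj (hj.trans hi)).1
    obtain ⟨ν, hνκ, hν, hM⟩ := hlim _ (max_lt hic hsup)
    have hmem : ν ∈ {ν : Cardinal.{0} | Meas ν ∧ i.card < ν ∧ ∀ j, j < i → MSYf j < ν} := by
      refine ⟨hM, (le_max_left _ _).trans_lt hν, fun j hj => ?_⟩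
      refine lt_of_le_of_lt ?_ ((le_max_right _ _).trans_lt hν)
      have := le_ciSup (f := fun j : i.ToType => MSYf ((Ordinal.ToType.mk).symm j).1)
        (Cardinal.bddAbove_range _) (Ordinal.ToType.mk ⟨j, hj⟩)
      simpa using this
    have h1 := csInf_mem ⟨ν, hmem⟩
    have h2 := csInf_le' hmem
    rw [← MSYf_eq] at h1 h2
    exact ⟨h2.trans_lt hνκ, h1⟩

/-- If `κ` is measurable and a limit of measurable cardinals there is a system of measures. -/
theorem exists_msys {κ : Cardinal.{0}} (hκ : Meas κ)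
    (hlim : ∀ μ < κ, ∃ ν < κ, μ < ν ∧ Meas ν) : ∃ S : MSys, S.κ = κ.ord := by
  classical
  set kc : Ordinal.{0} → Cardinal.{0} := fun i => if i < κ.ord then MSYf i else κ with hkc
  have hM : ∀ i, Meas (kc i) := by
    intro i
    by_cases h : i < κ.ord
    · simp only [hkc, if_pos h]
      exact (MSYf_spec hκ hlim i h).2.1
    · simp only [hkc, if_neg h]
      exact hκ
  have hle : ∀ i, kc i ≤ κ := by
    intro i
    by_cases h : i < κ.ord
    · simp only [hkc, if_pos h]
      exact (MSYf_spec hκ hlim i h).1.le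
    · simp only [hkc, if_neg h]
      exact le_rfl
  have hlt : ∀ i j, i < j → j ≤ κ.ord → kc i < kc j := by
    intro i j hij hj
    have hi : i < κ.ord := hij.trans_le hj
    by_cases h : j < κ.ord
    · simp only [hkc, if_pos h, if_pos hi]
      exact (MSYf_spec hκ hlim j h).2.2.2 i hij
    · simp only [hkc, if_pos hi, if_neg h]
      exact (MSYf_spec hκ hlim i hi).1
  choose N hN1 hN2 hN3 using fun i => exists_normal (hM i)
  have hsub : ∀ i, Set.Iio (kc i).ord ⊆ Set.Iio κ.ord :=
    fun i => Set.Iio_subset_Iio (Cardinal.ord_le_ord.2 (hle i))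
  refine ⟨{ κ := κ.ord
            kap := fun i => (kc i).ord
            U := fun i => (N i).map (Set.inclusion (hsub i))
            kap_top := ?_
            kap_lt := ?_
            lt_kap := ?_
            kap_card := ?_
            unc := ?_
            slim := ?_
            conc := ?_
            tail := ?_
            compl := ?_
            normal := ?_ }, rfl⟩
  · simp [hkc]
  · intro i j hij hj
    exact Cardinal.ord_lt_ord.2 (hlt i j hij hj)
  · intro i hi
    simp only [hkc, if_pos hi]
    exact Cardinal.lt_ord.2 (MSYf_spec hκ hlim i hi).2.2.1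
  · intro i _
    rw [Cardinal.card_ord]
  · intro i _
    rw [Cardinal.card_ord]
    exact (hM i).1
  · intro i j hij hj
    rw [Cardinal.card_ord, Cardinal.card_ord]
    exact meas_strongLimit (hM j) (hlt i j hij hj)
  · intro i _
    show _ ∈ (N i).map _
    rw [Ultrafilter.mem_map]
    have h : (Set.inclusion (hsub i)) ⁻¹' {ξ : Set.Iio κ.ord | ξ.1 < (kc i).ord} = Set.univ := by
      ext ξ
      exact ⟨fun _ => trivial, fun _ => ξ.2⟩
    rw [h]
    exact Filter.univ_mem
  · intro i _ v hv
    rw [Ultrafilter.mem_map]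
    exact hN1 i v hv
  · intro i _ ι B hι hB
    rw [Ultrafilter.mem_map, Set.preimage_iInter]
    rw [Cardinal.card_ord] at hι
    exact hN2 i ι _ hι fun j => by
      have := hB j
      rw [Ultrafilter.mem_map] at this
      exact this
  · intro i _ f hf
    rw [Ultrafilter.mem_map] at hf
    obtain ⟨v, hv⟩ := hN3 i (fun ξ => f (Set.inclusion (hsub i) ξ)) hf
    refine ⟨v, ?_⟩
    rw [Ultrafilter.mem_map]
    exact hv

end Pool.Agent.SC
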