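import Pool.Agent.Lib_helper73.SCL.EFD_a
import Pool.Agent.Lib_helper73.SCL.RHO

set_option linter.unusedSectionVars false

namespace Pool.Agent.SC

open FirstOrder Pool.Agent.Lib_helper27 Pool.Agent.Lib_helper27.ST

universe u v w

variable {S : MSys}

namespace FD

variable (F : FD S)

/-- the membership relation of the iterate, on codes -/
def EN (β α : Ordinal.{0}) : Prop := ∃ a b : Asg S → Ordinal.{0}, F.sc.FS F.ks a ∧
  F.sc.FS F.ks b ∧ F.sc.rho F.ks a = β ∧ F.sc.rho F.ks b = α ∧
  F.sc.AE fun z => en S.A (a z) ∈ en S.A (b z)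

/-- the set with code `α` in the iterate -/
noncomputable def piO : Ordinal.{0} → ZFSet.{0} :=
  Ordinal.lt_wf.fix fun α f => ZFSet.range fun β : {β : Set.Iio α // F.EN β.1 α} => f β.1.1 β.1.2

/-- the set represented by the function `f` -/
noncomputable def Pi (f : Asg S → S.V) : ZFSet.{0} := F.piO (F.sc.rho F.ks fun z => cod (f z))

variable {F} {f h : Asg S → S.V} {a : Asg S → Ordinal.{0}}

theorem piO_rep (F : FD S) (α : Ordinal.{0}) :
    ∃ a, F.sc.FS F.ks a ∧ F.sc.rho F.ks a = α := rho_all _ _ _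

end FD

end Pool.Agent.SC
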