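import Pool.Agent.Lib_helper73.SCL.AEB

/-!
# Block RED: removing the last coordinate
-/

set_option linter.unusedSectionVars false

namespace Pool.Agent.SC

open FirstOrder Pool.Agent.Lib_helper27 Pool.Agent.Lib_helper27.ST

universe u v w

variable {S : MSys}

section rho

variable {sc : Scr S} {s t : Ordinal.{0}} {a b : Asg S → Ordinal.{0}}

theorem RED_min : Dbl S.V (fun x : S.V => min (rk x) S.κ) := by
  apply dbl_of_graph_ord
  refine Dbl.congr_prop (p := fun z : S.V × S.V => (rk z.1 ≤ S.κ ∧ rk z.1 = rk z.2) ∨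
    (¬ rk z.1 ≤ S.κ ∧ S.κ = rk z.2)) (by fun_prop) ?_
  intro z
  by_cases h : rk z.1 ≤ S.κ
  · simp [h]
  · have h' : S.κ ≤ rk z.1 := (not_le.1 h).le
    simp [h, h']

theorem RED_update {c : Finset Ordinal.{0}} {m : Ordinal.{0}} (hm : m ∉ c) (z : Asg S)
    (ξ : Set.Iio S.κ) : ∀ t ∈ c, z t = Function.update z m ξ t := by
  intro t ht
  rw [Function.update_of_ne]
  rintro rfl
  exact hm ht

/-- the limit value of the function `f` -/
theorem RED_ff {c : Finset Ordinal.{0}} {m : Ordinal.{0}} (hb : sc.b m ⊆ c)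
    (hm : m ∉ c) {f : Asg S → S.V} (hf : FF (insert m c) f) :
    FF c (fun z => iota (fun v => ∀ᶠ ξ in S.U (sc.g m z), f (Function.update z m ξ) = v)) := by
  obtain ⟨H, hH, hfH⟩ := hf
  obtain ⟨G, hG, hgG⟩ := sc.g_ff m
  have h1 : Dbl S.V (fun x : S.V => G (resf (fc S (sc.b m)) x)) :=
    Dbl.comp (f := fun x : S.V => resf (fc S (sc.b m)) x) (by fun_prop) hG
  have h2 : Dbl S.V (fun x : S.V => min (G (resf (fc S (sc.b m)) x)) S.κ) :=
    dbl_app' (F := fun α => min α S.κ) RED_min h1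
  have h3 : Dbl S.V (fun z : S.V × S.V => ∀ᶠ ξ : Set.Iio S.κ in
      S.U (min (G (resf (fc S (sc.b m)) z.1)) S.κ),
      H (union z.1 (upair (opair (oo S.V m) (oo S.V ξ.1)) (opair (oo S.V m) (oo S.V ξ.1)))) =
        z.2) := by
    refine dbl_ev (P := fun (z : S.V × S.V) (ξ : Ordinal.{0}) => H (union z.1
      (upair (opair (oo S.V m) (oo S.V ξ)) (opair (oo S.V m) (oo S.V ξ)))) = z.2)
      ?_ (fun z => min_le_right _ _) ?_
    · exact Dbl.comp (f := fun z : S.V × S.V => z.1) (by fun_prop) h2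
    · have h4 : Dbl S.V (fun y : (S.V × S.V) × S.V => H (union y.1.1
          (upair (opair (oo S.V m) (oo S.V (rk y.2))) (opair (oo S.V m) (oo S.V (rk y.2)))))) :=
        Dbl.comp (f := fun y : (S.V × S.V) × S.V => union y.1.1
          (upair (opair (oo S.V m) (oo S.V (rk y.2))) (opair (oo S.V m) (oo S.V (rk y.2)))))
          (by fun_prop) hH
      exact Dbl.eq h4 (by fun_prop)
  refine ⟨_, dbl_iota (D := fun x v => ∀ᶠ ξ : Set.Iio S.κ in
      S.U (min (G (resf (fc S (sc.b m)) x)) S.κ),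
      H (union x (upair (opair (oo S.V m) (oo S.V ξ.1)) (opair (oo S.V m) (oo S.V ξ.1)))) =
        v) h3, ?_⟩
  intro z
  have h5 : min (G (resf (fc S (sc.b m)) (enc c z))) S.κ = sc.g m z := by
    rw [resf_enc hb, ← hgG, min_eq_left (sc.g_le m z)]
  have h6 : ∀ ξ : Set.Iio S.κ, f (Function.update z m ξ) = H (union (enc c z)
      (upair (opair (oo S.V m) (oo S.V ξ.1)) (opair (oo S.V m) (oo S.V ξ.1)))) := by
    intro ξ
    rw [hfH, enc_insert hm]
  simp only [h5, h6]

theorem RED_core {c : Finset Ordinal.{0}} {m : Ordinal.{0}} (hc : sc.Cl c) (hb : sc.b m ⊆ c)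
    (hm : ∀ t ∈ c, t < m) {f : Asg S → S.V} (hf : FF (insert m c) f) {E : Asg S → Prop}
    (hE : sc.AE E)
    (h : ∀ z, E z → ∃ v, ∀ᶠ ξ in S.U (sc.g m z), f (Function.update z m ξ) = v) :
    ∃ f', FF c f' ∧ sc.AE fun z => f z = f' z := by
  have hmc : m ∉ c := fun h => (hm m h).false
  have hf' := RED_ff (sc := sc) hb hmc hf
  obtain ⟨f', hfe⟩ : ∃ f' : Asg S → S.V, f' = fun z => iota (fun v =>
    ∀ᶠ ξ in S.U (sc.g m z), f (Function.update z m ξ) = v) := ⟨_, rfl⟩
  rw [← hfe] at hf'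
  refine ⟨f', hf', ?_⟩
  have hs : Supp (insert m c) (fun z => f z = f' z) :=
    ((hf.pair (hf'.mono (Finset.subset_insert m c))).comp
      (G := fun z : S.V × S.V => z.1 = z.2) (by fun_prop)).supp
  rw [AE_insert hc hb hm hs]
  refine AE_mono ⟨c, hc, It_supp hm hb hs⟩ hE fun z hz => ?_
  obtain ⟨v, hv⟩ := h z hz
  have h1 : f' z = v := by
    rw [hfe]
    refine iota_eq hv fun v' hv' => ?_
    obtain ⟨ξ, h1, h2⟩ := (hv'.and hv).exists
    exact h1.symm.trans h2
  unfold Scr.It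
  filter_upwards [hv] with ξ hξ
  rw [← hf'.supp z (Function.update z m ξ) (RED_update hmc z ξ), h1]
  exact hξ

/-- a function with values in a small set does not depend on the last coordinate -/
theorem reduce {c : Finset Ordinal.{0}} {m : Ordinal.{0}} (hc : sc.Cl c) (hb : sc.b m ⊆ c)
    (hm : ∀ t ∈ c, t < m) {f : Asg S → S.V} (hf : FF (insert m c) f) {B : Asg S → S.V}
    (hB : FF c B) (hcard : sc.AE fun z => (B z).1.card < (S.kap (sc.g m z)).card)
    (hmem : sc.AE fun z => f z ∈ B z) : ∃ f', FF c f' ∧ sc.AE fun z => f z = f' z := by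
  have hmc : m ∉ c := fun h => (hm m h).false
  have hs : Supp (insert m c) (fun z => f z ∈ B z) :=
    ((hf.pair (hB.mono (Finset.subset_insert m c))).comp
      (G := fun z : S.V × S.V => z.1 ∈ z.2) (by fun_prop)).supp
  have hmem' := (AE_insert hc hb hm hs).1 hmem
  have hE := (AE_and (AE_fs hcard) (AE_fs hmem')).2 ⟨hcard, hmem'⟩
  refine RED_core hc hb hm hf hE ?_
  rintro z ⟨h1, h2⟩
  have h2' : ∀ᶠ ξ in S.U (sc.g m z), f (Function.update z m ξ) ∈ B z := by
    unfold Scr.It at h2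
    filter_upwards [h2] with ξ hξ
    rwa [← hB.supp z (Function.update z m ξ) (RED_update hmc z ξ)] at hξ
  by_contra hn
  push Not at hn
  have h3 : ∀ v : S.V, ∀ᶠ ξ in S.U (sc.g m z), ¬ f (Function.update z m ξ) = v := hn
  have h4 := S.compl (sc.g m z) (sc.g_le m z) (Shrink (B z).1)
    (fun j => {ξ | ¬ (f (Function.update z m ξ)).1 = ((equivShrink (B z).1).symm j).1}) h1
    (fun j => by
      have hV : ((equivShrink (B z).1).symm j).1 ∈ S.V :=
        Inner.trans _ (B z).2 _ ((equivShrink (B z).1).symm j).2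
      refine Filter.mem_of_superset (h3 ⟨_, hV⟩) ?_
      intro ξ hξ hξ'
      exact hξ (Subtype.ext hξ'))
  obtain ⟨ξ, hξ1, hξ2⟩ := (h2'.and (Filter.eventually_mem_set.2 h4)).exists
  rw [Set.mem_iInter] at hξ2
  have h5 := hξ2 (equivShrink (B z).1 ⟨(f (Function.update z m ξ)).1, hξ1⟩)
  apply h5
  rw [Equiv.symm_apply_apply]

/-- normality -/
theorem reduce_normal {c : Finset Ordinal.{0}} {m : Ordinal.{0}} (hc : sc.Cl c)
    (hb : sc.b m ⊆ c)
    (hm : ∀ t ∈ c, t < m) {a : Asg S → Ordinal.{0}} (ha : FF (insert m c) a)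
    (h : sc.AE fun z => a z < (z m).1) : ∃ a', FF c a' ∧ sc.AE fun z => a z = a' z := by
  have hs : Supp (insert m c) (fun z : Asg S => a z < (z m).1) := by
    intro z z' hzz
    show (a z < (z m).1) = (a z' < (z' m).1)
    rw [ha.supp z z' hzz, hzz m (Finset.mem_insert_self m c)]
  have hE := (AE_insert hc hb hm hs).1 h
  obtain ⟨f', hf1, hf2⟩ := RED_core hc hb hm ha.oo hE (by
    intro z hz
    have h1 : {ξ : Set.Iio S.κ | a (Function.update z m ξ) < ξ.1} ∈ S.U (sc.g m z) := by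
      unfold Scr.It at hz
      filter_upwards [hz] with ξ hξ
      rwa [Function.update_self] at hξ
    obtain ⟨v, hv⟩ := S.normal (sc.g m z) (sc.g_le m z) (fun ξ => a (Function.update z m ξ)) h1
    refine ⟨oo S.V v, ?_⟩
    filter_upwards [hv] with ξ hξ
    exact congrArg (oo S.V) hξ)
  refine ⟨fun z => rk (f' z), hf1.rk, ?_⟩
  refine AE_mono ?_ hf2 fun z hz => by
    show a z = rk (f' z)
    rw [← hz, rk_oo]
  have hcl : sc.Cl (insert m c) := by
    intro s hs
    rw [Finset.mem_insert] at hs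
    rcases hs with rfl | hs
    · exact hb.trans (Finset.subset_insert _ _)
    · exact (hc s hs).trans (Finset.subset_insert _ _)
  refine ⟨insert m c, hcl, ?_⟩
  intro z z' hzz
  show (a z = rk (f' z)) = (a z' = rk (f' z'))
  rw [ha.supp z z' hzz, hf1.supp z z' fun s hs => hzz s (Finset.mem_insert_of_mem hs)]

end rho

end Pool.Agent.SC
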