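import Pool.Agent.Lib_helper73.SCL.QQB

set_option linter.unusedSectionVars false

namespace Pool.Agent.SC

open FirstOrder Pool.Agent.Lib_helper27 Pool.Agent.Lib_helper27.ST

universe u v w

variable {S : MSys}

section QQ

variable {sc : Scr S} {c c' : Finset Ordinal.{0}} {φ ψ : Asg S → Prop} {m : Ordinal.{0}}

theorem sig_cl_of_insert (hm : ∀ t ∈ c, t < m) (h : sc.Cl (insert m c)) :
    sc.Cl c ∧ sc.b m ⊆ c := by
  constructor
  · intro s hs t ht
    have h1 := h s (Finset.mem_insert_of_mem hs) ht
    rcases Finset.mem_insert.1 h1 with h2 | h2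
    · exfalso
      have h3 := sc.b_lt s t ht
      have h4 := hm s hs
      rw [h2] at h3
      exact lt_asymm h4 h3
    · exact h2
  · intro t ht
    have h1 := h m (Finset.mem_insert_self _ _) ht
    rcases Finset.mem_insert.1 h1 with h2 | h2
    · exfalso
      have h3 := sc.b_lt m t ht
      rw [h2] at h3
      exact lt_irrefl _ h3
    · exact h2

theorem sig_supp (s : Ordinal.{0}) (c : Finset Ordinal.{0}) : ∀ φ : Asg S → Prop,
    sc.Cl c → Supp c φ → Supp (c.filter (· < s)) (sc.QQ (c.filter (s ≤ ·)) φ) := by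
  induction c using Finset.induction_on_max with
  | empty =>
    intro φ _ hs
    simpa [QQ_empty] using hs
  | insert m c hm ih =>
    intro φ hc hs
    obtain ⟨h1, h2⟩ := sig_cl_of_insert hm hc
    by_cases hms : m < s
    · have e1 : (insert m c).filter (· < s) = insert m c := by
        rw [Finset.filter_eq_self]
        intro t ht
        rcases Finset.mem_insert.1 ht with rfl | ht
        · exact hms
        · exact (hm t ht).trans hms
      have e2 : (insert m c).filter (s ≤ ·) = ∅ := by
        rw [Finset.filter_eq_empty_iff]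
        intro t ht
        rw [not_le]
        rcases Finset.mem_insert.1 ht with rfl | ht
        · exact hms
        · exact (hm t ht).trans hms
      rw [e1, e2, QQ_empty]
      exact hs
    · have e1 : (insert m c).filter (· < s) = c.filter (· < s) := by
        rw [Finset.filter_insert, if_neg hms]
      have e2 : (insert m c).filter (s ≤ ·) = insert m (c.filter (s ≤ ·)) := by
        rw [Finset.filter_insert, if_pos (not_lt.1 hms)]
      rw [e1, e2, QQ_insert fun t ht => hm t (Finset.mem_filter.1 ht).1]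
      exact ih _ h1 (It_supp hm h2 hs)

/-- the smallest coordinate is outermost -/
theorem sig_min (s : Ordinal.{0}) (hs : s ∈ c) (φ : Asg S → Prop) :
    sc.QQ (c.filter (s ≤ ·)) φ = sc.It s (sc.QQ (c.filter (s + 1 ≤ ·)) φ) := by
  rw [QQ_split (c := c.filter (s ≤ ·)) (s + 1)]
  have e1 : (c.filter (s ≤ ·)).filter (· < s + 1) = {s} := by
    ext t
    simp only [Finset.mem_filter, Finset.mem_singleton, Order.lt_add_one_iff]
    constructor
    · rintro ⟨⟨_, h1⟩, h2⟩
      exact le_antisymm h2 h1
    · rintro rfl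
      exact ⟨⟨hs, le_rfl⟩, le_rfl⟩
  have e2 : (c.filter (s ≤ ·)).filter (s + 1 ≤ ·) = c.filter (s + 1 ≤ ·) := by
    ext t
    simp only [Finset.mem_filter, Order.add_one_le_iff]
    constructor
    · rintro ⟨⟨h0, _⟩, h2⟩
      exact ⟨h0, h2⟩
    · rintro ⟨h0, h2⟩
      exact ⟨⟨h0, h2.le⟩, h2⟩
  have e3 : ({s} : Finset Ordinal.{0}) = insert s ∅ := rfl
  rw [e1, e2, e3, QQ_insert (by simp), QQ_empty]

theorem sig_filter_stable {s m : Ordinal.{0}} (hms : m < s)
    (h : ∀ t ∈ c, t < s → t ≤ m) : c.filter (s ≤ ·) = c.filter (m + 1 ≤ ·) := by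
  ext t
  simp only [Finset.mem_filter, Order.add_one_le_iff]
  constructor
  · rintro ⟨h0, h1⟩
    exact ⟨h0, lt_of_lt_of_le hms h1⟩
  · rintro ⟨h0, h1⟩
    refine ⟨h0, ?_⟩
    by_contra h2
    exact absurd (h t h0 (not_le.1 h2)) (not_le.2 h1)

theorem sig_pos (S : MSys) : 0 < S.κ := by
  rw [← S.kap_top]
  by_contra h
  have h0 : S.kap S.κ = 0 := nonpos_iff_eq_zero.1 (not_lt.1 h)
  have h1 := S.unc S.κ le_rfl
  rw [h0, Ordinal.card_zero] at h1
  exact absurd h1 (not_lt.2 zero_le)

open Classical in
/-- the assignment below `s` given by `f` -/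
noncomputable def sigExt (S : MSys) (s : Ordinal.{0}) (f : ∀ t, t < s → Set.Iio S.κ) : Asg S :=
  fun t => if h : t < s then f t h else ⟨0, sig_pos S⟩

open Classical in
/-- the diagonal assignment -/
noncomputable def sigZ (sc : Scr S) (C : ℕ → Finset Ordinal.{0}) (φ : ℕ → Asg S → Prop) : Asg S :=
  (wellFounded_lt (α := Ordinal.{0})).fix fun s f =>
    if h : ∃ ξ : Set.Iio S.κ, ∀ n, s ∈ C n →
      sc.QQ ((C n).filter (s + 1 ≤ ·)) (φ n) (Function.update (sigExt S s f) s ξ)
    then h.choose else ⟨0, sig_pos S⟩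

theorem sigZ_eq (sc : Scr S) (C : ℕ → Finset Ordinal.{0}) (φ : ℕ → Asg S → Prop) (s : Ordinal.{0})
    (h : ∃ ξ : Set.Iio S.κ, ∀ n, s ∈ C n →
      sc.QQ ((C n).filter (s + 1 ≤ ·)) (φ n)
        (Function.update (sigExt S s fun t _ => sigZ sc C φ t) s ξ)) :
    ∀ n, s ∈ C n → sc.QQ ((C n).filter (s + 1 ≤ ·)) (φ n)
      (Function.update (sigExt S s fun t _ => sigZ sc C φ t) s (sigZ sc C φ s)) := by
  have e : sigZ sc C φ s = h.choose := by
    conv_lhs => rw [sigZ, WellFounded.fix_eq]
    exact dif_pos h
  rw [e]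
  exact h.choose_spec

theorem AE_sigma {φ : ℕ → Asg S → Prop} (h : ∀ n, sc.AE (φ n)) : ∃ z, ∀ n, φ n z := by
  choose C hC hs hq using h
  set z : Asg S := sigZ sc C φ with hz
  have main : ∀ s : Ordinal.{0}, ∀ n, sc.QQ ((C n).filter (s ≤ ·)) (φ n) z := by
    intro s
    induction s using WellFoundedLT.induction with
    | ind s ih =>
      intro n
      by_cases hne : ((C n).filter (· < s)).Nonempty
      · obtain ⟨m, hmC, hms, hmax⟩ : ∃ m, m ∈ C n ∧ m < s ∧ ∀ t ∈ C n, t < s → t ≤ m :=
          ⟨_, (Finset.mem_filter.1 (Finset.max'_mem _ hne)).1,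
            (Finset.mem_filter.1 (Finset.max'_mem _ hne)).2, fun t ht hts =>
            Finset.le_max' _ _
              (Finset.mem_filter.2 ⟨ht, hts⟩ : t ∈ (C n).filter (fun x => x < s))⟩
        rw [sig_filter_stable hms hmax]
        -- choice at `m`
        have hex : ∃ ξ : Set.Iio S.κ, ∀ k, m ∈ C k →
            sc.QQ ((C k).filter (m + 1 ≤ ·)) (φ k)
              (Function.update (sigExt S m fun t _ => sigZ sc C φ t) m ξ) := by
          set y : Asg S := sigExt S m fun t _ => sigZ sc C φ t with hy
          have hB : ∀ k, {ξ : Set.Iio S.κ | m ∈ C k →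
              sc.QQ ((C k).filter (m + 1 ≤ ·)) (φ k) (Function.update y m ξ)} ∈
              S.U (sc.g m y) := by
            intro k
            by_cases hk : m ∈ C k
            · have h1 : sc.QQ ((C k).filter (m ≤ ·)) (φ k) y := by
                have h2 := sig_supp m (C k) (φ k) (hC k) (hs k)
                have h3 : ∀ t ∈ (C k).filter (· < m), z t = y t := by
                  intro t ht
                  rw [hy, sigExt, dif_pos (Finset.mem_filter.1 ht).2]
                rw [← h2 z y h3]
                exact ih m hms k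
              rw [sig_min m hk] at h1
              exact Filter.Eventually.mono h1 fun ξ hξ _ => hξ
            · have : {ξ : Set.Iio S.κ | m ∈ C k →
                  sc.QQ ((C k).filter (m + 1 ≤ ·)) (φ k) (Function.update y m ξ)} =
                  Set.univ := by
                ext ξ
                simp [hk]
              rw [this]
              exact Filter.univ_mem
          have hI := S.compl (sc.g m y) (sc.g_le m y) ℕ _
            (by rw [Cardinal.mk_nat]; exact S.unc _ (sc.g_le m y)) hB
          obtain ⟨ξ, hξ⟩ := (S.U (sc.g m y)).nonempty_of_mem hI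
          exact ⟨ξ, fun k => Set.mem_iInter.1 hξ k⟩
        have h4 := sigZ_eq sc C φ m hex n hmC
        have h5 := sig_supp (m + 1) (C n) (φ n) (hC n) (hs n)
        have h6 : ∀ t ∈ (C n).filter (· < m + 1), z t =
            Function.update (sigExt S m fun t _ => sigZ sc C φ t) m (sigZ sc C φ m) t := by
          intro t ht
          have h7 : t ≤ m := Order.lt_add_one_iff.1 (Finset.mem_filter.1 ht).2
          rcases h7.eq_or_lt with rfl | h8
          · rw [Function.update_self]
          · rw [Function.update_of_ne h8.ne, sigExt, dif_pos h8]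
        rw [h5 z _ h6]
        exact h4
      · have e : (C n).filter (s ≤ ·) = C n := by
          rw [Finset.filter_eq_self]
          intro t ht
          by_contra hts
          exact hne ⟨t, Finset.mem_filter.2 ⟨ht, not_le.1 hts⟩⟩
        rw [e]
        exact hq n z
  refine ⟨z, fun n => ?_⟩
  obtain ⟨s, hs'⟩ : ∃ s : Ordinal.{0}, ∀ t ∈ C n, t < s := by
    by_cases hne : (C n).Nonempty
    · exact ⟨(C n).max' hne + 1, fun t ht => Order.lt_add_one_iff.2 (Finset.le_max' _ _ ht)⟩
    · exact ⟨0, fun t ht => absurd ⟨t, ht⟩ hne⟩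
  have h1 := main s n
  have e : (C n).filter (s ≤ ·) = ∅ := by
    rw [Finset.filter_eq_empty_iff]
    intro t ht
    exact not_le.2 (hs' t ht)
  rw [e, QQ_empty] at h1
  exact h1

end QQ

end Pool.Agent.SC
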