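import Pool.Agent.Lib_helper27.Model

/-!
# The stability predicate and the stable core

Everything takes place in the class `ZFSet.{0}` of all sets (of the universe `Type`). Classes are
arbitrary subsets of `ZFSet.{0}`.
-/

namespace Pool.Agent.SC

open FirstOrder Pool.Agent.Lib_helper27

/-- `V` is an inner model of ZFC: it is transitive, contains all (von Neumann) ordinals and
satisfies ZFC. -/
class Inner (V : Set ZFSet.{0}) : Prop where
  trans : ∀ x ∈ V, ∀ y ∈ x, y ∈ V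
  ord : ∀ α : Ordinal.{0}, α.toZFSet ∈ V
  zfc : IsModelOfZFC (M := V) (fun x y => x.1 ∈ y.1)

/-- Formulas of the language `{∈}` of set theory with `k` free variables. -/
abbrev Fm (k : ℕ) := LSet.BoundedFormula Empty k

/-- The formula `v_i ∈ v_j`. -/
def Fm.mem {k : ℕ} (i j : Fin k) : Fm k :=
  Language.Relations.boundedFormula₂ (L := LSet) SetRel.mem
    (Language.Term.var (Sum.inr i)) (Language.Term.var (Sum.inr j))

/-- The formula `∀ v_k ∈ v_i, φ`. -/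
def Fm.ball {k : ℕ} (i : Fin k) (φ : Fm (k + 1)) : Fm k :=
  Language.BoundedFormula.all (Language.BoundedFormula.imp (Fm.mem (Fin.last k) i.castSucc) φ)

/-- `Δ₀` formulas: all quantifiers are bounded. -/
inductive IsDelta0 : ∀ {k : ℕ}, Fm k → Prop
  | falsum {k : ℕ} : IsDelta0 (Language.BoundedFormula.falsum : Fm k)
  | equal {k : ℕ} (t s : LSet.Term (Empty ⊕ Fin k)) :
      IsDelta0 (Language.BoundedFormula.equal t s : Fm k)
  | rel {k l : ℕ} (R : LSet.Relations l) (ts : Fin l → LSet.Term (Empty ⊕ Fin k)) :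
      IsDelta0 (Language.BoundedFormula.rel R ts : Fm k)
  | imp {k : ℕ} {φ ψ : Fm k} : IsDelta0 φ → IsDelta0 ψ → IsDelta0 (φ.imp ψ)
  | ball {k : ℕ} (i : Fin k) {φ : Fm (k + 1)} : IsDelta0 φ → IsDelta0 (Fm.ball i φ)

/-- The Lévy hierarchy: `IsLevy true n φ` says that `φ` is `Σ_n`, and `IsLevy false n φ` that it is
`Π_n`. A `Σ_{n+1}` formula is a (possibly empty) block of existential quantifiers followed by a
`Π_n` formula, and dually. -/
inductive IsLevy : Bool → ℕ → ∀ {k : ℕ}, Fm k → Prop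
  | base (b : Bool) {k : ℕ} {φ : Fm k} : IsDelta0 φ → IsLevy b 0 φ
  | flip (b : Bool) {n k : ℕ} {φ : Fm k} : IsLevy b n φ → IsLevy (!b) (n + 1) φ
  | ex {n k : ℕ} {φ : Fm (k + 1)} : IsLevy true (n + 1) φ → IsLevy true (n + 1) φ.ex
  | all {n k : ℕ} {φ : Fm (k + 1)} : IsLevy false (n + 1) φ → IsLevy false (n + 1) φ.all

/-- Truth of the formula `φ` in the structure `(H, ∈)`. -/
def Sat (H : Set ZFSet.{0}) {k : ℕ} (φ : Fm k) (xs : Fin k → H) : Prop :=
  @Language.BoundedFormula.Realize LSet H (setStructure fun x y => x.1 ∈ y.1) Empty k φ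
    Empty.elim xs

/-- `H ≺_{Σ_n} H'` -/
def SigElem (n : ℕ) (H H' : Set ZFSet.{0}) : Prop :=
  ∃ h : H ⊆ H', ∀ (k : ℕ) (φ : Fm k), IsLevy true n φ → ∀ xs : Fin k → H,
    Sat H φ xs ↔ Sat H' φ (fun i => Set.inclusion h (xs i))

/-- `(H, ∈)` satisfies `Σ_n`-collection. -/
def SigColl (n : ℕ) (H : Set ZFSet.{0}) : Prop :=
  ∀ (k : ℕ) (φ : Fm (k + 2)), IsLevy true n φ → ∀ (p : Fin k → H) (a : H),
    (∀ x : H, x.1 ∈ a.1 → ∃ y : H, Sat H φ (Fin.snoc (Fin.snoc p x : Fin (k + 1) → H) y)) →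
      ∃ b : H, ∀ x : H, x.1 ∈ a.1 → ∃ y : H, y.1 ∈ b.1 ∧
        Sat H φ (Fin.snoc (Fin.snoc p x : Fin (k + 1) → H) y)

/-- There is an injection from `a` to `b` in `V`. -/
def InjIn (V : Set ZFSet.{0}) (a b : ZFSet.{0}) : Prop :=
  ∃ f ∈ V, ZFSet.IsFunc a b f ∧ ∀ x x' y, ZFSet.pair x y ∈ f → ZFSet.pair x' y ∈ f → x = x'

/-- `α` is, in `V`, an infinite strong limit cardinal: it does not inject into a smaller ordinal, and
the power set (computed in `V`) of every smaller ordinal injects into a smaller ordinal. -/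
def StrongLimit (V : Set ZFSet.{0}) (α : Ordinal.{0}) : Prop :=
  Ordinal.omega0 ≤ α ∧ (∀ β < α, ¬ InjIn V α.toZFSet β.toZFSet) ∧
    ∀ β < α, ∃ γ < α, InjIn V (ZFSet.sep (· ∈ V) (ZFSet.powerset β.toZFSet)) γ.toZFSet

/-- `H_α` of `V`: the sets in `V` whose transitive closure has size less than `α` in `V`. -/
def HSet (V : Set ZFSet.{0}) (α : Ordinal.{0}) : Set ZFSet.{0} :=
  {x | x ∈ V ∧ ∃ t ∈ V, t.IsTransitive ∧ x ⊆ t ∧ ∃ β < α, InjIn V t β.toZFSet}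

/-- `α` is `n`-good in `V`. -/
def NGood (V : Set ZFSet.{0}) (n : ℕ) (α : Ordinal.{0}) : Prop :=
  StrongLimit V α ∧ SigColl n (HSet V α)

/-- The triple `(n, α, β)`, coded as `((n, α), β)`. -/
noncomputable def triple (n : ℕ) (α β : Ordinal.{0}) : ZFSet.{0} :=
  ZFSet.pair (ZFSet.pair (n : Ordinal.{0}).toZFSet α.toZFSet) β.toZFSet

/-- The stability predicate of `V`: the class of all `(n, α, β)` such that `n ≥ 1`, `α` and `β` are
`n`-good cardinals of `V`, and `H_α ≺_{Σ_n} H_β`. -/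
def Stab (V : Set ZFSet.{0}) : Set ZFSet.{0} :=
  {t | ∃ (n : ℕ) (α β : Ordinal.{0}), 1 ≤ n ∧ t = triple n α β ∧ NGood V n α ∧ NGood V n β ∧
    SigElem n (HSet V α) (HSet V β)}

/-- `K` is the stable core `L[S]` of `V`, where `S` is the stability predicate of `V`: it is the least
inner model such that `S ∩ x` belongs to it for all its elements `x`. -/
structure IsStableCore (V K : Set ZFSet.{0}) : Prop where
  inner : Inner K
  sub : K ⊆ V
  amen : ∀ x ∈ K, ZFSet.sep (· ∈ Stab V) x ∈ K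
  least : ∀ N : Set ZFSet.{0}, Inner N → N ⊆ V → (∀ x ∈ N, ZFSet.sep (· ∈ Stab V) x ∈ N) → K ⊆ N

/-- `κ` is a measurable cardinal in `K`: it is uncountable and there is in `K` a nonprincipal
`κ`-complete ultrafilter on the subsets of `κ` in `K`. -/
def MeasIn (K : Set ZFSet.{0}) (κ : Ordinal.{0}) : Prop :=
  Ordinal.omega0 < κ ∧ ∃ U ∈ K, (∀ X ∈ U, X ⊆ κ.toZFSet) ∧ κ.toZFSet ∈ U ∧
    (∀ X ∈ U, ∀ Y ∈ K, X ⊆ Y → Y ⊆ κ.toZFSet → Y ∈ U) ∧
    (∀ X ∈ K, X ⊆ κ.toZFSet → (X ∈ U ↔ κ.toZFSet \ X ∉ U)) ∧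
    (∀ ξ < κ, {ξ.toZFSet} ∉ U) ∧
    ∀ γ < κ, ∀ f ∈ K, ZFSet.IsFunc γ.toZFSet U f →
      ZFSet.sep (fun ξ => ∀ δ X, ZFSet.pair δ X ∈ f → ξ ∈ X) κ.toZFSet ∈ U

/-- `κ` is a measurable cardinal (of the universe `Type`). -/
def Meas (κ : Cardinal.{0}) : Prop :=
  Cardinal.aleph0 < κ ∧ ∃ U : Ultrafilter κ.ord.ToType, (∀ x, {x}ᶜ ∈ U) ∧
    ∀ (ι : Type) (B : ι → Set κ.ord.ToType), Cardinal.mk ι < κ → (∀ i, B i ∈ U) → (⋂ i, B i) ∈ U

end Pool.Agent.SC
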