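import Pool.Agent.Lib_helper73.SCL.EFD
import Pool.Agent.Lib_helper73.SCL.FIN
import Pool.Agent.Lib_helper73.SCL.MIN
import Pool.Agent.Lib_helper73.SCL.MSY

set_option linter.unusedSectionVars false

namespace Pool.Agent.SC

open FirstOrder Pool.Agent.Lib_helper27 Pool.Agent.Lib_helper27.ST

universe u v w

variable {S : MSys}

theorem main (κ : Cardinal.{0}) (hκ : Meas κ) (hlim : ∀ μ < κ, ∃ ν < κ, μ < ν ∧ Meas ν) :
    ∃ V : Set ZFSet.{0}, Inner V ∧ ∃ K, IsStableCore V K ∧ MeasIn K κ.ord ∧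
      ∀ ξ < κ.ord, ∃ μ < κ.ord, ξ < μ ∧ MeasIn K μ := by
  obtain ⟨S, hS⟩ := exists_msys hκ hlim
  obtain ⟨F⟩ := exists_FD S
  refine ⟨S.V, inferInstance, S.V, ⟨inferInstance, subset_rfl, ?_, ?_⟩, ?_, ?_⟩
  · intro x hx
    obtain ⟨b, hb⟩ := sep_exists (stab_dbl S.V) (⟨x, hx⟩ : S.V)
    have : ZFSet.sep (· ∈ Stab S.V) x = b.1 := by
      ext z
      rw [ZFSet.mem_sep]
      constructor
      · rintro ⟨h1, h2⟩
        exact (hb ⟨z, Inner.trans x hx z h1⟩).2 ⟨h1, h2⟩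
      · intro h1
        exact (hb ⟨z, Inner.trans b.1 b.2 z h1⟩).1 h1
    rw [this]
    exact b.2
  · intro N hN hNV ham
    exact FD.V_sub ham F
  · have := measIn_kap S (i := S.κ) le_rfl
    rwa [S.kap_top, hS] at this
  · intro ξ hξ
    rw [← hS] at hξ ⊢
    refine ⟨S.kap ξ, ?_, S.lt_kap ξ hξ, measIn_kap S hξ.le⟩
    have := S.kap_lt ξ S.κ hξ le_rfl
    rwa [S.kap_top] at this

end Pool.Agent.SC
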